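import Pool.Agent.WLF.St

/-!
# WLF Ape: parametrisation of the Apery set by a down-set
-/

set_option autoImplicit false

namespace Pool.Agent.WLF

open Finset Pool.Agent.Helper60.Wilf Pool.Agent.Helper82.Wilf

/-- the sum -/
def ape_s {k : ℕ} (a x : Fin k → ℕ) : ℕ := ∑ i, a i * x i

theorem ape_add {k : ℕ} (a x y : Fin k → ℕ) : ape_s a (x + y) = ape_s a x + ape_s a y := by
  unfold ape_s
  rw [← Finset.sum_add_distrib]
  exact Finset.sum_congr rfl fun i _ => by rw [Pi.add_apply, mul_add]

theorem ape_single {k : ℕ} (a : Fin k → ℕ) (i : Fin k) : ape_s a (Pi.single i 1) = a i := by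
  unfold ape_s
  rw [Finset.sum_eq_single i]
  · rw [Pi.single_eq_same, mul_one]
  · intro b _ hb
    rw [Pi.single_eq_of_ne hb, mul_zero]
  · intro h
    exact absurd (Finset.mem_univ i) h

theorem ape_le {k : ℕ} (a x : Fin k → ℕ) (ha : ∀ i, 0 < a i) (i : Fin k) :
    x i ≤ ape_s a x := by
  have h1 : a i * x i ≤ ape_s a x :=
    Finset.single_le_sum (f := fun i => a i * x i) (fun _ _ => Nat.zero_le _) (Finset.mem_univ i)
  exact (Nat.le_mul_of_pos_left _ (ha i)).trans h1

theorem ape_mem {k : ℕ} {S : AddSubmonoid ℕ} (a x : Fin k → ℕ) (ha : ∀ i, a i ∈ S) :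
    ape_s a x ∈ S := by
  refine S.sum_mem fun i _ => ?_
  rw [mul_comm, ← smul_eq_mul]
  exact S.nsmul_mem (ha i) _

theorem ape_rep {k : ℕ} {S : AddSubmonoid ℕ} {c m : ℕ} (H : Sg S c m) (a : Fin k → ℕ)
    (hP : ∀ s, Prim S s → s ≠ m → ∃ i, a i = s) (s : ℕ) (hs : Ap S m s) :
    ∃ x : Fin k → ℕ, ape_s a x = s := by
  induction s using Nat.strong_induction_on with
  | _ s ih =>
    by_cases hp : Prim S s
    · obtain ⟨i, hi⟩ := hP s hp (by have := H.ap_gt hs; omega)
      exact ⟨Pi.single i 1, by rw [ape_single, hi]⟩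
    · obtain ⟨u, v, hu, hv, huv⟩ := H.not_prim hs hp
      have h1 := H.ap_gt hu
      have h2 := H.ap_gt hv
      obtain ⟨x, hx⟩ := ih u (by omega) hu
      obtain ⟨y, hy⟩ := ih v (by omega) hv
      exact ⟨x + y, by rw [ape_add, hx, hy, huv]⟩

theorem ape_down {S : AddSubmonoid ℕ} {c m : ℕ} (H : Sg S c m) {u v : ℕ} (hu : u ∈ S)
    (hv : v ∈ S) (h : u + v ∈ insert 0 (A0 S c m)) : u ∈ insert 0 (A0 S c m) := by
  rcases Nat.eq_zero_or_pos u with h0 | h0
  · rw [h0]
    exact Finset.mem_insert_self _ _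
  · rcases Finset.mem_insert.1 h with h1 | h1
    · omega
    · refine Finset.mem_insert_of_mem ?_
      rw [mem_A0 H] at h1 ⊢
      exact H.ap_part h1 hu hv rfl h0.ne'

theorem thm_Ape : St_Ape := by
  classical
  intro S c m k A H hA hcard
  have hmA : m ∈ A := (hA m).2 H.prim_m
  have hB : (A.erase m).card = k := by rw [Finset.card_erase_of_mem hmA, hcard]; rfl
  set a : Fin k → ℕ := fun i => (A.erase m).orderEmbOfFin hB i with ha
  have haB : ∀ i, a i ∈ A.erase m := fun i => Finset.orderEmbOfFin_mem _ hB i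
  have hainj : Function.Injective a := ((A.erase m).orderEmbOfFin hB).injective
  have haP : ∀ i, Prim S (a i) := fun i => (hA _).1 (Finset.mem_of_mem_erase (haB i))
  have haAp : ∀ i, Ap S m (a i) := fun i => H.prim_ap (haP i) (Finset.ne_of_mem_erase (haB i))
  have hagt : ∀ i, m < a i := fun i => H.ap_gt (haAp i)
  have hapos : ∀ i, 0 < a i := fun i => (Nat.zero_le m).trans_lt (hagt i)
  have haS : ∀ i, a i ∈ S := fun i => (haP i).1
  have hP : ∀ s, Prim S s → s ≠ m → ∃ i, a i = s := by
    intro s hs hsm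
    have h1 : s ∈ Set.range ((A.erase m).orderEmbOfFin hB) := by
      rw [Finset.range_orderEmbOfFin]
      exact Finset.mem_coe.2 (Finset.mem_erase.2 ⟨hsm, (hA s).2 hs⟩)
    exact h1
  set I : Finset ℕ := insert 0 (A0 S c m) with hI
  have hIlt : ∀ s ∈ I, s < c + m := fun s hs => (mem_ins H hs).2.1
  have hrep : ∀ s ∈ I, ∃ x : Fin k → ℕ, ape_s a x = s := by
    intro s hs
    rcases Finset.mem_insert.1 hs with h | h
    · exact ⟨0, by rw [h]; simp [ape_s]⟩
    · exact ape_rep H a hP s ((mem_A0 H).1 h)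
  set T : Finset (Fin k → ℕ) := (Fintype.piFinset fun _ : Fin k => Finset.range (c + m)).filter
    fun x => ape_s a x ∈ I ∧ ∀ y : Fin k → ℕ, ape_s a y = ape_s a x → toLex x ≤ toLex y with hT
  have hbox : ∀ x : Fin k → ℕ, ape_s a x ∈ I →
      x ∈ (Fintype.piFinset fun _ : Fin k => Finset.range (c + m)) := by
    intro x hx
    rw [Fintype.mem_piFinset]
    intro i
    rw [Finset.mem_range]
    exact (ape_le a x hapos i).trans_lt (hIlt _ hx)
  have hmT : ∀ x : Fin k → ℕ, x ∈ T ↔
      ape_s a x ∈ I ∧ ∀ y : Fin k → ℕ, ape_s a y = ape_s a x → toLex x ≤ toLex y := by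
    intro x
    rw [hT, Finset.mem_filter]
    exact ⟨fun h => h.2, fun h => ⟨hbox x h.1, h⟩⟩
  have hinj : ∀ x ∈ T, ∀ y ∈ T, ape_s a x = ape_s a y → x = y := by
    intro x hx y hy hxy
    have h1 := ((hmT x).1 hx).2 y hxy.symm
    have h2 := ((hmT y).1 hy).2 x hxy
    exact toLex.injective (le_antisymm h1 h2)
  have himg : T.image (ape_s a) = I := by
    ext s
    rw [Finset.mem_image]
    constructor
    · rintro ⟨x, hx, rfl⟩
      exact ((hmT x).1 hx).1
    · intro hs
      obtain ⟨x₀, hx₀⟩ := hrep s hs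
      obtain ⟨x, hx, hmin⟩ := Finset.exists_min_image
        ((Fintype.piFinset fun _ : Fin k => Finset.range (c + m)).filter fun y => ape_s a y = s)
        (fun y => toLex y) ⟨x₀, Finset.mem_filter.2 ⟨hbox x₀ (hx₀ ▸ hs), hx₀⟩⟩
      have hxs := (Finset.mem_filter.1 hx).2
      refine ⟨x, (hmT x).2 ⟨hxs ▸ hs, fun y hy => ?_⟩, hxs⟩
      have hys : ape_s a y = s := hy.trans hxs
      exact hmin y (Finset.mem_filter.2 ⟨hbox y (hys ▸ hs), hys⟩)
  refine ⟨a, T, hagt, ?_, fun i => ?_, fun x hx y hy => ?_, hinj, himg⟩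
  · rw [← card_ins H, ← hI, ← himg]
    exact (Finset.card_image_of_injOn fun x hx y hy hxy => hinj x hx y hy hxy).symm
  · rw [hmT, ape_single]
    refine ⟨Finset.mem_insert_of_mem ((mem_A0 H).2 (haAp i)), fun y hy => le_of_eq ?_⟩
    congr 1
    obtain ⟨l, hl⟩ : ∃ l, y l ≠ 0 := by
      by_contra hcon
      push Not at hcon
      have : y = 0 := funext hcon
      rw [this] at hy
      have h0 : ape_s a (0 : Fin k → ℕ) = 0 := by simp [ape_s]
      rw [h0] at hy
      have := hapos i
      omega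
    have hyz : y = Pi.single l 1 + (y - Pi.single l 1) := by
      funext b
      rw [Pi.add_apply, Pi.sub_apply]
      by_cases hb : b = l
      · subst hb
        rw [Pi.single_eq_same]
        omega
      · rw [Pi.single_eq_of_ne hb]
        omega
    have hsum : a l + ape_s a (y - Pi.single l 1) = a i := by
      rw [← ape_single a l, ← ape_add, ← hyz, hy]
    rcases (haP i).2.2 _ (haS l) _ (ape_mem a _ haS) hsum with h1 | h1
    · have := hapos l
      omega
    · have hz : y - Pi.single l 1 = 0 := by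
        funext b
        have := ape_le a (y - Pi.single l 1) hapos b
        rw [h1] at this
        exact Nat.le_zero.1 this
      have hli : l = i := hainj (by rw [h1, add_zero] at hsum; exact hsum)
      rw [hyz, hz, add_zero, hli]
  · have hxz : x = y + (x - y) := by
      funext b
      have h0 : y b ≤ x b := hy b
      rw [Pi.add_apply, Pi.sub_apply]
      omega
    obtain ⟨h1, h2⟩ := (hmT x).1 hx
    rw [hmT]
    refine ⟨?_, fun y' hy' => ?_⟩
    · rw [hxz, ape_add] at h1
      exact ape_down H (ape_mem a _ haS) (ape_mem a _ haS) h1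
    · have h3 := h2 (y' + (x - y)) (by rw [ape_add, hy', ← ape_add, ← hxz])
      have h4 : toLex y + toLex (x - y) ≤ toLex y' + toLex (x - y) := by
        rw [← toLex_add, ← toLex_add, ← hxz]
        exact h3
      exact le_of_add_le_add_right h4

end Pool.Agent.WLF
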