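import Pool.Agent.WLF.St

/-!
# WLF [Avg]: the sum of the weights of the ends of the lines
-/

set_option autoImplicit false

namespace Pool.Agent.WLF

open Finset

theorem Avg_upd {k : ℕ} (w : Fin k → ℝ) (x : Fin k → ℕ) (i : Fin k) (n : ℕ) :
    wt w (Function.update x i n) = wt w x + w i * n - w i * x i := by
  unfold wt
  rw [← Finset.sum_erase_add _ _ (mem_univ i), ← Finset.sum_erase_add (s := univ)
    (f := fun i => w i * (x i : ℝ)) (h := mem_univ i), Function.update_self]
  have h1 : ∑ j ∈ univ.erase i, w j * ((Function.update x i n j : ℕ) : ℝ) =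
      ∑ j ∈ univ.erase i, w j * (x j : ℝ) := by
    refine Finset.sum_congr rfl fun j hj => ?_
    rw [Function.update_of_ne (Finset.ne_of_mem_erase hj)]
  rw [h1]
  ring

/-- [AVG] -/
theorem thm_Avg (hLine : St_Line) : St_Avg := by
  intro k w T hT
  rw [Finset.sum_comm]
  have h1 : ∀ i ∈ (univ : Finset (Fin k)), ∑ x ∈ T, wt w (Function.update x i (en T i x)) =
      ∑ x ∈ T, wt w x + w i * ∑ x ∈ T, (x i : ℝ) := by
    intro i _
    obtain ⟨-, -, -, h4⟩ := hLine k T hT i
    have h5 : ∑ x ∈ T, ((en T i x : ℕ) : ℝ) = 2 * ∑ x ∈ T, (x i : ℝ) := by exact_mod_cast h4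
    have h6 : ∑ x ∈ T, wt w (Function.update x i (en T i x)) =
        ∑ x ∈ T, wt w x + w i * ∑ x ∈ T, ((en T i x : ℕ) : ℝ) - w i * ∑ x ∈ T, (x i : ℝ) := by
      rw [Finset.mul_sum, Finset.mul_sum, ← Finset.sum_add_distrib, ← Finset.sum_sub_distrib]
      exact Finset.sum_congr rfl fun x _ => Avg_upd w x i _
    rw [h6, h5]
    ring
  rw [Finset.sum_congr rfl h1, Finset.sum_add_distrib, Finset.sum_const, Finset.card_univ,
    Fintype.card_fin, nsmul_eq_mul]
  have h2 : ∑ i, w i * ∑ x ∈ T, (x i : ℝ) = ∑ x ∈ T, wt w x := by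
    unfold wt
    rw [Finset.sum_comm]
    exact Finset.sum_congr rfl fun i _ => Finset.mul_sum _ _ _
  rw [h2]
  ring

end Pool.Agent.WLF
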