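import Pool.Agent.WLF.St

/-!
# WLF [Bad]: Markov inequality for the ends of the lines; the bound for the average weight
-/

set_option autoImplicit false

namespace Pool.Agent.WLF

open Finset

/-- [LT] -/
theorem thm_Lt (hLine : St_Line) (hAvg : St_Avg) : St_Lt := by
  intro k m w g T H
  rw [← hAvg k w T H.down, ← H.card]
  have h1 : ∀ x ∈ T, ∑ i, wt w (Function.update x i (en T i x)) ≤ k := by
    intro x hx
    calc ∑ i, wt w (Function.update x i (en T i x)) ≤ ∑ _i : Fin k, (1 : ℝ) :=
          Finset.sum_le_sum fun i _ => H.le _ ((hLine k T H.down i).1 x hx)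
      _ = k := by rw [Finset.sum_const, Finset.card_univ, Fintype.card_fin, nsmul_eq_mul, mul_one]
  calc ∑ x ∈ T, ∑ i, wt w (Function.update x i (en T i x)) ≤ ∑ _x ∈ T, (k : ℝ) :=
        Finset.sum_le_sum h1
    _ = k * T.card := by rw [Finset.sum_const, nsmul_eq_mul, mul_comm]

private theorem Bad_wt {k : ℕ} (w : Fin k → ℝ) (x : Fin k → ℕ) (i : Fin k) (n : ℕ) :
    wt w (Function.update x i n) = ∑ j ∈ univ.erase i, w j * (x j : ℝ) + w i * n := by
  unfold wt
  rw [← Finset.sum_erase_add _ _ (mem_univ i), Function.update_self]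
  congr 1
  refine Finset.sum_congr rfl fun j hj => ?_
  rw [Function.update_of_ne (Finset.ne_of_mem_erase hj)]

/-- [BAD] -/
theorem thm_Bad (hLine : St_Line) (hAvg : St_Avg) : St_Bad := by
  classical
  intro k m w g T ε H hε h
  rw [← hAvg k w T H.down] at h
  have hcard : (T.card : ℝ) = m := by rw [H.card]
  set f : (Fin k → ℕ) → ℝ := fun x => ∑ i, (1 - wt w (Function.update x i (en T i x))) with hf
  have hterm : ∀ x ∈ T, ∀ i, 0 ≤ 1 - wt w (Function.update x i (en T i x)) := by
    intro x hx i
    have := H.le _ ((hLine k T H.down i).1 x hx)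
    linarith
  have hf0 : ∀ x ∈ T, 0 ≤ f x := fun x hx => Finset.sum_nonneg fun i _ => hterm x hx i
  have hsum : ∑ x ∈ T, f x < ε ^ 2 * m := by
    have h1 : ∑ x ∈ T, f x =
        k * m - ∑ x ∈ T, ∑ i, wt w (Function.update x i (en T i x)) := by
      have h2 : ∀ x ∈ T, f x = k - ∑ i, wt w (Function.update x i (en T i x)) := by
        intro x _
        rw [hf]
        simp only
        rw [Finset.sum_sub_distrib, Finset.sum_const, Finset.card_univ, Fintype.card_fin,
          nsmul_eq_mul, mul_one]
      rw [Finset.sum_congr rfl h2, Finset.sum_sub_distrib, Finset.sum_const, nsmul_eq_mul, hcard,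
        mul_comm]
    rw [h1]
    linarith
  have hbadf : ∀ x ∈ bad w T ε, ε ≤ f x := by
    intro x hx
    unfold bad at hx
    rw [mem_filter] at hx
    obtain ⟨hxT, hng⟩ := hx
    by_contra hc
    rw [not_le] at hc
    apply hng
    intro i n hn
    have h1 : 1 - wt w (Function.update x i (en T i x)) ≤ f x := by
      rw [hf]
      exact Finset.single_le_sum (f := fun i => 1 - wt w (Function.update x i (en T i x)))
        (fun j _ => hterm x hxT j) (mem_univ i)
    have h2 : n < en T i x := by
      by_contra hc2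
      rw [not_lt] at hc2
      have h3 : (en T i x : ℝ) ≤ n := by exact_mod_cast hc2
      have h4 := mul_le_mul_of_nonneg_left h3 (H.pos i).le
      rw [Bad_wt] at hn h1
      linarith
    refine H.down _ ((hLine k T H.down i).1 x hxT) _ ?_
    intro j
    by_cases hj : j = i
    · subst hj
      rw [Function.update_self, Function.update_self]
      exact h2
    · rw [Function.update_of_ne hj, Function.update_of_ne hj]
  have hsub : bad w T ε ⊆ T := by
    unfold bad
    exact filter_subset _ _
  have h5 : ε * (bad w T ε).card ≤ ∑ x ∈ T, f x := by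
    calc ε * (bad w T ε).card = ∑ _x ∈ bad w T ε, ε := by
          rw [Finset.sum_const, nsmul_eq_mul, mul_comm]
      _ ≤ ∑ x ∈ bad w T ε, f x := Finset.sum_le_sum hbadf
      _ ≤ ∑ x ∈ T, f x := Finset.sum_le_sum_of_subset_of_nonneg hsub fun x hx _ => hf0 x hx
  have h6 : ε * (bad w T ε).card ≤ ε * (ε * m) := by nlinarith
  exact le_of_mul_le_mul_left h6 hε

end Pool.Agent.WLF
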