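import Pool.Agent.WLF.St

/-!
# WLF/Box: the tiling set is contained in a box (helper42)
-/

set_option autoImplicit false

namespace Pool.Agent.WLF

theorem thm_Box : St_Box := by
  classical
  intro k m w g T e hT he hw
  have hsub : T ⊆ Fintype.piFinset (fun _ : Fin k => Finset.range (⌊1 / e⌋₊ + 1)) := by
    intro x hx
    rw [Fintype.mem_piFinset]
    intro i
    rw [Finset.mem_range, Nat.lt_succ_iff]
    refine Nat.le_floor ?_
    rw [le_div_iff₀ he]
    have h1 : w i * (x i : ℝ) ≤ wt w x := by
      refine Finset.single_le_sum (f := fun i => w i * (x i : ℝ)) ?_ (Finset.mem_univ i)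
      intro j _
      exact mul_nonneg (hT.pos j).le (Nat.cast_nonneg _)
    have h2 : (x i : ℝ) * e ≤ w i * (x i : ℝ) := by
      rw [mul_comm (w i)]
      exact mul_le_mul_of_nonneg_left (hw i) (Nat.cast_nonneg _)
    exact (h2.trans h1).trans (hT.le x hx)
  have hcard : m ≤ (⌊1 / e⌋₊ + 1) ^ k := by
    have h1 := Finset.card_le_card hsub
    rw [hT.card, Fintype.card_piFinset] at h1
    simpa using h1
  have h2 : (m : ℝ) ≤ ((⌊1 / e⌋₊ : ℝ) + 1) ^ k := by exact_mod_cast hcard
  refine h2.trans (pow_le_pow_left₀ (by positivity) ?_ k)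
  exact add_le_add_left (Nat.floor_le (by positivity)) 1

end Pool.Agent.WLF
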