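import Pool.Agent.WLF.St

/-!
# WLF, module Cnt (helper96): counting lattice points in simplices
-/

set_option autoImplicit false

namespace Pool.Agent.WLF

open Finset

/-- the set counted by `Nc` -/
private def cntS {k : ℕ} (w : Fin k → ℝ) (l : ℝ) (V : Finset (Fin k)) : Set (Fin k → ℕ) :=
  {x : Fin k → ℕ | wt w x ≤ l ∧ ∀ i ∈ V, x i = 0}

private theorem cnt_upd {k : ℕ} (w : Fin k → ℝ) (x : Fin k → ℕ) (i : Fin k) (n : ℕ) :
    wt w (Function.update x i n) = wt w x + w i * ((n : ℝ) - x i) := by
  have h : wt w (Function.update x i n) - wt w x = w i * ((n : ℝ) - x i) := by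
    unfold wt
    rw [← Finset.sum_sub_distrib, Finset.sum_eq_single i]
    · rw [Function.update_self]; ring
    · intro j _ hj
      rw [Function.update_of_ne hj]; ring
    · intro hi
      exact absurd (Finset.mem_univ i) hi
  linarith

private theorem cnt_term {k : ℕ} (w : Fin k → ℝ) (hw : ∀ i, 0 < w i) (x : Fin k → ℕ) (i : Fin k) :
    w i * (x i : ℝ) ≤ wt w x := by
  unfold wt
  exact Finset.single_le_sum (f := fun j => w j * (x j : ℝ))
    (fun j _ => mul_nonneg (hw j).le (Nat.cast_nonneg _)) (Finset.mem_univ i)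

private theorem cnt_fin {k : ℕ} (w : Fin k → ℝ) (hw : ∀ i, 0 < w i) (l : ℝ) (V : Finset (Fin k)) :
    (cntS w l V).Finite := by
  refine (Set.finite_Icc (0 : Fin k → ℕ) (fun i => ⌊l / w i⌋₊)).subset ?_
  rintro x ⟨hx, _⟩
  refine ⟨fun i => Nat.zero_le _, fun i => ?_⟩
  refine Nat.le_floor ?_
  rw [le_div_iff₀ (hw i), mul_comm]
  exact (cnt_term w hw x i).trans hx

private theorem cnt_two {k : ℕ} (w : Fin k → ℝ) (hw : ∀ i, 0 < w i) (l : ℝ) (V : Finset (Fin k))
    (i : Fin k) (h : ℕ) (hi : i ∉ V) :
    (cntS w l V).ncard ≤ (cntS w (l - h * w i) V).ncard + h * (cntS w l (insert i V)).ncard := by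
  have h1 : {x | x ∈ cntS w l V ∧ h ≤ x i}.ncard ≤ (cntS w (l - h * w i) V).ncard := by
    refine Set.ncard_le_ncard_of_injOn (fun x => Function.update x i (x i - h)) ?_ ?_
      (cnt_fin w hw _ _)
    · rintro x ⟨⟨hx, hV⟩, hh⟩
      refine ⟨?_, fun j hj => ?_⟩
      · show wt w (Function.update x i (x i - h)) ≤ _
        rw [cnt_upd, Nat.cast_sub hh]
        nlinarith
      · show Function.update x i (x i - h) j = 0
        have hji : j ≠ i := fun e => hi (e ▸ hj)
        rw [Function.update_of_ne hji]
        exact hV j hj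
    · rintro x ⟨_, hx⟩ y ⟨_, hy⟩ e
      funext j
      have ej := congrFun e j
      by_cases hji : j = i
      · subst hji
        simp only [Function.update_self] at ej
        have hx' : h ≤ x j := hx
        have hy' : h ≤ y j := hy
        omega
      · simp only [Function.update_of_ne hji] at ej
        exact ej
  have h2 : {x | x ∈ cntS w l V ∧ x i < h}.ncard ≤ h * (cntS w l (insert i V)).ncard := by
    have h3 : {x | x ∈ cntS w l V ∧ x i < h}.ncard ≤
        (((Finset.range h : Finset ℕ) : Set ℕ) ×ˢ (cntS w l (insert i V))).ncard := by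
      refine Set.ncard_le_ncard_of_injOn (fun x => (x i, Function.update x i 0)) ?_ ?_
        (((Finset.range h).finite_toSet).prod (cnt_fin w hw _ _))
      · rintro x ⟨⟨hx, hV⟩, hh⟩
        refine ⟨Finset.mem_coe.mpr (Finset.mem_range.mpr hh), ?_, fun j hj => ?_⟩
        · show wt w (Function.update x i 0) ≤ _
          rw [cnt_upd]
          have := hw i
          have h5 : 0 ≤ w i * (x i : ℝ) := mul_nonneg (hw i).le (Nat.cast_nonneg _)
          push_cast
          nlinarith
        · show Function.update x i 0 j = 0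
          by_cases hji : j = i
          · subst hji
            rw [Function.update_self]
          · rw [Function.update_of_ne hji]
            rcases Finset.mem_insert.mp hj with e | e
            · exact absurd e hji
            · exact hV j e
      · rintro x ⟨_, _⟩ y ⟨_, _⟩ e
        have e1 := congrArg Prod.fst e
        have e2 := congrArg Prod.snd e
        funext j
        by_cases hji : j = i
        · subst hji
          exact e1
        · have ej := congrFun e2 j
          simp only [Function.update_of_ne hji] at ej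
          exact ej
    rw [Set.ncard_prod, Set.ncard_coe_finset, Finset.card_range] at h3
    exact h3
  have h4 : cntS w l V ⊆ {x | x ∈ cntS w l V ∧ h ≤ x i} ∪ {x | x ∈ cntS w l V ∧ x i < h} := by
    intro x hx
    rcases le_or_gt h (x i) with hh | hh
    · exact Or.inl ⟨hx, hh⟩
    · exact Or.inr ⟨hx, hh⟩
  have h5 : (cntS w l V).ncard ≤
      ({x | x ∈ cntS w l V ∧ h ≤ x i} ∪ {x | x ∈ cntS w l V ∧ x i < h}).ncard :=
    Set.ncard_le_ncard h4 (((cnt_fin w hw l V).subset (fun x hx => hx.1)).union
      ((cnt_fin w hw l V).subset (fun x hx => hx.1)))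
  have h6 := Set.ncard_union_le {x | x ∈ cntS w l V ∧ h ≤ x i} {x | x ∈ cntS w l V ∧ x i < h}
  omega

private theorem cnt_three {k : ℕ} (w : Fin k → ℝ) (hw : ∀ i, 0 < w i) (l l' : ℝ)
    (V : Finset (Fin k)) (i : Fin k) (t : ℕ) (hi : i ∉ V) (hl : l' + t * w i ≤ l) :
    (t + 1) * (cntS w l' (insert i V)).ncard ≤ (cntS w l V).ncard := by
  have h3 : (((Finset.range (t + 1) : Finset ℕ) : Set ℕ) ×ˢ (cntS w l' (insert i V))).ncard ≤
      (cntS w l V).ncard := by
    refine Set.ncard_le_ncard_of_injOn (fun p => Function.update p.2 i p.1) ?_ ?_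
      (cnt_fin w hw _ _)
    · rintro ⟨s, y⟩ ⟨hs, hy, hV⟩
      have hs' : s < t + 1 := Finset.mem_range.mp (Finset.mem_coe.mp hs)
      have hy0 : y i = 0 := hV i (Finset.mem_insert_self i V)
      refine ⟨?_, fun j hj => ?_⟩
      · show wt w (Function.update y i s) ≤ _
        rw [cnt_upd, hy0]
        have h5 : (s : ℝ) ≤ t := by exact_mod_cast Nat.lt_succ_iff.mp hs'
        have h6 : w i * (s : ℝ) ≤ w i * t := mul_le_mul_of_nonneg_left h5 (hw i).le
        have hy' : wt w y ≤ l' := hy
        push_cast
        nlinarith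
      · show Function.update y i s j = 0
        have hji : j ≠ i := fun e => hi (e ▸ hj)
        rw [Function.update_of_ne hji]
        exact hV j (Finset.mem_insert_of_mem hj)
    · rintro ⟨s, y⟩ ⟨_, _, hV⟩ ⟨s', y'⟩ ⟨_, _, hV'⟩ e
      have hy0 : y i = 0 := hV i (Finset.mem_insert_self i V)
      have hy0' : y' i = 0 := hV' i (Finset.mem_insert_self i V)
      have e' : Function.update y i s = Function.update y' i s' := e
      have e1 : s = s' := by
        have := congrFun e' i
        rwa [Function.update_self, Function.update_self] at this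
      have e2 : y = y' := by
        funext j
        by_cases hji : j = i
        · subst hji
          rw [hy0, hy0']
        · have ej := congrFun e' j
          rwa [Function.update_of_ne hji, Function.update_of_ne hji] at ej
      rw [e1, e2]
  rw [Set.ncard_prod, Set.ncard_coe_finset, Finset.card_range] at h3
  exact h3

private theorem cnt_four {k : ℕ} (w : Fin k → ℝ) (hw : ∀ i, 0 < w i) (l : ℝ)
    (V : Finset (Fin k)) :
    (cntS w l V).ncard ≤ 2 ^ k * (cntS w (l / 2) V).ncard := by
  have h3 : (cntS w l V).ncard ≤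
      ((Set.univ : Set (Fin k → Fin 2)) ×ˢ (cntS w (l / 2) V)).ncard := by
    refine Set.ncard_le_ncard_of_injOn
      (fun x => (fun i => (⟨x i % 2, Nat.mod_lt _ (by norm_num)⟩ : Fin 2), fun i => x i / 2)) ?_ ?_
      ((Set.finite_univ).prod (cnt_fin w hw _ _))
    · rintro x ⟨hx, hV⟩
      refine ⟨Set.mem_univ _, ?_, fun j hj => ?_⟩
      · show wt w (fun i => x i / 2) ≤ l / 2
        have h5 : wt w (fun i => x i / 2) ≤ wt w x / 2 := by
          unfold wt
          rw [Finset.sum_div]
          refine Finset.sum_le_sum fun i _ => ?_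
          have h6 : ((x i / 2 : ℕ) : ℝ) ≤ (x i : ℝ) / 2 := by
            have := @Nat.cast_div_le ℝ _ _ _ (x i) 2
            simpa using this
          calc w i * ((x i / 2 : ℕ) : ℝ) ≤ w i * ((x i : ℝ) / 2) :=
                mul_le_mul_of_nonneg_left h6 (hw i).le
            _ = w i * (x i : ℝ) / 2 := by ring
        have hx' : wt w x ≤ l := hx
        linarith
      · show x j / 2 = 0
        rw [hV j hj]
    · intro x _ y _ e
      have e1 := congrArg Prod.fst e
      have e2 := congrArg Prod.snd e
      funext j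
      have a1 : x j % 2 = y j % 2 := by
        have := congrFun e1 j
        exact congrArg Fin.val this
      have a2 : x j / 2 = y j / 2 := congrFun e2 j
      omega
  rw [Set.ncard_prod, Set.ncard_univ, Nat.card_eq_fintype_card, Fintype.card_fun,
    Fintype.card_fin, Fintype.card_fin] at h3
  exact h3

/-- **CNT.** -/
theorem thm_Cnt : St_Cnt := by
  intro k w hw
  exact ⟨fun l V => cnt_fin w hw l V, fun l V i h hi => cnt_two w hw l V i h hi,
    fun l l' V i t hi hl => cnt_three w hw l l' V i t hi hl, fun l V _ => cnt_four w hw l V⟩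

end Pool.Agent.WLF
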