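import Pool.Agent.WLF.St

/-!
# WLF: module Coa (all directions coarse)
-/

set_option autoImplicit false

namespace Pool.Agent.WLF

open Finset

private theorem coa_upd {k : ℕ} (w : Fin k → ℝ) (x : Fin k → ℕ) (i : Fin k) (n : ℕ) :
    wt w (Function.update x i n) = wt w x + w i * ((n : ℝ) - x i) := by
  have h1 : wt w (Function.update x i n) - wt w x = w i * ((n : ℝ) - x i) := by
    unfold wt
    rw [← Finset.sum_sub_distrib, Finset.sum_eq_single i]
    · rw [Function.update_self]
      ring
    · intro l _ hl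
      rw [Function.update_of_ne hl, sub_self]
    · intro h
      exact absurd (Finset.mem_univ i) h
  linarith

private theorem coa_sum {k : ℕ} (x : Fin k → ℕ) (i : Fin k) (n : ℕ) :
    ∑ l, Function.update x i n l + x i = ∑ l, x l + n := by
  rw [← Finset.add_sum_erase _ _ (Finset.mem_univ i),
    ← Finset.add_sum_erase _ (fun l => x l) (Finset.mem_univ i), Function.update_self]
  have h1 : ∑ l ∈ univ.erase i, Function.update x i n l = ∑ l ∈ univ.erase i, x l := by
    refine Finset.sum_congr rfl fun l hl => ?_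
    rw [Function.update_of_ne (Finset.ne_of_mem_erase hl)]
  rw [h1]
  ring

theorem thm_Coa (hLine : St_Line) : St_Coa := by
  intro k m w g T ε e hk hT hbad hε he he1 hεe hw
  have hgood : ∀ x ∈ T, Good w T ε x := by
    intro x hx
    by_contra h
    have h1 : x ∈ bad w T ε := by
      classical
      unfold bad
      simp only [Finset.mem_filter]
      exact ⟨hx, h⟩
    rw [hbad] at h1
    exact absurd h1 (Finset.notMem_empty x)
  have hεe' : ε < e := by nlinarith
  have hen1 : ∀ x ∈ T, ∀ i, wt w (Function.update x i (en T i x)) ≤ 1 := fun x hx i =>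
    hT.le _ ((hLine k T hT.down i).1 x hx)
  have hen2 : ∀ x ∈ T, ∀ i, 1 - ε ≤ wt w (Function.update x i (en T i x)) := by
    intro x hx i
    by_contra h
    rw [not_le] at h
    have h1 := hgood x hx i _ h
    have h2 := (hLine k T hT.down i).2.1 x _ h1
    omega
  have h0T : (0 : Fin k → ℕ) ∈ T :=
    hT.down _ (hT.one ⟨0, hk⟩) 0 (fun i => Nat.zero_le _)
  have hwt0 : wt w 0 = 0 := by
    unfold wt
    simp
  have hkey : ∀ i j : Fin k, w j ≤ w i → |w i - w j| ≤ ε := by
    intro i j hji
    by_cases hij : i = j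
    · rw [hij, sub_self, abs_zero]
      exact hε.le
    have hwtj : wt w (Pi.single j 1) = w j := by
      unfold wt
      rw [Finset.sum_eq_single j]
      · rw [Pi.single_eq_same, Nat.cast_one, mul_one]
      · intro l _ hl
        rw [Pi.single_eq_of_ne hl, Nat.cast_zero, mul_zero]
      · intro h
        exact absurd (Finset.mem_univ j) h
    have a1 := hen1 0 h0T i
    have a2 := hen2 0 h0T i
    have b1 := hen1 _ (hT.one j) i
    have b2 := hen2 _ (hT.one j) i
    rw [coa_upd, hwt0, Pi.zero_apply, Nat.cast_zero] at a1 a2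
    rw [coa_upd, hwtj, Pi.single_eq_of_ne hij, Nat.cast_zero] at b1 b2
    have hpp : en T i (Pi.single j 1) ≤ en T i 0 := by
      apply (hLine k T hT.down i).2.1
      refine hT.down _ ((hLine k T hT.down i).1 _ (hT.one j)) _ ?_
      intro l
      by_cases hl : l = i
      · rw [hl, Function.update_self, Function.update_self]
      · rw [Function.update_of_ne hl, Function.update_of_ne hl]
        exact Nat.zero_le _
    obtain ⟨q, hq⟩ := Nat.exists_eq_add_of_le hpp
    rw [hq, Nat.cast_add] at a1 a2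
    have hwi := hw i
    have hwj := hw j
    rcases Nat.lt_or_ge q 1 with h | h
    · have h1 : q = 0 := by omega
      rw [h1, Nat.cast_zero] at a1 a2
      exfalso
      nlinarith
    · rcases Nat.lt_or_ge q 2 with h2 | h2
      · have h1 : q = 1 := by omega
        rw [h1, Nat.cast_one] at a1 a2
        rw [abs_le]
        constructor <;> nlinarith
      · exfalso
        have h3 : (2 : ℝ) ≤ (q : ℝ) := by exact_mod_cast h2
        have h4 : w i * 2 ≤ w i * (q : ℝ) := mul_le_mul_of_nonneg_left h3 (by linarith)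
        nlinarith
  have hkey2 : ∀ i j : Fin k, |w i - w j| ≤ ε := by
    intro i j
    rcases le_total (w j) (w i) with h | h
    · exact hkey i j h
    · rw [abs_sub_comm]
      exact hkey j i h
  let W : ℝ := w ⟨0, hk⟩
  have hW1 : ∀ i, W - ε ≤ w i := by
    intro i
    have h := abs_le.1 (hkey2 i ⟨0, hk⟩)
    change w ⟨0, hk⟩ - ε ≤ w i
    linarith [h.1]
  have hW2 : ∀ i, w i ≤ W + ε := by
    intro i
    have h := abs_le.1 (hkey2 i ⟨0, hk⟩)
    change w i ≤ w ⟨0, hk⟩ + ε
    linarith [h.2]
  have hWe : e < W := hw ⟨0, hk⟩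
  have hlow : ∀ (c : ℝ), (∀ i, c ≤ w i) → ∀ x : Fin k → ℕ, c * ((∑ i, x i : ℕ) : ℝ) ≤ wt w x := by
    intro c hc x
    unfold wt
    rw [Nat.cast_sum, Finset.mul_sum]
    exact Finset.sum_le_sum fun i _ => mul_le_mul_of_nonneg_right (hc i) (Nat.cast_nonneg _)
  have hupp : ∀ x : Fin k → ℕ, wt w x ≤ (W + ε) * ((∑ i, x i : ℕ) : ℝ) := by
    intro x
    unfold wt
    rw [Nat.cast_sum, Finset.mul_sum]
    exact Finset.sum_le_sum fun i _ => mul_le_mul_of_nonneg_right (hW2 i) (Nat.cast_nonneg _)
  obtain ⟨xs, hxs, hr⟩ := Finset.exists_mem_eq_sup T ⟨0, h0T⟩ (fun x : Fin k → ℕ => ∑ i, x i)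
  obtain ⟨r, hrdef⟩ : ∃ r : ℕ, r = T.sup (fun x : Fin k → ℕ => ∑ i, x i) := ⟨_, rfl⟩
  rw [← hrdef] at hr
  have hre : e * (r : ℝ) ≤ 1 := by
    have h1 := hlow e (fun i => (hw i).le) xs
    have h2 := hT.le xs hxs
    rw [hr]
    exact h1.trans h2
  have hrW : (W - ε) * (r : ℝ) ≤ 1 := by
    have h1 := hlow (W - ε) hW1 xs
    have h2 := hT.le xs hxs
    rw [hr]
    exact h1.trans h2
  have hr0 : (0 : ℝ) ≤ (r : ℝ) := Nat.cast_nonneg r
  have hsmall : 2 * (r : ℝ) * ε < W := by
    have h1 : 2 * (r : ℝ) * ε ≤ e := by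
      nlinarith
    linarith
  have hstep : ∀ x ∈ T, ∑ i, x i < r → ∀ i, Function.update x i (x i + 1) ∈ T := by
    intro x hx hxr i
    apply hgood x hx i
    rw [Function.update_eq_self]
    have h1 := hupp x
    have h2 : ((∑ i, x i : ℕ) : ℝ) ≤ (r : ℝ) - 1 := by
      have h3 : ((∑ i, x i : ℕ) : ℝ) + 1 ≤ (r : ℝ) := by exact_mod_cast hxr
      linarith
    have h4 : (W + ε) * ((∑ i, x i : ℕ) : ℝ) ≤ (W + ε) * ((r : ℝ) - 1) :=
      mul_le_mul_of_nonneg_left h2 (by linarith)
    nlinarith
  refine ⟨r, fun x => ⟨fun hx => ?_, fun hx => ?_⟩⟩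
  · rw [hrdef]
    exact Finset.le_sup (f := fun x : Fin k → ℕ => ∑ i, x i) hx
  · have hind : ∀ n : ℕ, ∀ x : Fin k → ℕ, ∑ i, x i = n → n ≤ r → x ∈ T := by
      intro n
      induction n with
      | zero =>
        intro x hx _
        have h1 : x = 0 := by
          funext i
          exact (Finset.sum_eq_zero_iff.1 hx) i (Finset.mem_univ i)
        rw [h1]
        exact h0T
      | succ n ih =>
        intro x hx hn
        obtain ⟨i, -, hi⟩ : ∃ i ∈ (Finset.univ : Finset (Fin k)), x i ≠ 0 := by
          apply Finset.exists_ne_zero_of_sum_ne_zero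
          rw [hx]
          exact Nat.succ_ne_zero n
        have h1 := coa_sum x i (x i - 1)
        have h2 : ∑ l, Function.update x i (x i - 1) l = n := by omega
        have h3 := hstep _ (ih _ h2 (by omega)) (by omega) i
        rw [Function.update_self, Function.update_idem, Nat.sub_add_cancel (by omega),
          Function.update_eq_self] at h3
        exact h3
    exact hind _ x rfl hx

end Pool.Agent.WLF
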