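import Pool.Agent.WLF.St

/-!
# WLF Dif: a set of differences
-/

set_option autoImplicit false

namespace Pool.Agent.WLF

open Finset

theorem dif_cls_add {k m : ℕ} (g : Fin k → ZMod m) (x y : Fin k → ℕ) :
    cls g (x + y) = cls g x + cls g y := by
  unfold cls
  rw [← Finset.sum_add_distrib]
  refine Finset.sum_congr rfl fun i _ => ?_
  rw [Pi.add_apply]
  push_cast
  ring

theorem dif_wt_add {k : ℕ} (w : Fin k → ℝ) (x y : Fin k → ℕ) :
    wt w (x + y) = wt w x + wt w y := by
  unfold wt
  rw [← Finset.sum_add_distrib]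
  refine Finset.sum_congr rfl fun i _ => ?_
  rw [Pi.add_apply]
  push_cast
  ring

theorem dif_wt_single {k : ℕ} (w : Fin k → ℝ) (i : Fin k) (t : ℕ) :
    wt w (Pi.single i t) = w i * t := by
  unfold wt
  rw [Finset.sum_eq_single i]
  · rw [Pi.single_eq_same]
  · intro b _ hb
    rw [Pi.single_eq_of_ne hb]
    simp
  · intro h
    exact absurd (Finset.mem_univ i) h

theorem dif_cancel {k : ℕ} {a b a' b' : Fin k → ℕ} (h : ∀ l, a l = 0 ∨ b l = 0)
    (h' : ∀ l, a' l = 0 ∨ b' l = 0) (he : a + b' = a' + b) : a = a' ∧ b = b' := by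
  refine ⟨funext fun l => ?_, funext fun l => ?_⟩
  · have h1 := congrFun he l
    simp only [Pi.add_apply] at h1
    rcases h l with h2 | h2 <;> rcases h' l with h3 | h3 <;> omega
  · have h1 := congrFun he l
    simp only [Pi.add_apply] at h1
    rcases h l with h2 | h2 <;> rcases h' l with h3 | h3 <;> omega

/-- a pair of points with disjoint supports -/
def dif_P {k : ℕ} (i j : Fin k) :
    (Fin k → ℕ) ⊕ (((Fin k → ℕ) × ℕ) ⊕ ((Fin k → ℕ) × ℕ)) → (Fin k → ℕ) × (Fin k → ℕ)
  | Sum.inl a => (a, 0)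
  | Sum.inr (Sum.inl q) => (q.1, Pi.single i (q.2 + 1))
  | Sum.inr (Sum.inr q) => (q.1, Pi.single j (q.2 + 1))

theorem dif_P_inj {k : ℕ} {i j : Fin k} (hij : i ≠ j) : Function.Injective (dif_P i j) := by
  rintro (a | ⟨a, t⟩ | ⟨a, t⟩) (a' | ⟨a', t'⟩ | ⟨a', t'⟩) h
  · rw [show a = a' from congrArg Prod.fst h]
  · have := congrFun (congrArg Prod.snd h) i
    simp [dif_P] at this
  · have := congrFun (congrArg Prod.snd h) j
    simp [dif_P] at this
  · have := congrFun (congrArg Prod.snd h) i
    simp [dif_P] at this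
  · have h1 : a = a' := congrArg Prod.fst h
    have h2 := congrFun (congrArg Prod.snd h) i
    simp [dif_P] at h2
    rw [h1, h2]
  · have := congrFun (congrArg Prod.snd h) i
    simp [dif_P, hij] at this
  · have := congrFun (congrArg Prod.snd h) j
    simp [dif_P] at this
  · have := congrFun (congrArg Prod.snd h) i
    simp [dif_P, hij] at this
  · have h1 : a = a' := congrArg Prod.fst h
    have h2 := congrFun (congrArg Prod.snd h) j
    simp [dif_P] at h2
    rw [h1, h2]

theorem thm_Dif : St_Dif := by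
  classical
  intro k m w g T e β i j h h' hT hsub hij hh hh' hβ
  set s : ℝ := 1 - e - β with hs
  have hmT : ∀ x, wt w x ≤ s → x ∈ T := fun x hx => hsub x (by linarith)
  have hwi := hT.pos i
  have hwj := hT.pos j
  set A : Finset (Fin k → ℕ) := T.filter fun x => wt w x ≤ s with hA
  have hN0 : Nc w s ∅ = A.card := by
    unfold Nc
    rw [← Set.ncard_coe_finset]
    congr 1
    ext x
    simp only [Finset.notMem_empty, false_implies, implies_true, and_true, Set.mem_ofPred_eq, hA,
      Finset.coe_filter]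
    exact ⟨fun hx => ⟨hmT x hx, hx⟩, fun hx => hx.2⟩
  have hN1 : ∀ a : Fin k, Nc w s {a} = (A.filter fun x => x a = 0).card := by
    intro a
    unfold Nc
    rw [← Set.ncard_coe_finset]
    congr 1
    ext x
    simp only [Finset.mem_singleton, forall_eq, Set.mem_ofPred_eq, hA, Finset.coe_filter,
      Finset.mem_filter]
    exact ⟨fun hx => ⟨⟨hmT x hx.1, hx.1⟩, hx.2⟩, fun hx => ⟨hx.1.2, hx.2⟩⟩
  rw [hN0, hN1, hN1]
  set D : Finset ((Fin k → ℕ) ⊕ (((Fin k → ℕ) × ℕ) ⊕ ((Fin k → ℕ) × ℕ))) :=
    A.disjSum (((A.filter fun x => x i = 0) ×ˢ Finset.range h).disjSum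
      ((A.filter fun x => x j = 0) ×ˢ Finset.range h')) with hD
  have hDc : D.card = A.card + h * (A.filter fun x => x i = 0).card +
      h' * (A.filter fun x => x j = 0).card := by
    rw [hD, Finset.card_disjSum, Finset.card_disjSum, Finset.card_product, Finset.card_product,
      Finset.card_range, Finset.card_range]
    ring
  have hprop : ∀ z ∈ D, wt w (dif_P i j z).1 ≤ s ∧ wt w (dif_P i j z).2 ≤ β ∧
      ∀ l, (dif_P i j z).1 l = 0 ∨ (dif_P i j z).2 l = 0 := by
    rintro (a | ⟨a, t⟩ | ⟨a, t⟩) hz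
    · rw [hD, Finset.inl_mem_disjSum] at hz
      refine ⟨(Finset.mem_filter.1 hz).2, ?_, fun l => Or.inr rfl⟩
      have : wt w (0 : Fin k → ℕ) = 0 := by simp [wt]
      change wt w (0 : Fin k → ℕ) ≤ β
      rw [this]
      exact hβ
    · rw [hD, Finset.inr_mem_disjSum, Finset.inl_mem_disjSum, Finset.mem_product] at hz
      obtain ⟨h1, h2⟩ := hz
      obtain ⟨h3, h4⟩ := Finset.mem_filter.1 h1
      refine ⟨(Finset.mem_filter.1 h3).2, ?_, fun l => ?_⟩
      · change wt w (Pi.single i (t + 1)) ≤ β
        rw [dif_wt_single]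
        have h5 : ((t + 1 : ℕ) : ℝ) ≤ h := by exact_mod_cast Finset.mem_range.1 h2
        nlinarith
      · by_cases hl : l = i
        · subst hl
          exact Or.inl h4
        · refine Or.inr ?_
          change (Pi.single i (t + 1) : Fin k → ℕ) l = 0
          rw [Pi.single_eq_of_ne hl]
    · rw [hD, Finset.inr_mem_disjSum, Finset.inr_mem_disjSum, Finset.mem_product] at hz
      obtain ⟨h1, h2⟩ := hz
      obtain ⟨h3, h4⟩ := Finset.mem_filter.1 h1
      refine ⟨(Finset.mem_filter.1 h3).2, ?_, fun l => ?_⟩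
      · change wt w (Pi.single j (t + 1)) ≤ β
        rw [dif_wt_single]
        have h5 : ((t + 1 : ℕ) : ℝ) ≤ h' := by exact_mod_cast Finset.mem_range.1 h2
        nlinarith
      · by_cases hl : l = j
        · subst hl
          exact Or.inl h4
        · refine Or.inr ?_
          change (Pi.single j (t + 1) : Fin k → ℕ) l = 0
          rw [Pi.single_eq_of_ne hl]
  have hm0 : m ≠ 0 := by
    have h1 : 0 < T.card := Finset.card_pos.2 ⟨_, hT.one i⟩
    rw [hT.card] at h1
    exact h1.ne'
  have : NeZero m := ⟨hm0⟩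
  rw [← hDc]
  calc D.card ≤ (Finset.univ : Finset (ZMod m)).card := by
        refine Finset.card_le_card_of_injOn
          (fun z => cls g (dif_P i j z).1 - cls g (dif_P i j z).2) (fun z _ => Finset.mem_univ _) ?_
        intro z hz z' hz' hzz
        obtain ⟨a1, a2, a3⟩ := hprop z hz
        obtain ⟨b1, b2, b3⟩ := hprop z' hz'
        have h1 : cls g ((dif_P i j z).1 + (dif_P i j z').2) =
            cls g ((dif_P i j z').1 + (dif_P i j z).2) := by
          rw [dif_cls_add, dif_cls_add]
          simp only at hzz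
          linear_combination hzz
        have h2 := hT.inj _ (hsub _ (by rw [dif_wt_add]; linarith)) _
          (hsub _ (by rw [dif_wt_add]; linarith)) h1
        obtain ⟨h3, h4⟩ := dif_cancel a3 b3 h2
        exact dif_P_inj hij (Prod.ext h3 h4)
    _ = m := by rw [Finset.card_univ, ZMod.card]

end Pool.Agent.WLF
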