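import Pool.Agent.WLF.St

/-!
# WLF/FilA (helper55): compression of a corner part of a down-set
-/

set_option autoImplicit false

namespace Pool.Agent.WLF

open Finset

/-- the compression -/
def fila_f {k : ℕ} (x₀ : Fin k → ℕ) (I : Finset (Fin k)) (L : ℕ) (x : Fin k → ℕ) : Fin k → ℕ :=
  fun i => if i ∈ I then x₀ i + (x i - x₀ i) / L else x i

theorem fila_le {k : ℕ} (x₀ : Fin k → ℕ) (I : Finset (Fin k)) (L : ℕ) (x : Fin k → ℕ)
    (hx : ∀ i, x₀ i ≤ x i ↔ i ∈ I) : fila_f x₀ I L x ≤ x := by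
  intro i
  rw [fila_f]
  split_ifs with hi
  · have h1 := (hx i).2 hi
    calc x₀ i + (x i - x₀ i) / L ≤ x₀ i + (x i - x₀ i) := Nat.add_le_add_left (Nat.div_le_self _ _) _
      _ = x i := Nat.add_sub_cancel' h1
  · exact le_rfl

/-- `St_FilA`. -/
theorem thm_FilA : St_FilA := by
  intro k m w g T L hT hL x₀ I
  have hL0 : (0 : ℝ) < L := by exact_mod_cast hL
  have hLp : 0 < L := hL
  have hcard : (NI w T x₀ I L ×ˢ (univ : Finset (Fin k → Fin L))).card = L ^ k * (NI w T x₀ I L).card := by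
    rw [card_product, card_univ, Fintype.card_fun, Fintype.card_fin, Fintype.card_fin, mul_comm]
  rw [← hcard]
  refine card_le_card_of_injOn
    (fun x => (fila_f x₀ I L x, fun i => (⟨(x i - x₀ i) % L, Nat.mod_lt _ hLp⟩ : Fin L))) ?_ ?_
  · intro x hx
    have hx' : x ∈ TI T x₀ I := hx
    rw [TI, mem_filter] at hx'
    obtain ⟨hxT, hxI⟩ := hx'
    have hfT : fila_f x₀ I L x ∈ T := hT.down x hxT _ (fila_le x₀ I L x hxI)
    have hfI : fila_f x₀ I L x ∈ TI T x₀ I := by
      rw [TI, mem_filter]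
      refine ⟨hfT, fun i => ?_⟩
      rw [fila_f]
      split_ifs with hi
      · exact ⟨fun _ => hi, fun _ => Nat.le_add_right _ _⟩
      · exact hxI i
    have hN : fila_f x₀ I L x ∈ NI w T x₀ I L := by
      rw [NI, mem_filter]
      refine ⟨hfI, ?_⟩
      have h1 : ∀ i ∈ I, w i * ((fila_f x₀ I L x i : ℝ) - x₀ i) ≤ 1 / L * (w i * (x i : ℝ)) := by
        intro i hi
        have hf : fila_f x₀ I L x i = x₀ i + (x i - x₀ i) / L := by
          rw [fila_f, if_pos hi]
        rw [hf]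
        push_cast
        have h2 : (((x i - x₀ i) / L : ℕ) : ℝ) ≤ ((x i - x₀ i : ℕ) : ℝ) / L := Nat.cast_div_le
        have h3 : ((x i - x₀ i : ℕ) : ℝ) ≤ (x i : ℝ) := by exact_mod_cast Nat.sub_le _ _
        have h4 : ((x i - x₀ i : ℕ) : ℝ) / L ≤ (x i : ℝ) / L := div_le_div_of_nonneg_right h3 hL0.le
        have h5 : (((x i - x₀ i) / L : ℕ) : ℝ) ≤ (x i : ℝ) / L := h2.trans h4
        have h6 := mul_le_mul_of_nonneg_left h5 (hT.pos i).le
        have h7 : (x₀ i : ℝ) + (((x i - x₀ i) / L : ℕ) : ℝ) - x₀ i = (((x i - x₀ i) / L : ℕ) : ℝ) := by ring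
        calc w i * ((x₀ i : ℝ) + (((x i - x₀ i) / L : ℕ) : ℝ) - x₀ i) ≤ w i * ((x i : ℝ) / L) := by
              rw [h7]
              exact h6
          _ = 1 / L * (w i * (x i : ℝ)) := by ring
      have h8 : ∑ i ∈ I, 1 / (L : ℝ) * (w i * (x i : ℝ)) ≤ 1 / L * wt w x := by
        rw [← mul_sum]
        refine mul_le_mul_of_nonneg_left ?_ (by positivity)
        exact sum_le_sum_of_subset_of_nonneg (subset_univ I) fun i _ _ =>
          mul_nonneg (hT.pos i).le (Nat.cast_nonneg _)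
      have h9 : 1 / (L : ℝ) * wt w x ≤ 1 / L * 1 :=
        mul_le_mul_of_nonneg_left (hT.le x hxT) (by positivity)
      rw [mul_one] at h9
      exact ((sum_le_sum h1).trans h8).trans h9
    exact mem_coe.2 (mem_product.2 ⟨hN, mem_univ _⟩)
  · intro x hx y hy hxy
    have hx' : x ∈ TI T x₀ I := hx
    have hy' : y ∈ TI T x₀ I := hy
    rw [TI, mem_filter] at hx' hy'
    have h1 := congrArg Prod.fst hxy
    have h2 := congrArg Prod.snd hxy
    funext i
    have h3 := congrFun h1 i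
    have h4 : (x i - x₀ i) % L = (y i - x₀ i) % L := congrArg Fin.val (congrFun h2 i)
    change fila_f x₀ I L x i = fila_f x₀ I L y i at h3
    rw [fila_f, fila_f] at h3
    split_ifs at h3 with hi
    · have h5 := (hx'.2 i).2 hi
      have h6 := (hy'.2 i).2 hi
      have h7 : (x i - x₀ i) / L = (y i - x₀ i) / L := by omega
      have h8 : x i - x₀ i = y i - x₀ i := by
        rw [← Nat.div_add_mod (x i - x₀ i) L, ← Nat.div_add_mod (y i - x₀ i) L, h4, h7]
      omega
    · exact h3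

end Pool.Agent.WLF
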