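import Pool.Agent.WLF.St

/-!
# WLF [FilB]: double counting on the lines in direction `j`
-/

set_option autoImplicit false

namespace Pool.Agent.WLF

open Finset

section

variable {k : ℕ} {w : Fin k → ℝ}

/-- weight of an updated point -/
theorem FilB_upd (x : Fin k → ℕ) (j : Fin k) (n : ℕ) :
    wt w (Function.update x j n) = ∑ i ∈ univ.erase j, w i * (x i : ℝ) + w j * n := by
  unfold wt
  rw [← Finset.sum_erase_add _ _ (mem_univ j), Function.update_self]
  congr 1
  refine Finset.sum_congr rfl fun i hi => ?_
  rw [Function.update_of_ne (Finset.ne_of_mem_erase hi)]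

theorem FilB_wt (x : Fin k → ℕ) (j : Fin k) :
    wt w x = ∑ i ∈ univ.erase j, w i * (x i : ℝ) + w j * x j := by
  unfold wt
  rw [← Finset.sum_erase_add _ _ (mem_univ j)]

end

/-- [FILB] -/
theorem thm_FilB : St_FilB := by
  classical
  intro k m w g T ε L H hε hL hLε x₀ I j hx₀ hjI
  have hL0 : (0 : ℝ) < L := by
    have : (0 : ℕ) < L := by omega
    exact_mod_cast this
  have hwj : 0 < w j := H.pos j
  have h2L : (0 : ℝ) < 2 * L := by positivity
  set r : ℕ := ⌊1 / (2 * L * w j)⌋₊ with hr
  set G : Finset (Fin k → ℕ) := (NI w T x₀ I L).filter fun x => Good w T ε x with hG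
  -- the other points are bad
  have hsplit : (NI w T x₀ I L).card ≤ (bad w T ε).card + G.card := by
    rw [add_comm, ← Finset.card_filter_add_card_filter_not (s := NI w T x₀ I L)
      (p := fun x => Good w T ε x)]
    refine Nat.add_le_add_left (card_le_card ?_) _
    intro x hx
    rw [mem_filter] at hx
    unfold bad
    rw [mem_filter]
    refine ⟨?_, hx.2⟩
    have h1 := hx.1
    unfold NI TI at h1
    rw [mem_filter, mem_filter] at h1
    exact h1.1.1
  -- the key step
  have hkey : ∀ x ∈ G, ∀ t ≤ r, Function.update x j (x₀ j + t) ∈ TI T x₀ (insert j I) := by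
    intro x hx t ht
    rw [hG, mem_filter] at hx
    obtain ⟨hx1, hgood⟩ := hx
    unfold NI at hx1
    rw [mem_filter] at hx1
    obtain ⟨hx2, hnear⟩ := hx1
    unfold TI at hx2
    rw [mem_filter] at hx2
    obtain ⟨hxT, hxI⟩ := hx2
    have hxj : x j < x₀ j := by
      by_contra hc
      exact hjI ((hxI j).mp (not_lt.mp hc))
    unfold TI
    rw [mem_filter]
    constructor
    · obtain ⟨n, hn⟩ : ∃ n, x₀ j + t = n + 1 := ⟨x₀ j + t - 1, by omega⟩
      rw [hn]
      apply hgood
      have h1 : (t : ℝ) ≤ 1 / (2 * L * w j) := by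
        refine le_trans ?_ (Nat.floor_le (by positivity))
        rw [← hr]
        exact_mod_cast ht
      have h2 : w j * t ≤ 1 / (2 * L) := by
        calc w j * t ≤ w j * (1 / (2 * L * w j)) := by gcongr
          _ = 1 / (2 * L) := by field_simp
      have h3 : ∑ i ∈ univ.erase j, w i * (x i : ℝ) ≤
          ∑ i ∈ univ.erase j, w i * (x₀ i : ℝ) + 1 / L := by
        have h4 : ∑ i ∈ univ.erase j, w i * ((x i : ℝ) - x₀ i) ≤
            ∑ i ∈ I, w i * ((x i : ℝ) - x₀ i) := by
          have hIsub : I ⊆ univ.erase j := by
            intro i hi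
            rw [mem_erase]
            refine ⟨?_, mem_univ i⟩
            rintro rfl
            exact hjI hi
          rw [← Finset.sum_sdiff hIsub]
          have h5 : ∑ i ∈ univ.erase j \ I, w i * ((x i : ℝ) - x₀ i) ≤ 0 := by
            refine Finset.sum_nonpos fun i hi => ?_
            rw [mem_sdiff] at hi
            have h6 : x i ≤ x₀ i := by
              by_contra hc
              exact hi.2 ((hxI i).mp (by omega))
            have h7 : (x i : ℝ) ≤ x₀ i := by exact_mod_cast h6
            exact mul_nonpos_of_nonneg_of_nonpos (H.pos i).le (by linarith)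
          linarith
        have h8 : ∑ i ∈ univ.erase j, w i * ((x i : ℝ) - x₀ i) =
            ∑ i ∈ univ.erase j, w i * (x i : ℝ) - ∑ i ∈ univ.erase j, w i * (x₀ i : ℝ) := by
          rw [← Finset.sum_sub_distrib]
          exact Finset.sum_congr rfl fun i _ => by ring
        linarith
      rw [FilB_upd]
      have h9 := FilB_wt (w := w) x₀ j
      have h10 : (n : ℝ) + 1 = x₀ j + t := by exact_mod_cast hn.symm
      have h11 : w j * n = w j * x₀ j + w j * t - w j := by
        have : (n : ℝ) = x₀ j + t - 1 := by linarith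
        rw [this]; ring
      have h12 : (1 : ℝ) / L = 2 * (1 / (2 * L)) := by field_simp
      have h13 : (2 : ℝ) / L = 4 * (1 / (2 * L)) := by field_simp; norm_num
      have h14 : ε ≤ 1 / (2 * L) := by
        rw [le_div_iff₀ h2L]
        linarith
      rw [h11]
      linarith
    · intro i
      by_cases hij : i = j
      · subst hij
        rw [Function.update_self]
        exact ⟨fun _ => mem_insert_self _ _, fun _ => by omega⟩
      · rw [Function.update_of_ne hij, hxI i, mem_insert]
        exact ⟨fun h => Or.inr h, fun h => h.resolve_left hij⟩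
  -- double counting
  have hcount : G.card * (r + 1) ≤ (TI T x₀ (insert j I)).card * x₀ j := by
    rw [← Finset.card_range (r + 1), ← Finset.card_product, ← Finset.card_range (x₀ j),
      ← Finset.card_product]
    refine Finset.card_le_card_of_injOn
      (fun p => (Function.update p.1 j (x₀ j + p.2), p.1 j)) ?_ ?_
    · rintro ⟨x, t⟩ hp
      rw [mem_coe, mem_product, mem_range] at hp
      rw [mem_coe, mem_product, mem_range]
      refine ⟨hkey x hp.1 t (by have := hp.2; simp only at this; omega), ?_⟩
      have hx := hp.1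
      simp only at hx
      rw [hG, mem_filter] at hx
      have hx1 := hx.1
      unfold NI TI at hx1
      rw [mem_filter, mem_filter] at hx1
      by_contra hc
      exact hjI ((hx1.1.2 j).mp (not_lt.mp hc))
    · rintro ⟨x, t⟩ hp ⟨y, s⟩ hq h
      simp only [Prod.mk.injEq] at h
      obtain ⟨h1, h2⟩ := h
      have h3 := congrFun h1 j
      rw [Function.update_self, Function.update_self] at h3
      have h4 : x = y := by
        funext i
        by_cases hij : i = j
        · rw [hij, h2]
        · have h5 := congrFun h1 i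
          rwa [Function.update_of_ne hij, Function.update_of_ne hij] at h5
      rw [Prod.mk.injEq]
      exact ⟨h4, by omega⟩
  -- numbers
  have hx0j : w j * (x₀ j : ℝ) ≤ 1 := by
    have h1 := FilB_wt (w := w) x₀ j
    have h2 : 0 ≤ ∑ i ∈ univ.erase j, w i * (x₀ i : ℝ) :=
      Finset.sum_nonneg fun i _ => mul_nonneg (H.pos i).le (Nat.cast_nonneg _)
    have h3 : (0 : ℝ) < 2 / L := by positivity
    linarith
  have hr1 : 1 / (2 * L * w j) ≤ (r : ℝ) + 1 := (Nat.lt_floor_add_one _).le
  have hreal : (G.card : ℝ) * (r + 1) ≤ (TI T x₀ (insert j I)).card * x₀ j := by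
    exact_mod_cast hcount
  have hfin : (G.card : ℝ) ≤ 2 * L * (TI T x₀ (insert j I)).card := by
    have h1 : (G.card : ℝ) * (1 / (2 * L * w j)) ≤ (TI T x₀ (insert j I)).card * (1 / w j) := by
      calc (G.card : ℝ) * (1 / (2 * L * w j)) ≤ G.card * (r + 1) := by gcongr
        _ ≤ (TI T x₀ (insert j I)).card * x₀ j := hreal
        _ ≤ (TI T x₀ (insert j I)).card * (1 / w j) := by
          gcongr
          rw [le_div_iff₀ hwj]
          linarith
    have h2 := mul_le_mul_of_nonneg_left h1 (show (0 : ℝ) ≤ 2 * L * w j by positivity)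
    have h3 : 2 * L * w j * ((G.card : ℝ) * (1 / (2 * L * w j))) = G.card := by field_simp
    have h4 : 2 * L * w j * (((TI T x₀ (insert j I)).card : ℝ) * (1 / w j)) =
        2 * L * (TI T x₀ (insert j I)).card := by field_simp
    rw [h3, h4] at h2
    exact h2
  have hs' : ((NI w T x₀ I L).card : ℝ) ≤ (bad w T ε).card + G.card := by exact_mod_cast hsplit
  linarith

end Pool.Agent.WLF
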