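import Pool.Agent.WLF.St

/-!
# WLF [Fill]: the filling argument (helper25)
-/

set_option autoImplicit false

namespace Pool.Agent.WLF

open Finset

theorem fill_step (hA : St_FilA) (hB : St_FilB) (k m : ℕ) (w : Fin k → ℝ) (g : Fin k → ZMod m)
    (T : Finset (Fin k → ℕ)) (ε : ℝ) (L : ℕ) (hT : Til m w g T) (hε : 0 < ε) (hL : 2 ≤ L)
    (hLε : 2 * L * ε ≤ 1) (hbad : ((bad w T ε).card : ℝ) ≤ ε * m) (x₀ : Fin k → ℕ)
    (hx : wt w x₀ ≤ 1 - 2 / L) (hx₀ : x₀ ∉ T) (s : ℕ) :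
    ∀ I : Finset (Fin k), I.card + s = k →
      ((TI T x₀ I).card : ℝ) ≤ (4 * (L : ℝ) ^ (k + 1)) ^ s * (ε * m) := by
  have hL1 : (1 : ℝ) ≤ L := by exact_mod_cast (show 1 ≤ L by omega)
  have hεm : 0 ≤ ε * m := by positivity
  induction s with
  | zero =>
    intro I hI
    have h1 : I = univ := (Finset.card_eq_iff_eq_univ I).1 (by rw [Fintype.card_fin]; omega)
    have h2 : TI T x₀ I = ∅ := by
      rw [h1]
      unfold TI
      rw [Finset.filter_eq_empty_iff]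
      intro x hxT hcon
      exact hx₀ (hT.down x hxT x₀ fun i => (hcon i).2 (Finset.mem_univ i))
    rw [h2, Finset.card_empty, pow_zero, one_mul, Nat.cast_zero]
    exact hεm
  | succ s ih =>
    intro I hI
    obtain ⟨j, hj⟩ : ∃ j, j ∉ I := by
      by_contra hcon
      push Not at hcon
      have h1 : I = univ := Finset.eq_univ_of_forall hcon
      rw [h1, Finset.card_univ, Fintype.card_fin] at hI
      omega
    have h1 := ih (insert j I) (by rw [Finset.card_insert_of_notMem hj]; omega)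
    have h2 : ((TI T x₀ I).card : ℝ) ≤ (L : ℝ) ^ k * ((NI w T x₀ I L).card : ℝ) := by
      exact_mod_cast hA k m w g T L hT (by omega) x₀ I
    have h3 := hB k m w g T ε L hT hε hL hLε x₀ I j hx hj
    obtain ⟨D, hD⟩ : ∃ D : ℝ, D = 4 * (L : ℝ) ^ (k + 1) := ⟨_, rfl⟩
    rw [← hD] at h1 ⊢
    have hLk : (1 : ℝ) ≤ (L : ℝ) ^ k := one_le_pow₀ hL1
    have hLk1 : (L : ℝ) ^ k ≤ (L : ℝ) ^ (k + 1) := pow_le_pow_right₀ hL1 (by omega)
    have hD1 : 1 ≤ D := by
      rw [hD]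
      linarith
    have hDs : 1 ≤ D ^ s := one_le_pow₀ hD1
    have h4 : ((NI w T x₀ I L).card : ℝ) ≤ ε * m + 2 * L * (D ^ s * (ε * m)) := by
      have h5 : 2 * (L : ℝ) * ((TI T x₀ (insert j I)).card : ℝ) ≤
          2 * L * (D ^ s * (ε * m)) := mul_le_mul_of_nonneg_left h1 (by positivity)
      linarith
    have h5 : (L : ℝ) ^ k * ((NI w T x₀ I L).card : ℝ) ≤
        (L : ℝ) ^ k * (ε * m + 2 * L * (D ^ s * (ε * m))) :=
      mul_le_mul_of_nonneg_left h4 (by positivity)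
    have h6 : (L : ℝ) ^ k * (ε * m + 2 * L * (D ^ s * (ε * m))) =
        ((L : ℝ) ^ k + 2 * (L : ℝ) ^ (k + 1) * D ^ s) * (ε * m) := by
      rw [pow_succ]
      ring
    have h7 : (L : ℝ) ^ k + 2 * (L : ℝ) ^ (k + 1) * D ^ s ≤ D ^ (s + 1) := by
      have h8 : (L : ℝ) ^ k ≤ (L : ℝ) ^ (k + 1) * D ^ s := by
        have h9 : (L : ℝ) ^ (k + 1) * 1 ≤ (L : ℝ) ^ (k + 1) * D ^ s :=
          mul_le_mul_of_nonneg_left hDs (by positivity)
        linarith
      have h9 : D ^ (s + 1) = 4 * ((L : ℝ) ^ (k + 1) * D ^ s) := by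
        rw [pow_succ, hD]
        ring
      have h10 : 0 ≤ (L : ℝ) ^ (k + 1) * D ^ s := by positivity
      rw [h9]
      linarith
    have h8 := mul_le_mul_of_nonneg_right h7 hεm
    linarith

theorem fill_core (hA : St_FilA) (hB : St_FilB) (k m : ℕ) (w : Fin k → ℝ) (g : Fin k → ZMod m)
    (T : Finset (Fin k → ℕ)) (ε : ℝ) (L : ℕ) (hk : 1 ≤ k) (hT : Til m w g T) (hε : 0 < ε)
    (hL : 2 ≤ L) (hLε : 2 * L * ε ≤ 1) (hsm : (8 * (L : ℝ) ^ (k + 1)) ^ k * ε < 1)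
    (hbad : ((bad w T ε).card : ℝ) ≤ ε * m) (x : Fin k → ℕ) (hx : wt w x ≤ 1 - 2 / L) :
    x ∈ T := by
  classical
  by_contra hx₀
  have hL1 : (1 : ℝ) ≤ L := by exact_mod_cast (show 1 ≤ L by omega)
  have hstep := fill_step hA hB k m w g T ε L hT hε hL hLε hbad x hx hx₀
  have hm : 0 < m := by
    rw [← hT.card]
    exact Finset.card_pos.2 ⟨_, hT.one ⟨0, by omega⟩⟩
  have hm' : (0 : ℝ) < m := by exact_mod_cast hm
  have hεm : 0 ≤ ε * m := by positivity
  obtain ⟨D, hD⟩ : ∃ D : ℝ, D = 4 * (L : ℝ) ^ (k + 1) := ⟨_, rfl⟩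
  have hD1 : 1 ≤ D := by
    rw [hD]
    have : (1 : ℝ) ≤ (L : ℝ) ^ (k + 1) := one_le_pow₀ hL1
    linarith
  have h1 : T ⊆ (univ : Finset (Finset (Fin k))).biUnion fun I => TI T x I := by
    intro y hy
    rw [Finset.mem_biUnion]
    refine ⟨univ.filter fun i => x i ≤ y i, Finset.mem_univ _, ?_⟩
    unfold TI
    rw [Finset.mem_filter]
    refine ⟨hy, fun i => ?_⟩
    rw [Finset.mem_filter]
    exact ⟨fun h => ⟨Finset.mem_univ i, h⟩, fun h => h.2⟩
  have h2 := (Finset.card_le_card h1).trans Finset.card_biUnion_le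
  have h3 : ∀ I ∈ (univ : Finset (Finset (Fin k))), ((TI T x I).card : ℝ) ≤ D ^ k * (ε * m) := by
    intro I _
    have hI : I.card ≤ k := by
      have h4 := Finset.card_le_univ I
      rw [Fintype.card_fin] at h4
      exact h4
    have h4 := hstep (k - I.card) I (by omega)
    rw [← hD] at h4
    refine h4.trans (mul_le_mul_of_nonneg_right ?_ hεm)
    exact pow_le_pow_right₀ hD1 (Nat.sub_le _ _)
  have h4 : (m : ℝ) ≤ ∑ I : Finset (Fin k), ((TI T x I).card : ℝ) := by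
    rw [hT.card] at h2
    exact_mod_cast h2
  have h5 : ∑ I : Finset (Fin k), ((TI T x I).card : ℝ) ≤ 2 ^ k * (D ^ k * (ε * m)) := by
    have h6 := Finset.sum_le_card_nsmul univ (fun I => ((TI T x I).card : ℝ)) _ h3
    rw [Finset.card_univ, Fintype.card_finset, Fintype.card_fin, nsmul_eq_mul] at h6
    push_cast at h6
    exact h6
  have h6 : 2 ^ k * (D ^ k * (ε * m)) = ((8 * (L : ℝ) ^ (k + 1)) ^ k * ε) * m := by
    have h7 : (8 * (L : ℝ) ^ (k + 1)) = 2 * D := by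
      rw [hD]
      ring
    rw [h7, mul_pow]
    ring
  have h7 : ((8 * (L : ℝ) ^ (k + 1)) ^ k * ε) * m < 1 * m := mul_lt_mul_of_pos_right hsm hm'
  linarith

/-- **FIL.** -/
theorem thm_Fill (hA : St_FilA) (hB : St_FilB) : St_Fill :=
  fun k m w g T ε L hk hT hε hL hLε hsm hbad x hx =>
    fill_core hA hB k m w g T ε L hk hT hε hL hLε hsm hbad x hx

end Pool.Agent.WLF
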