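import Pool.Agent.WLF.St

/-!
# WLF/Fin: finitely many numerical semigroups with bounded conductor (helper42)
-/

set_option autoImplicit false

namespace Pool.Agent.WLF

theorem thm_Fin : St_Fin := by
  classical
  intro N
  refine Set.Finite.of_finite_image (f := fun S : AddSubmonoid ℕ => (Finset.range N).filter (fun n => n ∈ S)) ?_ ?_
  · refine ((Finset.range N).powerset.finite_toSet).subset ?_
    rintro _ ⟨S, _, rfl⟩
    exact Finset.mem_coe.2 (Finset.mem_powerset.2 (Finset.filter_subset _ _))
  · intro S hS S' hS' h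
    ext n
    by_cases hn : n < N
    · have h1 : n ∈ (Finset.range N).filter (fun n => n ∈ S) ↔ n ∈ (Finset.range N).filter (fun n => n ∈ S') := by
        rw [show (Finset.range N).filter (fun n => n ∈ S) = (Finset.range N).filter (fun n => n ∈ S') from h]
      rw [Finset.mem_filter, Finset.mem_filter, Finset.mem_range] at h1
      exact ⟨fun h2 => (h1.1 ⟨hn, h2⟩).2, fun h2 => (h1.2 ⟨hn, h2⟩).2⟩
    · exact ⟨fun _ => hS' n (not_lt.1 hn), fun _ => hS n (not_lt.1 hn)⟩

end Pool.Agent.WLF
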