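import Pool.Agent.WLF.St

/-!
# WLF [Gap]: assembly of the gap with the explicit constants
-/

set_option autoImplicit false

namespace Pool.Agent.WLF

open Finset

private theorem gap_le {a b : ℕ} (h : a ≤ b) : ((1 : ℝ) / 2) ^ b ≤ (1 / 2) ^ a :=
  pow_le_pow_of_le_one (by norm_num) (by norm_num) h

private theorem gap_lt {a b : ℕ} (h : a < b) : ((1 : ℝ) / 2) ^ b < (1 / 2) ^ a :=
  pow_lt_pow_right_of_lt_one₀ (by norm_num) (by norm_num) h

private theorem gap_mul (a : ℕ) : (2 : ℝ) ^ a * (1 / 2) ^ a = 1 := by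
  rw [← mul_pow]; norm_num

/-- [GAP] -/
theorem thm_Gap (hBad : St_Bad) (hFill : St_Fill) (hMix : St_Mix) (hCoa : St_Coa)
    (hPerf : St_Perf) (hBox : St_Box) (hPack : St_Pack) : St_Gap := by
  intro k m w g T hk H hm
  by_contra hcon
  rw [not_le] at hcon
  set ε : ℝ := (1 / 2) ^ ((k + 4) ^ 3) with hε
  have hε0 : 0 < ε := by positivity
  have hε2 : ε ^ 2 = (1 / 2) ^ (2 * (k + 4) ^ 3) := by
    rw [hε, ← pow_mul, mul_comm]
  rw [← hε2] at hcon
  have hbad := hBad k m w g T ε H hε0 hcon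
  have hcube : (k + 4) ^ 3 = k ^ 3 + 12 * k ^ 2 + 48 * k + 64 := by ring
  by_cases hall : ∀ i, w i ≤ (1 / 2) ^ (k + 8)
  · -- all directions fine
    refine hPack k m w g T hk H hall ?_
    intro x hx
    have hL : ((2 ^ (k + 9) : ℕ) : ℝ) = 2 ^ (k + 9) := by push_cast; ring
    refine hFill k m w g T ε (2 ^ (k + 9)) (by omega) H hε0 ?_ ?_ ?_ hbad x ?_
    · calc 2 = 2 ^ 1 := by norm_num
        _ ≤ 2 ^ (k + 9) := Nat.pow_le_pow_right (by norm_num) (by omega)
    · rw [hL]
      have h1 : ε ≤ (1 / 2) ^ (k + 10) := gap_le (by rw [hcube]; nlinarith)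
      calc 2 * 2 ^ (k + 9) * ε ≤ 2 * 2 ^ (k + 9) * (1 / 2) ^ (k + 10) := by gcongr
        _ = 2 ^ (k + 10) * (1 / 2) ^ (k + 10) := by rw [pow_succ (2 : ℝ) (k + 9)]; ring
        _ = 1 := gap_mul _
    · rw [hL]
      have h1 : (8 * ((2 : ℝ) ^ (k + 9)) ^ (k + 1)) ^ k = 2 ^ (k ^ 3 + 10 * k ^ 2 + 12 * k) := by
        have h2 : (8 : ℝ) = 2 ^ 3 := by norm_num
        rw [h2, ← pow_mul, ← pow_add, ← pow_mul]
        congr 1
        ring
      rw [h1]
      calc (2 : ℝ) ^ (k ^ 3 + 10 * k ^ 2 + 12 * k) * ε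
          < 2 ^ (k ^ 3 + 10 * k ^ 2 + 12 * k) * (1 / 2) ^ (k ^ 3 + 10 * k ^ 2 + 12 * k) := by
            gcongr
            exact gap_lt (by rw [hcube]; nlinarith)
        _ = 1 := gap_mul _
    · rw [hL]
      have h1 : (2 : ℝ) / 2 ^ (k + 9) = (1 / 2) ^ (k + 8) := by
        rw [div_eq_iff (by positivity), pow_succ (2 : ℝ) (k + 8)]
        have := gap_mul (k + 8)
        linear_combination -2 * this
      rw [h1]
      exact hx
  · push Not at hall
    obtain ⟨i, hi⟩ := hall
    set e : ℝ := (1 / 2) ^ (k + 10) with he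
    have he0 : 0 < e := by positivity
    have hεe : ε < e := gap_lt (by rw [hcube]; nlinarith)
    have h4e : 4 * e = (1 / 2) ^ (k + 8) := by
      rw [he, pow_add (1 / 2 : ℝ) (k + 8) 2]; ring
    by_cases hj : ∃ j, w j ≤ e
    · obtain ⟨j, hj⟩ := hj
      refine hMix k m w g T ε e i j H hbad ?_ hε0 hεe hj (by linarith) ?_
      · rintro rfl
        linarith
      · have h1 : (k : ℝ) + 1 ≤ 2 ^ k := by
          have h2 : k + 1 ≤ 2 ^ k := Nat.lt_two_pow_self
          exact_mod_cast h2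
        calc 8 * ((k : ℝ) + 1) * e ≤ 8 * 2 ^ k * e := by gcongr
          _ ≤ 2 ^ (k + 10) * e := by
            gcongr
            rw [pow_add (2 : ℝ) k 10]
            have : (0 : ℝ) < 2 ^ k := by positivity
            nlinarith
          _ = 1 := gap_mul _
    · push Not at hj
      have hbox := hBox k m w g T e H he0 (fun j => (hj j).le)
      have h1e : 1 / e = 2 ^ (k + 10) := by
        rw [div_eq_iff he0.ne', he, gap_mul]
      have hm1 : (m : ℝ) ≤ 2 ^ ((k + 11) * k) := by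
        refine hbox.trans ?_
        rw [h1e, pow_mul]
        gcongr
        rw [pow_succ (2 : ℝ) (k + 10)]
        have : (1 : ℝ) ≤ 2 ^ (k + 10) := one_le_pow₀ (by norm_num)
        linarith
      have hlt : ε * m < 1 := by
        calc ε * m ≤ ε * 2 ^ ((k + 11) * k) := by gcongr
          _ < (1 / 2) ^ ((k + 11) * k) * 2 ^ ((k + 11) * k) := by
            gcongr
            exact gap_lt (by rw [hcube]; nlinarith)
          _ = 1 := by rw [mul_comm]; exact gap_mul _
      have hcard : (bad w T ε).card = 0 := by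
        have h1 : ((bad w T ε).card : ℝ) < 1 := lt_of_le_of_lt hbad hlt
        have h2 : (bad w T ε).card < 1 := by exact_mod_cast h1
        omega
      have he1 : e ≤ 1 := pow_le_one₀ (by norm_num) (by norm_num)
      have h2ε : 2 * ε < e ^ 2 := by
        have h1 : e ^ 2 = (1 / 2) ^ (2 * (k + 10)) := by rw [he, ← pow_mul, mul_comm]
        have h2 : 2 * ε ≤ (1 / 2) ^ ((k + 4) ^ 3 - 1) := by
          have h3 : (k + 4) ^ 3 = ((k + 4) ^ 3 - 1) + 1 := by
            have : 0 < (k + 4) ^ 3 := by positivity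
            omega
          rw [hε]
          conv_lhs => rw [h3, pow_succ]
          linarith
        rw [h1]
        refine lt_of_le_of_lt h2 (gap_lt ?_)
        have h4 : 2 * (k + 10) + 1 < (k + 4) ^ 3 := by rw [hcube]; nlinarith
        omega
      obtain ⟨r, hr⟩ := hCoa k m w g T ε e (by omega) H (card_eq_zero.mp hcard) hε0 he0 he1 h2ε hj
      exact hm (hPerf k m r w g T hk H hr)

end Pool.Agent.WLF
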