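import Pool.Agent.WLF.St

/-!
# WLF [Maq]: from the gap to the inequality for numerical semigroups
-/

set_option autoImplicit false

namespace Pool.Agent.WLF

open Finset Pool.Agent.Helper60.Wilf Pool.Agent.Helper82.Wilf

/-- the arithmetic -/
private theorem Maq_arith (n c m σ k P M : ℝ) (hP : 0 < P) (hm : 1 ≤ m) (hk : 1 ≤ k)
    (h1 : P * (k + 1) * σ ≤ (k * P - 1) * (m * M)) (h2 : 2 * (m * n) + 2 * σ + m = 2 * (m * c) + m * m)
    (h3 : M = c + m - 1) (h4 : k * P * m ≤ M) : (2 * P + 1) * c ≤ 2 * P * ((k + 1) * n) := by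
  have hm0 : 0 < m := by linarith
  have e1 : m * (2 * P * ((k + 1) * n)) =
      P * (k + 1) * (2 * (m * c) + m * m - m) - 2 * (P * (k + 1) * σ) := by
    linear_combination P * (k + 1) * h2
  have e2 : P * (m - 1) * (k - 1) ≤ M := by
    refine le_trans ?_ h4
    have h5 : (m - 1) * (k - 1) ≤ m * k := by nlinarith
    calc P * (m - 1) * (k - 1) = P * ((m - 1) * (k - 1)) := by ring
      _ ≤ P * (m * k) := mul_le_mul_of_nonneg_left h5 hP.le
      _ = k * P * m := by ring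
  have e3 : 0 ≤ m * (-(P * (m - 1) * (k - 1)) + 2 * M - c) := by
    refine mul_nonneg hm0.le ?_
    linarith
  have e4 : P * (k + 1) * (2 * (m * c) + m * m - m) - 2 * ((k * P - 1) * (m * M)) -
      m * ((2 * P + 1) * c) = m * (-(P * (m - 1) * (k - 1)) + 2 * M - c) := by
    rw [h3]; ring
  have e5 : m * ((2 * P + 1) * c) ≤ m * (2 * P * ((k + 1) * n)) := by
    rw [e1]
    linarith
  exact le_of_mul_le_mul_left e5 hm0

/-- [MAQ] -/
theorem thm_Maq (hGap : St_Gap) (hApe : St_Ape) (hSel : St_Sel) : St_Maq := by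
  classical
  intro S c m A H hA h3 hne hQ
  obtain ⟨k, hk⟩ : ∃ k, A.card = k + 1 := ⟨A.card - 1, by omega⟩
  rw [hk] at h3 hne hQ ⊢
  rw [Nat.add_sub_cancel, show k + 1 + 3 = k + 4 by ring] at hQ
  rw [show k + 1 + 3 = k + 4 by ring]
  have hk2 : 2 ≤ k := by omega
  have hm0 : 0 < m := H.hm0
  obtain ⟨a, T, ha, hTc, hone, hdown, hinj, himg⟩ := hApe S c m k A H hA hk
  have hM0 : 0 < c + m - 1 := by
    refine lt_of_lt_of_le ?_ hQ
    positivity
  set Mn : ℕ := c + m - 1 with hMn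
  have hMr : (0 : ℝ) < (Mn : ℝ) := by exact_mod_cast hM0
  set w : Fin k → ℝ := fun i => (a i : ℝ) / Mn with hw
  set g : Fin k → ZMod m := fun i => (a i : ZMod m) with hg
  have hwt : ∀ x : Fin k → ℕ, wt w x = ((∑ i, a i * x i : ℕ) : ℝ) / Mn := by
    intro x
    unfold wt
    rw [hw]
    push_cast
    rw [Finset.sum_div]
    exact Finset.sum_congr rfl fun i _ => by ring
  have hcls : ∀ x : Fin k → ℕ, cls g x = ((∑ i, a i * x i : ℕ) : ZMod m) := by
    intro x
    unfold cls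
    rw [hg]
    push_cast
    exact Finset.sum_congr rfl fun i _ => by ring
  have hmem : ∀ x ∈ T, ∑ i, a i * x i ∈ insert 0 (A0 S c m) := by
    intro x hx
    rw [← himg]
    exact mem_image_of_mem _ hx
  have htil : Til m w g T := by
    refine ⟨?_, hone, hdown, ?_, ?_, hTc⟩
    · intro i
      have h1 : 0 < a i := lt_trans hm0 (ha i)
      have h2 : (0 : ℝ) < a i := by exact_mod_cast h1
      exact div_pos h2 hMr
    · intro x hx
      rw [hwt, div_le_one hMr]
      have h1 := (mem_ins H (hmem x hx)).2.1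
      have h2 : ∑ i, a i * x i ≤ Mn := by omega
      exact_mod_cast h2
    · intro x hx y hy hxy
      rw [hcls, hcls, ZMod.natCast_eq_natCast_iff] at hxy
      refine hinj x hx y hy ?_
      rcases Nat.le_total (∑ i, a i * x i) (∑ i, a i * y i) with h | h
      · obtain ⟨j, hj⟩ := (Nat.modEq_iff_dvd' h).mp hxy
        exact (ins_inj H (hmem x hx) (hmem y hy) (j := j) (k := 0) (by
          rw [Nat.zero_mul, mul_comm j m, ← hj]; omega)).1
      · obtain ⟨j, hj⟩ := (Nat.modEq_iff_dvd' h).mp hxy.symm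
        exact (ins_inj H (hmem x hx) (hmem y hy) (j := 0) (k := j) (by
          rw [Nat.zero_mul, mul_comm j m, ← hj]; omega)).1
  have hgap := hGap k m w g T hk2 htil (by omega)
  have hsum : ∑ x ∈ T, wt w x = ((∑ s ∈ insert 0 (A0 S c m), s : ℕ) : ℝ) / Mn := by
    rw [← himg, Finset.sum_image (fun x hx y hy h => hinj x hx y hy h)]
    push_cast
    rw [Finset.sum_div]
    exact Finset.sum_congr rfl fun x _ => by rw [hwt]; push_cast; rfl
  rw [hsum] at hgap
  set P : ℝ := 2 ^ (2 * (k + 4) ^ 3) with hP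
  have hP0 : 0 < P := by positivity
  have hPi : ((1 : ℝ) / 2) ^ (2 * (k + 4) ^ 3) = 1 / P := by
    rw [hP, one_div_pow]
  rw [hPi] at hgap
  set σ : ℕ := ∑ s ∈ insert 0 (A0 S c m), s with hσ
  have h1 : P * (k + 1) * (σ : ℝ) ≤ (k * P - 1) * (m * Mn) := by
    have h5 := mul_le_mul_of_nonneg_left hgap (mul_pos hP0 hMr).le
    have h6 : P * Mn * (((k : ℝ) + 1) * ((σ : ℝ) / Mn)) = P * (k + 1) * σ := by field_simp
    have h7 : P * Mn * (((k : ℝ) - 1 / P) * m) = (k * P - 1) * (m * Mn) := by field_simp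
    rw [h6, h7] at h5
    exact h5
  have h2 : 2 * ((m : ℝ) * ((elF S 0 c).card : ℝ)) + 2 * (σ : ℝ) + m = 2 * (m * c) + m * m := by
    exact_mod_cast hSel S c m H
  have h4 : (Mn : ℝ) = c + m - 1 := by
    have h5 : Mn + 1 = c + m := by omega
    have h6 : (Mn : ℝ) + 1 = c + m := by exact_mod_cast h5
    linarith
  have h5 : (k : ℝ) * P * m ≤ Mn := by
    rw [hP]
    exact_mod_cast hQ
  have hfin := Maq_arith (elF S 0 c).card c m σ k P Mn hP0 (by exact_mod_cast hm0)
    (by exact_mod_cast (show 1 ≤ k by omega)) h1 h2 h4 h5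
  have h6 : (2 : ℝ) ^ (2 * (k + 4) ^ 3 + 1) = 2 * P := by rw [pow_succ, hP]; ring
  have h7 : (((2 ^ (2 * (k + 4) ^ 3 + 1) + 1) * c : ℕ) : ℝ) ≤
      ((2 ^ (2 * (k + 4) ^ 3 + 1) * ((k + 1) * (elF S 0 c).card) : ℕ) : ℝ) := by
    push_cast
    rw [h6]
    exact hfin
  exact_mod_cast h7

end Pool.Agent.WLF
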