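import Pool.Agent.WLF.St

/-!
# WLF Mix: a coarse and a fine direction
-/

set_option autoImplicit false

namespace Pool.Agent.WLF

open Finset

theorem mix_wt {k : ℕ} (w : Fin k → ℝ) (x : Fin k → ℕ) (i : Fin k) (n : ℕ) :
    wt w (Function.update x i n) = wt w x + w i * ((n : ℝ) - x i) := by
  unfold wt
  rw [← Finset.add_sum_erase _ _ (Finset.mem_univ i), ← Finset.add_sum_erase _
    (fun a => w a * (x a : ℝ)) (Finset.mem_univ i), Function.update_self]
  have h : ∑ a ∈ Finset.univ.erase i, w a * ((Function.update x i n a : ℕ) : ℝ) =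
      ∑ a ∈ Finset.univ.erase i, w a * (x a : ℝ) :=
    Finset.sum_congr rfl fun a ha => by
      rw [Function.update_of_ne (Finset.ne_of_mem_erase ha)]
  rw [h]
  ring

theorem mix_good (hLine : St_Line) {k m : ℕ} {w : Fin k → ℝ} {g : Fin k → ZMod m}
    {T : Finset (Fin k → ℕ)} {ε : ℝ} (hT : Til m w g T) {x : Fin k → ℕ} (hx : x ∈ T)
    (hg : Good w T ε x) (i : Fin k) :
    1 - ε ≤ wt w (Function.update x i (en T i x)) ∧
      wt w (Function.update x i (en T i x)) ≤ 1 := by
  obtain ⟨h1, h2, -, -⟩ := hLine k T hT.down i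
  refine ⟨?_, hT.le _ (h1 x hx)⟩
  by_contra hcon
  push Not at hcon
  have := h2 x _ (hg i _ hcon)
  omega

theorem thm_Mix (hLine : St_Line) (hLt : St_Lt) : St_Mix := by
  classical
  intro k m w g T ε e i j hT hbad hij hε hεe hwj hwi hke
  have hwj0 : 0 < w j := hT.pos j
  have he : 0 < e := hε.trans hεe
  obtain ⟨h, hh1, hh2⟩ : ∃ h : ℕ, e < h * w j ∧ h * w j ≤ 2 * e := by
    refine ⟨⌊2 * e / w j⌋₊, ?_, ?_⟩
    · have h1 := Nat.lt_floor_add_one (2 * e / w j)
      rw [div_lt_iff₀ hwj0] at h1
      nlinarith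
    · have h1 := Nat.floor_le (a := 2 * e / w j) (by positivity)
      rwa [le_div_iff₀ hwj0] at h1
  have hh0 : 1 ≤ h := by
    rcases Nat.eq_zero_or_pos h with h0 | h0
    · subst h0
      simp only [Nat.cast_zero, zero_mul] at hh1
      linarith
    · exact h0
  have key : ∀ x ∈ T, wt w x < 1 - ε - 2 * e → Good w T ε x →
      Function.update x j (x j + h) ∈ bad w T ε := by
    intro x hx hxw hxg
    have hx' : Function.update x j (x j + h) ∈ T := by
      have h1 := hxg j (x j + h - 1) (by
        rw [mix_wt]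
        have h2 : ((x j + h - 1 : ℕ) : ℝ) = (x j : ℝ) + h - 1 := by
          rw [Nat.cast_sub (by omega)]
          push_cast
          ring
        rw [h2]
        nlinarith)
      have h3 : x j + h - 1 + 1 = x j + h := by omega
      rwa [h3] at h1
    refine Finset.mem_filter.2 ⟨hx', fun hxg' => ?_⟩
    obtain ⟨a1, a2⟩ := mix_good hLine hT hx hxg i
    obtain ⟨b1, b2⟩ := mix_good hLine hT hx' hxg' i
    rw [mix_wt] at a1 a2 b1 b2
    rw [mix_wt, Function.update_of_ne hij] at b1 b2
    have c1 : (((x j + h : ℕ) : ℝ) - x j) = h := by push_cast; ring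
    rw [c1] at b1 b2
    rcases le_or_gt (en T i x) (en T i (Function.update x j (x j + h))) with hp | hp
    · have hp' : (en T i x : ℝ) ≤ en T i (Function.update x j (x j + h)) := by exact_mod_cast hp
      have := mul_le_mul_of_nonneg_left hp' (hT.pos i).le
      nlinarith
    · have hp' : (en T i (Function.update x j (x j + h)) : ℝ) + 1 ≤ en T i x := by
        exact_mod_cast hp
      have := mul_le_mul_of_nonneg_left hp' (hT.pos i).le
      nlinarith
  set A : Finset (Fin k → ℕ) := T.filter fun x => wt w x < 1 - ε - 2 * e with hA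
  have hAc : A.card ≤ 2 * (bad w T ε).card := by
    have h1 : A ⊆ (A.filter fun x => ¬ Good w T ε x) ∪ (A.filter fun x => Good w T ε x) := by
      intro x hx
      by_cases hg : Good w T ε x
      · exact Finset.mem_union_right _ (Finset.mem_filter.2 ⟨hx, hg⟩)
      · exact Finset.mem_union_left _ (Finset.mem_filter.2 ⟨hx, hg⟩)
    have h2 : (A.filter fun x => ¬ Good w T ε x).card ≤ (bad w T ε).card := by
      refine Finset.card_le_card fun x hx => ?_
      obtain ⟨hx1, hx2⟩ := Finset.mem_filter.1 hx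
      exact Finset.mem_filter.2 ⟨(Finset.mem_filter.1 hx1).1, hx2⟩
    have h3 : (A.filter fun x => Good w T ε x).card ≤ (bad w T ε).card := by
      refine Finset.card_le_card_of_injOn (fun x => Function.update x j (x j + h)) ?_ ?_
      · intro x hx
        obtain ⟨hx1, hx2⟩ := Finset.mem_filter.1 hx
        obtain ⟨hx3, hx4⟩ := Finset.mem_filter.1 hx1
        exact key x hx3 hx4 hx2
      · intro x _ y _ hxy
        simp only at hxy
        funext a
        have h4 := congrFun hxy a
        by_cases haj : a = j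
        · subst haj
          rw [Function.update_self, Function.update_self] at h4
          omega
        · rwa [Function.update_of_ne haj, Function.update_of_ne haj] at h4
    calc A.card ≤ _ := Finset.card_le_card h1
      _ ≤ _ := Finset.card_union_le _ _
      _ ≤ 2 * (bad w T ε).card := by omega
  have hk1 : (1 : ℝ) ≤ k := by
    have : 0 < k := Fin.pos i
    exact_mod_cast this
  have he8 : e ≤ 1 / 16 := by nlinarith
  have hm0 : (0 : ℝ) < m := by
    have h1 : 0 < T.card := Finset.card_pos.2 ⟨_, hT.one i⟩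
    rw [hT.card] at h1
    exact_mod_cast h1
  have hAr : (A.card : ℝ) ≤ 2 * (ε * m) := by
    have : (A.card : ℝ) ≤ 2 * (bad w T ε).card := by exact_mod_cast hAc
    linarith
  have hsum : ((m : ℝ) - A.card) * (1 - ε - 2 * e) ≤ ∑ x ∈ T, wt w x := by
    have h1 : ∑ x ∈ T.filter (fun x => ¬ wt w x < 1 - ε - 2 * e), (1 - ε - 2 * e) ≤
        ∑ x ∈ T.filter (fun x => ¬ wt w x < 1 - ε - 2 * e), wt w x :=
      Finset.sum_le_sum fun x hx => not_lt.1 (Finset.mem_filter.1 hx).2
    have h2 : ∑ x ∈ T.filter (fun x => ¬ wt w x < 1 - ε - 2 * e), wt w x ≤ ∑ x ∈ T, wt w x :=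
      Finset.sum_le_sum_of_subset_of_nonneg (Finset.filter_subset _ _) fun x _ _ =>
        Finset.sum_nonneg fun a _ => mul_nonneg (hT.pos a).le (Nat.cast_nonneg _)
    have h3 : ((T.filter (fun x => ¬ wt w x < 1 - ε - 2 * e)).card : ℝ) = m - A.card := by
      have := Finset.card_filter_add_card_filter_not (s := T)
        (fun x => wt w x < 1 - ε - 2 * e)
      rw [hT.card] at this
      rw [eq_sub_iff_add_eq', hA]
      exact_mod_cast this
    rw [Finset.sum_const, nsmul_eq_mul, h3] at h1
    exact h1.trans h2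
  have hlt := hLt k m w g T hT
  have h1 : (1 - 5 * e) * m < ∑ x ∈ T, wt w x := by
    refine lt_of_lt_of_le ?_ hsum
    have h2 : (1 - 2 * ε) * m ≤ m - A.card := by linarith
    have h3 : 0 < 1 - ε - 2 * e := by linarith
    have h4 := mul_le_mul_of_nonneg_right h2 h3.le
    refine lt_of_lt_of_le ?_ h4
    have h5 : 1 - 5 * e < (1 - 2 * ε) * (1 - ε - 2 * e) := by nlinarith
    nlinarith
  have h2 : ((k : ℝ) + 1) * ((1 - 5 * e) * m) < k * m :=
    lt_of_lt_of_le (mul_lt_mul_of_pos_left h1 (by linarith)) hlt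
  have h3 : ((k : ℝ) + 1) * (1 - 5 * e) < k := by
    have : (((k : ℝ) + 1) * (1 - 5 * e)) * m < k * m := by linarith
    exact lt_of_mul_lt_mul_right this hm0.le
  nlinarith

end Pool.Agent.WLF
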