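import Pool.Agent.WLF.St

/-!
# WLF/Pack (helper55): the final count in the fine case
-/

set_option autoImplicit false

namespace Pool.Agent.WLF

open Finset

theorem pack_mono (hCnt : St_Cnt) {k : ℕ} (w : Fin k → ℝ) (hw : ∀ i, 0 < w i) (l l' : ℝ) (hl : l ≤ l')
    (V : Finset (Fin k)) : Nc w l V ≤ Nc w l' V := by
  refine Set.ncard_le_ncard ?_ ((hCnt k w hw).1 l' V)
  rintro x ⟨h1, h2⟩
  exact ⟨h1.trans hl, h2⟩

theorem pack_pos (hCnt : St_Cnt) {k : ℕ} (w : Fin k → ℝ) (hw : ∀ i, 0 < w i) (V : Finset (Fin k)) :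
    1 ≤ Nc w 1 V := by
  have hne : ({x : Fin k → ℕ | wt w x ≤ 1 ∧ ∀ i ∈ V, x i = 0}).Nonempty := by
    refine ⟨0, ?_, fun i _ => rfl⟩
    have : wt w (0 : Fin k → ℕ) = 0 := by simp [wt]
    rw [this]
    norm_num
  exact (Set.ncard_pos ((hCnt k w hw).1 1 V)).2 hne

/-- one direction: the points of weight at most one -/
theorem pack_up (hCnt : St_Cnt) {k : ℕ} (w : Fin k → ℝ) (hw : ∀ i, 0 < w i) (β e : ℝ) (hβ : 0 ≤ β + e)
    (i : Fin k) : ∃ H : ℕ, (H : ℝ) * w i ≤ β + e + w i ∧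
      Nc w 1 ∅ ≤ Nc w (1 - e - β) ∅ + H * Nc w 1 {i} := by
  refine ⟨⌈(β + e) / w i⌉₊, ?_, ?_⟩
  · have h1 : (⌈(β + e) / w i⌉₊ : ℝ) < (β + e) / w i + 1 :=
      Nat.ceil_lt_add_one (div_nonneg hβ (hw i).le)
    have h2 := mul_le_mul_of_nonneg_right h1.le (hw i).le
    rw [add_mul, div_mul_cancel₀ _ (hw i).ne', one_mul] at h2
    exact h2
  · have h1 := (hCnt k w hw).2.1 1 ∅ i ⌈(β + e) / w i⌉₊ (by simp)
    have h2 : Nc w (1 - ⌈(β + e) / w i⌉₊ * w i) ∅ ≤ Nc w (1 - e - β) ∅ := by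
      refine pack_mono hCnt w hw _ _ ?_ _
      have h3 : (β + e) / w i ≤ (⌈(β + e) / w i⌉₊ : ℝ) := Nat.le_ceil _
      have h4 := mul_le_mul_of_nonneg_right h3 (hw i).le
      rw [div_mul_cancel₀ _ (hw i).ne'] at h4
      linarith
    have h5 : insert i (∅ : Finset (Fin k)) = {i} := rfl
    rw [h5] at h1
    omega

theorem pack_arith (β e wi wj Ni Nj Si Sj h h' H H' : ℝ) (hβ : 0 < β) (he : 8 * e = β) (hwi : 0 < wi)
    (hwj : 0 < wj) (hwie : wi ≤ e) (hwje : wj ≤ e) (hNi : 1 ≤ Ni) (hNj : 1 ≤ Nj)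
    (hSi : 3 * Ni ≤ 4 * Si) (hSj : 3 * Nj ≤ 4 * Sj) (h0 : 0 ≤ h) (h0' : 0 ≤ h') (hh : β - wi ≤ h * wi)
    (hh' : β - wj ≤ h' * wj) (hH : H * wi ≤ β + e + wi) (hH' : H' * wj ≤ β + e + wj)
    (c1 : h * Si + h' * Sj ≤ H * Ni) (c2 : h * Si + h' * Sj ≤ H' * Nj) : False := by
  have hp : 0 < β / wi := by positivity
  have hq : 0 < β / wj := by positivity
  have a1 : 7 / 8 * (β / wi) ≤ h := by
    rw [← mul_div_assoc, div_le_iff₀ hwi]
    linarith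
  have a2 : 7 / 8 * (β / wj) ≤ h' := by
    rw [← mul_div_assoc, div_le_iff₀ hwj]
    linarith
  have a3 : H ≤ 10 / 8 * (β / wi) := by
    rw [← mul_div_assoc, le_div_iff₀ hwi]
    linarith
  have a4 : H' ≤ 10 / 8 * (β / wj) := by
    rw [← mul_div_assoc, le_div_iff₀ hwj]
    linarith
  have b1 : 7 / 8 * (β / wi) * (3 / 4 * Ni) ≤ h * Si :=
    mul_le_mul a1 (by linarith) (by linarith) h0
  have b2 : 7 / 8 * (β / wj) * (3 / 4 * Nj) ≤ h' * Sj :=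
    mul_le_mul a2 (by linarith) (by linarith) h0'
  have b3 : H * Ni ≤ 10 / 8 * (β / wi) * Ni := mul_le_mul_of_nonneg_right a3 (by linarith)
  have b4 : H' * Nj ≤ 10 / 8 * (β / wj) * Nj := mul_le_mul_of_nonneg_right a4 (by linarith)
  have d1 : 0 < β / wi * Ni := mul_pos hp (by linarith)
  have d2 : 0 < β / wj * Nj := mul_pos hq (by linarith)
  nlinarith

/-- `St_Pack`. -/
theorem thm_Pack (hCnt : St_Cnt) (hSli : St_Sli) (hDif : St_Dif) : St_Pack := by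
  intro k m w g T hk hT hw hfill
  have hpos := hT.pos
  set i : Fin k := ⟨0, by omega⟩ with hi
  set j : Fin k := ⟨1, by omega⟩ with hj
  have hij : i ≠ j := by
    intro h
    have := congrArg Fin.val h
    simp [hi, hj] at this
  set β : ℝ := (1 / 2) ^ (k + 5) with hβ
  set e : ℝ := (1 / 2) ^ (k + 8) with he
  have hβ0 : 0 < β := by positivity
  have he0 : 0 < e := by positivity
  have he8 : 8 * e = β := by
    rw [he, hβ, pow_add, pow_add]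
    ring
  have hβ2 : (1 / 2 : ℝ) ^ (k + 4) = 2 * β := by
    rw [hβ, pow_add, pow_add]
    ring
  -- the bound from the difference count
  have hfl : ∀ i : Fin k, ((⌊β / w i⌋₊ : ℕ) : ℝ) * w i ≤ β ∧ β - w i ≤ ((⌊β / w i⌋₊ : ℕ) : ℝ) * w i := by
    intro i
    have h1 : ((⌊β / w i⌋₊ : ℕ) : ℝ) ≤ β / w i := Nat.floor_le (by have := hpos i; positivity)
    have h2 : β / w i < ((⌊β / w i⌋₊ : ℕ) : ℝ) + 1 := Nat.lt_floor_add_one _
    have h3 := mul_le_mul_of_nonneg_right h1 (hpos i).le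
    have h4 := mul_le_mul_of_nonneg_right h2.le (hpos i).le
    rw [div_mul_cancel₀ _ (hpos i).ne'] at h3 h4
    constructor
    · exact h3
    · linarith
  have hD := hDif k m w g T e β i j ⌊β / w i⌋₊ ⌊β / w j⌋₊ hT hfill hij (hfl i).1 (hfl j).1 hβ0.le
  have hm : m ≤ Nc w 1 ∅ := by
    have h1 : (T : Set (Fin k → ℕ)).ncard ≤ Nc w 1 ∅ := by
      refine Set.ncard_le_ncard ?_ ((hCnt k w hpos).1 1 ∅)
      intro x hx
      exact ⟨hT.le x hx, fun i hi => by simp at hi⟩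
    rw [Set.ncard_coe_finset, hT.card] at h1
    exact h1
  obtain ⟨H, hH1, hH2⟩ := pack_up hCnt w hpos β e (by linarith) i
  obtain ⟨H', hH1', hH2'⟩ := pack_up hCnt w hpos β e (by linarith) j
  have hs : (1 : ℝ) - (1 / 2) ^ (k + 4) ≤ 1 - e - β := by
    rw [hβ2]
    linarith
  have hwe : ∀ i, w i ≤ (1 / 2) ^ (k + 4) := fun i => by
    have := hw i
    rw [hβ2]
    linarith
  have hSi : 3 * (Nc w 1 {i} : ℝ) ≤ 4 * (Nc w (1 - e - β) {i} : ℝ) := by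
    have h1 := hSli k w hpos i j hij (hwe j)
    have h2 : (Nc w (1 - (1 / 2) ^ (k + 4)) {i} : ℝ) ≤ (Nc w (1 - e - β) {i} : ℝ) := by
      exact_mod_cast pack_mono hCnt w hpos _ _ hs {i}
    linarith
  have hSj : 3 * (Nc w 1 {j} : ℝ) ≤ 4 * (Nc w (1 - e - β) {j} : ℝ) := by
    have h1 := hSli k w hpos j i hij.symm (hwe i)
    have h2 : (Nc w (1 - (1 / 2) ^ (k + 4)) {j} : ℝ) ≤ (Nc w (1 - e - β) {j} : ℝ) := by
      exact_mod_cast pack_mono hCnt w hpos _ _ hs {j}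
    linarith
  have c1 : ⌊β / w i⌋₊ * Nc w (1 - e - β) {i} + ⌊β / w j⌋₊ * Nc w (1 - e - β) {j} ≤ H * Nc w 1 {i} := by
    omega
  have c2 : ⌊β / w i⌋₊ * Nc w (1 - e - β) {i} + ⌊β / w j⌋₊ * Nc w (1 - e - β) {j} ≤ H' * Nc w 1 {j} := by
    omega
  have c1' : (⌊β / w i⌋₊ : ℝ) * Nc w (1 - e - β) {i} + ⌊β / w j⌋₊ * Nc w (1 - e - β) {j} ≤
      H * Nc w 1 {i} := by exact_mod_cast c1
  have c2' : (⌊β / w i⌋₊ : ℝ) * Nc w (1 - e - β) {i} + ⌊β / w j⌋₊ * Nc w (1 - e - β) {j} ≤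
      H' * Nc w 1 {j} := by exact_mod_cast c2
  exact pack_arith β e (w i) (w j) (Nc w 1 {i}) (Nc w 1 {j}) (Nc w (1 - e - β) {i})
    (Nc w (1 - e - β) {j}) ⌊β / w i⌋₊ ⌊β / w j⌋₊ H H' hβ0 he8 (hpos i) (hpos j) (hw i) (hw j)
    (by exact_mod_cast pack_pos hCnt w hpos {i}) (by exact_mod_cast pack_pos hCnt w hpos {j})
    hSi hSj (Nat.cast_nonneg _) (Nat.cast_nonneg _) (hfl i).2 (hfl j).2 hH1 hH1' c1' c2'

end Pool.Agent.WLF
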