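import Pool.Agent.WLF.St

/-!
# WLF [Perf]: `{x | ∑ x ≤ r}`, `r ≥ 2`, is not a set of representatives
-/

set_option autoImplicit false

namespace Pool.Agent.WLF

open Finset

section

variable {k m : ℕ} {g : Fin k → ZMod m}

theorem Perf_add (x : Fin k → ℕ) (i : Fin k) : cls g (x + Pi.single i 1) = cls g x + g i := by
  unfold cls
  have h1 : ∀ j ∈ (univ : Finset (Fin k)), (((x + Pi.single i 1 : Fin k → ℕ) j : ℕ) : ZMod m) * g j =
      (x j : ZMod m) * g j + (if j = i then g j else 0) := by
    intro j _
    rw [Pi.add_apply, Nat.cast_add, add_mul]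
    congr 1
    by_cases hj : j = i
    · subst hj
      rw [Pi.single_eq_same, if_pos rfl, Nat.cast_one, one_mul]
    · rw [Pi.single_eq_of_ne hj, if_neg hj, Nat.cast_zero, zero_mul]
  rw [Finset.sum_congr rfl h1, Finset.sum_add_distrib, Finset.sum_ite_eq' univ i g,
    if_pos (mem_univ i)]

theorem Perf_sum (x : Fin k → ℕ) (i : Fin k) :
    ∑ j, (x + Pi.single i 1 : Fin k → ℕ) j = ∑ j, x j + 1 := by
  simp only [Pi.add_apply, Finset.sum_add_distrib]
  congr 1
  rw [Finset.sum_pi_single' i 1 univ, if_pos (mem_univ i)]

theorem Perf_upd (x : Fin k → ℕ) (i : Fin k) :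
    ∑ j, Function.update x i 0 j + x i = ∑ j, x j := by
  rw [← Finset.sum_erase_add _ _ (mem_univ i), Function.update_self, ← Finset.sum_erase_add
    (s := univ) (f := x) (h := mem_univ i)]
  have h1 : ∑ j ∈ univ.erase i, Function.update x i 0 j = ∑ j ∈ univ.erase i, x j := by
    refine Finset.sum_congr rfl fun j hj => ?_
    rw [Function.update_of_ne (Finset.ne_of_mem_erase hj)]
  omega

end

/-- [PERF] -/
theorem thm_Perf : St_Perf := by
  classical
  intro k m r w g T hk H hT
  have hm : 0 < m := by
    rw [← H.card]
    exact card_pos.mpr ⟨_, H.one ⟨0, by omega⟩⟩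
  have : NeZero m := ⟨by omega⟩
  set i₀ : Fin k := ⟨0, by omega⟩ with hi₀
  set i₁ : Fin k := ⟨1, by omega⟩ with hi₁
  have h01 : i₀ ≠ i₁ := by
    intro h
    rw [hi₀, hi₁, Fin.mk.injEq] at h
    omega
  have hr1 : 1 ≤ r := by
    have h1 := (hT _).mp (H.one i₀)
    have h2 : ∑ j, (Pi.single i₀ 1 : Fin k → ℕ) j = 1 := by
      rw [Finset.sum_pi_single' i₀ 1 univ, if_pos (mem_univ i₀)]
    omega
  -- `r = 1`
  have hr : r = 1 := by
    by_contra hne
    have hr2 : 2 ≤ r := by omega
    set B : Finset (Fin k → ℕ) := T.filter fun x => ∑ j, x j ≤ r - 1 with hB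
    set U : Finset (Fin k → ℕ) := T.filter fun x => ¬ (∑ j, x j ≤ r - 1) with hU
    have hBU : B.card + U.card = m := by
      rw [← H.card, hB, hU, Finset.card_filter_add_card_filter_not]
    set P : Finset (Fin k × (Fin k → ℕ)) := (univ ×ˢ U).filter fun p => 1 ≤ p.2 p.1 with hP
    have hUsum : ∀ x ∈ U, ∑ j, x j = r := by
      intro x hx
      rw [hU, mem_filter] at hx
      have h1 := (hT x).mp hx.1
      omega
    have hPmem : ∀ p ∈ P, ∑ j, p.2 j = r ∧ 1 ≤ p.2 p.1 := by
      intro p hp
      rw [hP, mem_filter, mem_product] at hp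
      exact ⟨hUsum _ hp.1.2, hp.2⟩
    -- the classes
    have hinj : Set.InjOn (fun s : (Fin k → ℕ) ⊕ (Fin k × (Fin k → ℕ)) =>
        s.elim (fun x => cls g x) fun p => cls g (Function.update p.2 p.1 0) - g p.1)
        (B.disjSum P) := by
      have hTsmall : ∀ x : Fin k → ℕ, ∑ j, x j ≤ r - 1 → ∀ i, x + Pi.single i 1 ∈ T := by
        intro x hx i
        rw [hT, Perf_sum]
        omega
      have hBsum : ∀ x ∈ B, x ∈ T ∧ ∑ j, x j ≤ r - 1 := by
        intro x hx
        rw [hB, mem_filter] at hx
        exact hx
      have hPsum : ∀ p ∈ P, ∑ j, Function.update p.2 p.1 0 j ≤ r - 1 := by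
        intro p hp
        have h1 := hPmem p hp
        have h2 := Perf_upd p.2 p.1
        omega
      have key1 : ∀ x ∈ B, ∀ p ∈ P, cls g x ≠ cls g (Function.update p.2 p.1 0) - g p.1 := by
        intro x hx p hp h
        have h1 : cls g (x + Pi.single p.1 1) = cls g (Function.update p.2 p.1 0) := by
          rw [Perf_add, h]; ring
        have h2 := H.inj _ (hTsmall x (hBsum x hx).2 p.1) _ ((hT _).mpr (by
          have := hPsum p hp
          omega)) h1
        have h3 := congrFun h2 p.1
        rw [Function.update_self, Pi.add_apply, Pi.single_eq_same] at h3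
        omega
      have key2 : ∀ p ∈ P, ∀ q ∈ P, cls g (Function.update p.2 p.1 0) - g p.1 =
          cls g (Function.update q.2 q.1 0) - g q.1 → p = q := by
        intro p hp q hq h
        have h1 : cls g (Function.update p.2 p.1 0 + Pi.single q.1 1) =
            cls g (Function.update q.2 q.1 0 + Pi.single p.1 1) := by
          rw [Perf_add, Perf_add]
          linear_combination h
        have h2 := H.inj _ (hTsmall _ (hPsum p hp) q.1) _ (hTsmall _ (hPsum q hq) p.1) h1
        have h3 := congrFun h2 p.1
        rw [Pi.add_apply, Pi.add_apply, Function.update_self, Pi.single_eq_same] at h3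
        have h4 : p.1 = q.1 := by
          by_contra hne
          rw [Pi.single_eq_of_ne hne] at h3
          omega
        have h5 : ∀ j, j ≠ p.1 → p.2 j = q.2 j := by
          intro j hj
          have h6 := congrFun h2 j
          rw [Pi.add_apply, Pi.add_apply, ← h4, Function.update_of_ne hj,
            Function.update_of_ne hj] at h6
          exact Nat.add_right_cancel h6
        have h7 : ∑ j ∈ univ.erase p.1, p.2 j = ∑ j ∈ univ.erase p.1, q.2 j :=
          Finset.sum_congr rfl fun j hj => h5 j (Finset.ne_of_mem_erase hj)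
        have h8 := (hPmem p hp).1
        have h9 := (hPmem q hq).1
        rw [← Finset.sum_erase_add _ _ (mem_univ p.1)] at h8 h9
        have h10 : p.2 = q.2 := by
          funext j
          by_cases hj : j = p.1
          · rw [hj]; omega
          · exact h5 j hj
        exact Prod.ext h4 h10
      intro s hs t ht hst
      rw [mem_coe] at hs ht
      rcases s with x | p <;> rcases t with y | q
      · rw [inl_mem_disjSum] at hs ht
        simp only [Sum.elim_inl] at hst
        rw [H.inj x (hBsum x hs).1 y (hBsum y ht).1 hst]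
      · rw [inl_mem_disjSum] at hs
        rw [inr_mem_disjSum] at ht
        simp only [Sum.elim_inl, Sum.elim_inr] at hst
        exact absurd hst (key1 x hs q ht)
      · rw [inr_mem_disjSum] at hs
        rw [inl_mem_disjSum] at ht
        simp only [Sum.elim_inl, Sum.elim_inr] at hst
        exact absurd hst.symm (key1 y ht p hs)
      · rw [inr_mem_disjSum] at hs ht
        simp only [Sum.elim_inr] at hst
        rw [key2 p hs q ht hst]
    have hcardle : B.card + P.card ≤ m := by
      rw [← Finset.card_disjSum]
      have h1 := Finset.card_le_card_of_injOn _ (fun s _ => mem_univ _) hinj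
      rw [Finset.card_univ, ZMod.card] at h1
      exact h1
    -- the map to `U` is onto and not injective
    have hlt : U.card < P.card := by
      have himg : P.image Prod.snd = U := by
        ext x
        rw [mem_image]
        constructor
        · rintro ⟨p, hp, rfl⟩
          rw [hP, mem_filter, mem_product] at hp
          exact hp.1.2
        · intro hx
          have h1 := hUsum x hx
          obtain ⟨i, -, hi⟩ : ∃ i ∈ (univ : Finset (Fin k)), x i ≠ 0 := by
            apply Finset.exists_ne_zero_of_sum_ne_zero
            omega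
          refine ⟨(i, x), ?_, rfl⟩
          rw [hP, mem_filter, mem_product]
          exact ⟨⟨mem_univ _, hx⟩, by show 1 ≤ x i; omega⟩
      have hle : U.card ≤ P.card := by
        rw [← himg]
        exact card_image_le
      refine lt_of_le_of_ne hle ?_
      intro heq
      have hinj2 : Set.InjOn (Prod.snd : Fin k × (Fin k → ℕ) → (Fin k → ℕ)) P := by
        rw [← Finset.card_image_iff, himg, heq]
      -- the point `(r - 1) e₀ + e₁`
      set z : Fin k → ℕ := Function.update (Pi.single i₁ 1) i₀ (r - 1) with hz
      have hz0 : z i₀ = r - 1 := by rw [hz, Function.update_self]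
      have hz1 : z i₁ = 1 := by
        rw [hz, Function.update_of_ne h01.symm, Pi.single_eq_same]
      have hzsum : ∑ j, z j = r := by
        have h1 := Perf_upd z i₀
        have h2 : Function.update z i₀ 0 = Pi.single i₁ 1 := by
          rw [hz, Function.update_idem]
          funext j
          by_cases hj : j = i₀
          · rw [hj, Function.update_self, Pi.single_eq_of_ne h01]
          · rw [Function.update_of_ne hj]
        rw [h2, Finset.sum_pi_single' i₁ 1 univ, if_pos (mem_univ i₁), hz0] at h1
        omega
      have hzU : z ∈ U := by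
        rw [hU, mem_filter, hT]
        omega
      have hp0 : (i₀, z) ∈ P := by
        rw [hP, mem_filter, mem_product]
        exact ⟨⟨mem_univ _, hzU⟩, by show 1 ≤ z i₀; omega⟩
      have hp1 : (i₁, z) ∈ P := by
        rw [hP, mem_filter, mem_product]
        exact ⟨⟨mem_univ _, hzU⟩, by show 1 ≤ z i₁; omega⟩
      have h3 := hinj2 (mem_coe.mpr hp0) (mem_coe.mpr hp1) rfl
      exact h01 (congrArg Prod.fst h3)
    omega
  -- `m = k + 1`
  subst hr
  have hTe : T = insert 0 (univ.image fun i : Fin k => (Pi.single i 1 : Fin k → ℕ)) := by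
    ext x
    rw [hT, mem_insert, mem_image]
    constructor
    · intro hx
      by_cases h0 : x = 0
      · exact Or.inl h0
      · right
        obtain ⟨i, hi⟩ := Function.ne_iff.mp h0
        rw [Pi.zero_apply] at hi
        refine ⟨i, mem_univ i, ?_⟩
        rw [← Finset.sum_erase_add _ _ (mem_univ i)] at hx
        have h2 : ∑ j ∈ univ.erase i, x j = 0 := by omega
        rw [Finset.sum_eq_zero_iff] at h2
        funext j
        by_cases hj : j = i
        · subst hj
          rw [Pi.single_eq_same]
          omega
        · rw [Pi.single_eq_of_ne hj, h2 j (mem_erase.mpr ⟨hj, mem_univ j⟩)]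
    · rintro (rfl | ⟨i, -, rfl⟩)
      · simp
      · rw [Finset.sum_pi_single' i 1 univ, if_pos (mem_univ i)]
  rw [← H.card, hTe, card_insert_of_notMem, card_image_of_injective, card_univ, Fintype.card_fin]
  · intro i j hij
    by_contra hne
    have h1 := congrFun hij i
    simp only at h1
    rw [Pi.single_eq_same, Pi.single_eq_of_ne hne] at h1
    omega
  · rw [mem_image]
    rintro ⟨i, -, hi⟩
    have h1 := congrFun hi i
    rw [Pi.single_eq_same, Pi.zero_apply] at h1
    omega

end Pool.Agent.WLF
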