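import Pool.Agent.WLF.St

/-!
# WLF/Sel (helper55): the formula of Selmer
-/

set_option autoImplicit false

namespace Pool.Agent.WLF

open Finset Pool.Agent.Helper60.Wilf Pool.Agent.Helper82.Wilf

/-- `St_Sel`. -/
theorem thm_Sel : St_Sel := by
  intro S c m H
  have hm0 := H.hm0
  have himg : (insert 0 (A0 S c m)).image (rr c m) = range m := by
    apply eq_of_subset_of_card_le
    · intro r hr
      obtain ⟨z, hz, rfl⟩ := mem_image.mp hr
      rw [mem_range]
      exact (rr_spec (c := c) hm0 (mem_ins H hz).2.1).2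
    · rw [card_image_of_injOn (fun x hx y hy hxy => rr_inj H hx hy hxy), card_ins H, card_range]
  have hsum : ∑ s ∈ insert 0 (A0 S c m), rr c m s = ∑ r ∈ range m, r := by
    rw [← himg, sum_image (fun x hx y hy hxy => rr_inj H hx hy hxy)]
  have h1 : ∑ s ∈ insert 0 (A0 S c m), (s + lam c m s * m) = ∑ s ∈ insert 0 (A0 S c m), (c + rr c m s) :=
    sum_congr rfl fun s hs => (rr_spec (c := c) hm0 (mem_ins H hs).2.1).1
  have h2 : (elF S 0 c).card = ∑ s ∈ insert 0 (A0 S c m), lam c m s := by
    rw [card_left H, ← sum_insert (zero_notMem_A0 H)]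
  rw [sum_add_distrib, sum_add_distrib, ← sum_mul, ← h2, sum_const, card_ins H, hsum, smul_eq_mul] at h1
  have h3 := sum_range_id_mul_two m
  have h4 : m * (m - 1) + m = m * m := by
    obtain ⟨t, rfl⟩ : ∃ t, m = t + 1 := ⟨m - 1, by omega⟩
    rw [Nat.add_sub_cancel]
    ring
  have h5 : (elF S 0 c).card * m = m * (elF S 0 c).card := mul_comm _ _
  rw [h5] at h1
  omega

end Pool.Agent.WLF
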