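import Pool.Agent.WLF.St

/-!
# WLF Sli: slices of nearby levels (helper21)
-/

set_option autoImplicit false

namespace Pool.Agent.WLF

open Finset

theorem sli_mono (hCnt : St_Cnt) {k : ℕ} (w : Fin k → ℝ) (hw : ∀ i, 0 < w i) (l l' : ℝ)
    (hl : l ≤ l') (V : Finset (Fin k)) : Nc w l V ≤ Nc w l' V :=
  Set.ncard_le_ncard (fun _ hx => ⟨hx.1.trans hl, hx.2⟩) ((hCnt k w hw).1 l' V)

theorem thm_Sli (hCnt : St_Cnt) : St_Sli := by
  intro k w hw i j hij hwj
  obtain ⟨-, h2, h3, h4⟩ := hCnt k w hw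
  set γ : ℝ := (1 / 2) ^ (k + 4) with hγ
  have hγ0 : 0 < γ := by positivity
  have hj := hw j
  have hji : j ∉ ({i} : Finset (Fin k)) := by
    rw [mem_singleton]
    exact fun h => hij h.symm
  set h : ℕ := ⌈γ / w j⌉₊ with hh
  set t : ℕ := ⌊1 / (2 * w j)⌋₊ with ht
  have hdiv : 1 ≤ γ / w j := by
    rw [le_div_iff₀ hj, one_mul]
    exact hwj
  have hh1 : γ / w j ≤ h := Nat.le_ceil _
  have hh2 : (h : ℝ) ≤ 2 * (γ / w j) := by
    have := (Nat.ceil_lt_add_one (by linarith : 0 ≤ γ / w j)).le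
    linarith
  have hh3 : γ ≤ h * w j := by
    rw [div_le_iff₀ hj] at hh1
    exact hh1
  have ht1 : (t : ℝ) ≤ 1 / (2 * w j) := Nat.floor_le (by positivity)
  have ht2 : 1 / (2 * w j) < t + 1 := Nat.lt_floor_add_one _
  have ht3 : 1 / 2 + (t : ℝ) * w j ≤ 1 := by
    have h5 : (t : ℝ) * w j ≤ 1 / (2 * w j) * w j := mul_le_mul_of_nonneg_right ht1 hj.le
    have h6 : 1 / (2 * w j) * w j = 1 / 2 := by
      field_simp
    linarith
  have e2 := h2 1 {i} j h hji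
  have e2' : (Nc w 1 {i} : ℝ) ≤ Nc w (1 - γ) {i} + h * Nc w 1 (insert j {i}) := by
    have h5 := sli_mono hCnt w hw (1 - h * w j) (1 - γ) (by linarith) {i}
    have h6 : Nc w 1 {i} ≤ Nc w (1 - γ) {i} + h * Nc w 1 (insert j {i}) :=
      e2.trans (Nat.add_le_add_right h5 _)
    exact_mod_cast h6
  have e3 : ((t : ℝ) + 1) * Nc w (1 / 2) (insert j {i}) ≤ Nc w 1 {i} := by
    exact_mod_cast h3 1 (1 / 2) {i} j t hji ht3
  have e4 : (Nc w 1 (insert j {i}) : ℝ) ≤ 2 ^ k * Nc w (1 / 2) (insert j {i}) := by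
    exact_mod_cast h4 1 (insert j {i}) zero_le_one
  have e5 : (h : ℝ) * Nc w 1 (insert j {i}) ≤ Nc w 1 {i} / 4 := by
    set X : ℝ := (Nc w (1 / 2) (insert j {i}) : ℝ) with hX
    have hX0 : 0 ≤ X := Nat.cast_nonneg _
    have hk : γ * 2 ^ k = 1 / 16 := by
      rw [hγ, pow_add, mul_assoc, mul_comm ((1 / 2 : ℝ) ^ 4), ← mul_assoc, ← mul_pow]
      norm_num
    calc (h : ℝ) * Nc w 1 (insert j {i}) ≤ h * (2 ^ k * X) :=
          mul_le_mul_of_nonneg_left e4 (Nat.cast_nonneg _)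
      _ ≤ 2 * (γ / w j) * (2 ^ k * X) := mul_le_mul_of_nonneg_right hh2 (by positivity)
      _ = (4 * (γ * 2 ^ k)) * (1 / (2 * w j) * X) := by
          field_simp
          ring
      _ = 1 / 4 * (1 / (2 * w j) * X) := by
          rw [hk]
          ring
      _ ≤ 1 / 4 * ((t + 1) * X) := by
          apply mul_le_mul_of_nonneg_left _ (by norm_num)
          exact mul_le_mul_of_nonneg_right ht2.le hX0
      _ ≤ 1 / 4 * Nc w 1 {i} := mul_le_mul_of_nonneg_left e3 (by norm_num)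
      _ = Nc w 1 {i} / 4 := by ring
  linarith

end Pool.Agent.WLF
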