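import Pool.Agent.WLF.Line
import Pool.Agent.WLF.Avg
import Pool.Agent.WLF.Bad
import Pool.Agent.WLF.FilA
import Pool.Agent.WLF.FilB
import Pool.Agent.WLF.Fill
import Pool.Agent.WLF.Mix
import Pool.Agent.WLF.Coa
import Pool.Agent.WLF.Perf
import Pool.Agent.WLF.Box
import Pool.Agent.WLF.Cnt
import Pool.Agent.WLF.Sli
import Pool.Agent.WLF.Dif
import Pool.Agent.WLF.Pack
import Pool.Agent.WLF.Gap
import Pool.Agent.WLF.Ape
import Pool.Agent.WLF.Sel
import Pool.Agent.WLF.Maq
import Pool.Agent.WLF.Mai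
import Pool.Agent.WLF.Fin

/-!
# WLF: assembly
-/

set_option autoImplicit false

namespace Pool.Agent.WLF

theorem avg : St_Avg := thm_Avg thm_Line

theorem lt : St_Lt := thm_Lt thm_Line avg

theorem fill : St_Fill := thm_Fill thm_FilA thm_FilB

theorem pack : St_Pack := thm_Pack thm_Cnt (thm_Sli thm_Cnt) thm_Dif

theorem gap : St_Gap :=
  thm_Gap (thm_Bad thm_Line avg) fill (thm_Mix thm_Line lt) (thm_Coa thm_Line) thm_Perf thm_Box pack

theorem maq : St_Maq := thm_Maq gap thm_Ape thm_Sel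

theorem mai : St_Mai := thm_Mai maq thm_Ape

end Pool.Agent.WLF
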