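import Pool.Agent.WLF.StB

/-!
# WLF [Full]: if the sum of the slacks is less than 1, then `T` is the whole simplex
-/

set_option autoImplicit false

namespace Pool.Agent.WLF

open Finset

private theorem Full_upd {k : ℕ} (w : Fin k → ℝ) (x : Fin k → ℕ) (i : Fin k) (n : ℕ) :
    wt w (Function.update x i n) = wt w x + w i * n - w i * x i := by
  unfold wt
  rw [← Finset.sum_erase_add _ _ (mem_univ i), ← Finset.sum_erase_add (s := univ)
    (f := fun i => w i * (x i : ℝ)) (h := mem_univ i), Function.update_self]
  have h1 : ∑ j ∈ univ.erase i, w j * ((Function.update x i n j : ℕ) : ℝ) =
      ∑ j ∈ univ.erase i, w j * (x j : ℝ) := by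
    refine Finset.sum_congr rfl fun j hj => ?_
    rw [Function.update_of_ne (Finset.ne_of_mem_erase hj)]
  rw [h1]
  ring

/-- [FULL] -/
theorem thm_Full (hLine : St_Line) (hSumB : St_SumB) : St_Full := by
  classical
  intro k m w g T hk H hs
  obtain ⟨hs0, -⟩ := hSumB k m w g T H
  -- strong induction on the sum of the coordinates
  have key : ∀ (N : ℕ) (y : Fin k → ℕ), ∑ i, y i = N → wt w y ≤ 1 → y ∈ T := by
    intro N
    induction N using Nat.strong_induction_on with
    | _ N ih =>
      intro y hyN hy1
      by_contra hyT
      -- the neighbours below `y` are in `T`
      have hnb : ∀ i, 1 ≤ y i → Function.update y i (y i - 1) ∈ T := by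
        intro i hi
        have hsum : ∑ j, Function.update y i (y i - 1) j < N := by
          rw [← hyN]
          refine Finset.sum_lt_sum ?_ ⟨i, mem_univ i, ?_⟩
          · intro j _
            by_cases hj : j = i
            · subst hj
              rw [Function.update_self]
              exact Nat.sub_le _ _
            · rw [Function.update_of_ne hj]
          · rw [Function.update_self]
            omega
        refine ih _ hsum _ rfl ?_
        rw [Full_upd]
        have h1 : ((y i - 1 : ℕ) : ℝ) = y i - 1 := by
          rw [Nat.cast_sub hi, Nat.cast_one]
        rw [h1]
        have := H.pos i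
        nlinarith
      -- the slack in direction `i`
      have hsl : ∀ i, (y i : ℝ) * (1 - wt w y + w i) ≤ sl w T i := by
        intro i
        rcases Nat.eq_zero_or_pos (y i) with h0 | hpos
        · rw [h0]
          simpa using hs0 i
        obtain ⟨hL1, hL2, hL3, -⟩ := hLine k T H.down i
        have hmem : ∀ n, n < y i → Function.update y i n ∈ T := by
          intro n hn
          refine H.down _ (hnb i hpos) _ ?_
          intro j
          by_cases hj : j = i
          · subst hj
            rw [Function.update_self, Function.update_self]
            exact Nat.le_sub_one_of_lt hn
          · rw [Function.update_of_ne hj, Function.update_of_ne hj]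
        have hen : en T i y = y i - 1 := by
          have h1 : y i - 1 ≤ en T i y := by
            have := hL2 (Function.update y i (y i - 1)) (y i - 1) (by
              rw [Function.update_idem]; exact hnb i hpos)
            rwa [hL3] at this
          have h2 : ¬ y i ≤ en T i y := by
            intro hc
            apply hyT
            have h3 := hL1 _ (hnb i hpos)
            rw [hL3, Function.update_idem] at h3
            refine H.down _ h3 _ ?_
            intro j
            by_cases hj : j = i
            · subst hj
              rw [Function.update_self]
              exact hc
            · rw [Function.update_of_ne hj]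
          omega
        have hinj : Set.InjOn (fun n => Function.update y i n) (range (y i) : Set ℕ) := by
          intro a _ b _ hab
          have := congrFun hab i
          simpa using this
        have hsub : (range (y i)).image (fun n => Function.update y i n) ⊆ T := by
          intro x hx
          rw [mem_image] at hx
          obtain ⟨n, hn, rfl⟩ := hx
          exact hmem n (mem_range.mp hn)
        have hterm : ∀ x ∈ T, 0 ≤ 1 - wt w (Function.update x i (en T i x)) := by
          intro x hx
          have := H.le _ (hL1 x hx)
          linarith
        have hle : ∑ x ∈ (range (y i)).image (fun n => Function.update y i n),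
            (1 - wt w (Function.update x i (en T i x))) ≤ sl w T i :=
          Finset.sum_le_sum_of_subset_of_nonneg hsub fun x hx _ => hterm x hx
        refine le_trans (le_of_eq ?_) hle
        rw [Finset.sum_image hinj]
        have hval : ∀ n ∈ range (y i), 1 - wt w (Function.update (Function.update y i n) i
            (en T i (Function.update y i n))) = 1 - wt w y + w i := by
          intro n _
          rw [hL3, hen, Function.update_idem, Full_upd]
          have h1 : ((y i - 1 : ℕ) : ℝ) = y i - 1 := by
            rw [Nat.cast_sub hpos, Nat.cast_one]
          rw [h1]
          ring
        rw [Finset.sum_congr rfl hval, Finset.sum_const, card_range, nsmul_eq_mul]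
      have h1 : ∑ i, (y i : ℝ) * (1 - wt w y + w i) ≤ ∑ i, sl w T i :=
        Finset.sum_le_sum fun i _ => hsl i
      have h2 : ∑ i, (y i : ℝ) * (1 - wt w y + w i) =
          (∑ i, (y i : ℝ)) * (1 - wt w y) + wt w y := by
        rw [Finset.sum_mul]
        unfold wt
        rw [← Finset.sum_add_distrib]
        refine Finset.sum_congr rfl fun i _ => ?_
        ring
      -- `y ≠ 0`
      have h3 : (1 : ℝ) ≤ ∑ i, (y i : ℝ) := by
        have h4 : 1 ≤ ∑ i, y i := by
          by_contra hc
          have h5 : ∑ i, y i = 0 := by omega
          rw [Finset.sum_eq_zero_iff] at h5
          apply hyT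
          refine H.down _ (H.one ⟨0, hk⟩) _ ?_
          intro j
          rw [h5 j (mem_univ j)]
          exact Nat.zero_le _
        exact_mod_cast h4
      have h6 : 0 ≤ 1 - wt w y := by linarith
      nlinarith
  intro x hx
  exact key _ x rfl hx

end Pool.Agent.WLF
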