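import Pool.Agent.WLF.StB

/-!
# WLF [Half]: the sum of the slacks is at least 1/2
-/

set_option autoImplicit false

namespace Pool.Agent.WLF

open Finset

/-- [HALF] -/
theorem thm_Half (hSumB : St_SumB) (hFull : St_Full) (hPair : St_Pair) (hPerf : St_Perf) :
    St_Half := by
  classical
  intro k m w g T hk H hmk
  obtain ⟨hs0, hs1⟩ := hSumB k m w g T H
  by_contra hcon
  rw [not_le] at hcon
  have hlt : ∑ i, sl w T i < 1 / 2 := by linarith
  have hfull := hFull k m w g T (by omega) H (by linarith)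
  have hw1 : ∀ i, w i ≤ 1 := by
    intro i
    have h1 := H.le _ (H.one i)
    unfold wt at h1
    rw [Finset.sum_eq_single i] at h1
    · rw [Pi.single_eq_same] at h1
      push_cast at h1
      linarith
    · intro j _ hj
      rw [Pi.single_eq_of_ne hj]
      simp
    · intro h
      exact absurd (mem_univ i) h
  set r : Fin k → ℕ := fun i => ⌊1 / w i⌋₊ with hr
  have hr1 : ∀ i, (r i : ℝ) * w i ≤ 1 := by
    intro i
    have h1 : (r i : ℝ) ≤ 1 / w i := Nat.floor_le (by have := H.pos i; positivity)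
    rwa [le_div_iff₀ (H.pos i)] at h1
  have hr2 : ∀ i, 1 < ((r i : ℝ) + 1) * w i := by
    intro i
    have h1 : 1 / w i < (r i : ℝ) + 1 := Nat.lt_floor_add_one _
    rwa [div_lt_iff₀ (H.pos i)] at h1
  have heq : ∀ i j, ¬ r i < r j := by
    intro i j hij'
    have hij : i ≠ j := by
      rintro rfl
      exact absurd hij' (lt_irrefl _)
    have h0 : ((r i : ℝ) + 1) * w j ≤ 1 := by
      have h1 : ((r i : ℝ) + 1) ≤ r j := by exact_mod_cast hij'
      exact le_trans (mul_le_mul_of_nonneg_right h1 (H.pos j).le) (hr1 j)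
    have h1 := hPair k m w g T i j (r i) H hfull hij (hr1 i) (hr2 i) h0
    have h2 : sl w T i + sl w T j ≤ ∑ l, sl w T l := by
      rw [← Finset.sum_pair hij]
      exact Finset.sum_le_sum_of_subset_of_nonneg (subset_univ _) fun l _ _ => hs0 l
    linarith
  have heq' : ∀ i j, r i = r j := by
    intro i j
    have h1 := heq i j
    have h2 := heq j i
    omega
  set i0 : Fin k := ⟨0, by omega⟩ with hi0
  have hR1 : 1 ≤ r i0 := by
    by_contra hc
    have h1 : r i0 = 0 := by omega
    have h2 := hr2 i0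
    rw [h1] at h2
    have h3 := hw1 i0
    push_cast at h2
    linarith
  refine hmk (hPerf k m (r i0) w g T hk H fun x => ⟨fun hx => ?_, fun hx => ?_⟩)
  · obtain ⟨i1, -, hi1⟩ := Finset.exists_min_image univ w ⟨i0, mem_univ _⟩
    have h1 := H.le x hx
    have h2 : (∑ i, (x i : ℝ)) * w i1 ≤ 1 := by
      refine le_trans ?_ h1
      unfold wt
      rw [Finset.sum_mul]
      refine Finset.sum_le_sum fun i _ => ?_
      rw [mul_comm]
      exact mul_le_mul_of_nonneg_right (hi1 i (mem_univ i)) (Nat.cast_nonneg _)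
    rw [← le_div_iff₀ (H.pos i1)] at h2
    rw [heq' i0 i1, hr]
    refine Nat.le_floor ?_
    push_cast
    exact h2
  · refine hfull x ?_
    have hRpos : (0 : ℝ) < r i0 := by exact_mod_cast hR1
    have h1 : (r i0 : ℝ) * wt w x ≤ r i0 := by
      have h2 : (r i0 : ℝ) * wt w x ≤ ∑ i, (x i : ℝ) := by
        unfold wt
        rw [Finset.mul_sum]
        refine Finset.sum_le_sum fun i _ => ?_
        have h3 := hr1 i
        rw [heq' i i0] at h3
        have h4 : (0 : ℝ) ≤ x i := Nat.cast_nonneg _
        nlinarith [mul_le_mul_of_nonneg_right h3 h4]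
      refine le_trans h2 ?_
      exact_mod_cast hx
    have h5 : (r i0 : ℝ) * wt w x ≤ r i0 * 1 := by rw [mul_one]; exact h1
    exact le_of_mul_le_mul_left h5 hRpos

end Pool.Agent.WLF
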