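import Pool.Agent.WLF.StB

/-!
# WLF [Mab]: the lower bound for Wilf's number
-/

set_option autoImplicit false

namespace Pool.Agent.WLF

open Finset Pool.Agent.Helper60.Wilf Pool.Agent.Helper82.Wilf

/-- the arithmetic -/
private theorem Mab_arith (n c m σ k M : ℝ)
    (h1 : (k + 1) * σ ≤ (k * m - 1 / 2) * M) (h2 : 2 * (m * n) + 2 * σ + m = 2 * (m * c) + m * m)
    (h3 : M = c + m - 1) :
    2 * m * c + M ≤ 2 * m * ((k + 1) * n) + (k + 1 - 2) * (m * (m - 1)) := by
  have e1 : 2 * m * ((k + 1) * n) =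
      (k + 1) * (2 * (m * c) + m * m - m) - 2 * ((k + 1) * σ) := by
    linear_combination (k + 1) * h2
  rw [e1]
  have e2 : (k + 1) * (2 * (m * c) + m * m - m) - 2 * ((k * m - 1 / 2) * M) +
      (k + 1 - 2) * (m * (m - 1)) = 2 * m * c + M := by
    rw [h3]; ring
  linarith

/-- [MAB] -/
theorem thm_Mab (hHalf : St_Half) (hApe : St_Ape) (hSel : St_Sel) : St_Mab := by
  classical
  intro S c m A H hA h3 hne hc
  obtain ⟨k, hk⟩ : ∃ k, A.card = k + 1 := ⟨A.card - 1, by omega⟩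
  rw [hk] at h3 hne ⊢
  have hk2 : 2 ≤ k := by omega
  have hm0 : 0 < m := H.hm0
  obtain ⟨a, T, ha, hTc, hone, hdown, hinj, himg⟩ := hApe S c m k A H hA hk
  have hM0 : 0 < c + m - 1 := by omega
  set Mn : ℕ := c + m - 1 with hMn
  have hMr : (0 : ℝ) < (Mn : ℝ) := by exact_mod_cast hM0
  set w : Fin k → ℝ := fun i => (a i : ℝ) / Mn with hw
  set g : Fin k → ZMod m := fun i => (a i : ZMod m) with hg
  have hwt : ∀ x : Fin k → ℕ, wt w x = ((∑ i, a i * x i : ℕ) : ℝ) / Mn := by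
    intro x
    unfold wt
    rw [hw]
    push_cast
    rw [Finset.sum_div]
    exact Finset.sum_congr rfl fun i _ => by ring
  have hcls : ∀ x : Fin k → ℕ, cls g x = ((∑ i, a i * x i : ℕ) : ZMod m) := by
    intro x
    unfold cls
    rw [hg]
    push_cast
    exact Finset.sum_congr rfl fun i _ => by ring
  have hmem : ∀ x ∈ T, ∑ i, a i * x i ∈ insert 0 (A0 S c m) := by
    intro x hx
    rw [← himg]
    exact mem_image_of_mem _ hx
  have htil : Til m w g T := by
    refine ⟨?_, hone, hdown, ?_, ?_, hTc⟩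
    · intro i
      have h1 : 0 < a i := lt_trans hm0 (ha i)
      have h2 : (0 : ℝ) < a i := by exact_mod_cast h1
      exact div_pos h2 hMr
    · intro x hx
      rw [hwt, div_le_one hMr]
      have h1 := (mem_ins H (hmem x hx)).2.1
      have h2 : ∑ i, a i * x i ≤ Mn := by omega
      exact_mod_cast h2
    · intro x hx y hy hxy
      rw [hcls, hcls, ZMod.natCast_eq_natCast_iff] at hxy
      refine hinj x hx y hy ?_
      rcases Nat.le_total (∑ i, a i * x i) (∑ i, a i * y i) with h | h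
      · obtain ⟨j, hj⟩ := (Nat.modEq_iff_dvd' h).mp hxy
        exact (ins_inj H (hmem x hx) (hmem y hy) (j := j) (k := 0) (by
          rw [Nat.zero_mul, mul_comm j m, ← hj]; omega)).1
      · obtain ⟨j, hj⟩ := (Nat.modEq_iff_dvd' h).mp hxy.symm
        exact (ins_inj H (hmem x hx) (hmem y hy) (j := 0) (k := j) (by
          rw [Nat.zero_mul, mul_comm j m, ← hj]; omega)).1
  have hgap := hHalf k m w g T hk2 htil (by omega)
  have hsum : ∑ x ∈ T, wt w x = ((∑ s ∈ insert 0 (A0 S c m), s : ℕ) : ℝ) / Mn := by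
    rw [← himg, Finset.sum_image (fun x hx y hy h => hinj x hx y hy h)]
    push_cast
    rw [Finset.sum_div]
    exact Finset.sum_congr rfl fun x _ => by rw [hwt]; push_cast; rfl
  rw [hsum] at hgap
  set σ : ℕ := ∑ s ∈ insert 0 (A0 S c m), s with hσ
  have h1 : ((k : ℝ) + 1) * (σ : ℝ) ≤ (k * m - 1 / 2) * Mn := by
    have h5 := mul_le_mul_of_nonneg_right hgap hMr.le
    have h6 : ((k : ℝ) + 1) * ((σ : ℝ) / Mn) * Mn = (k + 1) * σ := by field_simp
    rw [h6] at h5
    exact h5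
  have h2 : 2 * ((m : ℝ) * ((elF S 0 c).card : ℝ)) + 2 * (σ : ℝ) + m = 2 * (m * c) + m * m := by
    exact_mod_cast hSel S c m H
  have h4 : (Mn : ℝ) = c + m - 1 := by
    have h5 : Mn + 1 = c + m := by omega
    have h6 : (Mn : ℝ) + 1 = c + m := by exact_mod_cast h5
    linarith
  have hfin := Mab_arith (elF S 0 c).card c m σ k Mn h1 h2 h4
  rw [show k + 1 - 2 = k - 1 by omega]
  have h7 : ((2 * m * c + Mn : ℕ) : ℝ) ≤
      ((2 * m * ((k + 1) * (elF S 0 c).card) + (k - 1) * (m * (m - 1)) : ℕ) : ℝ) := by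
    have e1 : ((k - 1 : ℕ) : ℝ) = k + 1 - 2 := by
      rw [Nat.cast_sub (by omega)]
      push_cast
      ring
    have e2 : ((m - 1 : ℕ) : ℝ) = m - 1 := by
      rw [Nat.cast_sub hm0, Nat.cast_one]
    push_cast
    rw [e1, e2]
    exact hfin
  exact_mod_cast h7

end Pool.Agent.WLF
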