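import Pool.Agent.WLF.StB

/-!
# WLF [Pair]: two directions with different numbers of steps have slack at least 1/2
-/

set_option autoImplicit false

namespace Pool.Agent.WLF

open Finset

private theorem Pair_upd {k : ℕ} (w : Fin k → ℝ) (x : Fin k → ℕ) (i : Fin k) (n : ℕ) :
    wt w (Function.update x i n) = wt w x + w i * n - w i * x i := by
  unfold wt
  rw [← Finset.sum_erase_add _ _ (mem_univ i), ← Finset.sum_erase_add (s := univ)
    (f := fun i => w i * (x i : ℝ)) (h := mem_univ i), Function.update_self]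
  have h1 : ∑ j ∈ univ.erase i, w j * ((Function.update x i n j : ℕ) : ℝ) =
      ∑ j ∈ univ.erase i, w j * (x j : ℝ) := by
    refine Finset.sum_congr rfl fun j hj => ?_
    rw [Function.update_of_ne (Finset.ne_of_mem_erase hj)]
  rw [h1]
  ring

/-- the point with coordinates `a` at `i` and `h` at `j` -/
private def Pp {k : ℕ} (i j : Fin k) (a h : ℕ) : Fin k → ℕ :=
  Function.update (Function.update 0 i a) j h

private theorem Pp_j {k : ℕ} (i j : Fin k) (a h n : ℕ) :
    Function.update (Pp i j a h) j n = Pp i j a n := Function.update_idem ..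

private theorem Pp_i {k : ℕ} {i j : Fin k} (hij : i ≠ j) (a h n : ℕ) :
    Function.update (Pp i j a h) i n = Pp i j n h := by
  unfold Pp
  rw [Function.update_comm hij, Function.update_idem, Function.update_comm hij.symm]

private theorem Pp_wt {k : ℕ} (w : Fin k → ℝ) {i j : Fin k} (hij : i ≠ j) (a h : ℕ) :
    wt w (Pp i j a h) = w i * a + w j * h := by
  unfold Pp
  rw [Pair_upd, Pair_upd, Function.update_of_ne hij.symm]
  have h0 : wt w (0 : Fin k → ℕ) = 0 := by
    unfold wt
    simp
  rw [h0]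
  simp

private theorem Pp_le {k : ℕ} (i j : Fin k) {a h a' h' : ℕ} (ha : a ≤ a') (hh : h ≤ h') :
    Pp i j a h ≤ Pp i j a' h' := by
  intro l
  unfold Pp
  by_cases hj : l = j
  · subst hj
    rw [Function.update_self, Function.update_self]
    exact hh
  · rw [Function.update_of_ne hj, Function.update_of_ne hj]
    by_cases hi : l = i
    · subst hi
      rw [Function.update_self, Function.update_self]
      exact ha
    · rw [Function.update_of_ne hi, Function.update_of_ne hi]

private theorem Pp_inj {k : ℕ} {i j : Fin k} (hij : i ≠ j) {a h a' h' : ℕ}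
    (he : Pp i j a h = Pp i j a' h') : a = a' ∧ h = h' := by
  constructor
  · have h1 := congrFun he i
    unfold Pp at h1
    rw [Function.update_of_ne hij, Function.update_of_ne hij, Function.update_self,
      Function.update_self] at h1
    exact h1
  · have h1 := congrFun he j
    unfold Pp at h1
    rw [Function.update_self, Function.update_self] at h1
    exact h1

/-- [PAIR] -/
theorem thm_Pair (hLine : St_Line) (_hSumB : St_SumB) : St_Pair := by
  classical
  intro k m w g T i j q H hfull hij hq1 hq2 hq3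
  obtain ⟨hi1, hi2, hi3, -⟩ := hLine k T H.down i
  obtain ⟨hj1, hj2, hj3, -⟩ := hLine k T H.down j
  have hα := H.pos i
  have hβ := H.pos j
  have hmem : ∀ a h : ℕ, w i * a + w j * h ≤ 1 → Pp i j a h ∈ T := by
    intro a h hh
    refine hfull _ ?_
    rw [Pp_wt w hij]
    exact hh
  have hmem' : ∀ a h : ℕ, Pp i j a h ∈ T → w i * a + w j * h ≤ 1 := by
    intro a h hh
    have := H.le _ hh
    rwa [Pp_wt w hij] at this
  have hdn : ∀ {a h a' h' : ℕ}, Pp i j a' h' ∈ T → a ≤ a' → h ≤ h' → Pp i j a h ∈ T :=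
    fun hT ha hh => H.down _ hT _ (Pp_le i j ha hh)
  set c : ℕ → ℕ := fun v => en T j (Pp i j v 0) with hc
  set Q : ℕ → ℕ := fun h => en T i (Pp i j 0 h) with hQ
  have ec : ∀ v h, en T j (Pp i j v h) = c v := by
    intro v h
    have := hj3 (Pp i j v 0) h
    rwa [Pp_j] at this
  have eQ : ∀ v h, en T i (Pp i j v h) = Q h := by
    intro v h
    have := hi3 (Pp i j 0 h) v
    rwa [Pp_i hij] at this
  have lc : ∀ v h, Pp i j v h ∈ T → h ≤ c v := by
    intro v h hT
    have := hj2 (Pp i j v 0) h (by rw [Pp_j]; exact hT)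
    exact this
  have lQ : ∀ v h, Pp i j v h ∈ T → v ≤ Q h := by
    intro v h hT
    have := hi2 (Pp i j 0 h) v (by rw [Pp_i hij]; exact hT)
    exact this
  have mc : ∀ v, Pp i j v 0 ∈ T → Pp i j v (c v) ∈ T := by
    intro v hT
    have := hj1 _ hT
    rwa [Pp_j] at this
  have mQ : ∀ h, Pp i j 0 h ∈ T → Pp i j (Q h) h ∈ T := by
    intro h hT
    have := hi1 _ hT
    rwa [Pp_i hij] at this
  have hv0 : ∀ v, v ≤ q → Pp i j v 0 ∈ T := by
    intro v hv
    refine hmem _ _ ?_
    have h1 : (v : ℝ) ≤ q := by exact_mod_cast hv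
    have h2 := mul_le_mul_of_nonneg_left h1 hα.le
    push_cast
    linarith
  have hQ0 : Q 0 = q := by
    have h1 : q ≤ Q 0 := lQ q 0 (hv0 q le_rfl)
    have h2 : Q 0 < q + 1 := by
      by_contra hcon
      rw [not_lt] at hcon
      have h3 := hmem' _ _ (mQ 0 (hv0 0 (Nat.zero_le _)))
      have h4 : ((q : ℝ) + 1) ≤ Q 0 := by exact_mod_cast hcon
      have h5 := mul_le_mul_of_nonneg_left h4 hα.le
      push_cast at h3
      linarith
    omega
  have anti : ∀ h1 h2, h1 ≤ h2 → Pp i j 0 h2 ∈ T → Q h2 ≤ Q h1 := by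
    intro h1 h2 hh hT
    exact lQ _ _ (hdn (mQ h2 hT) le_rfl hh)
  -- slack in direction `j`
  have hslj : ∑ v ∈ range (q + 1), (1 - (w i * v + w j * c v)) ≤ sl w T j := by
    have hsub : (range (q + 1)).image (fun v => Pp i j v 0) ⊆ T := by
      intro x hx
      rw [mem_image] at hx
      obtain ⟨v, hv, rfl⟩ := hx
      exact hv0 v (Nat.lt_succ_iff.mp (mem_range.mp hv))
    have hle : ∑ x ∈ (range (q + 1)).image (fun v => Pp i j v 0),
        (1 - wt w (Function.update x j (en T j x))) ≤ sl w T j := by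
      refine Finset.sum_le_sum_of_subset_of_nonneg hsub fun x hx _ => ?_
      have := H.le _ (hj1 x hx)
      linarith
    refine le_trans (le_of_eq ?_) hle
    rw [Finset.sum_image (fun a _ b _ hab => (Pp_inj hij hab).1)]
    refine Finset.sum_congr rfl fun v _ => ?_
    rw [ec, Pp_j, Pp_wt w hij]
  -- slack in direction `i`
  set D : Finset ((_ : ℕ) × ℕ) := (range (q + 1)).sigma
    (fun v => (Icc 1 (c v)).filter (fun h => Q h = Q (h - 1))) with hD
  have hsli : w j * (D.card : ℝ) ≤ sl w T i := by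
    have hin : ∀ p ∈ D, Pp i j p.1 p.2 ∈ T ∧ 1 ≤ p.2 ∧ Q p.2 = Q (p.2 - 1) := by
      intro p hp
      rw [hD, mem_sigma, mem_filter, mem_Icc, mem_range] at hp
      obtain ⟨hp1, ⟨hp2, hp3⟩, hp4⟩ := hp
      exact ⟨hdn (mc p.1 (hv0 p.1 (by omega))) le_rfl hp3, hp2, hp4⟩
    have hinj : Set.InjOn (fun p : (_ : ℕ) × ℕ => Pp i j p.1 (p.2 - 1)) (D : Set ((_ : ℕ) × ℕ)) := by
      intro p hp p' hp' he
      obtain ⟨-, h1, -⟩ := hin p (mem_coe.mp hp)
      obtain ⟨-, h2, -⟩ := hin p' (mem_coe.mp hp')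
      obtain ⟨e1, e2⟩ := Pp_inj hij he
      obtain ⟨a, b⟩ := p
      obtain ⟨a', b'⟩ := p'
      simp only at e1 e2 h1 h2
      have e3 : b = b' := by omega
      subst e1
      subst e3
      rfl
    have hsub : D.image (fun p : (_ : ℕ) × ℕ => Pp i j p.1 (p.2 - 1)) ⊆ T := by
      intro x hx
      rw [mem_image] at hx
      obtain ⟨p, hp, rfl⟩ := hx
      exact hdn (hin p hp).1 le_rfl (Nat.sub_le _ _)
    have hle : ∑ x ∈ D.image (fun p : (_ : ℕ) × ℕ => Pp i j p.1 (p.2 - 1)),
        (1 - wt w (Function.update x i (en T i x))) ≤ sl w T i := by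
      refine Finset.sum_le_sum_of_subset_of_nonneg hsub fun x hx _ => ?_
      have := H.le _ (hi1 x hx)
      linarith
    refine le_trans ?_ hle
    rw [Finset.sum_image hinj]
    calc w j * (D.card : ℝ) = ∑ _p ∈ D, w j := by
          rw [Finset.sum_const, nsmul_eq_mul, mul_comm]
      _ ≤ _ := by
          refine Finset.sum_le_sum fun p hp => ?_
          obtain ⟨h1, h2, h3⟩ := hin p hp
          rw [eQ, Pp_i hij, Pp_wt w hij]
          have h4 : Pp i j 0 p.2 ∈ T := hdn h1 (Nat.zero_le _) le_rfl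
          have h5 := hmem' _ _ (mQ _ h4)
          rw [h3] at h5
          have h6 : ((p.2 - 1 : ℕ) : ℝ) = p.2 - 1 := by
            rw [Nat.cast_sub h2, Nat.cast_one]
          rw [h6]
          nlinarith
  -- the count on one line
  have hcount : ∀ v ∈ range (q + 1), (c v : ℝ) ≤
      (((Icc 1 (c v)).filter (fun h => Q h = Q (h - 1))).card : ℝ) + ((q : ℝ) - v) := by
    intro v hv
    have hvq : v ≤ q := Nat.lt_succ_iff.mp (mem_range.mp hv)
    have hT : ∀ h, h ≤ c v → Pp i j v h ∈ T := fun h hh => hdn (mc v (hv0 v hvq)) le_rfl hh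
    have hT0 : ∀ h, h ≤ c v → Pp i j 0 h ∈ T := fun h hh => hdn (hT h hh) (Nat.zero_le _) le_rfl
    have hdrop : ((Icc 1 (c v)).filter (fun h => ¬ Q h = Q (h - 1))).card ≤ q - v := by
      rw [← Nat.card_Ico]
      refine Finset.card_le_card_of_injOn (fun h => Q h) ?_ ?_
      · intro h hh
        rw [mem_coe, mem_filter, mem_Icc] at hh
        obtain ⟨⟨h1, h2⟩, h3⟩ := hh
        have h4 := anti (h - 1) h (Nat.sub_le _ _) (hT0 h h2)
        have h5 := anti 0 (h - 1) (Nat.zero_le _) (hT0 (h - 1) (by omega))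
        have h6 := lQ v h (hT h h2)
        rw [mem_coe, mem_Ico]
        have h7 : Q h < q := by omega
        exact ⟨h6, h7⟩
      · intro h hh h' hh' he
        rw [mem_coe, mem_filter, mem_Icc] at hh hh'
        obtain ⟨⟨h1, h2⟩, h3⟩ := hh
        obtain ⟨⟨h1', h2'⟩, h3'⟩ := hh'
        simp only at he
        rcases Nat.lt_trichotomy h h' with hlt | heq | hgt
        · exfalso
          have h4 := anti (h' - 1) h' (Nat.sub_le _ _) (hT0 h' h2')
          have h5 := anti h (h' - 1) (by omega) (hT0 (h' - 1) (by omega))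
          omega
        · exact heq
        · exfalso
          have h4 := anti (h - 1) h (Nat.sub_le _ _) (hT0 h h2)
          have h5 := anti h' (h - 1) (by omega) (hT0 (h - 1) (by omega))
          omega
    have hsplit := Finset.card_filter_add_card_filter_not (s := Icc 1 (c v))
      (fun h => Q h = Q (h - 1))
    rw [Nat.card_Icc] at hsplit
    have h7 : c v + v ≤ ((Icc 1 (c v)).filter (fun h => Q h = Q (h - 1))).card + q := by omega
    have h8 : (c v : ℝ) + v ≤ (((Icc 1 (c v)).filter (fun h => Q h = Q (h - 1))).card : ℝ) + q := by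
      exact_mod_cast h7
    linarith
  have hDc : (D.card : ℝ) =
      ∑ v ∈ range (q + 1), (((Icc 1 (c v)).filter (fun h => Q h = Q (h - 1))).card : ℝ) := by
    rw [hD, card_sigma]
    push_cast
    rfl
  have hG : ∑ v ∈ range (q + 1), (v : ℝ) = q * (q + 1) / 2 := by
    have h1 := Finset.sum_range_id_mul_two (q + 1)
    rw [Nat.add_sub_cancel] at h1
    have h2 : (((∑ v ∈ range (q + 1), v) * 2 : ℕ) : ℝ) = (((q + 1) * q : ℕ) : ℝ) := by rw [h1]
    push_cast at h2
    linarith
  have hS : ∑ v ∈ range (q + 1), (c v : ℝ) ≤ (D.card : ℝ) + q * (q + 1) / 2 := by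
    refine le_trans (Finset.sum_le_sum hcount) (le_of_eq ?_)
    rw [Finset.sum_add_distrib, Finset.sum_sub_distrib, Finset.sum_const, card_range, nsmul_eq_mul,
      hG, ← hDc]
    push_cast
    ring
  have hE : ∑ v ∈ range (q + 1), (1 - (w i * v + w j * c v)) =
      (q + 1) - w i * (q * (q + 1) / 2) - w j * ∑ v ∈ range (q + 1), (c v : ℝ) := by
    rw [Finset.sum_sub_distrib, Finset.sum_add_distrib, ← Finset.mul_sum, ← Finset.mul_sum, hG,
      Finset.sum_const, card_range, nsmul_eq_mul]
    push_cast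
    ring
  rw [hE] at hslj
  have hS' := mul_le_mul_of_nonneg_left hS hβ.le
  have hq0 : (0 : ℝ) ≤ q := Nat.cast_nonneg q
  have e1 : w i * (q * (q + 1) / 2) ≤ (q + 1) / 2 := by
    have : (q : ℝ) * w i * (q + 1) ≤ 1 * (q + 1) :=
      mul_le_mul_of_nonneg_right hq1 (by linarith)
    nlinarith
  have e2 : w j * (q * (q + 1) / 2) ≤ q / 2 := by
    have : ((q : ℝ) + 1) * w j * q ≤ 1 * q := mul_le_mul_of_nonneg_right hq3 hq0
    nlinarith
  have e3 : w j * ((D.card : ℝ) + q * (q + 1) / 2) =
      w j * (D.card : ℝ) + w j * (q * (q + 1) / 2) := by ring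
  rw [e3] at hS'
  linarith

end Pool.Agent.WLF
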