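import Pool.Agent.WLF.StB

/-!
# WLF [SumB]: the slacks are nonnegative; their sum
-/

set_option autoImplicit false

namespace Pool.Agent.WLF

open Finset

/-- [SUMB] -/
theorem thm_SumB (hLine : St_Line) (hAvg : St_Avg) : St_SumB := by
  intro k m w g T H
  refine ⟨fun i => Finset.sum_nonneg fun x hx => ?_, ?_⟩
  · have := H.le _ ((hLine k T H.down i).1 x hx)
    linarith
  · have hcard : (T.card : ℝ) = m := by rw [H.card]
    rw [← hAvg k w T H.down]
    unfold sl
    rw [Finset.sum_comm]
    have h2 : ∀ x ∈ T, ∑ i, (1 - wt w (Function.update x i (en T i x))) =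
        k - ∑ i, wt w (Function.update x i (en T i x)) := by
      intro x _
      rw [Finset.sum_sub_distrib, Finset.sum_const, Finset.card_univ, Fintype.card_fin,
        nsmul_eq_mul, mul_one]
    rw [Finset.sum_congr rfl h2, Finset.sum_sub_distrib, Finset.sum_const, nsmul_eq_mul, hcard,
      mul_comm]

end Pool.Agent.WLF
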