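import Pool.Agent.WLF.All
import Pool.Agent.WLF.SumB
import Pool.Agent.WLF.Full
import Pool.Agent.WLF.Pair
import Pool.Agent.WLF.Half
import Pool.Agent.WLF.Mab

/-!
# WLF, second part: assembly
-/

set_option autoImplicit false

namespace Pool.Agent.WLF

theorem sumB : St_SumB := thm_SumB thm_Line avg

theorem half : St_Half :=
  thm_Half sumB (thm_Full thm_Line sumB) (thm_Pair thm_Line sumB) thm_Perf

theorem mab : St_Mab := thm_Mab half thm_Ape thm_Sel

end Pool.Agent.WLF
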