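import Pool.Agent.WLF.StC

/-!
# WLF, module Cls: classification of the weights
-/

set_option autoImplicit false

namespace Pool.Agent.WLF

open Finset

private theorem Cls_nn {α β : ℝ} {A B : ℕ} {C Q : ℕ → ℕ} (h : Pln α β A B C Q) :
    0 ≤ plc α β A B C Q := by
  unfold plc
  apply add_nonneg
  · apply sum_nonneg
    intro a ha
    have h1 := h.leC a (by have := mem_range.1 ha; omega)
    exact mul_nonneg (by positivity) (by linarith)
  · apply sum_nonneg
    intro b hb
    have h1 := h.leQ b (mem_Icc.1 hb).2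
    exact mul_nonneg (by positivity) (by linarith)

/-- type (a) -/
private def Cls_a {k : ℕ} (w : Fin k → ℝ) (T : Finset (Fin k → ℕ)) (i l : Fin k) : Prop :=
  2 ≤ en T l 0 ∧ |1 / w i - en T l 0| ≤ 2 / 5 ∧ |1 / w l - en T l 0| ≤ 2 / 5 ∧
    1 / 4 ≤ en T i 0 * w i

/-- type (b) -/
private def Cls_b {k : ℕ} (w : Fin k → ℝ) (T : Finset (Fin k → ℕ)) (i l : Fin k) : Prop :=
  en T l 0 = 1 ∧ 9 / 10 < w l ∧ (9 / 10 < w i ∨ en T i 0 * w i < 1 / 40)

private theorem Cls_dich (hPlA : St_PlA) (hPlB : St_PlB) (hPlC : St_PlC) (hPln : St_Pln)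
    {k m : ℕ} {w : Fin k → ℝ} {g : Fin k → ZMod m} {T : Finset (Fin k → ℕ)} (hT : Til m w g T)
    {i l : Fin k} (hil : i ≠ l) (h : pc w T i l < 1 / 20) : Cls_a w T i l ∨ Cls_b w T i l := by
  have hP := hPln k m w g T hT i l hil
  unfold pc at h
  have hC : en T l (Pi.single i 1) ≤ en T l 0 := hP.CB 1 hP.A1
  rcases Nat.lt_or_ge (en T l (Pi.single i 1) + 1) (en T l 0) with h1 | h1
  · exact absurd h1 (hPlB _ _ _ _ _ _ hP h)
  · rcases Nat.lt_or_ge (en T l (Pi.single i 1)) (en T l 0) with h2 | h2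
    · rcases hPlC _ _ _ _ _ _ hP h (by show en T l (Pi.single i 1) + 1 = en T l 0; omega) with
        ⟨e1, e2, e3⟩ | ⟨e1, e2, e3, e4⟩
      · exact Or.inr ⟨e1, e2, Or.inl e3⟩
      · exact Or.inl ⟨e1, e2, e3, e4⟩
    · obtain ⟨e1, e2, e3⟩ := hPlA _ _ _ _ _ _ hP h
        (by show en T l (Pi.single i 1) = en T l 0; omega)
      exact Or.inr ⟨e1, e2, Or.inr e3⟩

private theorem Cls_w {x r : ℝ} (hx : 0 < x) (hr : 2 ≤ r) (h : |1 / x - r| ≤ 2 / 5) :
    ¬ 9 / 10 < x := by
  intro h9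
  have h1 := (abs_le.1 h).1
  have h2 : 8 / 5 ≤ 1 / x := by linarith
  rw [le_div_iff₀ hx] at h2
  linarith

private theorem Cls_ab {k : ℕ} {w : Fin k → ℝ} {T : Finset (Fin k → ℕ)} (hw : ∀ i, 0 < w i)
    {i l l' : Fin k} (ha : Cls_a w T i l) (hb : Cls_b w T i l') : False := by
  obtain ⟨a1, a2, _, a4⟩ := ha
  obtain ⟨_, _, b3⟩ := hb
  rcases b3 with b | b
  · exact Cls_w (hw i) (by exact_mod_cast a1) a2 b
  · linarith

/-- the bad directions for `i` -/
private noncomputable def Cls_bad {k : ℕ} (w : Fin k → ℝ) (T : Finset (Fin k → ℕ)) (i : Fin k) :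
    Finset (Fin k) := (univ.erase i).filter fun l => 1 / 20 ≤ pc w T i l

private theorem Cls_count (hPln : St_Pln) (hPsu : St_Psu) {k m : ℕ} {w : Fin k → ℝ}
    {g : Fin k → ZMod m} {T : Finset (Fin k → ℕ)} (hT : Til m w g T)
    (hs : ∑ i, sl w T i < ((k : ℝ) - 1) / 60) (i : Fin k) :
    3 * (Cls_bad w T i).card + 1 < k := by
  have h1 := hPsu k m w g T hT i
  have h2 : ∑ l ∈ Cls_bad w T i, pc w T i l ≤ ∑ l ∈ univ.erase i, pc w T i l := by
    apply sum_le_sum_of_subset_of_nonneg (filter_subset _ _)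
    intro l hl _
    exact Cls_nn (hPln k m w g T hT i l (ne_of_mem_erase hl).symm)
  have h3 : ((Cls_bad w T i).card : ℝ) * (1 / 20) ≤ ∑ l ∈ Cls_bad w T i, pc w T i l := by
    rw [← nsmul_eq_mul]
    apply card_nsmul_le_sum
    intro l hl
    exact (mem_filter.1 hl).2
  have h4 : (3 * (Cls_bad w T i).card + 1 : ℝ) < k := by linarith
  exact_mod_cast h4

private theorem Cls_good {k : ℕ} {w : Fin k → ℝ} {T : Finset (Fin k → ℕ)} {i l : Fin k}
    (hl : l ≠ i) (h : l ∉ Cls_bad w T i) : pc w T i l < 1 / 20 := by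
  by_contra hc
  exact h (mem_filter.2 ⟨mem_erase.2 ⟨hl, mem_univ l⟩, not_lt.1 hc⟩)

private theorem Cls_common {k : ℕ} {w : Fin k → ℝ} {T : Finset (Fin k → ℕ)}
    (hc : ∀ i, 3 * (Cls_bad w T i).card + 1 < k) (i i' : Fin k) :
    ∃ l, l ≠ i ∧ pc w T i l < 1 / 20 ∧ (l = i' ∨ (l ≠ i' ∧ pc w T i' l < 1 / 20)) := by
  by_contra hcon
  have hsub : univ.erase i ⊆ Cls_bad w T i ∪ Cls_bad w T i' := by
    intro l hl
    have hl1 : l ≠ i := ne_of_mem_erase hl
    rw [mem_union]
    by_contra h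
    rw [not_or] at h
    refine hcon ⟨l, hl1, Cls_good hl1 h.1, ?_⟩
    by_cases h2 : l = i'
    · exact Or.inl h2
    · exact Or.inr ⟨h2, Cls_good h2 h.2⟩
  have h1 := (card_le_card hsub).trans (card_union_le _ _)
  rw [card_erase_of_mem (mem_univ i), card_univ, Fintype.card_fin] at h1
  have h2 := hc i
  have h3 := hc i'
  omega

theorem thm_Cls (hPlA : St_PlA) (hPlB : St_PlB) (hPlC : St_PlC) (hPln : St_Pln)
    (hPsu : St_Psu) : St_Cls := by
  intro k m w g T hk hT hs
  have hw := hT.pos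
  have hcnt := Cls_count hPln hPsu hT hs
  have hcom := Cls_common hcnt
  have hd : ∀ i l, l ≠ i → pc w T i l < 1 / 20 → Cls_a w T i l ∨ Cls_b w T i l :=
    fun i l hl h => Cls_dich hPlA hPlB hPlC hPln hT (Ne.symm hl) h
  obtain ⟨z⟩ : Nonempty (Fin k) := ⟨⟨0, by omega⟩⟩
  obtain ⟨l, hl1, hl2, -⟩ := hcom z z
  rcases hd z l hl1 hl2 with ha | hb
  · left
    refine ⟨en T l 0, ha.1, fun i => ?_⟩
    obtain ⟨l', hl1', hl2', hl3'⟩ := hcom z i
    have ha' : Cls_a w T z l' := by
      rcases hd z l' hl1' hl2' with h | h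
      · exact h
      · exact (Cls_ab hw ha h).elim
    have hr : en T l' 0 = en T l 0 := by
      have h1 := abs_le.1 ha.2.1
      have h2 := abs_le.1 ha'.2.1
      have h3 : (en T l' 0 : ℝ) < en T l 0 + 1 := by linarith [h1.1, h1.2, h2.1, h2.2]
      have h4 : (en T l 0 : ℝ) < en T l' 0 + 1 := by linarith [h1.1, h1.2, h2.1, h2.2]
      have h5 : en T l' 0 < en T l 0 + 1 := by exact_mod_cast h3
      have h6 : en T l 0 < en T l' 0 + 1 := by exact_mod_cast h4
      omega
    rcases hl3' with h | ⟨h, h'⟩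
    · have h1 := ha'.2.2.1
      rw [hr, h] at h1
      exact h1
    · rcases hd i l' h h' with h2 | h2
      · have h1 := h2.2.1
        rw [hr] at h1
        exact h1
      · have h3 := ha'.1
        have h4 := h2.1
        omega
  · right
    have hall : ∀ i, 9 / 10 < w i ∨ en T i 0 * w i < 1 / 40 := by
      intro i
      obtain ⟨l', hl1', hl2', hl3'⟩ := hcom z i
      have hb' : Cls_b w T z l' := by
        rcases hd z l' hl1' hl2' with h | h
        · exact (Cls_ab hw h hb).elim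
        · exact h
      rcases hl3' with h | ⟨h, h'⟩
      · left
        rw [← h]
        exact hb'.2.1
      · rcases hd i l' h h' with h2 | h2
        · have h3 := hb'.1
          have h4 := h2.1
          omega
        · exact h2.2.2
    refine ⟨hall, fun i hi => ?_⟩
    have hi2 : en T i 0 * w i < 1 / 40 := by
      rcases hall i with h | h
      · exact absurd h hi
      · exact h
    have hsub : univ.erase i ⊆ Cls_bad w T i ∪ univ.filter fun l => 9 / 10 < w l := by
      intro l hl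
      have hl1 : l ≠ i := ne_of_mem_erase hl
      rw [mem_union]
      by_cases h : l ∈ Cls_bad w T i
      · exact Or.inl h
      · right
        rcases hd i l hl1 (Cls_good hl1 h) with h2 | h2
        · have h3 := h2.2.2.2
          linarith
        · exact mem_filter.2 ⟨mem_univ l, h2.2.1⟩
    have h1 := (card_le_card hsub).trans (card_union_le _ _)
    rw [card_erase_of_mem (mem_univ i), card_univ, Fintype.card_fin] at h1
    have h2 := hcnt i
    have h3 : 2 * (k - 1) < 3 * (univ.filter fun l => 9 / 10 < w l).card := by omega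
    have h4 : ((2 * (k - 1) : ℕ) : ℝ) < ((3 * (univ.filter fun l => 9 / 10 < w l).card : ℕ) : ℝ) := by
      exact_mod_cast h3
    rw [Nat.cast_mul, Nat.cast_mul, Nat.cast_sub (by omega)] at h4
    push_cast at h4
    exact h4

end Pool.Agent.WLF
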