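import Pool.Agent.WLF.StC

/-!
# WLF [Lig]: heavy and light directions
-/

set_option autoImplicit false

namespace Pool.Agent.WLF

open Finset

private theorem Lig_upd {k : ℕ} (w : Fin k → ℝ) (x : Fin k → ℕ) (i : Fin k) (n : ℕ) :
    wt w (Function.update x i n) = wt w x + w i * n - w i * x i := by
  unfold wt
  rw [← Finset.sum_erase_add _ _ (mem_univ i), ← Finset.sum_erase_add (s := univ)
    (f := fun i => w i * (x i : ℝ)) (h := mem_univ i), Function.update_self]
  have h1 : ∑ j ∈ univ.erase i, w j * ((Function.update x i n j : ℕ) : ℝ) =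
      ∑ j ∈ univ.erase i, w j * (x j : ℝ) := by
    refine Finset.sum_congr rfl fun j hj => ?_
    rw [Function.update_of_ne (Finset.ne_of_mem_erase hj)]
  rw [h1]
  ring

private theorem Lig_one {k : ℕ} (w : Fin k → ℝ) (hw : ∀ i, 0 < w i) (x : Fin k → ℕ) (i : Fin k) :
    w i * x i ≤ wt w x := by
  unfold wt
  exact Finset.single_le_sum (f := fun i => w i * (x i : ℝ))
    (fun j _ => mul_nonneg (hw j).le (Nat.cast_nonneg _)) (mem_univ i)

private theorem Lig_two {k : ℕ} (w : Fin k → ℝ) (hw : ∀ i, 0 < w i) (x : Fin k → ℕ)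
    {i j : Fin k} (hij : i ≠ j) : w i * x i + w j * x j ≤ wt w x := by
  unfold wt
  rw [← Finset.sum_pair (f := fun i => w i * (x i : ℝ)) hij]
  exact Finset.sum_le_sum_of_subset_of_nonneg (subset_univ _)
    fun l _ _ => mul_nonneg (hw l).le (Nat.cast_nonneg _)

private theorem Lig_inc {k : ℕ} (u : Fin k → ℕ) (i : Fin k) :
    u + Pi.single i 1 = Function.update u i (u i + 1) := by
  funext j
  by_cases hj : j = i
  · subst hj
    simp
  · simp [Function.update_of_ne hj, Pi.single_eq_of_ne hj]

/-- [LIG] -/
theorem thm_Lig (hLine : St_Line) : St_Lig := by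
  classical
  intro k m w g T hk H hmk hsl hHL hV
  have hpos := H.pos
  have hnn : ∀ i, ∀ x ∈ T, 0 ≤ 1 - wt w (Function.update x i (en T i x)) := by
    intro i x hx
    have := H.le _ ((hLine k T H.down i).1 x hx)
    linarith
  have hsl0 : ∀ i, 0 ≤ sl w T i := fun i => Finset.sum_nonneg (hnn i)
  have h0T : (0 : Fin k → ℕ) ∈ T := H.down _ (H.one ⟨0, by omega⟩) 0 (fun j => Nat.zero_le _)
  have hlight : ∀ i, ¬ 9 / 10 < w i → w i < 1 / 40 := by
    intro i hi
    have h1 : (1 : ℕ) ≤ en T i 0 := by
      refine (hLine k T H.down i).2.1 0 1 ?_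
      have h2 := H.one i
      rwa [Pi.single, ] at h2
    have h2 := (hHL i).resolve_left hi
    have h3 : (1 : ℝ) ≤ en T i 0 := by exact_mod_cast h1
    nlinarith [hpos i]
  set V : Finset (Fin k) := univ.filter fun l => 9 / 10 < w l with hVdef
  have memV : ∀ l, l ∈ V ↔ 9 / 10 < w l := by
    intro l
    rw [hVdef, mem_filter]
    simp
  -- there is a light direction
  obtain ⟨i₀, hi₀⟩ : ∃ i₀, ¬ 9 / 10 < w i₀ := by
    by_contra hcon
    push Not at hcon
    apply hmk
    have hT : T = insert 0 (univ.image fun i : Fin k => (Pi.single i 1 : Fin k → ℕ)) := by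
      ext x
      rw [mem_insert, mem_image]
      constructor
      · intro hx
        by_cases h0 : x = 0
        · exact Or.inl h0
        · right
          obtain ⟨i, hi⟩ : ∃ i, x i ≠ 0 := by
            by_contra hc
            push Not at hc
            exact h0 (funext hc)
          refine ⟨i, mem_univ _, ?_⟩
          have h1 := H.le x hx
          have h3 : 1 ≤ x i := Nat.one_le_iff_ne_zero.2 hi
          have h3' : (1 : ℝ) ≤ x i := by exact_mod_cast h3
          funext j
          by_cases hj : j = i
          · subst hj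
            rw [Pi.single_eq_same]
            have h4 := Lig_one w hpos x j
            by_contra hne
            have h5 : 2 ≤ x j := by omega
            have h6 : (2 : ℝ) ≤ x j := by exact_mod_cast h5
            nlinarith [hcon j]
          · rw [Pi.single_eq_of_ne hj]
            have h4 := Lig_two w hpos x hj
            by_contra hne
            have h5 : 1 ≤ x j := by omega
            have h6 : (1 : ℝ) ≤ x j := by exact_mod_cast h5
            nlinarith [hcon j, hcon i]
      · rintro (rfl | ⟨i, -, rfl⟩)
        · exact h0T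
        · exact H.one i
    rw [← H.card, hT, card_insert_of_notMem, card_image_of_injective, card_univ, Fintype.card_fin]
    · intro i j hij
      by_contra hne
      have h1 := congrFun hij i
      simp only at h1
      rw [Pi.single_eq_same, Pi.single_eq_of_ne hne] at h1
      exact one_ne_zero h1
    · rw [mem_image]
      rintro ⟨i, -, hi⟩
      have h1 := congrFun hi i
      rw [Pi.single_eq_same] at h1
      exact one_ne_zero h1
  have hi₀V : i₀ ∉ V := fun h => hi₀ ((memV _).1 h)
  have hVc : 2 * ((k : ℝ) - 1) < 3 * (V.card : ℝ) := hV i₀ hi₀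
  have hk1 : (1 : ℝ) ≤ (k : ℝ) - 1 := by
    have : (2 : ℝ) ≤ k := by exact_mod_cast hk
    linarith
  set TU : Finset (Fin k → ℕ) := T.filter fun x => ∀ l ∈ V, x l = 0 with hTU
  have memTU : ∀ x, x ∈ TU ↔ x ∈ T ∧ ∀ l ∈ V, x l = 0 := by
    intro x
    rw [hTU, mem_filter]
  -- (1)
  have hsmall : ∀ x ∈ TU, wt w x < 1 / 10 := by
    by_contra hcon
    push Not at hcon
    obtain ⟨x1, hx1, hx1'⟩ := hcon
    obtain ⟨x, hx, hmin⟩ := Finset.exists_min_image (TU.filter fun x => 1 / 10 ≤ wt w x)
      (fun x => ∑ i, x i) ⟨x1, mem_filter.2 ⟨hx1, hx1'⟩⟩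
    rw [mem_filter, memTU] at hx
    obtain ⟨⟨hxT, hxV⟩, hxw⟩ := hx
    obtain ⟨i, hi⟩ : ∃ i, x i ≠ 0 := by
      by_contra hc
      push Not at hc
      have h1 : wt w x = 0 := by
        unfold wt
        exact Finset.sum_eq_zero fun i _ => by rw [hc i]; simp
      rw [h1] at hxw
      norm_num at hxw
    have hiV : ¬ 9 / 10 < w i := fun h => hi (hxV i ((memV i).2 h))
    have hyle : Function.update x i (x i - 1) ≤ x := by
      intro j
      by_cases hj : j = i
      · subst hj
        rw [Function.update_self]
        exact Nat.sub_le _ _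
      · rw [Function.update_of_ne hj]
    have hyT : Function.update x i (x i - 1) ∈ T := H.down _ hxT _ hyle
    have hyTU : Function.update x i (x i - 1) ∈ TU := by
      rw [memTU]
      refine ⟨hyT, fun l hl => ?_⟩
      have h1 : Function.update x i (x i - 1) l ≤ x l := hyle l
      have h2 := hxV l hl
      exact Nat.le_zero.1 (h2 ▸ h1)
    have hcast : ((x i - 1 : ℕ) : ℝ) = (x i : ℝ) - 1 := by
      rw [Nat.cast_sub (by omega)]
      norm_num
    have hyw : wt w (Function.update x i (x i - 1)) = wt w x - w i := by
      rw [Lig_upd, hcast]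
      ring
    have hys : wt w (Function.update x i (x i - 1)) < 1 / 10 := by
      by_contra hc
      rw [not_lt] at hc
      have h1 := hmin _ (mem_filter.2 ⟨hyTU, hc⟩)
      have h2 : ∑ j, (Function.update x i (x i - 1)) j < ∑ j, x j := by
        refine Finset.sum_lt_sum (fun j _ => hyle j) ⟨i, mem_univ _, ?_⟩
        rw [Function.update_self]
        omega
      omega
    have hwi := hlight i hiV
    have hxw2 : wt w x < 1 / 8 := by linarith
    have hslV : ∀ l ∈ V, (7 / 8 : ℝ) ≤ sl w T l := by
      intro l hl
      have h1 := H.le _ ((hLine k T H.down l).1 x hxT)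
      rw [Lig_upd, hxV l hl] at h1
      have h2 : 9 / 10 < w l := (memV l).1 hl
      have h3 : en T l x = 0 := by
        by_contra hne
        have h4 : (1 : ℝ) ≤ en T l x := by
          exact_mod_cast Nat.one_le_iff_ne_zero.2 hne
        push_cast at h1
        nlinarith
      have h4 : (7 / 8 : ℝ) ≤ 1 - wt w (Function.update x l (en T l x)) := by
        rw [Lig_upd, h3, hxV l hl]
        push_cast
        linarith
      exact h4.trans (Finset.single_le_sum
        (f := fun x => 1 - wt w (Function.update x l (en T l x))) (hnn l) hxT)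
    have h5 : (V.card : ℝ) * (7 / 8) ≤ ∑ i, sl w T i := by
      calc (V.card : ℝ) * (7 / 8) = ∑ _l ∈ V, (7 / 8 : ℝ) := by
            rw [Finset.sum_const, nsmul_eq_mul]
        _ ≤ ∑ l ∈ V, sl w T l := Finset.sum_le_sum hslV
        _ ≤ ∑ i, sl w T i :=
            Finset.sum_le_sum_of_subset_of_nonneg (subset_univ _) fun l _ _ => hsl0 l
    linarith
  -- (2)
  have hcard : m ≤ TU.card * k := by
    have hsub : T ⊆ TU ∪ (TU ×ˢ V).image (fun p => p.1 + Pi.single p.2 1) := by
      intro x hx
      rw [mem_union]
      by_cases hxU : x ∈ TU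
      · exact Or.inl hxU
      · right
        rw [memTU] at hxU
        have h1 : ∃ l ∈ V, x l ≠ 0 := by
          by_contra hc
          push Not at hc
          exact hxU ⟨hx, hc⟩
        obtain ⟨l, hl, hxl⟩ := h1
        have hwl : 9 / 10 < w l := (memV l).1 hl
        have hx1 := H.le x hx
        have hxl1 : x l = 1 := by
          have h4 := Lig_one w hpos x l
          by_contra hne
          have h5 : 2 ≤ x l := by omega
          have h6 : (2 : ℝ) ≤ x l := by exact_mod_cast h5
          nlinarith
        have hule : Function.update x l 0 ≤ x := by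
          intro j
          by_cases hj : j = l
          · subst hj
            rw [Function.update_self]
            exact Nat.zero_le _
          · rw [Function.update_of_ne hj]
        rw [mem_image]
        refine ⟨(Function.update x l 0, l), mem_product.2 ⟨(memTU _).2 ⟨H.down _ hx _ hule, ?_⟩, hl⟩,
          ?_⟩
        · intro j hj
          by_cases hjl : j = l
          · subst hjl
            exact Function.update_self _ _ _
          · simp only
            rw [Function.update_of_ne hjl]
            have hwj : 9 / 10 < w j := (memV j).1 hj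
            have h4 := Lig_two w hpos x hjl
            rw [hxl1] at h4
            by_contra hne
            have h5 : 1 ≤ x j := by omega
            have h6 : (1 : ℝ) ≤ x j := by exact_mod_cast h5
            push_cast at h4
            nlinarith
        · simp only
          rw [Lig_inc, Function.update_self, Function.update_idem]
          rw [show 0 + 1 = x l by omega, Function.update_eq_self]
    have h1 : T.card ≤ TU.card + TU.card * V.card := by
      refine (card_le_card hsub).trans ((card_union_le _ _).trans ?_)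
      refine Nat.add_le_add_left (card_image_le.trans ?_) _
      rw [card_product]
    have h2 : V.card + 1 ≤ k := by
      have h3 : V.card < (univ : Finset (Fin k)).card :=
        card_lt_card (Finset.ssubset_univ_iff.2 fun h => hi₀V (h ▸ mem_univ _))
      rw [card_univ, Fintype.card_fin] at h3
      exact h3
    rw [← H.card]
    calc T.card ≤ TU.card + TU.card * V.card := h1
      _ = TU.card * (V.card + 1) := by ring
      _ ≤ TU.card * k := Nat.mul_le_mul_left _ h2
  -- (3)
  set V' : Finset (Fin k) := V.filter fun i => ∀ u ∈ TU, u + Pi.single i 1 ∈ T with hV'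
  have memV' : ∀ i, i ∈ V' ↔ i ∈ V ∧ ∀ u ∈ TU, u + Pi.single i 1 ∈ T := by
    intro i
    rw [hV']
    exact mem_filter
  have hbadsl : ∀ i ∈ V \ V', (9 / 10 : ℝ) ≤ sl w T i := by
    intro i hi
    rw [Finset.mem_sdiff, memV'] at hi
    obtain ⟨hiV, hi2⟩ := hi
    have h1 : ∃ u ∈ TU, u + Pi.single i 1 ∉ T := by
      by_contra hc
      push Not at hc
      exact hi2 ⟨hiV, hc⟩
    obtain ⟨u, hu, hui⟩ := h1
    have huT := ((memTU u).1 hu).1
    have hu0 : u i = 0 := ((memTU u).1 hu).2 i hiV
    have h2 := (hLine k T H.down i).1 u huT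
    have h3 : en T i u = 0 := by
      by_contra hne
      apply hui
      rw [Lig_inc, hu0]
      refine H.down _ h2 _ ?_
      intro j
      by_cases hj : j = i
      · subst hj
        rw [Function.update_self, Function.update_self]
        exact Nat.one_le_iff_ne_zero.2 hne
      · rw [Function.update_of_ne hj, Function.update_of_ne hj]
    have h4 : (9 / 10 : ℝ) ≤ 1 - wt w (Function.update u i (en T i u)) := by
      rw [Lig_upd, h3, hu0]
      have := hsmall u hu
      push_cast
      linarith
    exact h4.trans (Finset.single_le_sum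
      (f := fun x => 1 - wt w (Function.update x i (en T i x))) (hnn i) huT)
  have hsli₀ : (TU.card : ℝ) * (9 / 10) ≤ sl w T i₀ := by
    calc (TU.card : ℝ) * (9 / 10) = ∑ _u ∈ TU, (9 / 10 : ℝ) := by
          rw [Finset.sum_const, nsmul_eq_mul]
      _ ≤ ∑ u ∈ TU, (1 - wt w (Function.update u i₀ (en T i₀ u))) := by
          refine Finset.sum_le_sum fun u hu => ?_
          obtain ⟨huT, huV⟩ := (memTU u).1 hu
          have h1 : Function.update u i₀ (en T i₀ u) ∈ TU := by
            rw [memTU]
            refine ⟨(hLine k T H.down i₀).1 u huT, fun l hl => ?_⟩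
            rw [Function.update_of_ne (fun h : l = i₀ => hi₀V (h ▸ hl))]
            exact huV l hl
          have h2 := hsmall _ h1
          linarith
      _ ≤ sl w T i₀ :=
          Finset.sum_le_sum_of_subset_of_nonneg (filter_subset _ _) fun x hx _ => hnn i₀ x hx
  have hsum : (((V \ V').card : ℝ) + TU.card) * (9 / 10) ≤ ∑ i, sl w T i := by
    have h1 : i₀ ∉ V \ V' := fun h => hi₀V (Finset.mem_sdiff.1 h).1
    have h2 : ((V \ V').card : ℝ) * (9 / 10) ≤ ∑ i ∈ V \ V', sl w T i := by
      calc ((V \ V').card : ℝ) * (9 / 10) = ∑ _l ∈ V \ V', (9 / 10 : ℝ) := by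
            rw [Finset.sum_const, nsmul_eq_mul]
        _ ≤ _ := Finset.sum_le_sum hbadsl
    have h3 : sl w T i₀ + ∑ i ∈ V \ V', sl w T i ≤ ∑ i, sl w T i := by
      rw [← Finset.sum_insert h1]
      exact Finset.sum_le_sum_of_subset_of_nonneg (subset_univ _) fun l _ _ => hsl0 l
    linarith
  have hcc : ((V \ V').card : ℝ) + V'.card = V.card := by
    exact_mod_cast Finset.card_sdiff_add_card_eq_card (filter_subset _ _)
  refine ⟨TU, V', i₀, filter_subset _ _, ?_, ?_, hcard, ?_, ?_⟩
  · rw [memTU]
    exact ⟨h0T, fun l _ => rfl⟩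
  · rw [memTU]
    refine ⟨H.one i₀, fun l hl => ?_⟩
    exact Pi.single_eq_of_ne (fun h : l = i₀ => hi₀V (h ▸ hl)) _
  · have h0 : (0 : ℝ) ≤ ((V \ V').card : ℝ) := Nat.cast_nonneg _
    have h0' : (0 : ℝ) ≤ (TU.card : ℝ) := Nat.cast_nonneg _
    have h1 : 2 * (TU.card : ℝ) ≤ (V'.card : ℝ) + 2 := by
      nlinarith
    exact_mod_cast h1
  · intro i hi
    rw [memV'] at hi
    refine ⟨fun h => ?_, hi.2⟩
    have h1 := ((memTU _).1 h).2 i hi.1
    rw [Pi.single_eq_same] at h1
    exact one_ne_zero h1

end Pool.Agent.WLF
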