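import Pool.Agent.WLF.StC

/-!
# WLF [Mac]: assembly of the third part
-/

set_option autoImplicit false

namespace Pool.Agent.WLF

open Finset Pool.Agent.Helper60.Wilf Pool.Agent.Helper82.Wilf

/-- the arithmetic -/
private theorem Mac_arith (n c m σ k M s : ℝ) (hm : 0 ≤ m) (hM : 0 < M) (hk : 2 ≤ k)
    (h1 : s = k * m - (k + 1) * (σ / M)) (h2 : 2 * (m * n) + 2 * σ + m = 2 * (m * c) + m * m)
    (h3 : M = c + m - 1) (h4 : (k + 1) * n ≤ c) (h5 : 30 * (m * (m - 1)) < M) :
    s < (k - 1) / 60 := by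
  have e1 : 2 * M * s = 2 * M * (k * m) - 2 * ((k + 1) * σ) := by
    rw [h1]
    field_simp
  have e2 : 2 * M * s = 2 * m * ((k + 1) * n - c) + (k - 1) * (m * (m - 1)) := by
    rw [e1, h3]
    linear_combination (-(k + 1)) * h2
  have e3 : 2 * m * ((k + 1) * n - c) ≤ 0 := by
    have : (k + 1) * n - c ≤ 0 := by linarith
    nlinarith
  have e4 : (k - 1) * (30 * (m * (m - 1))) < (k - 1) * M :=
    mul_lt_mul_of_pos_left h5 (by linarith)
  have e5 : 60 * (M * s) < M * (k - 1) := by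
    nlinarith
  have e6 : M * (60 * s) < M * (k - 1) := by linarith
  have e7 := lt_of_mul_lt_mul_left e6 hM.le
  linarith

/-- [MAC] -/
theorem thm_Mac (hSumB : St_SumB) (hCls : St_Cls) (hCom : St_Com) (hTop : St_Top)
    (hRob : St_Rob) (hLig : St_Lig) (hWll : St_Wll) (hApe : St_Ape) (hSel : St_Sel) : St_Mac := by
  classical
  intro S c m A H hA h3 hne hc hbig
  obtain ⟨k, hk⟩ : ∃ k, A.card = k + 1 := ⟨A.card - 1, by omega⟩
  rw [hk] at h3 hne ⊢
  have hk2 : 2 ≤ k := by omega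
  have hm0 : 0 < m := H.hm0
  obtain ⟨a, T, ha, hTc, hone, hdown, hinj, himg⟩ := hApe S c m k A H hA hk
  have hM0 : 0 < c + m - 1 := by omega
  set Mn : ℕ := c + m - 1 with hMn
  have hMr : (0 : ℝ) < (Mn : ℝ) := by exact_mod_cast hM0
  set w : Fin k → ℝ := fun i => (a i : ℝ) / Mn with hw
  set g : Fin k → ZMod m := fun i => (a i : ZMod m) with hg
  have hwt : ∀ x : Fin k → ℕ, wt w x = ((∑ i, a i * x i : ℕ) : ℝ) / Mn := by
    intro x
    unfold wt
    rw [hw]
    push_cast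
    rw [Finset.sum_div]
    exact Finset.sum_congr rfl fun i _ => by ring
  have hcls : ∀ x : Fin k → ℕ, cls g x = ((∑ i, a i * x i : ℕ) : ZMod m) := by
    intro x
    unfold cls
    rw [hg]
    push_cast
    exact Finset.sum_congr rfl fun i _ => by ring
  have hmem : ∀ x ∈ T, ∑ i, a i * x i ∈ insert 0 (A0 S c m) := by
    intro x hx
    rw [← himg]
    exact mem_image_of_mem _ hx
  have htil : Til m w g T := by
    refine ⟨?_, hone, hdown, ?_, ?_, hTc⟩
    · intro i
      have h1 : 0 < a i := lt_trans hm0 (ha i)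
      have h2 : (0 : ℝ) < a i := by exact_mod_cast h1
      exact div_pos h2 hMr
    · intro x hx
      rw [hwt, div_le_one hMr]
      have h1 := (mem_ins H (hmem x hx)).2.1
      have h2 : ∑ i, a i * x i ≤ Mn := by omega
      exact_mod_cast h2
    · intro x hx y hy hxy
      rw [hcls, hcls, ZMod.natCast_eq_natCast_iff] at hxy
      refine hinj x hx y hy ?_
      rcases Nat.le_total (∑ i, a i * x i) (∑ i, a i * y i) with h | h
      · obtain ⟨j, hj⟩ := (Nat.modEq_iff_dvd' h).mp hxy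
        exact (ins_inj H (hmem x hx) (hmem y hy) (j := j) (k := 0) (by
          rw [Nat.zero_mul, mul_comm j m, ← hj]; omega)).1
      · obtain ⟨j, hj⟩ := (Nat.modEq_iff_dvd' h).mp hxy.symm
        exact (ins_inj H (hmem x hx) (hmem y hy) (j := 0) (k := j) (by
          rw [Nat.zero_mul, mul_comm j m, ← hj]; omega)).1
  have hsum : ∑ x ∈ T, wt w x = ((∑ s ∈ insert 0 (A0 S c m), s : ℕ) : ℝ) / Mn := by
    rw [← himg, Finset.sum_image (fun x hx y hy h => hinj x hx y hy h)]
    push_cast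
    rw [Finset.sum_div]
    exact Finset.sum_congr rfl fun x _ => by rw [hwt]; push_cast; rfl
  have hslsum := (hSumB k m w g T htil).2
  rw [hsum] at hslsum
  set σ : ℕ := ∑ s ∈ insert 0 (A0 S c m), s with hσ
  have h2 : 2 * ((m : ℝ) * ((elF S 0 c).card : ℝ)) + 2 * (σ : ℝ) + m = 2 * (m * c) + m * m := by
    exact_mod_cast hSel S c m H
  have h4 : (Mn : ℝ) = c + m - 1 := by
    have h5 : Mn + 1 = c + m := by omega
    have h6 : (Mn : ℝ) + 1 = c + m := by exact_mod_cast h5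
    linarith
  by_contra hcon
  rw [not_lt] at hcon
  have h5 : ((k : ℝ) + 1) * ((elF S 0 c).card : ℝ) ≤ c := by exact_mod_cast hcon
  have h6 : 30 * ((m : ℝ) * (m - 1)) < Mn := by
    have e2 : ((m - 1 : ℕ) : ℝ) = m - 1 := by
      rw [Nat.cast_sub hm0, Nat.cast_one]
    rw [← e2]
    exact_mod_cast hbig
  have hk2r : (2 : ℝ) ≤ k := by exact_mod_cast hk2
  have hsl : ∑ i, sl w T i < ((k : ℝ) - 1) / 60 :=
    Mac_arith (elF S 0 c).card c m σ k Mn _ (Nat.cast_nonneg _) hMr hk2r hslsum h2 h4 h5 h6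
  rcases hCls k m w g T hk2 htil hsl with ⟨r, hr, hw'⟩ | ⟨hI, hII⟩
  · obtain ⟨hT', hle⟩ := hCom k m r w g T hr htil hw'
    by_cases hfull : ∀ y : Fin k → ℕ, ∑ i, y i + 1 ≤ r → y ∈ T
    · have h7 := hRob k m r g T hk2 hr hT' hfull
      linarith
    · push Not at hfull
      have h7 := hTop k m r g T hk2 hr hT' hfull
      linarith
  · obtain ⟨TU, V', i₀, t1, t2, t3, t4, t5, t6⟩ := hLig k m w g T hk2 htil (by omega) hsl hI hII
    have h7 := hWll S c m k a T TU V' i₀ H hc ha hone hinj himg t1 t2 t3 t4 t5 t6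
    omega

end Pool.Agent.WLF
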