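import Pool.Agent.WLF.StC

/-!
# WLF, PLA (helper89): the plane lemma, case `C 1 = B`
-/

set_option autoImplicit false

namespace Pool.Agent.WLF

open Finset

/-- the summands of `plc` -/
private theorem PlA_terms {α β : ℝ} {A B : ℕ} {C Q : ℕ → ℕ} (h : Pln α β A B C Q) :
    (∀ a ≤ A, ((C a : ℝ) + 1) * (1 - a * α - C a * β) ≤ plc α β A B C Q) ∧
    (∀ b, 1 ≤ b → b ≤ B → ((Q b : ℝ) + 1) * (1 - b * β - Q b * α) ≤ plc α β A B C Q) := by
  have h1 : ∀ a ∈ range (A + 1), 0 ≤ ((C a : ℝ) + 1) * (1 - a * α - C a * β) := by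
    intro a ha
    have h2 := h.leC a (by rw [mem_range] at ha; omega)
    refine mul_nonneg (by positivity) ?_
    linarith
  have h2 : ∀ b ∈ Icc 1 B, 0 ≤ ((Q b : ℝ) + 1) * (1 - b * β - Q b * α) := by
    intro b hb
    have h3 := h.leQ b (mem_Icc.1 hb).2
    refine mul_nonneg (by positivity) ?_
    linarith
  unfold plc
  constructor
  · intro a ha
    have h3 := single_le_sum h1 (mem_range.2 (by omega : a < A + 1))
    have h4 := sum_nonneg h2
    linarith
  · intro b hb hb'
    have h3 := single_le_sum h2 (mem_Icc.2 ⟨hb, hb'⟩)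
    have h4 := sum_nonneg h1
    linarith

theorem thm_PlA : St_PlA := by
  intro α β A B C Q h hp hC1
  obtain ⟨hT1, hT2⟩ := PlA_terms h
  have hα := h.a0
  have hβ := h.b0
  have hB1 : (1 : ℝ) ≤ B := by exact_mod_cast h.B1
  set δ : ℝ := 1 - B * β with hδ
  have h0 := hT1 0 (Nat.zero_le _)
  rw [h.C0, Nat.cast_zero, zero_mul, sub_zero] at h0
  have h0' : ((B : ℝ) + 1) * δ < 1 / 20 := lt_of_le_of_lt h0 hp
  have hδ0 : 0 ≤ δ := by
    have h1 := h.leC 0 (Nat.zero_le _)
    rw [h.C0, Nat.cast_zero, zero_mul, zero_add] at h1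
    rw [hδ]
    linarith
  have hαδ : α ≤ δ := by
    have h1 := h.leC 1 h.A1
    rw [hC1, Nat.cast_one, one_mul] at h1
    rw [hδ]
    linarith
  have hδs : δ < 1 / 40 := by nlinarith
  have hβδ : 19 / 20 < B * (β - δ) := by
    have : B * (β - δ) = 1 - (B + 1) * δ := by
      rw [hδ]
      ring
    rw [this]
    linarith
  have hβδ' : δ < β := by
    by_contra hcon
    rw [not_lt] at hcon
    nlinarith
  have hA : A * α ≤ δ := by
    by_contra hcon
    rw [not_le] at hcon
    classical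
    have hex : ∃ a : ℕ, δ < a * α := ⟨A, hcon⟩
    set a := Nat.find hex with ha
    have ha1 : δ < a * α := Nat.find_spec hex
    have haA : a ≤ A := Nat.find_min' hex hcon
    have ha0 : a ≠ 0 := by
      intro h1
      rw [h1, Nat.cast_zero, zero_mul] at ha1
      linarith
    have ha2 : ((a : ℝ) - 1) * α ≤ δ := by
      have h1 := Nat.find_min hex (m := a - 1) (by omega)
      rw [not_lt] at h1
      have h2 : ((a - 1 : ℕ) : ℝ) = (a : ℝ) - 1 := by
        rw [Nat.cast_sub (by omega), Nat.cast_one]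
      rw [h2] at h1
      exact h1
    have h3 := h.leC a haA
    have h4 := lt_of_le_of_lt (hT1 a haA) hp
    have hCB : (C a : ℝ) < B := by
      have h5 : (C a : ℝ) * β < B * β := by
        rw [hδ] at ha1
        linarith
      exact lt_of_mul_lt_mul_right h5 hβ.le
    have hCB' : C a < B := by exact_mod_cast hCB
    set t : ℝ := (B : ℝ) - C a with ht
    have ht1 : 1 ≤ t := by
      have : ((C a + 1 : ℕ) : ℝ) ≤ B := by exact_mod_cast hCB'
      push_cast at this
      rw [ht]
      linarith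
    have hCa : (C a : ℝ) = B - t := by
      rw [ht]
      ring
    have hC0 : (0 : ℝ) ≤ C a := Nat.cast_nonneg _
    have h5 : 1 - a * α - C a * β = δ + t * β - a * α := by
      rw [hCa, hδ]
      ring
    have h6 : t * (β - δ) ≤ 1 - a * α - C a * β := by
      rw [h5]
      nlinarith
    have h7 : ((C a : ℝ) + 1) * (t * (β - δ)) ≤ ((C a : ℝ) + 1) * (1 - a * α - C a * β) :=
      mul_le_mul_of_nonneg_left h6 (by positivity)
    have h8 : (B : ℝ) ≤ ((C a : ℝ) + 1) * t := by
      rw [ht]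
      nlinarith [mul_nonneg hC0 (by linarith : 0 ≤ t - 1)]
    have h9 : B * (β - δ) ≤ ((C a : ℝ) + 1) * t * (β - δ) :=
      mul_le_mul_of_nonneg_right h8 (by linarith)
    nlinarith
  have h1 := lt_of_le_of_lt (hT2 1 le_rfl h.B1) hp
  rw [Nat.cast_one, one_mul] at h1
  have hQA : (Q 1 : ℝ) ≤ A := by exact_mod_cast h.QA 1 h.B1
  have hQ0 : (0 : ℝ) ≤ Q 1 := Nat.cast_nonneg _
  have h2 := h.leQ 1 h.B1
  rw [Nat.cast_one, one_mul] at h2
  have h3 : 1 - β - Q 1 * α < 1 / 20 := by nlinarith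
  have h4 : (Q 1 : ℝ) * α ≤ A * α := mul_le_mul_of_nonneg_right hQA hα.le
  have hβ9 : 37 / 40 < β := by linarith
  refine ⟨?_, by linarith, by linarith⟩
  have h5 : B < 2 := by
    by_contra hcon
    rw [not_lt] at hcon
    have h6 : (2 : ℝ) ≤ B := by exact_mod_cast hcon
    nlinarith
  have := h.B1
  omega

end Pool.Agent.WLF
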