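import Pool.Agent.WLF.StC

/-!
# WLF, PLC (helper43): the plane lemma, case `C 1 + 1 = B`
-/

set_option autoImplicit false

namespace Pool.Agent.WLF

open Finset

private theorem PlC_c0 {α β : ℝ} {A B : ℕ} {C Q : ℕ → ℕ} (p : Pln α β A B C Q) {a : ℕ} (ha : a ≤ A) :
    0 ≤ ((C a : ℝ) + 1) * (1 - a * α - C a * β) := by
  have h := p.leC a ha
  exact mul_nonneg (by positivity) (by linarith)

private theorem PlC_q0 {α β : ℝ} {A B : ℕ} {C Q : ℕ → ℕ} (p : Pln α β A B C Q) {h : ℕ} (hh : h ≤ B) :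
    0 ≤ ((Q h : ℝ) + 1) * (1 - h * β - Q h * α) := by
  have h1 := p.leQ h hh
  exact mul_nonneg (by positivity) (by linarith)

/-- the sum over the columns is below `1 / 20` -/
private theorem PlC_csum {α β : ℝ} {A B : ℕ} {C Q : ℕ → ℕ} (p : Pln α β A B C Q)
    (hp : plc α β A B C Q < 1 / 20) :
    ∑ a ∈ range (A + 1), ((C a : ℝ) + 1) * (1 - a * α - C a * β) < 1 / 20 := by
  unfold plc at hp
  have h2 : 0 ≤ ∑ h ∈ Icc 1 B, ((Q h : ℝ) + 1) * (1 - h * β - Q h * α) :=
    Finset.sum_nonneg fun i hi => PlC_q0 p (mem_Icc.1 hi).2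
  linarith

private theorem PlC_c {α β : ℝ} {A B : ℕ} {C Q : ℕ → ℕ} (p : Pln α β A B C Q)
    (hp : plc α β A B C Q < 1 / 20) {a : ℕ} (ha : a ≤ A) :
    ((C a : ℝ) + 1) * (1 - a * α - C a * β) < 1 / 20 := by
  have h1 := Finset.single_le_sum (s := range (A + 1))
    (f := fun a => ((C a : ℝ) + 1) * (1 - a * α - C a * β))
    (fun i hi => PlC_c0 p (Nat.lt_succ_iff.1 (mem_range.1 hi))) (mem_range.2 (Nat.lt_succ_iff.2 ha))
  have h2 := PlC_csum p hp
  beta_reduce at h1
  linarith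

private theorem PlC_q {α β : ℝ} {A B : ℕ} {C Q : ℕ → ℕ} (p : Pln α β A B C Q)
    (hp : plc α β A B C Q < 1 / 20) {h : ℕ} (h0 : 1 ≤ h) (hh : h ≤ B) :
    19 / 20 - h * β < Q h * α := by
  unfold plc at hp
  have h1 := Finset.single_le_sum (s := Icc 1 B)
    (f := fun h => ((Q h : ℝ) + 1) * (1 - h * β - Q h * α))
    (fun i hi => PlC_q0 p (mem_Icc.1 hi).2) (mem_Icc.2 ⟨h0, hh⟩)
  have h2 : 0 ≤ ∑ a ∈ range (A + 1), ((C a : ℝ) + 1) * (1 - a * α - C a * β) :=
    Finset.sum_nonneg fun i hi => PlC_c0 p (Nat.lt_succ_iff.1 (mem_range.1 hi))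
  beta_reduce at h1
  have h3 : ((Q h : ℝ) + 1) * (1 - h * β - Q h * α) < 1 / 20 := by linarith
  have h4 := p.leQ h hh
  have h5 : (0 : ℝ) ≤ Q h := Nat.cast_nonneg _
  have h6 : 0 ≤ (Q h : ℝ) * (1 - h * β - Q h * α) := mul_nonneg h5 (by linarith)
  linarith

/-- double counting of the points of the plane with `a ≥ 1` -/
private theorem PlC_dbl {α β : ℝ} {A B : ℕ} {C Q : ℕ → ℕ} (p : Pln α β A B C Q) :
    ∑ a ∈ range A, (C (a + 1) + 1) = ∑ h ∈ range (B + 1), Q h := by
  have h1 : ∀ c ≤ B, c + 1 = ∑ h ∈ range (B + 1), if h ≤ c then 1 else 0 := by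
    intro c hc
    rw [← Finset.sum_filter, Finset.sum_const, smul_eq_mul, mul_one]
    have : (range (B + 1)).filter (fun h => h ≤ c) = range (c + 1) := by
      ext h
      simp only [mem_filter, mem_range]
      omega
    rw [this, card_range]
  have h2 : ∀ q ≤ A, q = ∑ a ∈ range A, if a + 1 ≤ q then 1 else 0 := by
    intro q hq
    rw [← Finset.sum_filter, Finset.sum_const, smul_eq_mul, mul_one]
    have : (range A).filter (fun a => a + 1 ≤ q) = range q := by
      ext a
      simp only [mem_filter, mem_range]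
      omega
    rw [this, card_range]
  calc ∑ a ∈ range A, (C (a + 1) + 1)
      = ∑ a ∈ range A, ∑ h ∈ range (B + 1), (if h ≤ C (a + 1) then 1 else 0) := by
        refine sum_congr rfl fun a ha => ?_
        rw [mem_range] at ha
        exact h1 _ (p.CB _ (by omega))
    _ = ∑ h ∈ range (B + 1), ∑ a ∈ range A, (if h ≤ C (a + 1) then 1 else 0) := sum_comm
    _ = ∑ h ∈ range (B + 1), ∑ a ∈ range A, (if a + 1 ≤ Q h then 1 else 0) := by
        refine sum_congr rfl fun h hh => sum_congr rfl fun a ha => ?_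
        rw [mem_range] at ha hh
        have := p.dual (a + 1) (by omega) h (by omega)
        simp only [this]
    _ = ∑ h ∈ range (B + 1), Q h := by
        refine sum_congr rfl fun h hh => ?_
        rw [mem_range] at hh
        exact (h2 _ (p.QA _ (by omega))).symm

/-- the weighted inequality `N |α - β| < 1 / 10` -/
private theorem PlC_two {α β : ℝ} {A B : ℕ} {C Q : ℕ → ℕ} (p : Pln α β A B C Q)
    (hp : plc α β A B C Q < 1 / 20) (hx : 2 * |α - β| ≤ β) :
    ((∑ a ∈ range A, (C (a + 1) + 1) : ℕ) : ℝ) * |α - β| < 1 / 10 := by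
  have hb := p.b0
  have hab := le_abs_self (α - β)
  have hab' := neg_abs_le (α - β)
  have key : ∀ a ∈ range A, ((C (a + 1) : ℝ) + 1) * |α - β| ≤
      ((C a : ℝ) + 1) * (1 - a * α - C a * β) +
        ((C (a + 1) : ℝ) + 1) * (1 - (a + 1 : ℕ) * α - C (a + 1) * β) := by
    intro a ha
    rw [mem_range] at ha
    have hmono : C (a + 1) ≤ C a := by
      have h1 := (p.dual (a + 1) (by omega) (C (a + 1)) (p.CB _ (by omega))).1 le_rfl
      exact (p.dual a (by omega) (C (a + 1)) (p.CB _ (by omega))).2 (by omega)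
    obtain ⟨t, ht⟩ := Nat.exists_eq_add_of_le hmono
    have hs0 := p.leC a (by omega)
    have hs1 := p.leC (a + 1) (by omega)
    have ht' : (C a : ℝ) = C (a + 1) + t := by exact_mod_cast ht
    push_cast at hs1 ⊢
    have h3 : |α - β| ≤ (1 - a * α - C a * β) + (1 - (a + 1) * α - C (a + 1) * β) := by
      rcases t with _ | _ | t
      · -- `t = 0`
        push_cast at ht'
        have : (1 - a * α - C a * β) = (1 - (a + 1) * α - C (a + 1) * β) + α := by
          rw [ht']
          ring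
        linarith
      · push_cast at ht'
        have h4 : (1 - (a + 1) * α - C (a + 1) * β) - (1 - a * α - C a * β) = β - α := by
          rw [ht']
          ring
        rw [abs_le']
        constructor <;> linarith
      · push_cast at ht'
        have h4 : (1 - (a + 1) * α - C (a + 1) * β) - (1 - a * α - C a * β) =
            (t + 2) * β - α := by
          rw [ht']
          ring
        have h5 : 0 ≤ (t : ℝ) * β := mul_nonneg (Nat.cast_nonneg _) hb.le
        linarith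
    have hC0 : (0 : ℝ) ≤ C (a + 1) := Nat.cast_nonneg _
    have h6 : ((C (a + 1) : ℝ) + 1) * |α - β| ≤ ((C (a + 1) : ℝ) + 1) *
        ((1 - a * α - C a * β) + (1 - (a + 1) * α - C (a + 1) * β)) :=
      mul_le_mul_of_nonneg_left h3 (by linarith)
    have h7 : ((C (a + 1) : ℝ) + 1) * (1 - a * α - C a * β) ≤
        ((C a : ℝ) + 1) * (1 - a * α - C a * β) := by
      refine mul_le_mul_of_nonneg_right ?_ (by linarith)
      rw [ht']
      have : (0 : ℝ) ≤ t := Nat.cast_nonneg _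
      linarith
    linarith
  have h8 := Finset.sum_le_sum key
  rw [Finset.sum_add_distrib, ← Finset.sum_mul] at h8
  have h9 := PlC_csum p hp
  have h10 := h9
  rw [Finset.sum_range_succ] at h9
  rw [Finset.sum_range_succ'] at h10
  have h11 := PlC_c0 p (Nat.le_refl A)
  have h12 := PlC_c0 p (Nat.zero_le A)
  push_cast at h8 h9 h10 h11 h12 ⊢
  linarith

theorem thm_PlC : St_PlC := by
  intro α β A B C Q p hp hC1
  have ha := p.a0
  have hb := p.b0
  have hB1 : (1 : ℝ) ≤ B := by exact_mod_cast p.B1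
  have hC : (C 1 : ℝ) = B - 1 := by
    have : ((C 1 + 1 : ℕ) : ℝ) = B := by exact_mod_cast hC1
    push_cast at this
    linarith
  have h0 := PlC_c p hp (Nat.zero_le A)
  have h0' := p.leC 0 (Nat.zero_le _)
  have h1 := PlC_c p hp p.A1
  have h1' := p.leC 1 p.A1
  rw [p.C0] at h0 h0'
  rw [hC] at h1 h1'
  push_cast at h0 h0' h1 h1'
  obtain ⟨δ, hδ⟩ : ∃ δ : ℝ, δ = 1 - B * β := ⟨_, rfl⟩
  obtain ⟨s, hs⟩ : ∃ s : ℝ, s = 1 - α - (B - 1) * β := ⟨_, rfl⟩
  have hδ0 : 0 ≤ δ := by rw [hδ]; linarith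
  have hs0 : 0 ≤ s := by rw [hs]; linarith
  have hδ1 : ((B : ℝ) + 1) * δ < 1 / 20 := by
    rw [hδ]
    linarith
  have hs1 : (B : ℝ) * s < 1 / 20 := by
    rw [hs]
    linarith
  have hα : α = β + δ - s := by
    rw [hδ, hs]
    ring
  have hBβ : (B : ℝ) * β = 1 - δ := by rw [hδ]; ring
  rcases Nat.eq_or_lt_of_le p.B1 with hB | hB
  · left
    rw [← hB] at hδ1 hs1 hBβ
    push_cast at hδ1 hs1 hBβ
    refine ⟨hB.symm, by linarith, by linarith⟩
  right
  have hB2 : (2 : ℝ) ≤ B := by exact_mod_cast hB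
  have hδ2 : δ < 1 / 60 := by
    have h2 : 0 ≤ ((B : ℝ) - 2) * δ := mul_nonneg (by linarith) hδ0
    linarith
  have hBδ : (B : ℝ) * δ < 1 / 20 := by linarith
  have hBx : (B : ℝ) * |α - β| < 1 / 20 := by
    have h2 : α - β = δ - s := by rw [hα]; ring
    rw [h2]
    rcases abs_cases (δ - s) with ⟨h3, _⟩ | ⟨h3, _⟩
    · rw [h3]
      linarith [mul_nonneg (by linarith : (0 : ℝ) ≤ B) hs0]
    · rw [h3]
      linarith [mul_nonneg (by linarith : (0 : ℝ) ≤ B) hδ0]
  have hx : 2 * |α - β| ≤ β := by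
    have h2 : (B : ℝ) * (2 * |α - β|) ≤ B * β := by
      rw [hBβ]
      linarith
    exact le_of_mul_le_mul_left h2 (by linarith)
  have hx0 := abs_nonneg (α - β)
  have hBα : (B : ℝ) * α ≤ 21 / 20 := by
    have : (B : ℝ) * α = 1 - δ + B * δ - B * s := by
      rw [hα, ← hBβ]
      ring
    rw [this]
    linarith [mul_nonneg (by linarith : (0 : ℝ) ≤ B) hs0]
  have h2 := PlC_two p hp hx
  rw [PlC_dbl p, Finset.sum_range_succ'] at h2
  -- the lower bound of the sum of the rows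
  have hβ1 : β ≤ 1 / 2 := by
    have h3 : 0 ≤ ((B : ℝ) - 2) * β := mul_nonneg (by linarith) hb.le
    linarith
  have hQ1 := PlC_q p hp le_rfl p.B1
  have hQA : (Q 1 : ℝ) ≤ A := by exact_mod_cast p.QA 1 p.B1
  have hQ1A : (Q 1 : ℝ) * α ≤ A * α := mul_le_mul_of_nonneg_right hQA ha.le
  have hrows : 19 / 20 * (B : ℝ) - (B * (B + 1) / 2) * β ≤
      (∑ k ∈ range B, (Q (k + 1) : ℝ)) * α := by
    have h3 : ∀ k ∈ range B, 19 / 20 - ((k : ℝ) + 1) * β ≤ (Q (k + 1) : ℝ) * α := by
      intro k hk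
      rw [mem_range] at hk
      have := PlC_q p hp (h := k + 1) (by omega) (by omega)
      push_cast at this
      exact this.le
    have h4 := Finset.sum_le_sum h3
    rw [← Finset.sum_mul, Finset.sum_sub_distrib, Finset.sum_const, card_range,
      ← Finset.sum_mul, nsmul_eq_mul] at h4
    have h5 : ∀ n : ℕ, ∑ k ∈ range n, ((k : ℝ) + 1) = n * (n + 1) / 2 := by
      intro n
      induction n with
      | zero => simp
      | succ n ih =>
        rw [Finset.sum_range_succ, ih]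
        push_cast
        ring
    rw [h5] at h4
    linarith
  have hN : 9 / 20 * ((B : ℝ) + 1) - β ≤ ((∑ k ∈ range B, Q (k + 1) + Q 0 : ℕ) : ℝ) * α := by
    push_cast
    rw [p.Q0]
    push_cast at hQ1
    have h3 : ((B : ℝ) * (B + 1) / 2) * β ≤ (B + 1) / 2 := by
      have : ((B : ℝ) * (B + 1) / 2) * β = (B + 1) / 2 * (B * β) := by ring
      rw [this, hBβ]
      linarith [mul_nonneg (by linarith : (0 : ℝ) ≤ (B : ℝ) + 1) hδ0]
    linarith
  have h4 : |α - β| * (9 / 20 * ((B : ℝ) + 1) - β) ≤ α / 10 := by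
    have h5 := mul_le_mul_of_nonneg_left hN hx0
    have h6 : ((∑ k ∈ range B, Q (k + 1) + Q 0 : ℕ) : ℝ) * |α - β| * α ≤ 1 / 10 * α :=
      mul_le_mul_of_nonneg_right h2.le ha.le
    linarith
  have h5 : 4 * (B : ℝ) ^ 2 * |α - β| ≤ 1 := by
    have h6 : |α - β| * (9 / 20 * ((B : ℝ) + 1) - β) * B ≤ α / 10 * B :=
      mul_le_mul_of_nonneg_right h4 (by linarith)
    have h7 : 21 / 50 * (B : ℝ) ^ 2 ≤ (9 / 20 * ((B : ℝ) + 1) - β) * B := by
      have : (9 / 20 * ((B : ℝ) + 1) - β) * B = 9 / 20 * B ^ 2 + 9 / 20 * B - B * β := by ring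
      rw [this, hBβ]
      have h9 : 0 ≤ ((B : ℝ) - 2) * (B - 2) := mul_self_nonneg _
      linarith
    have h8 : |α - β| * (21 / 50 * (B : ℝ) ^ 2) ≤
        |α - β| * ((9 / 20 * ((B : ℝ) + 1) - β) * B) := mul_le_mul_of_nonneg_left h7 hx0
    linarith
  -- `y = B |α - β| ≤ 1 / (4 B)`
  have h6 : 4 * (B : ℝ) * (B * |α - β|) ≤ 1 := by
    have : 4 * (B : ℝ) * (B * |α - β|) = 4 * (B : ℝ) ^ 2 * |α - β| := by ring
    rw [this]
    exact h5
  have hy1 : (B : ℝ) * (α - β) ≤ B * |α - β| :=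
    mul_le_mul_of_nonneg_left (le_abs_self _) (by linarith)
  have hy2 : -((B : ℝ) * |α - β|) ≤ B * (α - β) := by
    have := mul_le_mul_of_nonneg_left (neg_abs_le (α - β)) (by linarith : (0 : ℝ) ≤ B)
    linarith
  have hy0 : 0 ≤ (B : ℝ) * |α - β| := by positivity
  generalize (B : ℝ) * |α - β| = y at *
  have hz : (B : ℝ) * α = 1 - δ + B * (α - β) := by
    rw [← hBβ]
    ring
  have hBα1 : 17 / 20 ≤ (B : ℝ) * α := by
    have h7 : 0 ≤ ((B : ℝ) - 2) * y := mul_nonneg (by linarith) hy0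
    linarith
  refine ⟨hB, ?_, ?_, ?_⟩
  · rw [abs_le]
    constructor
    · have : (B : ℝ) - 2 / 5 ≤ 1 / α := by
        rw [le_div_iff₀ ha]
        -- `B α - 2/5 α ≤ 1`
        have h7 : y ≤ 2 / 5 * α := by
          have : (B : ℝ) * y ≤ B * (2 / 5 * α) := by linarith
          exact le_of_mul_le_mul_left this (by linarith)
        linarith
      linarith
    · have : 1 / α ≤ (B : ℝ) + 2 / 5 := by
        rw [div_le_iff₀ ha]
        have h7 : δ + y ≤ 2 / 5 * α := by
          have : (B : ℝ) * (δ + y) ≤ B * (2 / 5 * α) := by linarith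
          exact le_of_mul_le_mul_left this (by linarith)
        linarith
      linarith
  · rw [abs_le]
    constructor
    · have : (B : ℝ) - 2 / 5 ≤ 1 / β := by
        rw [le_div_iff₀ hb]
        linarith
      linarith
    · have : 1 / β ≤ (B : ℝ) + 2 / 5 := by
        rw [div_le_iff₀ hb]
        have h7 : δ ≤ 2 / 5 * β := by
          have : (B : ℝ) * δ ≤ B * (2 / 5 * β) := by linarith
          exact le_of_mul_le_mul_left this (by linarith)
        linarith
      linarith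
  · push_cast at hQ1
    linarith

end Pool.Agent.WLF
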