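import Pool.Agent.WLF.StC

/-!
# WLF/Pln (helper96): the plane section of `T` in two directions
-/

set_option autoImplicit false

namespace Pool.Agent.WLF

open Finset

private theorem Pln_wt {k : ℕ} (w : Fin k → ℝ) {i l : Fin k} (hil : i ≠ l) (a h : ℕ) :
    wt w (Function.update (Pi.single i a) l h) = a * w i + h * w l := by
  unfold wt
  have h1 : ∀ j, w j * ((Function.update (Pi.single i a : Fin k → ℕ) l h j : ℕ) : ℝ) =
      (if j = i then (a : ℝ) * w i else 0) + (if j = l then (h : ℝ) * w l else 0) := by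
    intro j
    by_cases h2 : j = l
    · subst h2
      rw [Function.update_self, if_neg hil.symm, if_pos rfl]
      ring
    · rw [Function.update_of_ne h2, if_neg h2]
      by_cases h3 : j = i
      · subst h3
        rw [Pi.single_eq_same, if_pos rfl]
        ring
      · rw [Pi.single_eq_of_ne h3, if_neg h3]
        simp
  rw [sum_congr rfl fun j _ => h1 j, sum_add_distrib, sum_ite_eq' univ i, sum_ite_eq' univ l,
    if_pos (mem_univ _), if_pos (mem_univ _)]

private theorem Pln_comm {k : ℕ} {i l : Fin k} (hil : i ≠ l) (a h : ℕ) :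
    Function.update (Pi.single i a : Fin k → ℕ) l h =
      Function.update (Pi.single l h : Fin k → ℕ) i a := by
  funext j
  by_cases h1 : j = l
  · subst h1
    rw [Function.update_self, Function.update_of_ne hil.symm, Pi.single_eq_same]
  · rw [Function.update_of_ne h1]
    by_cases h2 : j = i
    · subst h2
      rw [Function.update_self, Pi.single_eq_same]
    · rw [Function.update_of_ne h2, Pi.single_eq_of_ne h1, Pi.single_eq_of_ne h2]

private theorem Pln_iff (hLine : St_Line) {k : ℕ} (T : Finset (Fin k → ℕ))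
    (hd : ∀ x ∈ T, ∀ y : Fin k → ℕ, y ≤ x → y ∈ T) (i : Fin k) (x : Fin k → ℕ) (hx : x ∈ T)
    (n : ℕ) : n ≤ en T i x ↔ Function.update x i n ∈ T := by
  obtain ⟨h1, h2, -, -⟩ := hLine k T hd i
  constructor
  · intro h
    refine hd _ (h1 x hx) _ ?_
    intro j
    by_cases hj : j = i
    · subst hj
      rw [Function.update_self, Function.update_self]
      exact h
    · rw [Function.update_of_ne hj, Function.update_of_ne hj]
  · exact h2 x n

/-- `St_Pln` -/
theorem thm_Pln (hLine : St_Line) : St_Pln := by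
  intro k m w g T hT i l hil
  have hd := hT.down
  have h0 : (0 : Fin k → ℕ) ∈ T := hd _ (hT.one i) _ (fun j => Nat.zero_le _)
  have hs : ∀ (j : Fin k) (n : ℕ), n ≤ en T j 0 ↔ (Pi.single j n : Fin k → ℕ) ∈ T :=
    fun j n => Pln_iff hLine T hd j 0 h0 n
  -- the section is contained in the rectangle
  have hle : ∀ (j j' : Fin k), j ≠ j' → ∀ a ≤ en T j 0, en T j' (Pi.single j a) ≤ en T j' 0 := by
    intro j j' hjj a ha
    rw [hs]
    have h1 := (hLine k T hd j').1 _ ((hs j a).1 ha)
    refine hd _ h1 _ ?_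
    intro t
    by_cases ht : t = j'
    · subst ht
      rw [Pi.single_eq_same, Function.update_self]
    · rw [Pi.single_eq_of_ne ht]
      exact Nat.zero_le _
  have hw : ∀ (j j' : Fin k), j ≠ j' → ∀ a ≤ en T j 0,
      (a : ℝ) * w j + (en T j' (Pi.single j a) : ℕ) * w j' ≤ 1 := by
    intro j j' hjj a ha
    have h1 := hT.le _ ((hLine k T hd j').1 _ ((hs j a).1 ha))
    rwa [Pln_wt w hjj] at h1
  refine ⟨hT.pos i, hT.pos l, (hs i 1).2 (hT.one i), (hs l 1).2 (hT.one l), ?_, ?_, ?_, ?_, ?_,
    ?_, ?_⟩
  · show en T l (Pi.single i 0) = en T l 0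
    rw [Pi.single_zero]
  · show en T i (Pi.single l 0) = en T i 0
    rw [Pi.single_zero]
  · exact fun a ha => hle i l hil a ha
  · exact fun h hh => hle l i hil.symm h hh
  · intro a ha h hh
    show h ≤ en T l (Pi.single i a) ↔ a ≤ en T i (Pi.single l h)
    rw [Pln_iff hLine T hd l _ ((hs i a).1 ha), Pln_iff hLine T hd i _ ((hs l h).1 hh),
      Pln_comm hil]
  · intro a ha
    exact hw i l hil a ha
  · intro h hh
    have h1 := hw l i hil.symm h hh
    show (en T i (Pi.single l h) : ℝ) * w i + h * w l ≤ 1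
    linarith

end Pool.Agent.WLF
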