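import Pool.Agent.WLF.StC

/-!
# WLF [Rob]: a robust version of `Perf`
-/

set_option autoImplicit false

namespace Pool.Agent.WLF

open Finset

section

variable {k m : ℕ} {g : Fin k → ZMod m}

private theorem Rob_add (x : Fin k → ℕ) (i : Fin k) :
    cls g (x + Pi.single i 1) = cls g x + g i := by
  unfold cls
  have h1 : ∀ j ∈ (univ : Finset (Fin k)), (((x + Pi.single i 1 : Fin k → ℕ) j : ℕ) : ZMod m) * g j =
      (x j : ZMod m) * g j + (if j = i then g j else 0) := by
    intro j _
    rw [Pi.add_apply, Nat.cast_add, add_mul]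
    congr 1
    by_cases hj : j = i
    · subst hj
      rw [Pi.single_eq_same, if_pos rfl, Nat.cast_one, one_mul]
    · rw [Pi.single_eq_of_ne hj, if_neg hj, Nat.cast_zero, zero_mul]
  rw [Finset.sum_congr rfl h1, Finset.sum_add_distrib, Finset.sum_ite_eq' univ i g,
    if_pos (mem_univ i)]

private theorem Rob_sum (x : Fin k → ℕ) (i : Fin k) :
    ∑ j, (x + Pi.single i 1 : Fin k → ℕ) j = ∑ j, x j + 1 := by
  simp only [Pi.add_apply, Finset.sum_add_distrib]
  congr 1
  rw [Finset.sum_pi_single' i 1 univ, if_pos (mem_univ i)]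

private theorem Rob_upd (x : Fin k → ℕ) (i : Fin k) (n : ℕ) :
    ∑ j, Function.update x i n j + x i = ∑ j, x j + n := by
  rw [← Finset.sum_erase_add _ _ (mem_univ i), Function.update_self, ← Finset.sum_erase_add
    (s := univ) (f := x) (h := mem_univ i)]
  have h1 : ∑ j ∈ univ.erase i, Function.update x i n j = ∑ j ∈ univ.erase i, x j := by
    refine Finset.sum_congr rfl fun j hj => ?_
    rw [Function.update_of_ne (Finset.ne_of_mem_erase hj)]
  omega

private theorem Rob_le (x : Fin k → ℕ) (i : Fin k) : x i ≤ ∑ j, x j :=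
  Finset.single_le_sum (f := x) (fun _ _ => Nat.zero_le _) (mem_univ i)

/-- vectors with the same sum which agree outside `i` are equal -/
private theorem Rob_eq (x y : Fin k → ℕ) (i : Fin k) (hs : ∑ j, x j = ∑ j, y j)
    (h : ∀ j, j ≠ i → x j = y j) : x = y := by
  have h7 : ∑ j ∈ univ.erase i, x j = ∑ j ∈ univ.erase i, y j :=
    Finset.sum_congr rfl fun j hj => h j (Finset.ne_of_mem_erase hj)
  rw [← Finset.sum_erase_add _ _ (mem_univ i), ← Finset.sum_erase_add univ y (mem_univ i)] at hs
  funext j
  by_cases hj : j = i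
  · rw [hj]; omega
  · exact h j hj

/-- the vectors with sum `n` -/
private def Rob_S (k n : ℕ) : Finset (Fin k → ℕ) :=
  (Fintype.piFinset fun _ : Fin k => range (n + 1)).filter fun x => ∑ i, x i = n

/-- the vectors with sum less than `n` -/
private def Rob_B (k n : ℕ) : Finset (Fin k → ℕ) :=
  (Fintype.piFinset fun _ : Fin k => range (n + 1)).filter fun x => ∑ i, x i + 1 ≤ n

private theorem Rob_memS (n : ℕ) (x : Fin k → ℕ) : x ∈ Rob_S k n ↔ ∑ i, x i = n := by
  rw [Rob_S, mem_filter, Fintype.mem_piFinset]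
  constructor
  · exact fun h => h.2
  · intro h
    refine ⟨fun i => ?_, h⟩
    have := Rob_le x i
    rw [mem_range]
    omega

private theorem Rob_memB (n : ℕ) (x : Fin k → ℕ) : x ∈ Rob_B k n ↔ ∑ i, x i + 1 ≤ n := by
  rw [Rob_B, mem_filter, Fintype.mem_piFinset]
  constructor
  · exact fun h => h.2
  · intro h
    refine ⟨fun i => ?_, h⟩
    have := Rob_le x i
    rw [mem_range]
    omega

/-- the number of pairs `i < j` -/
private theorem Rob_pairs (k : ℕ) :
    2 * ((univ ×ˢ univ : Finset (Fin k × Fin k)).filter fun p => p.1 < p.2).card = k * (k - 1) := by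
  have h1 : ((univ ×ˢ univ : Finset (Fin k × Fin k)).filter fun p => p.1 < p.2).card =
      ((univ ×ˢ univ : Finset (Fin k × Fin k)).filter fun p => p.2 < p.1).card := by
    refine Finset.card_bij' (fun p _ => (p.2, p.1)) (fun p _ => (p.2, p.1)) ?_ ?_ ?_ ?_
    · intro p hp
      simpa using hp
    · intro p hp
      simpa using hp
    · intro p _
      rfl
    · intro p _
      rfl
  have h2 : (univ : Finset (Fin k)).offDiag.card =
      ((univ ×ˢ univ : Finset (Fin k × Fin k)).filter fun p => p.1 < p.2).card +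
      ((univ ×ˢ univ : Finset (Fin k × Fin k)).filter fun p => p.2 < p.1).card := by
    rw [← Finset.card_union_of_disjoint]
    · congr 1
      ext p
      simp only [mem_offDiag, mem_univ, true_and, mem_union, mem_filter, mem_product]
      constructor
      · intro h
        rcases lt_or_gt_of_ne h with h | h
        · exact Or.inl h
        · exact Or.inr h
      · rintro (h | h)
        · exact h.ne
        · exact h.ne'
    · rw [Finset.disjoint_left]
      intro p hp hq
      rw [mem_filter] at hp hq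
      exact absurd hp.2 (not_lt.2 hq.2.le)
  rw [Finset.offDiag_card, Finset.card_univ, Fintype.card_fin] at h2
  rw [Nat.mul_sub, Nat.mul_one]
  omega

/-- many pairs `(i, x)`, `x i ≥ 1`, `∑ x = r` -/
private theorem Rob_Q (k r : ℕ) (hr : 2 ≤ r) :
    2 * (Rob_S k r).card + (r - 1) * (k * (k - 1)) ≤
      2 * ((univ ×ˢ Rob_S k r).filter fun p : Fin k × (Fin k → ℕ) => 1 ≤ p.2 p.1).card := by
  classical
  set Q := (univ ×ˢ Rob_S k r).filter fun p : Fin k × (Fin k → ℕ) => 1 ≤ p.2 p.1 with hQ
  set Q1 := Q.filter fun p => ∃ i, i < p.1 ∧ 1 ≤ p.2 i with hQ1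
  set Q2 := Q.filter fun p => ¬ ∃ i, i < p.1 ∧ 1 ≤ p.2 i with hQ2
  have hQc : Q1.card + Q2.card = Q.card := by
    rw [hQ1, hQ2, Finset.card_filter_add_card_filter_not]
  have h2 : (Rob_S k r).card ≤ Q2.card := by
    have himg : Rob_S k r ⊆ Q2.image Prod.snd := by
      intro x hx
      have hs := (Rob_memS r x).1 hx
      have hne : (univ.filter fun i : Fin k => 1 ≤ x i).Nonempty := by
        obtain ⟨i, -, hi⟩ : ∃ i ∈ (univ : Finset (Fin k)), x i ≠ 0 := by
          apply Finset.exists_ne_zero_of_sum_ne_zero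
          omega
        exact ⟨i, by rw [mem_filter]; exact ⟨mem_univ _, by omega⟩⟩
      obtain ⟨i, hi, hmin⟩ := Finset.exists_min_image _ id hne
      rw [mem_filter] at hi
      rw [mem_image]
      refine ⟨(i, x), ?_, rfl⟩
      rw [hQ2, mem_filter, hQ, mem_filter, mem_product]
      refine ⟨⟨⟨mem_univ _, hx⟩, hi.2⟩, ?_⟩
      rintro ⟨j, hj, hj1⟩
      have := hmin j (by rw [mem_filter]; exact ⟨mem_univ _, hj1⟩)
      exact absurd hj (not_lt.2 this)
    exact (Finset.card_le_card himg).trans card_image_le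
  have h1 : ((univ ×ˢ univ : Finset (Fin k × Fin k)).filter fun p => p.1 < p.2).card * (r - 1) ≤
      Q1.card := by
    have hc : (((univ ×ˢ univ : Finset (Fin k × Fin k)).filter fun p => p.1 < p.2) ×ˢ
        Icc 1 (r - 1)).card =
        ((univ ×ˢ univ : Finset (Fin k × Fin k)).filter fun p => p.1 < p.2).card * (r - 1) := by
      rw [Finset.card_product, Nat.card_Icc]
      congr 1
    rw [← hc]
    refine Finset.card_le_card_of_injOn
      (fun q => (q.1.2, Function.update (Pi.single q.1.1 q.2) q.1.2 (r - q.2))) ?_ ?_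
    · rintro ⟨⟨i, j⟩, a⟩ hq
      simp only [coe_product, Set.mem_prod, mem_coe, mem_filter, mem_product, mem_univ, true_and,
        mem_Icc] at hq
      obtain ⟨hij, ha1, ha2⟩ := hq
      simp only [mem_coe]
      rw [hQ1, mem_filter, hQ, mem_filter, mem_product, Rob_memS]
      have h3 : (Pi.single i a : Fin k → ℕ) j = 0 := Pi.single_eq_of_ne hij.ne' _
      have h4 := Rob_upd (Pi.single i a : Fin k → ℕ) j (r - a)
      have h5 : ∑ l, (Pi.single i a : Fin k → ℕ) l = a := by
        rw [Finset.sum_pi_single' i a univ, if_pos (mem_univ i)]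
      rw [h3, h5] at h4
      refine ⟨⟨⟨mem_univ _, ?_⟩, ?_⟩, i, hij, ?_⟩
      · simp only
        omega
      · simp only [Function.update_self]
        omega
      · simp only
        rw [Function.update_of_ne hij.ne, Pi.single_eq_same]
        exact ha1
    · rintro ⟨⟨i, j⟩, a⟩ hq ⟨⟨i', j'⟩, a'⟩ hq' h
      simp only [coe_product, Set.mem_prod, mem_coe, mem_filter, mem_product, mem_univ, true_and,
        mem_Icc] at hq hq'
      obtain ⟨hij, ha1, ha2⟩ := hq
      obtain ⟨hij', ha1', ha2'⟩ := hq'
      simp only [Prod.mk.injEq] at h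
      obtain ⟨hj, hx⟩ := h
      subst hj
      have h3 := congrFun hx i
      rw [Function.update_of_ne hij.ne, Pi.single_eq_same, Function.update_of_ne hij.ne] at h3
      have h4 : i = i' := by
        by_contra hne
        rw [Pi.single_eq_of_ne hne] at h3
        omega
      subst h4
      rw [Pi.single_eq_same] at h3
      rw [h3]
  have h3 := Rob_pairs k
  set c := ((univ ×ˢ univ : Finset (Fin k × Fin k)).filter fun p => p.1 < p.2).card with hc
  rw [← h3]
  have h4 : (r - 1) * (2 * c) = 2 * (c * (r - 1)) := by ring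
  rw [h4]
  omega

/-- the count of classes -/
private theorem Rob_cls (T : Finset (Fin k → ℕ)) (hm : 0 < m)
    (hinj : ∀ x ∈ T, ∀ y ∈ T, cls g x = cls g y → x = y)
    (I : Finset (Fin k → ℕ)) (hI : ∀ b ∈ I, b ∈ T ∧ ∀ j, b + Pi.single j 1 ∈ T) :
    I.card + ((univ ×ˢ I).filter fun p : Fin k × (Fin k → ℕ) => p.2 p.1 = 0).card ≤ m := by
  classical
  have : NeZero m := ⟨by omega⟩
  set J := (univ ×ˢ I).filter fun p : Fin k × (Fin k → ℕ) => p.2 p.1 = 0 with hJ
  have hJm : ∀ p ∈ J, p.2 ∈ I ∧ p.2 p.1 = 0 := by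
    intro p hp
    rw [hJ, mem_filter, mem_product] at hp
    exact ⟨hp.1.2, hp.2⟩
  have hinj2 : Set.InjOn (fun s : (Fin k → ℕ) ⊕ (Fin k × (Fin k → ℕ)) =>
      s.elim (fun x => cls g x) fun p => cls g p.2 - g p.1) (I.disjSum J) := by
    have key1 : ∀ x ∈ I, ∀ p ∈ J, cls g x ≠ cls g p.2 - g p.1 := by
      intro x hx p hp h
      have h1 : cls g (x + Pi.single p.1 1) = cls g p.2 := by
        rw [Rob_add, h]; ring
      have h2 := hinj _ ((hI x hx).2 p.1) _ (hI p.2 (hJm p hp).1).1 h1
      have h3 := congrFun h2 p.1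
      rw [(hJm p hp).2, Pi.add_apply, Pi.single_eq_same] at h3
      omega
    have key2 : ∀ p ∈ J, ∀ q ∈ J, cls g p.2 - g p.1 = cls g q.2 - g q.1 → p = q := by
      intro p hp q hq h
      have h1 : cls g (p.2 + Pi.single q.1 1) = cls g (q.2 + Pi.single p.1 1) := by
        rw [Rob_add, Rob_add]
        linear_combination h
      have h2 := hinj _ ((hI p.2 (hJm p hp).1).2 q.1) _ ((hI q.2 (hJm q hq).1).2 p.1) h1
      have h3 := congrFun h2 p.1
      rw [Pi.add_apply, Pi.add_apply, (hJm p hp).2, Pi.single_eq_same] at h3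
      have h4 : p.1 = q.1 := by
        by_contra hne
        rw [Pi.single_eq_of_ne hne] at h3
        omega
      rw [h4] at h2
      exact Prod.ext h4 (add_right_cancel h2)
    intro s hs t ht hst
    rw [mem_coe] at hs ht
    rcases s with x | p <;> rcases t with y | q
    · rw [inl_mem_disjSum] at hs ht
      simp only [Sum.elim_inl] at hst
      rw [hinj x (hI x hs).1 y (hI y ht).1 hst]
    · rw [inl_mem_disjSum] at hs
      rw [inr_mem_disjSum] at ht
      simp only [Sum.elim_inl, Sum.elim_inr] at hst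
      exact absurd hst (key1 x hs q ht)
    · rw [inr_mem_disjSum] at hs
      rw [inl_mem_disjSum] at ht
      simp only [Sum.elim_inl, Sum.elim_inr] at hst
      exact absurd hst.symm (key1 y ht p hs)
    · rw [inr_mem_disjSum] at hs ht
      simp only [Sum.elim_inr] at hst
      rw [key2 p hs q ht hst]
  rw [← Finset.card_disjSum]
  have h1 := Finset.card_le_card_of_injOn _ (fun s _ => mem_univ _) hinj2
  rw [Finset.card_univ, ZMod.card] at h1
  exact h1

/-- the pairs `(i, x)` with `x i ≥ 1`, `∑ x = r` and the pairs `(i, b)` with `b i = 0`, `∑ b < r` -/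
private theorem Rob_QJ (r : ℕ) :
    ((univ ×ˢ Rob_S k r).filter fun p : Fin k × (Fin k → ℕ) => 1 ≤ p.2 p.1).card ≤
      ((univ ×ˢ Rob_B k r).filter fun p : Fin k × (Fin k → ℕ) => p.2 p.1 = 0).card := by
  classical
  refine Finset.card_le_card_of_injOn (fun p => (p.1, Function.update p.2 p.1 0)) ?_ ?_
  · rintro ⟨i, x⟩ hp
    simp only [mem_coe, mem_filter, mem_product, mem_univ, true_and, Rob_memS] at hp
    simp only [mem_coe, mem_filter, mem_product, mem_univ, true_and, Rob_memB,
      Function.update_self, and_true]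
    have h1 := Rob_upd x i 0
    omega
  · rintro ⟨i, x⟩ hp ⟨i', x'⟩ hp' h
    simp only [mem_coe, mem_filter, mem_product, mem_univ, true_and, Rob_memS] at hp hp'
    simp only [Prod.mk.injEq] at h
    obtain ⟨hi, hx⟩ := h
    subst hi
    have h1 : x = x' := Rob_eq x x' i (hp.1.trans hp'.1.symm) (by
      intro j hj
      have h2 := congrFun hx j
      rwa [Function.update_of_ne hj, Function.update_of_ne hj] at h2)
    rw [h1]

/-- the vectors `b` such that some `b + e_j` is in `R` -/
private theorem Rob_K (r : ℕ) (K R : Finset (Fin k → ℕ)) (hR : ∀ y ∈ R, ∑ i, y i = r)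
    (hK : ∀ b ∈ K, ∃ j, b + Pi.single j 1 ∈ R) : K.card ≤ r * R.card := by
  classical
  have hsub : K ⊆ R.biUnion fun y => (univ.filter fun j : Fin k => 1 ≤ y j).image
      fun j => Function.update y j (y j - 1) := by
    intro b hb
    obtain ⟨j, hj⟩ := hK b hb
    rw [mem_biUnion]
    refine ⟨_, hj, ?_⟩
    rw [mem_image]
    refine ⟨j, ?_, ?_⟩
    · rw [mem_filter, Pi.add_apply, Pi.single_eq_same]
      exact ⟨mem_univ _, by omega⟩
    · funext l
      by_cases hl : l = j
      · subst hl
        rw [Function.update_self, Pi.add_apply, Pi.single_eq_same]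
        omega
      · rw [Function.update_of_ne hl, Pi.add_apply, Pi.single_eq_of_ne hl, add_zero]
  refine (Finset.card_le_card hsub).trans (Finset.card_biUnion_le.trans ?_)
  have h1 : ∀ y ∈ R, ((univ.filter fun j : Fin k => 1 ≤ y j).image
      fun j => Function.update y j (y j - 1)).card ≤ r := by
    intro y hy
    refine card_image_le.trans ?_
    rw [← hR y hy, Finset.card_filter]
    refine Finset.sum_le_sum fun j _ => ?_
    split_ifs with h
    · exact h
    · exact Nat.zero_le _
  refine (Finset.sum_le_sum h1).trans ?_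
  rw [Finset.sum_const, smul_eq_mul, Nat.mul_comm]

private theorem Rob_wt (r : ℕ) (x : Fin k → ℕ) :
    wt (fun _ => 1 / (r : ℝ)) x = ((∑ i, x i : ℕ) : ℝ) / r := by
  unfold wt
  rw [← Finset.mul_sum]
  push_cast
  ring

end

/-- [ROB] -/
theorem thm_Rob (hLine : St_Line) : St_Rob := by
  classical
  intro k m r g T hk hr H hT
  have hm : 0 < m := by
    rw [← H.card]
    exact card_pos.mpr ⟨_, H.one ⟨0, by omega⟩⟩
  have hr0 : (0 : ℝ) < r := by
    have : 0 < r := by omega
    exact_mod_cast this
  have hTle : ∀ x ∈ T, ∑ i, x i ≤ r := by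
    intro x hx
    have h1 := H.le x hx
    rw [Rob_wt, div_le_one hr0] at h1
    exact_mod_cast h1
  set R : Finset (Fin k → ℕ) := (Rob_S k r).filter fun y => y ∉ T with hR
  have hRm : ∀ y ∈ R, ∑ i, y i = r ∧ y ∉ T := by
    intro y hy
    rw [hR, mem_filter, Rob_memS] at hy
    exact hy
  set I : Finset (Fin k → ℕ) := (Rob_B k r).filter fun b => ∀ j, b + Pi.single j 1 ∈ T with hI
  set K : Finset (Fin k → ℕ) := (Rob_B k r).filter fun b => ¬ ∀ j, b + Pi.single j 1 ∈ T with hK
  have hIK : I.card + K.card = (Rob_B k r).card := by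
    rw [hI, hK, Finset.card_filter_add_card_filter_not]
  -- the size of `T`
  have hTc : m + R.card = (Rob_B k r).card + (Rob_S k r).card := by
    have h1 : (Rob_S k r).card = R.card + ((Rob_S k r).filter fun y => ¬ (y ∉ T)).card := by
      rw [hR, Finset.card_filter_add_card_filter_not]
    have h2 : T = Rob_B k r ∪ (Rob_S k r).filter fun y => ¬ (y ∉ T) := by
      ext x
      rw [mem_union, Rob_memB, mem_filter, Rob_memS, not_not]
      constructor
      · intro hx
        have := hTle x hx
        by_cases h : ∑ i, x i = r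
        · exact Or.inr ⟨h, hx⟩
        · left; omega
      · rintro (h | h)
        · exact hT x h
        · exact h.2
    have h3 : T.card = (Rob_B k r).card + ((Rob_S k r).filter fun y => ¬ (y ∉ T)).card := by
      conv_lhs => rw [h2]
      rw [Finset.card_union_of_disjoint]
      rw [Finset.disjoint_left]
      intro x hx hx'
      rw [Rob_memB] at hx
      rw [mem_filter, Rob_memS] at hx'
      omega
    rw [H.card] at h3
    omega
  -- the classes
  have hcls := Rob_cls (g := g) T hm H.inj I (by
    intro b hb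
    rw [hI, mem_filter, Rob_memB] at hb
    exact ⟨hT b hb.1, hb.2⟩)
  set J := (univ ×ˢ I).filter fun p : Fin k × (Fin k → ℕ) => p.2 p.1 = 0 with hJ
  have hJall : ((univ ×ˢ Rob_B k r).filter fun p : Fin k × (Fin k → ℕ) => p.2 p.1 = 0).card ≤
      J.card + k * K.card := by
    have hsub : ((univ ×ˢ Rob_B k r).filter fun p : Fin k × (Fin k → ℕ) => p.2 p.1 = 0) ⊆
        J ∪ (univ ×ˢ K) := by
      intro p hp
      rw [mem_filter, mem_product] at hp
      rw [mem_union, hJ, mem_filter, mem_product, mem_product, hI, hK, mem_filter, mem_filter]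
      by_cases h : ∀ j, p.2 + Pi.single j 1 ∈ T
      · exact Or.inl ⟨⟨mem_univ _, hp.1.2, h⟩, hp.2⟩
      · exact Or.inr ⟨mem_univ _, hp.1.2, h⟩
    refine (Finset.card_le_card hsub).trans ((Finset.card_union_le _ _).trans ?_)
    rw [Finset.card_product, Finset.card_univ, Fintype.card_fin]
  have hQJ := Rob_QJ (k := k) r
  have hQ := Rob_Q k r hr
  have hKc : K.card ≤ r * R.card := by
    refine Rob_K r K R (fun y hy => (hRm y hy).1) ?_
    intro b hb
    rw [hK, mem_filter, Rob_memB] at hb
    obtain ⟨hb1, hb2⟩ := hb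
    push Not at hb2
    obtain ⟨j, hj⟩ := hb2
    refine ⟨j, ?_⟩
    rw [hR, mem_filter, Rob_memS]
    refine ⟨?_, hj⟩
    rw [Rob_sum]
    by_contra hne
    exact hj (hT _ (by rw [Rob_sum]; omega))
  -- the lower bound for `R.card`
  have hRc : k - 1 ≤ 6 * R.card := by
    have h1 : (r - 1) * (k * (k - 1)) + 2 * R.card ≤ 2 * ((k + 1) * K.card) := by
      have h2 : (k + 1) * K.card = k * K.card + K.card := by ring
      omega
    have h3 : (r - 1) * (k * (k - 1)) ≤ 2 * ((k + 1) * (r * R.card)) := by
      have h4 : (k + 1) * K.card ≤ (k + 1) * (r * R.card) := Nat.mul_le_mul_left _ hKc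
      omega
    obtain ⟨s, rfl⟩ : ∃ s, r = s + 1 := ⟨r - 1, by omega⟩
    rw [Nat.add_sub_cancel] at h3
    have hs : 1 ≤ s := by omega
    have h5 : (s + 1) * R.card ≤ 2 * s * R.card := Nat.mul_le_mul_right _ (by omega)
    have h6 : 2 * ((k + 1) * ((s + 1) * R.card)) ≤ 2 * ((k + 1) * (2 * s * R.card)) :=
      Nat.mul_le_mul_left _ (Nat.mul_le_mul_left _ h5)
    have h7 : 2 * ((k + 1) * (2 * s * R.card)) ≤ (s * k) * (6 * R.card) := by
      have h8 : 2 * (k + 1) ≤ 3 * k := by omega
      calc 2 * ((k + 1) * (2 * s * R.card)) = (2 * (k + 1)) * (2 * s * R.card) := by ring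
        _ ≤ (3 * k) * (2 * s * R.card) := Nat.mul_le_mul_right _ h8
        _ = (s * k) * (6 * R.card) := by ring
    have h9 : (s * k) * (k - 1) ≤ (s * k) * (6 * R.card) := by
      calc (s * k) * (k - 1) = s * (k * (k - 1)) := by ring
        _ ≤ _ := h3.trans (h6.trans h7)
    have hsk : 0 < s * k := Nat.mul_pos (by omega) (by omega)
    exact Nat.le_of_mul_le_mul_left h9 hsk
  -- the sum of the slacks
  have hsl : ∀ i : Fin k, (∑ y ∈ R, (y i : ℝ)) / r ≤ sl (fun _ => 1 / (r : ℝ)) T i := by
    intro i
    obtain ⟨l1, l2, l3, -⟩ := hLine k T H.down i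
    set P : Finset (Σ _ : Fin k → ℕ, ℕ) := R.sigma fun y => range (y i) with hP
    have hPm : ∀ q ∈ P, q.1 ∈ R ∧ q.2 < q.1 i := by
      intro q hq
      rw [hP, mem_sigma, mem_range] at hq
      exact hq
    have hin : ∀ q ∈ P, ∀ n, n < q.1 i → Function.update q.1 i n ∈ T := by
      intro q hq n hn
      apply hT
      have h1 := Rob_upd q.1 i n
      have h2 := (hRm q.1 (hPm q hq).1).1
      omega
    have hen : ∀ q ∈ P, en T i (Function.update q.1 i q.2) = q.1 i - 1 := by
      intro q hq
      have hq1 := hPm q hq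
      rw [l3]
      apply le_antisymm
      · have h1 := l1 _ (hin q hq q.2 hq1.2)
        rw [l3, Function.update_idem] at h1
        by_contra hcon
        push Not at hcon
        apply (hRm q.1 hq1.1).2
        refine H.down _ h1 _ ?_
        intro j
        by_cases hj : j = i
        · subst hj
          rw [Function.update_self]
          exact Nat.le_of_pred_lt hcon
        · rw [Function.update_of_ne hj]
      · exact l2 _ _ (hin q hq (q.1 i - 1) (by omega))
    have hslack : ∀ q ∈ P, 1 - wt (fun _ => 1 / (r : ℝ)) (Function.update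
        (Function.update q.1 i q.2) i (en T i (Function.update q.1 i q.2))) = 1 / (r : ℝ) := by
      intro q hq
      have hq1 := hPm q hq
      rw [hen q hq, Function.update_idem, Rob_wt]
      have h1 := Rob_upd q.1 i (q.1 i - 1)
      have h2 := (hRm q.1 hq1.1).1
      have h3 : ∑ j, Function.update q.1 i (q.1 i - 1) j + 1 = r := by omega
      have h4 : ((∑ j, Function.update q.1 i (q.1 i - 1) j : ℕ) : ℝ) = r - 1 := by
        rw [← h3]
        push_cast
        ring
      rw [h4]
      field_simp
      ring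
    have hinj : Set.InjOn (fun q : (Σ _ : Fin k → ℕ, ℕ) => Function.update q.1 i q.2) P := by
      rintro ⟨y, a⟩ hq ⟨y', a'⟩ hq' h
      have h1 := hPm _ hq
      have h1' := hPm _ hq'
      simp only at h h1 h1'
      have h2 : y = y' := Rob_eq y y' i ((hRm y h1.1).1.trans (hRm y' h1'.1).1.symm) (by
        intro j hj
        have h2 := congrFun h j
        rwa [Function.update_of_ne hj, Function.update_of_ne hj] at h2)
      have h3 := congrFun h i
      rw [Function.update_self, Function.update_self] at h3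
      rw [h2, h3]
    have hsum : (∑ y ∈ R, (y i : ℝ)) / r = ∑ q ∈ P, 1 / (r : ℝ) := by
      rw [hP, Finset.sum_sigma, Finset.sum_div]
      refine Finset.sum_congr rfl fun y _ => ?_
      rw [Finset.sum_const, card_range, nsmul_eq_mul]
      ring
    rw [hsum, ← Finset.sum_congr rfl hslack]
    have himg := Finset.sum_image (s := P) (g := fun q : (Σ _ : Fin k → ℕ, ℕ) =>
      Function.update q.1 i q.2) (f := fun x => 1 - wt (fun _ => 1 / (r : ℝ))
        (Function.update x i (en T i x))) hinj
    rw [← himg]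
    refine Finset.sum_le_sum_of_subset_of_nonneg ?_ ?_
    · intro x hx
      rw [mem_image] at hx
      obtain ⟨q, hq, rfl⟩ := hx
      exact hin q hq q.2 (hPm q hq).2
    · intro x hx _
      have := H.le _ (l1 x hx)
      linarith
  have htot : (R.card : ℝ) ≤ ∑ i, sl (fun _ => 1 / (r : ℝ)) T i := by
    refine le_trans ?_ (Finset.sum_le_sum fun i _ => hsl i)
    rw [← Finset.sum_div, Finset.sum_comm]
    have h1 : ∀ y ∈ R, ∑ i, (y i : ℝ) = r := by
      intro y hy
      have := (hRm y hy).1
      exact_mod_cast this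
    rw [Finset.sum_congr rfl h1, Finset.sum_const, nsmul_eq_mul, mul_div_assoc, div_self hr0.ne',
      mul_one]
  have hk1 : ((k : ℝ) - 1) ≤ 6 * R.card := by
    have h1 : ((k - 1 : ℕ) : ℝ) ≤ ((6 * R.card : ℕ) : ℝ) := by exact_mod_cast hRc
    rw [Nat.cast_sub (by omega)] at h1
    push_cast at h1
    exact h1
  linarith

end Pool.Agent.WLF
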