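import Pool.Agent.WLF.StC

/-!
# WLF/Top (helper67): a missing point below the top level is expensive
-/

set_option autoImplicit false

namespace Pool.Agent.WLF

open Finset

private theorem Top_sum {k : ℕ} (x : Fin k → ℕ) (i : Fin k) (n : ℕ) :
    ∑ l, Function.update x i n l + x i = ∑ l, x l + n := by
  rw [← Finset.sum_erase_add _ _ (mem_univ i), ← Finset.sum_erase_add (s := univ)
    (f := fun l => x l) (h := mem_univ i), Function.update_self]
  have h1 : ∑ l ∈ univ.erase i, Function.update x i n l = ∑ l ∈ univ.erase i, x l := by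
    refine Finset.sum_congr rfl fun l hl => ?_
    rw [Function.update_of_ne (Finset.ne_of_mem_erase hl)]
  rw [h1]
  ring

private theorem Top_wt {k : ℕ} (r : ℕ) (x : Fin k → ℕ) :
    wt (fun _ => 1 / (r : ℝ)) x = 1 / (r : ℝ) * ((∑ l, x l : ℕ) : ℝ) := by
  unfold wt
  rw [← Finset.mul_sum]
  push_cast
  rfl

/-- the slack -/
private noncomputable def Top_s {k : ℕ} (r : ℕ) (T : Finset (Fin k → ℕ)) (i : Fin k)
    (x : Fin k → ℕ) : ℝ := 1 - wt (fun _ => 1 / (r : ℝ)) (Function.update x i (en T i x))

private theorem Top_X {k m r : ℕ} {g : Fin k → ZMod m} {T : Finset (Fin k → ℕ)}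
    (hLine : St_Line) (hr : 2 ≤ r) (H : Til m (fun _ => 1 / (r : ℝ)) g T) {y : Fin k → ℕ}
    (hy : y ∉ T) (hyr : ∑ l, y l + 1 ≤ r) (hmin : ∀ x : Fin k → ℕ, ∑ l, x l < ∑ l, y l → x ∈ T)
    {i j : Fin k} (hij : i ≠ j) (hyi : 1 ≤ y i) :
    (y i : ℝ) * (((r : ℝ) - (∑ l, y l : ℕ)) / r) ≤
      ∑ x ∈ T.filter (fun x => x j = y j + 1 ∧ ∀ l, l ≠ i → l ≠ j → x l = y l), Top_s r T i x +
      Top_s r T j (Function.update y i (y i - 1)) := by
  classical
  obtain ⟨hi1, hi2, hi3, -⟩ := hLine k T H.down i
  obtain ⟨hj1, hj2, hj3, -⟩ := hLine k T H.down j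
  have hr0 : (0 : ℝ) < r := by
    have : (2 : ℝ) ≤ r := by exact_mod_cast hr
    linarith
  have hnn : ∀ i', ∀ x ∈ T, 0 ≤ Top_s r T i' x := by
    intro i' x hx
    have := H.le _ ((hLine k T H.down i').1 x hx)
    unfold Top_s
    linarith
  obtain ⟨P, hP⟩ : ∃ P : ℕ → Fin k → ℕ,
      P = fun a => Function.update (Function.update y j (y j + 1)) i a := ⟨_, rfl⟩
  have hPi : ∀ a, P a i = a := by
    intro a
    rw [hP]
    exact Function.update_self ..
  have hPj : ∀ a, P a j = y j + 1 := by
    intro a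
    rw [hP]
    simp only
    rw [Function.update_of_ne hij.symm, Function.update_self]
  have hPl : ∀ a l, l ≠ i → l ≠ j → P a l = y l := by
    intro a l h1 h2
    rw [hP]
    simp only
    rw [Function.update_of_ne h1, Function.update_of_ne h2]
  have hPu : ∀ a n, Function.update (P a) i n = P n := by
    intro a n
    rw [hP]
    exact Function.update_idem ..
  have hPs : ∀ a, ∑ l, P a l + y i = ∑ l, y l + 1 + a := by
    intro a
    have h1 := Top_sum (Function.update y j (y j + 1)) i a
    have h2 := Top_sum y j (y j + 1)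
    rw [Function.update_of_ne hij] at h1
    have h3 : ∑ l, P a l = ∑ l, Function.update (Function.update y j (y j + 1)) i a l := by
      rw [hP]
    omega
  have hPinj : Function.Injective P := by
    intro a b h
    have := congrFun h i
    rwa [hPi, hPi] at this
  have hPmono : ∀ a b, a ≤ b → P a ≤ P b := by
    intro a b hab l
    by_cases h1 : l = i
    · subst h1
      rw [hPi, hPi]
      exact hab
    · by_cases h2 : l = j
      · subst h2
        rw [hPj, hPj]
      · rw [hPl a l h1 h2, hPl b l h1 h2]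
  have hyP : ∀ b, y i ≤ b → P b ∉ T := by
    intro b hb hbT
    refine hy (H.down _ hbT _ ?_)
    intro l
    by_cases h1 : l = i
    · subst h1
      rw [hPi]
      exact hb
    · by_cases h2 : l = j
      · subst h2
        rw [hPj]
        exact Nat.le_succ _
      · rw [hPl b l h1 h2]
  -- lower bound of the sum over the line
  have hline : ∀ (n : ℕ) (c : ℝ), (∀ a < n, P a ∈ T ∧ c ≤ Top_s r T i (P a)) →
      (n : ℝ) * c ≤ ∑ x ∈ T.filter
        (fun x => x j = y j + 1 ∧ ∀ l, l ≠ i → l ≠ j → x l = y l), Top_s r T i x := by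
    intro n c hc
    have hsub : (range n).image P ⊆ T.filter
        (fun x => x j = y j + 1 ∧ ∀ l, l ≠ i → l ≠ j → x l = y l) := by
      intro x hx
      rw [mem_image] at hx
      obtain ⟨a, ha, rfl⟩ := hx
      rw [mem_filter]
      exact ⟨(hc a (mem_range.1 ha)).1, hPj a, fun l h1 h2 => hPl a l h1 h2⟩
    calc (n : ℝ) * c = ∑ a ∈ range n, c := by rw [Finset.sum_const, card_range, nsmul_eq_mul]
      _ ≤ ∑ a ∈ range n, Top_s r T i (P a) :=
          Finset.sum_le_sum fun a ha => (hc a (mem_range.1 ha)).2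
      _ = ∑ x ∈ (range n).image P, Top_s r T i x := by
          rw [Finset.sum_image fun a _ b _ h => hPinj h]
      _ ≤ _ := Finset.sum_le_sum_of_subset_of_nonneg hsub
          fun x hx _ => hnn i x (mem_filter.1 hx).1
  -- slack of a line
  have hslack : ∀ (a : ℕ) (e : ℕ), P a ∈ T → (∀ b, P b ∈ T → b + e ≤ y i) →
      ((r : ℝ) - (∑ l, y l : ℕ) - 1 + e) / r ≤ Top_s r T i (P a) := by
    intro a e ha hb
    unfold Top_s
    rw [hPu, Top_wt]
    have h1 : P (en T i (P a)) ∈ T := by
      have := hi1 _ ha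
      rwa [hPu] at this
    have h2 := hb _ h1
    have h3 := hPs (en T i (P a))
    have h4 : ((∑ l, P (en T i (P a)) l : ℕ) : ℝ) + e ≤ (∑ l, y l : ℕ) + 1 := by
      have : ∑ l, P (en T i (P a)) l + e ≤ ∑ l, y l + 1 := by omega
      exact_mod_cast this
    rw [div_le_iff₀ hr0]
    have h5 : (1 - 1 / (r : ℝ) * ((∑ l, P (en T i (P a)) l : ℕ) : ℝ)) * r =
        r - ((∑ l, P (en T i (P a)) l : ℕ) : ℝ) := by
      field_simp
    rw [h5]
    linarith
  have hsum1 : ∑ l, Function.update y i (y i - 1) l + 1 = ∑ l, y l := by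
    have := Top_sum y i (y i - 1)
    omega
  have hy1 : Function.update y i (y i - 1) ∈ T := hmin _ (by omega)
  by_cases hα : P (y i - 1) ∈ T
  · have h1 := hline (y i) (((r : ℝ) - (∑ l, y l : ℕ)) / r) ?_
    · have h2 := hnn j _ hy1
      linarith
    · intro a ha
      have haT : P a ∈ T := H.down _ hα _ (hPmono _ _ (by omega))
      refine ⟨haT, ?_⟩
      have := hslack a 1 haT (fun b hb => by
        by_contra hcon
        exact hyP b (by omega) hb)
      refine le_trans (le_of_eq ?_) this
      push_cast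
      ring
  · have h1 := hline (y i - 1) (((r : ℝ) - (∑ l, y l : ℕ)) / r) ?_
    · have h2 : ((r : ℝ) - (∑ l, y l : ℕ)) / r ≤ Top_s r T j (Function.update y i (y i - 1)) := by
        unfold Top_s
        rw [Top_wt]
        have h3 : en T j (Function.update y i (y i - 1)) ≤ y j := by
          by_contra hcon
          have h4 := hj1 _ hy1
          refine hα (H.down _ h4 _ ?_)
          intro l
          by_cases h1 : l = i
          · subst h1
            rw [hPi, Function.update_of_ne hij, Function.update_self]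
          · by_cases h2 : l = j
            · subst h2
              rw [hPj, Function.update_self]
              exact Nat.lt_of_not_le hcon
            · rw [hPl _ l h1 h2, Function.update_of_ne h2, Function.update_of_ne h1]
        have h4 := Top_sum (Function.update y i (y i - 1)) j
          (en T j (Function.update y i (y i - 1)))
        rw [Function.update_of_ne hij.symm] at h4
        have h5 : ((∑ l, Function.update (Function.update y i (y i - 1)) j
          (en T j (Function.update y i (y i - 1))) l : ℕ) : ℝ) ≤ (∑ l, y l : ℕ) := by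
          have : ∑ l, Function.update (Function.update y i (y i - 1)) j
            (en T j (Function.update y i (y i - 1))) l ≤ ∑ l, y l := by omega
          exact_mod_cast this
        rw [div_le_iff₀ hr0]
        have h6 : (1 - 1 / (r : ℝ) * ((∑ l, Function.update (Function.update y i (y i - 1)) j
          (en T j (Function.update y i (y i - 1))) l : ℕ) : ℝ)) * r =
            r - ((∑ l, Function.update (Function.update y i (y i - 1)) j
          (en T j (Function.update y i (y i - 1))) l : ℕ) : ℝ) := by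
          field_simp
        rw [h6]
        linarith
      have h3 : ((y i - 1 : ℕ) : ℝ) = (y i : ℝ) - 1 := by
        rw [Nat.cast_sub hyi]
        push_cast
        ring
      rw [h3] at h1
      linarith
    · intro a ha
      have haT : P a ∈ T := hmin _ (by
        have := hPs a
        omega)
      refine ⟨haT, ?_⟩
      have := hslack a 1 haT (fun b hb => by
        by_contra hcon
        exact hyP b (by omega) hb)
      refine le_trans (le_of_eq ?_) this
      push_cast
      ring

theorem thm_Top (hLine : St_Line) : St_Top := by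
  classical
  intro k m r g T hk hr H hex
  have hr2 : (2 : ℝ) ≤ r := by exact_mod_cast hr
  have hr0 : (0 : ℝ) < r := by linarith
  -- the smallest missing point
  obtain ⟨y, hyr, hy, hmin⟩ : ∃ y : Fin k → ℕ, ∑ l, y l + 1 ≤ r ∧ y ∉ T ∧
      ∀ x : Fin k → ℕ, ∑ l, x l < ∑ l, y l → x ∈ T := by
    have hex' : ∃ n : ℕ, ∃ y : Fin k → ℕ, ∑ l, y l = n ∧ n + 1 ≤ r ∧ y ∉ T := by
      obtain ⟨y, h1, h2⟩ := hex
      exact ⟨_, y, rfl, h1, h2⟩
    obtain ⟨y, h1, h2, h3⟩ := Nat.find_spec hex'
    refine ⟨y, by omega, h3, ?_⟩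
    intro x hx
    by_contra hcon
    rw [h1] at hx
    exact Nat.find_min hex' hx ⟨x, rfl, by omega, hcon⟩
  have hnn : ∀ i', ∀ x ∈ T, 0 ≤ Top_s r T i' x := by
    intro i' x hx
    have := H.le _ ((hLine k T H.down i').1 x hx)
    unfold Top_s
    linarith
  have hk0 : 0 < k := by omega
  have h0T : (0 : Fin k → ℕ) ∈ T := H.down _ (H.one ⟨0, hk0⟩) _ (fun l => Nat.zero_le _)
  have hl1 : 1 ≤ ∑ l, y l := by
    by_contra hcon
    have h1 : ∑ l, y l = 0 := by omega
    rw [Finset.sum_eq_zero_iff] at h1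
    refine hy ?_
    have : y = 0 := by
      funext l
      exact h1 l (mem_univ l)
    rw [this]
    exact h0T
  -- lower bound for one direction
  obtain ⟨Z, hZ⟩ : ∃ Z : Fin k → Fin k → ℝ, Z = fun i j =>
      if 1 ≤ y j then Top_s r T i (Function.update y j (y j - 1)) else 0 := ⟨_, rfl⟩
  obtain ⟨X, hX⟩ : ∃ X : Fin k → Fin k → ℝ, X = fun i j =>
      ∑ x ∈ T.filter (fun x => x j = y j + 1 ∧ ∀ l, l ≠ i → l ≠ j → x l = y l), Top_s r T i x :=
    ⟨_, rfl⟩
  have hdir : ∀ i, ∑ j ∈ univ.erase i, (X i j + Z i j) ≤ sl (fun _ => 1 / (r : ℝ)) T i := by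
    intro i
    have h1 : ∑ j ∈ univ.erase i, ∑ x ∈ T.filter
        (fun x => x j ≠ y j ∧ ∀ l, l ≠ i → l ≠ j → x l = y l), Top_s r T i x ≤
        sl (fun _ => 1 / (r : ℝ)) T i := by
      have h2 : ∑ j ∈ univ.erase i, ∑ x ∈ T.filter
        (fun x => x j ≠ y j ∧ ∀ l, l ≠ i → l ≠ j → x l = y l), Top_s r T i x =
        ∑ x ∈ (univ.erase i).biUnion (fun j => T.filter
        (fun x => x j ≠ y j ∧ ∀ l, l ≠ i → l ≠ j → x l = y l)), Top_s r T i x := by
        rw [Finset.sum_biUnion]
        intro j hj j' hj' hjj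
        refine Finset.disjoint_left.2 fun x hx hx' => ?_
        rw [mem_filter] at hx hx'
        have hj0 : j ≠ i := Finset.ne_of_mem_erase (Finset.mem_coe.1 hj)
        exact hx.2.1 (hx'.2.2 j hj0 hjj)
      rw [h2]
      unfold sl
      refine Finset.sum_le_sum_of_subset_of_nonneg ?_ fun x hx _ => hnn i x hx
      intro x hx
      rw [mem_biUnion] at hx
      obtain ⟨j, -, hx⟩ := hx
      exact (mem_filter.1 hx).1
    refine le_trans (Finset.sum_le_sum fun j hj => ?_) h1
    have hji : j ≠ i := Finset.ne_of_mem_erase hj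
    rw [hX, hZ]
    simp only
    have hsub : T.filter (fun x => x j = y j + 1 ∧ ∀ l, l ≠ i → l ≠ j → x l = y l) ⊆
        T.filter (fun x => x j ≠ y j ∧ ∀ l, l ≠ i → l ≠ j → x l = y l) := by
      intro x hx
      rw [mem_filter] at hx ⊢
      exact ⟨hx.1, by omega, hx.2.2⟩
    by_cases hyj : 1 ≤ y j
    · rw [if_pos hyj]
      have hmem : Function.update y j (y j - 1) ∈ T := hmin _ (by
        have := Top_sum y j (y j - 1)
        omega)
      have hnot : Function.update y j (y j - 1) ∉
          T.filter (fun x => x j = y j + 1 ∧ ∀ l, l ≠ i → l ≠ j → x l = y l) := by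
        rw [mem_filter]
        rintro ⟨-, h, -⟩
        rw [Function.update_self] at h
        omega
      have hsub2 : insert (Function.update y j (y j - 1))
          (T.filter (fun x => x j = y j + 1 ∧ ∀ l, l ≠ i → l ≠ j → x l = y l)) ⊆
        T.filter (fun x => x j ≠ y j ∧ ∀ l, l ≠ i → l ≠ j → x l = y l) := by
        rw [Finset.insert_subset_iff]
        refine ⟨?_, hsub⟩
        rw [mem_filter]
        refine ⟨hmem, ?_, fun l h1 h2 => ?_⟩
        · rw [Function.update_self]
          omega
        · rw [Function.update_of_ne h2]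
      have := Finset.sum_le_sum_of_subset_of_nonneg (f := Top_s r T i) hsub2
        fun x hx _ => hnn i x (mem_filter.1 hx).1
      rw [Finset.sum_insert hnot] at this
      linarith
    · rw [if_neg hyj, add_zero]
      exact Finset.sum_le_sum_of_subset_of_nonneg hsub fun x hx _ => hnn i x (mem_filter.1 hx).1
  have hXnn : ∀ i j, 0 ≤ X i j := by
    intro i j
    rw [hX]
    exact Finset.sum_nonneg fun x hx => hnn i x (mem_filter.1 hx).1
  have hpair : ∀ i j, i ≠ j → (y i : ℝ) * (((r : ℝ) - (∑ l, y l : ℕ)) / r) ≤ X i j + Z j i := by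
    intro i j hij
    by_cases hyi : 1 ≤ y i
    · have := Top_X hLine hr H hy hyr hmin hij hyi
      rw [hX, hZ]
      simp only
      rw [if_pos hyi]
      exact this
    · have h0 : y i = 0 := by omega
      have h1 : Z j i = 0 := by
        rw [hZ]
        simp only
        rw [if_neg hyi]
      rw [h0, h1]
      have := hXnn i j
      simpa using this
  -- exchange
  have hswap : ∑ i, ∑ j ∈ univ.erase i, Z i j = ∑ i, ∑ j ∈ univ.erase i, Z j i := by
    have h1 : ∀ F : Fin k → Fin k → ℝ, ∑ i, ∑ j ∈ univ.erase i, F i j =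
        ∑ i, ∑ j, if i ≠ j then F i j else 0 := by
      intro F
      refine Finset.sum_congr rfl fun i _ => ?_
      rw [← Finset.sum_filter]
      refine Finset.sum_congr ?_ fun _ _ => rfl
      ext j
      simp only [mem_erase, mem_univ, and_true, mem_filter, true_and]
      exact ne_comm
    rw [h1, h1, Finset.sum_comm]
    refine Finset.sum_congr rfl fun i _ => Finset.sum_congr rfl fun j _ => ?_
    by_cases h : i = j
    · subst h
      rfl
    · rw [if_pos h, if_pos (Ne.symm h)]
  have htot : ∑ i, ∑ j ∈ univ.erase i, (y i : ℝ) * (((r : ℝ) - (∑ l, y l : ℕ)) / r) ≤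
      ∑ i, sl (fun _ => 1 / (r : ℝ)) T i := by
    calc ∑ i, ∑ j ∈ univ.erase i, (y i : ℝ) * (((r : ℝ) - (∑ l, y l : ℕ)) / r)
        ≤ ∑ i, ∑ j ∈ univ.erase i, (X i j + Z j i) := by
          refine Finset.sum_le_sum fun i _ => Finset.sum_le_sum fun j hj => ?_
          exact hpair i j (Finset.ne_of_mem_erase hj).symm
      _ = ∑ i, ∑ j ∈ univ.erase i, (X i j + Z i j) := by
          simp only [Finset.sum_add_distrib]
          rw [hswap]
      _ ≤ _ := Finset.sum_le_sum fun i _ => hdir i
  refine le_trans ?_ htot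
  have h1 : ∀ i : Fin k, ∑ j ∈ univ.erase i, (y i : ℝ) * (((r : ℝ) - (∑ l, y l : ℕ)) / r) =
      (((r : ℝ) - (∑ l, y l : ℕ)) / r * ((k : ℝ) - 1)) * (y i : ℝ) := by
    intro i
    rw [Finset.sum_const, Finset.card_erase_of_mem (mem_univ i), card_univ, Fintype.card_fin,
      nsmul_eq_mul, Nat.cast_sub (by omega)]
    push_cast
    ring
  rw [Finset.sum_congr rfl fun i _ => h1 i, ← Finset.mul_sum]
  obtain ⟨L, hL⟩ : ∃ L : ℕ, L = ∑ l, y l := ⟨_, rfl⟩
  have hcast : ∑ i, (y i : ℝ) = (L : ℝ) := by
    rw [hL]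
    push_cast
    rfl
  rw [hcast, ← hL]
  rw [← hL] at hl1 hyr
  have hL1 : (1 : ℝ) ≤ L := by exact_mod_cast hl1
  have hL2 : (L : ℝ) + 1 ≤ r := by exact_mod_cast hyr
  have hk1 : (0 : ℝ) ≤ (k : ℝ) - 1 := by
    have : (2 : ℝ) ≤ k := by exact_mod_cast hk
    linarith
  have h2 : (1 : ℝ) / 2 ≤ ((r : ℝ) - L) / r * L := by
    rw [div_mul_eq_mul_div, le_div_iff₀ hr0]
    nlinarith
  have h3 := mul_le_mul_of_nonneg_left h2 hk1
  calc ((k : ℝ) - 1) / 2 = ((k : ℝ) - 1) * (1 / 2) := by ring
    _ ≤ ((k : ℝ) - 1) * (((r : ℝ) - L) / r * L) := h3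
    _ = ((r : ℝ) - L) / r * ((k : ℝ) - 1) * L := by ring

end Pool.Agent.WLF
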