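import Pool.Agent.WLF.StC

/-!
# The light product case
-/

set_option autoImplicit false

namespace Pool.Agent.WLF

open Finset Pool.Agent.Helper60.Wilf Pool.Agent.Helper82.Wilf

private theorem Wll_single {k : ℕ} (a : Fin k → ℕ) (i : Fin k) :
    ∑ j, a j * (Pi.single i 1 : Fin k → ℕ) j = a i := by
  rw [Finset.sum_eq_single i]
  · simp
  · intro j _ hj
    simp [Pi.single_eq_of_ne hj]
  · intro h
    exact absurd (mem_univ i) h

private theorem Wll_add {k : ℕ} (a : Fin k → ℕ) (x y : Fin k → ℕ) :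
    ∑ j, a j * (x + y) j = ∑ j, a j * x j + ∑ j, a j * y j := by
  rw [← sum_add_distrib]
  exact sum_congr rfl fun j _ => by rw [Pi.add_apply, mul_add]

private theorem Wll_sum {α : Type*} [DecidableEq α] (A : Finset α) (f : α → ℕ) (z : α) (hz : z ∈ A)
    (h0 : f z = 0) (W : ℕ) (hW : ∀ x ∈ A, f x ≤ W) : ∑ x ∈ A, f x + W ≤ A.card * W := by
  have h1 : ∑ x ∈ A.erase z, f x ≤ (A.erase z).card * W := by
    rw [← smul_eq_mul]
    exact sum_le_card_nsmul _ _ _ fun x hx => hW x (mem_of_mem_erase hx)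
  rw [← add_sum_erase A f hz, h0, ← card_erase_add_one hz, add_mul]
  omega

theorem thm_Wll : St_Wll := by
  classical
  intro S c m k a T TU V' i₀ H hc ha hT hinj him hsub h0 hi₀ hm hV hV'
  have hm0 := H.hm0
  obtain ⟨f, hf⟩ : ∃ f : (Fin k → ℕ) → ℕ, f = fun x => ∑ i, a i * x i := ⟨_, rfl⟩
  have hfx : ∀ x, f x = ∑ i, a i * x i := fun x => by rw [hf]
  have hlt : ∀ x ∈ T, f x < c + m := by
    intro x hx
    have h1 : f x ∈ insert 0 (A0 S c m) := by
      rw [← him, hf]
      exact mem_image_of_mem _ hx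
    exact (mem_ins H h1).2.1
  have hn : (elF S 0 c).card = ∑ x ∈ T, lam c m (f x) := by
    rw [hf, ← sum_image (f := fun s => lam c m s) (g := fun x : Fin k → ℕ => ∑ i, a i * x i), him]
    · rw [sum_insert (zero_notMem_A0 H)]
      exact card_left H
    · intro x hx y hy hxy
      exact hinj x hx y hy hxy
  obtain ⟨u, hu, hmax⟩ := exists_max_image TU f ⟨0, h0⟩
  have hW : m < f u := by
    refine lt_of_lt_of_le (ha i₀) ?_
    have h1 := hmax _ hi₀
    rwa [hfx (Pi.single i₀ 1), Wll_single] at h1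
  -- the sum over `TU`
  have s1 : TU.card * c ≤ ∑ x ∈ TU, f x + m * ∑ x ∈ TU, lam c m (f x) := by
    rw [mul_sum, ← sum_add_distrib, ← smul_eq_mul]
    refine card_nsmul_le_sum _ _ _ fun x hx => ?_
    have h1 := (lam_spec (c := c) hm0 (hlt x (hsub hx))).1
    rwa [mul_comm m]
  have s2 := Wll_sum TU f 0 h0 (by rw [hfx]; simp) (f u) hmax
  -- the sum over `V'`
  have s3 : ∀ i ∈ V', f u / m ≤ lam c m (a i) := by
    intro i hi
    have h1 := hlt _ ((hV' i hi).2 u hu)
    rw [hfx, Wll_add, Wll_single, ← hfx] at h1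
    unfold lam
    exact Nat.div_le_div_right (by omega)
  have s4 : V'.card * (f u / m) ≤ ∑ x ∈ V'.image (fun i => (Pi.single i 1 : Fin k → ℕ)),
      lam c m (f x) := by
    rw [sum_image]
    · rw [← smul_eq_mul]
      refine card_nsmul_le_sum _ _ _ fun i hi => ?_
      rw [hfx (Pi.single i 1), Wll_single]
      exact s3 i hi
    · intro i _ j _ hij
      by_contra hne
      have h1 := congrFun hij i
      simp [Pi.single_eq_of_ne hne] at h1
  have s5 : ∑ x ∈ TU, lam c m (f x) + ∑ x ∈ V'.image (fun i => (Pi.single i 1 : Fin k → ℕ)),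
      lam c m (f x) ≤ (elF S 0 c).card := by
    rw [hn, ← sum_union]
    · refine sum_le_sum_of_subset ?_
      intro x hx
      rcases mem_union.1 hx with hx | hx
      · exact hsub hx
      · obtain ⟨i, _, rfl⟩ := mem_image.1 hx
        exact hT i
    · rw [disjoint_left]
      intro x hx hx'
      obtain ⟨i, hi, rfl⟩ := mem_image.1 hx'
      exact (hV' i hi).1 hx
  have s6 : f u ≤ 2 * (m * (f u / m)) := by
    have h1 := Nat.div_add_mod (f u) m
    have h2 := Nat.mod_lt (f u) hm0
    have h3 : 1 ≤ f u / m := (Nat.one_le_div_iff hm0).2 hW.le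
    have h4 := Nat.mul_le_mul_left m h3
    omega
  have hTU : 1 ≤ TU.card := card_pos.2 ⟨0, h0⟩
  generalize (elF S 0 c).card = n at *
  generalize ∑ x ∈ TU, lam c m (f x) = A at *
  generalize ∑ x ∈ V'.image (fun i => (Pi.single i 1 : Fin k → ℕ)), lam c m (f x) = B at *
  generalize ∑ x ∈ TU, f x = F at *
  generalize f u / m = q at *
  generalize f u = W at *
  have t1 : TU.card * c ≤ m * n := by
    have h1 : (TU.card : ℤ) * c ≤ F + m * A := by exact_mod_cast s1
    have h2 : (F : ℤ) + W ≤ TU.card * W := by exact_mod_cast s2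
    have h3 : (V'.card : ℤ) * q ≤ B := by exact_mod_cast s4
    have h4 : (A : ℤ) + B ≤ n := by exact_mod_cast s5
    have h5 : (W : ℤ) ≤ 2 * (m * q) := by exact_mod_cast s6
    have h6 : 2 * (TU.card : ℤ) ≤ V'.card + 2 := by exact_mod_cast hV
    have hW0 : (0 : ℤ) ≤ W := by positivity
    have hV0 : (0 : ℤ) ≤ V'.card := by positivity
    have hm1 : (0 : ℤ) ≤ m := by positivity
    have h7 : (V'.card : ℤ) * W ≤ 2 * (m * B) := by
      calc (V'.card : ℤ) * W ≤ V'.card * (2 * (m * q)) := mul_le_mul_of_nonneg_left h5 hV0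
        _ = 2 * (m * (V'.card * q)) := by ring
        _ ≤ 2 * (m * B) := by
          have := mul_le_mul_of_nonneg_left h3 hm1
          linarith
    have h8 : (2 * (TU.card : ℤ) - 2) * W ≤ V'.card * W :=
      mul_le_mul_of_nonneg_right (by linarith) hW0
    have h9 : (m : ℤ) * (A + B) ≤ m * n := mul_le_mul_of_nonneg_left h4 hm1
    have h10 : (TU.card : ℤ) * c ≤ m * n := by nlinarith
    exact_mod_cast h10
  have t2 : m * c < m * ((k + 1) * n) := by
    calc m * c ≤ TU.card * k * c := Nat.mul_le_mul_right c hm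
      _ < TU.card * k * c + TU.card * c := by
        have : 0 < TU.card * c := Nat.mul_pos hTU hc
        omega
      _ = (k + 1) * (TU.card * c) := by ring
      _ ≤ (k + 1) * (m * n) := Nat.mul_le_mul_left _ t1
      _ = m * ((k + 1) * n) := by ring
  exact lt_of_mul_lt_mul_left t2 (Nat.zero_le m)

end Pool.Agent.WLF
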