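import Pool.Agent.WLF.AllB
import Pool.Agent.WLF.PlA
import Pool.Agent.WLF.PlB
import Pool.Agent.WLF.PlC
import Pool.Agent.WLF.Pln
import Pool.Agent.WLF.Psu
import Pool.Agent.WLF.Cls
import Pool.Agent.WLF.Com
import Pool.Agent.WLF.Top
import Pool.Agent.WLF.Rob
import Pool.Agent.WLF.Lig
import Pool.Agent.WLF.Wll
import Pool.Agent.WLF.Mac

/-!
# WLF, third part: assembly
-/

set_option autoImplicit false

namespace Pool.Agent.WLF

theorem pln : St_Pln := thm_Pln thm_Line

theorem clsC : St_Cls := thm_Cls thm_PlA thm_PlB thm_PlC pln (thm_Psu thm_Line pln)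

theorem mac : St_Mac :=
  thm_Mac sumB clsC (thm_Com thm_Line) (thm_Top thm_Line) (thm_Rob thm_Line) (thm_Lig thm_Line)
    thm_Wll thm_Ape thm_Sel

end Pool.Agent.WLF
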