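import Pool.Agent.WLF.StD

/-!
# WLF, module Clm: classification of the weights, truncated version
-/

set_option autoImplicit false

namespace Pool.Agent.WLF

open Finset

/-- `1 / w j` is near `r` -/
private def Clm_N {k : ℕ} (w : Fin k → ℝ) (T : Finset (Fin k → ℕ)) (r : ℕ) (j : Fin k) : Prop :=
  |1 / w j - r| ≤ 2 / 5 ∧ 1 / 4 ≤ en T j 0 * w j

/-- `j` is heavy or light -/
private def Clm_H {k : ℕ} (w : Fin k → ℝ) (T : Finset (Fin k → ℕ)) (j : Fin k) : Prop :=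
  9 / 10 < w j ∨ en T j 0 * w j < 1 / 20

private theorem Clm_w {x r : ℝ} (hx : 0 < x) (hr : 2 ≤ r) (h : |1 / x - r| ≤ 2 / 5) :
    x ≤ 5 / 8 := by
  have h1 := (abs_le.1 h).1
  have h2 : 8 / 5 ≤ 1 / x := by linarith
  rw [le_div_iff₀ hx] at h2
  linarith

private theorem Clm_NH {k : ℕ} {w : Fin k → ℝ} {T : Finset (Fin k → ℕ)} (hw : ∀ i, 0 < w i)
    {r : ℕ} (hr : 2 ≤ r) {j : Fin k} (h1 : Clm_N w T r j) (h2 : Clm_H w T j) : False := by
  have h3 := Clm_w (hw j) (by exact_mod_cast hr) h1.1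
  have h4 := h1.2
  rcases h2 with h | h <;> linarith

private theorem Clm_NN {k : ℕ} {w : Fin k → ℝ} {T : Finset (Fin k → ℕ)}
    {r r' : ℕ} {j : Fin k} (h1 : Clm_N w T r j) (h2 : Clm_N w T r' j) : r = r' := by
  have e1 := abs_le.1 h1.1
  have e2 := abs_le.1 h2.1
  have h3 : (r : ℝ) < r' + 1 := by linarith [e1.1, e1.2, e2.1, e2.2]
  have h4 : (r' : ℝ) < r + 1 := by linarith [e1.1, e1.2, e2.1, e2.2]
  have h5 : r < r' + 1 := by exact_mod_cast h3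
  have h6 : r' < r + 1 := by exact_mod_cast h4
  omega

private theorem Clm_dich (hPmA : St_PmA) (hPmB : St_PmB) (hPmC : St_PmC) (hPln : St_Pln)
    {k m : ℕ} {μ : ℝ} (hμ : 0 ≤ μ) {w : Fin k → ℝ} {g : Fin k → ZMod m}
    {T : Finset (Fin k → ℕ)} (hT : Til m w g T)
    {i l : Fin k} (hil : l ≠ i) (hG : Gd μ T l) (h : pm μ w T i l < 1 / 25) :
    (∃ r : ℕ, 2 ≤ r ∧ (r : ℝ) ^ 2 * μ ≤ 1 / 100 ∧ Clm_N w T r i ∧ Clm_N w T r l) ∨
    (Clm_H w T i ∧ 9 / 10 < w l) := by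
  have hP := hPln k m w g T hT i l (Ne.symm hil)
  unfold pm at h
  unfold Gd at hG
  have hC : en T l (Pi.single i 1) ≤ en T l 0 := hP.CB 1 hP.A1
  rcases Nat.lt_or_ge (en T l (Pi.single i 1) + 1) (en T l 0) with h1 | h1
  · exact absurd h1 (hPmB _ _ _ _ _ _ _ hμ hG hP h)
  · rcases Nat.lt_or_ge (en T l (Pi.single i 1)) (en T l 0) with h2 | h2
    · rcases hPmC _ _ _ _ _ _ _ hμ hG hP h
        (by show en T l (Pi.single i 1) + 1 = en T l 0; omega) with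
        ⟨e1, e2, e3⟩ | ⟨e1, e2, e3, e4⟩
      · exact Or.inr ⟨Or.inl e3, e2⟩
      · refine Or.inl ⟨en T l 0, e1, hG, ⟨e2, e4⟩, e3, ?_⟩
        have hl := hT.pos l
        have h5 := Clm_w hl (by exact_mod_cast e1) e3
        have h6 := (abs_le.1 e3).2
        have h7 : 1 / w l ≤ (en T l 0 : ℝ) + 2 / 5 := by linarith
        rw [div_le_iff₀ hl] at h7
        linarith
    · obtain ⟨e1, e2, e3⟩ := hPmA _ _ _ _ _ _ _ hμ hG hP h
        (by show en T l (Pi.single i 1) = en T l 0; omega)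
      exact Or.inr ⟨Or.inr e3, e2⟩

theorem thm_Clm (hPmA : St_PmA) (hPmB : St_PmB) (hPmC : St_PmC) (hPln : St_Pln)
    (hZed : St_Zed) : St_Clm := by
  intro k m μ w g T hk hT hμ hm hs
  have hw := hT.pos
  obtain ⟨hZ1, hZ2⟩ := hZed k m μ w g T hk hT hμ hm hs
  have hd : ∀ i l, l ≠ i → Gd μ T l → pm μ w T i l < 1 / 25 →
      (∃ r : ℕ, 2 ≤ r ∧ (r : ℝ) ^ 2 * μ ≤ 1 / 100 ∧ Clm_N w T r i ∧ Clm_N w T r l) ∨
      (Clm_H w T i ∧ 9 / 10 < w l) :=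
    fun i l hl hG h => Clm_dich hPmA hPmB hPmC hPln hμ.le hT hl hG h
  -- all pairs
  have hpair : ∀ i i' : Fin k, i ≠ i' →
      (∃ r : ℕ, 2 ≤ r ∧ (r : ℝ) ^ 2 * μ ≤ 1 / 100 ∧ Clm_N w T r i ∧ Clm_N w T r i') ∨
      (Clm_H w T i ∧ Clm_H w T i') := by
    intro i i' hne
    rcases hZ1 i i' hne with ⟨l, h1, h2, h3, h4, h5⟩ | ⟨h1, h2⟩ | ⟨h1, h2⟩
    · rcases hd i l h1 h3 h4 with ⟨r, a1, a2, a3, a4⟩ | ⟨a1, a2⟩
      · rcases hd i' l h2 h3 h5 with ⟨r', b1, b2, b3, b4⟩ | ⟨b1, b2⟩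
        · have hrr := Clm_NN a4 b4
          subst hrr
          exact Or.inl ⟨r, a1, a2, a3, b3⟩
        · exact (Clm_NH hw a1 a4 (Or.inl b2)).elim
      · rcases hd i' l h2 h3 h5 with ⟨r', b1, b2, b3, b4⟩ | ⟨b1, b2⟩
        · exact (Clm_NH hw b1 b4 (Or.inl a2)).elim
        · exact Or.inr ⟨a1, b1⟩
    · rcases hd i i' (Ne.symm hne) h1 h2 with h | ⟨a1, a2⟩
      · exact Or.inl h
      · exact Or.inr ⟨a1, Or.inl a2⟩
    · rcases hd i' i hne h1 h2 with ⟨r, a1, a2, a3, a4⟩ | ⟨a1, a2⟩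
      · exact Or.inl ⟨r, a1, a2, a4, a3⟩
      · exact Or.inr ⟨Or.inl a2, a1⟩
  set z : Fin k := ⟨0, by omega⟩ with hz
  set z' : Fin k := ⟨1, by omega⟩ with hz'
  have hzz : z ≠ z' := by
    intro h
    have := congrArg Fin.val h
    simp [hz, hz'] at this
  rcases hpair z z' hzz with ⟨r, a1, a2, a3, a4⟩ | ⟨b1, b2⟩
  · left
    refine ⟨r, a1, a2, fun i => ?_⟩
    by_cases hi : z = i
    · rw [← hi]
      exact a3.1
    · rcases hpair z i hi with ⟨r', c1, c2, c3, c4⟩ | ⟨c1, c2⟩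
      · have hrr := Clm_NN a3 c3
        subst hrr
        exact c4.1
      · exact (Clm_NH hw a1 a3 c1).elim
  · right
    have hall : ∀ i, Clm_H w T i := by
      intro i
      by_cases hi : z = i
      · rw [← hi]
        exact b1
      · rcases hpair z i hi with ⟨r', c1, c2, c3, c4⟩ | ⟨c1, c2⟩
        · exact (Clm_NH hw c1 c3 b1).elim
        · exact c2
    refine ⟨hall, fun i hi => ?_⟩
    rcases hZ2 i with ⟨h1, i', h2, h3⟩ | ⟨L, hL1, hL2⟩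
    · rcases hd i' i (Ne.symm h2) h1 h3 with ⟨r', c1, c2, c3, c4⟩ | ⟨c1, c2⟩
      · exact (Clm_NH hw c1 c4 (hall i)).elim
      · exact absurd c2 hi
    · have hsub : L ⊆ univ.filter fun l => 9 / 10 < w l := by
        intro l hl
        obtain ⟨h1, h2, h3⟩ := hL2 l hl
        rcases hd i l h1 h2 h3 with ⟨r', c1, c2, c3, c4⟩ | ⟨c1, c2⟩
        · exact (Clm_NH hw c1 c3 (hall i)).elim
        · exact mem_filter.2 ⟨mem_univ l, c2⟩
      have h4 : (L.card : ℝ) ≤ ((univ.filter fun l => 9 / 10 < w l).card : ℝ) := by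
        exact_mod_cast card_le_card hsub
      linarith

end Pool.Agent.WLF
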