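import Pool.Agent.WLF.StD

/-!
# WLF/Cmm (helper42): comparison with constant weights, truncated slacks (adapted from Com.lean)
-/

set_option autoImplicit false

namespace Pool.Agent.WLF

open Finset

private theorem Cmm_const {k : ℕ} (c : ℝ) (x : Fin k → ℕ) :
    wt (fun _ => c) x = c * ∑ i, (x i : ℝ) := by
  unfold wt
  rw [Finset.mul_sum]

/-- one point -/
private theorem Cmm_pt {k m r : ℕ} {w : Fin k → ℝ} {g : Fin k → ZMod m}
    {T : Finset (Fin k → ℕ)} (hr : 2 ≤ r) (hT : Til m w g T) (hw : ∀ i, |1 / w i - r| ≤ 2 / 5)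
    (x : Fin k → ℕ) (hx : x ∈ T) :
    ∑ i, x i ≤ r ∧
    3 * (1 - 1 / (r : ℝ) * ∑ i, (x i : ℝ)) ≤ 5 * (1 - wt w x) := by
  have hr' : (2 : ℝ) ≤ r := by exact_mod_cast hr
  have hlow : ∀ i, 1 ≤ ((r : ℝ) + 2 / 5) * w i := by
    intro i
    have h1 := (abs_le.1 (hw i)).2
    have h2 : 1 / w i ≤ (r : ℝ) + 2 / 5 := by linarith
    rwa [div_le_iff₀ (hT.pos i)] at h2
  have hupp : ∀ i, ((r : ℝ) - 2 / 5) * w i ≤ 1 := by
    intro i
    have h1 := (abs_le.1 (hw i)).1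
    have h2 : (r : ℝ) - 2 / 5 ≤ 1 / w i := by linarith
    rwa [le_div_iff₀ (hT.pos i)] at h2
  have hle := hT.le x hx
  have hs1 : ∑ i, (x i : ℝ) ≤ ((r : ℝ) + 2 / 5) * wt w x := by
    unfold wt
    rw [Finset.mul_sum]
    apply Finset.sum_le_sum
    intro i _
    have h0 : (0 : ℝ) ≤ x i := Nat.cast_nonneg _
    nlinarith [mul_le_mul_of_nonneg_right (hlow i) h0]
  have hs2 : ((r : ℝ) - 2 / 5) * wt w x ≤ ∑ i, (x i : ℝ) := by
    unfold wt
    rw [Finset.mul_sum]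
    apply Finset.sum_le_sum
    intro i _
    have h0 : (0 : ℝ) ≤ x i := Nat.cast_nonneg _
    nlinarith [mul_le_mul_of_nonneg_right (hupp i) h0]
  have hcast : ((∑ i, x i : ℕ) : ℝ) = ∑ i, (x i : ℝ) := by push_cast; rfl
  have hsr : ∑ i, x i ≤ r := by
    have h1 : ((∑ i, x i : ℕ) : ℝ) < (r : ℝ) + 1 := by
      rw [hcast]
      have h2 : ((r : ℝ) + 2 / 5) * wt w x ≤ ((r : ℝ) + 2 / 5) * 1 :=
        mul_le_mul_of_nonneg_left hle (by linarith)
      linarith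
    have h2 : ∑ i, x i < r + 1 := by exact_mod_cast h1
    omega
  refine ⟨hsr, ?_⟩
  rw [← hcast] at hs2 ⊢
  obtain ⟨s, hs⟩ : ∃ s : ℕ, s = ∑ i, x i := ⟨_, rfl⟩
  rw [← hs] at hs2 hsr ⊢
  have hrpos : (0 : ℝ) < r := by linarith
  rcases Nat.lt_or_ge s r with h | h
  · have h1 : (s : ℝ) + 1 ≤ r := by exact_mod_cast h
    have h2 : 3 * (1 - 1 / (r : ℝ) * s) * r = 3 * (r - s) := by
      field_simp
    have h3 : (r - 2 / 5 : ℝ) * (3 * (1 - 1 / (r : ℝ) * s)) ≤ r * (3 * (1 - 1 / (r : ℝ) * s)) := by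
      apply mul_le_mul_of_nonneg_right (by linarith)
      have : 1 / (r : ℝ) * s ≤ 1 := by
        rw [div_mul_eq_mul_div, one_mul, div_le_one hrpos]
        linarith
      linarith
    have h4 : (r - 2 / 5 : ℝ) * (3 * (1 - 1 / (r : ℝ) * s)) ≤ (r - 2 / 5 : ℝ) * (5 * (1 - wt w x)) := by
      linarith
    exact le_of_mul_le_mul_left h4 (by linarith)
  · have h1 : s = r := le_antisymm hsr h
    have h2 : 1 / (r : ℝ) * s = 1 := by
      rw [h1]
      field_simp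
    rw [h2]
    linarith

/-- one point, truncated -/
private theorem Cmm_tr {k m r : ℕ} {μ : ℝ} {w : Fin k → ℝ} {g : Fin k → ZMod m}
    {T : Finset (Fin k → ℕ)} (hr : 2 ≤ r) (hμ : 0 ≤ μ) (hrμ : (r : ℝ) ^ 2 * μ ≤ 1 / 100)
    (hT : Til m w g T) (hw : ∀ i, |1 / w i - r| ≤ 2 / 5) (x : Fin k → ℕ) (hx : x ∈ T) :
    1 - 1 / (r : ℝ) * ∑ i, (x i : ℝ) ≤ 2 * max 0 (1 - wt w x - μ) := by
  have hr' : (2 : ℝ) ≤ r := by exact_mod_cast hr
  have hrpos : (0 : ℝ) < r := by linarith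
  obtain ⟨h1, h2⟩ := Cmm_pt hr hT hw x hx
  have hcast : ((∑ i, x i : ℕ) : ℝ) = ∑ i, (x i : ℝ) := by push_cast; rfl
  have hm0 := le_max_left (0 : ℝ) (1 - wt w x - μ)
  have hm1 := le_max_right (0 : ℝ) (1 - wt w x - μ)
  rw [← hcast] at h2 ⊢
  obtain ⟨s, hs⟩ : ∃ s : ℕ, s = ∑ i, x i := ⟨_, rfl⟩
  rw [← hs] at h1 h2 ⊢
  rcases Nat.lt_or_ge s r with h | h
  · have h3 : (s : ℝ) + 1 ≤ r := by exact_mod_cast h
    obtain ⟨q, hq⟩ : ∃ q : ℝ, q = 1 - 1 / (r : ℝ) * s := ⟨_, rfl⟩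
    rw [← hq] at h2 ⊢
    have h4 : q * r = r - s := by
      rw [hq]
      field_simp
    have h5 : μ * r ≤ 1 / 100 := by
      have e1 : 0 ≤ μ * r * (r - 1) := mul_nonneg (mul_nonneg hμ hrpos.le) (by linarith)
      have e2 : μ * r * (r - 1) = (r : ℝ) ^ 2 * μ - μ * r := by ring
      linarith
    have h6 : μ * r ≤ (1 / 100 * q) * r := by
      have e1 : (1 / 100 * q) * r = 1 / 100 * (q * r) := by ring
      rw [e1, h4]
      linarith
    have h7 : μ ≤ 1 / 100 * q := le_of_mul_le_mul_right h6 hrpos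
    have h8 : 0 ≤ q := by
      have e1 : 0 ≤ q * r := by rw [h4]; linarith
      exact nonneg_of_mul_nonneg_left e1 hrpos
    linarith
  · have h3 : s = r := le_antisymm h1 h
    have h4 : 1 / (r : ℝ) * s = 1 := by
      rw [h3]
      field_simp
    rw [h4]
    linarith

theorem thm_Cmm (hLine : St_Line) : St_Cmm := by
  intro k m r μ w g T hr hμ hrμ hT hw
  have hr' : (2 : ℝ) ≤ r := by exact_mod_cast hr
  have hrpos : (0 : ℝ) < r := by linarith
  constructor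
  · refine ⟨fun i => by positivity, hT.one, hT.down, ?_, hT.inj, hT.card⟩
    intro x hx
    have h1 := (Cmm_pt hr hT hw x hx).1
    have h2 : ∑ i, (x i : ℝ) ≤ r := by exact_mod_cast h1
    rw [Cmm_const, div_mul_eq_mul_div, one_mul, div_le_one hrpos]
    exact h2
  · rw [Finset.mul_sum]
    apply Finset.sum_le_sum
    intro i _
    unfold sl ex
    rw [Finset.mul_sum]
    apply Finset.sum_le_sum
    intro x hx
    have he := (hLine k T hT.down i).1 x hx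
    have h1 := Cmm_tr hr hμ hrμ hT hw _ he
    rw [Cmm_const]
    exact h1

end Pool.Agent.WLF
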