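import Pool.Agent.WLF.StE

/-!
# WLF [Inp]: the ends of the lines in one direction are different modulo `m`
-/

set_option autoImplicit false

namespace Pool.Agent.WLF

open Finset Pool.Agent.Helper60.Wilf Pool.Agent.Helper82.Wilf

/-- the sum of `L` different natural numbers is at least `L (L - 1) / 2` -/
theorem Inp_range (s : Finset ℕ) : ∑ n ∈ range s.card, n ≤ ∑ n ∈ s, n := by
  classical
  refine Finset.induction_on_max s (by simp) ?_
  intro a t hlt ih
  have hat : a ∉ t := fun h => lt_irrefl _ (hlt a h)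
  have h1 : t ⊆ range a := fun x hx => mem_range.mpr (hlt x hx)
  have h2 : t.card ≤ a := by
    have := card_le_card h1
    rwa [card_range] at this
  rw [card_insert_of_notMem hat, Finset.sum_range_succ, Finset.sum_insert hat]
  omega

/-- one direction -/
theorem Inp_one {S : AddSubmonoid ℕ} {c m k : ℕ} (a : Fin k → ℕ) (T : Finset (Fin k → ℕ))
    (H : Sg S c m) (hc : T.card = m)
    (hT : ∀ x ∈ T, ∀ y : Fin k → ℕ, y ≤ x → y ∈ T)
    (hinj : ∀ x ∈ T, ∀ y ∈ T, ∑ i, a i * x i = ∑ i, a i * y i → x = y)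
    (hle : ∀ x ∈ T, ∑ i, a i * x i ∈ insert 0 (A0 S c m)) (hLine : St_Line) (i : Fin k) :
    m * (m - 1) ≤ 2 * ∑ x ∈ T, min (c + m - 1 -
      ∑ j, a j * Function.update x i (en T i x) j) m + 2 * m * (T.filter fun x => 1 ≤ x i).card := by
  classical
  have hm0 := H.hm0
  obtain ⟨hmem, -, hupd, -⟩ := hLine k T hT i
  set τ : (Fin k → ℕ) → ℕ := fun x => c + m - 1 - ∑ j, a j * Function.update x i (en T i x) j
    with hτ
  set L : Finset (Fin k → ℕ) := T.filter fun x => ¬ 1 ≤ x i with hL
  have hcard : (T.filter fun x => 1 ≤ x i).card + L.card = m := by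
    rw [hL, Finset.card_filter_add_card_filter_not, hc]
  have hinjL : Set.InjOn (fun x => τ x % m) (L : Set (Fin k → ℕ)) := by
    intro x hx y hy hxy
    rw [hL, mem_coe, mem_filter] at hx hy
    simp only [hτ] at hxy
    have hx1 := hle _ (hmem x hx.1)
    have hy1 := hle _ (hmem y hy.1)
    have hx2 := (mem_ins H hx1).2.1
    have hy2 := (mem_ins H hy1).2.1
    have h1 : (∑ j, a j * Function.update x i (en T i x) j) +
        ((c + m - 1 - ∑ j, a j * Function.update x i (en T i x) j) / m) * m =
        (∑ j, a j * Function.update y i (en T i y) j) +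
        ((c + m - 1 - ∑ j, a j * Function.update y i (en T i y) j) / m) * m := by
      have e1 := Nat.mod_add_div' (c + m - 1 - ∑ j, a j * Function.update x i (en T i x) j) m
      have e2 := Nat.mod_add_div' (c + m - 1 - ∑ j, a j * Function.update y i (en T i y) j) m
      omega
    have h2 := hinj _ (hmem x hx.1) _ (hmem y hy.1) (ins_inj H hx1 hy1 h1).1
    ext j
    by_cases hj : j = i
    · subst hj
      have := hx.2
      have := hy.2
      omega
    · have h3 := congrFun h2 j
      rwa [Function.update_of_ne hj, Function.update_of_ne hj] at h3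
  have h1 : ∑ n ∈ range L.card, n ≤ ∑ x ∈ L, τ x % m := by
    have h2 := Inp_range (L.image fun x => τ x % m)
    rwa [card_image_of_injOn hinjL, sum_image hinjL] at h2
  have h2 : ∑ x ∈ L, τ x % m ≤ ∑ x ∈ T, min (τ x) m := by
    refine le_trans (Finset.sum_le_sum fun x _ => ?_)
      (Finset.sum_le_sum_of_subset (Finset.filter_subset _ _))
    exact le_min (Nat.mod_le _ _) (Nat.mod_lt _ hm0).le
  have h3 := Finset.sum_range_id_mul_two L.card
  have h4 : m * (m - 1) ≤ L.card * (L.card - 1) + 2 * m * (T.filter fun x => 1 ≤ x i).card := by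
    generalize (T.filter fun x => 1 ≤ x i).card = p at hcard ⊢
    generalize L.card = l at hcard ⊢
    subst hcard
    rcases Nat.eq_zero_or_pos l with h0 | h0
    · subst h0
      have : (p + 0) * (p + 0 - 1) ≤ 2 * (p + 0) * p := by
        rw [add_zero]
        have := Nat.mul_le_mul_left p (Nat.sub_le p 1)
        nlinarith
      omega
    · obtain ⟨l', rfl⟩ : ∃ l', l = l' + 1 := ⟨l - 1, by omega⟩
      rw [show p + (l' + 1) - 1 = p + l' by omega, Nat.add_sub_cancel]
      nlinarith [Nat.zero_le (p * l'), Nat.zero_le p, Nat.zero_le (p * p)]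
  calc m * (m - 1) ≤ L.card * (L.card - 1) + 2 * m * (T.filter fun x => 1 ≤ x i).card := h4
    _ ≤ _ := by
        have h5 : ∑ n ∈ range L.card, n ≤ ∑ x ∈ T, min (c + m - 1 -
          ∑ j, a j * Function.update x i (en T i x) j) m := h1.trans h2
        omega

/-- [INP] -/
theorem thm_Inp (hLine : St_Line) (hAvg : St_Avg) (hSel : St_Sel) : St_Inp := by
  classical
  intro S c m k a T H hc0 ha hc hT hinj himg hW
  have hm0 := H.hm0
  have hle : ∀ x ∈ T, ∑ i, a i * x i ∈ insert 0 (A0 S c m) := by
    intro x hx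
    rw [← himg]
    exact mem_image_of_mem _ hx
  have hend : ∀ i, ∀ x ∈ T, Function.update x i (en T i x) ∈ T :=
    fun i => (hLine k T hT i).1
  set M : ℕ := c + m - 1 with hM
  set E : ℕ := ∑ i, ∑ x ∈ T, (M - (∑ j, a j * Function.update x i (en T i x) j) - m) with hE
  -- Selmer
  have h1 : 2 * (m * (elF S 0 c).card) + 2 * ∑ x ∈ T, (∑ i, a i * x i) + m =
      2 * (m * c) + m * m := by
    have h2 := hSel S c m H
    rw [← himg, Finset.sum_image (fun x hx y hy h => hinj x hx y hy h)] at h2
    exact h2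
  -- the average
  have h2 : ∑ i, ∑ x ∈ T, (∑ j, a j * Function.update x i (en T i x) j) =
      (k + 1) * ∑ x ∈ T, (∑ i, a i * x i) := by
    have h3 := hAvg k (fun i => (a i : ℝ)) T hT
    rw [Finset.sum_comm] at h3
    unfold wt at h3
    beta_reduce at h3
    exact_mod_cast h3
  have h3 : ∑ i, ∑ x ∈ T, (M - ∑ j, a j * Function.update x i (en T i x) j) +
      ∑ i, ∑ x ∈ T, (∑ j, a j * Function.update x i (en T i x) j) = k * (m * M) := by
    rw [← Finset.sum_add_distrib]
    have h4 : ∀ i ∈ (univ : Finset (Fin k)),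
        ∑ x ∈ T, (M - ∑ j, a j * Function.update x i (en T i x) j) +
        ∑ x ∈ T, (∑ j, a j * Function.update x i (en T i x) j) = m * M := by
      intro i _
      rw [← Finset.sum_add_distrib]
      have h5 : ∀ x ∈ T, (M - ∑ j, a j * Function.update x i (en T i x) j) +
          (∑ j, a j * Function.update x i (en T i x) j) = M := by
        intro x hx
        have h6 := (mem_ins H (hle _ (hend i x hx))).2.1
        omega
      rw [Finset.sum_congr rfl h5, Finset.sum_const, hc, smul_eq_mul]
    rw [Finset.sum_congr rfl h4, Finset.sum_const, Finset.card_univ, Fintype.card_fin,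
      smul_eq_mul]
  have h4 : ∑ i, ∑ x ∈ T, (M - ∑ j, a j * Function.update x i (en T i x) j) =
      ∑ i, ∑ x ∈ T, min (M - ∑ j, a j * Function.update x i (en T i x) j) m + E := by
    rw [hE, ← Finset.sum_add_distrib]
    refine Finset.sum_congr rfl fun i _ => ?_
    rw [← Finset.sum_add_distrib]
    refine Finset.sum_congr rfl fun x _ => ?_
    omega
  have h5 : k * (m * (m - 1)) ≤ 2 * ∑ i, ∑ x ∈ T,
      min (M - ∑ j, a j * Function.update x i (en T i x) j) m +
      2 * m * ∑ i, (T.filter fun x => 1 ≤ x i).card := by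
    rw [Finset.mul_sum, Finset.mul_sum, ← Finset.sum_add_distrib]
    have h6 : k * (m * (m - 1)) = ∑ _i : Fin k, m * (m - 1) := by
      rw [Finset.sum_const, Finset.card_univ, Fintype.card_fin, smul_eq_mul]
    rw [h6]
    exact Finset.sum_le_sum fun i _ => Inp_one a T H hc hT hinj hle hLine i
  generalize ∑ i, ∑ x ∈ T, min (M - ∑ j, a j * Function.update x i (en T i x) j) m = X at h4 h5
  generalize ∑ i, ∑ x ∈ T, (M - ∑ j, a j * Function.update x i (en T i x) j) = Y at h3 h4
  generalize ∑ i, (T.filter fun x => 1 ≤ x i).card = P at h5 ⊢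
  rw [h2] at h3
  generalize ∑ x ∈ T, (∑ i, a i * x i) = F at h1 h3
  generalize (elF S 0 c).card = n at h1 hW
  clear_value E M
  obtain ⟨t, rfl⟩ : ∃ t, m = t + 1 := ⟨m - 1, by omega⟩
  rw [Nat.add_sub_cancel] at h5
  have hM2 : M = c + t := by omega
  subst hM2
  -- the identity
  have h8 : 2 * (Y : ℤ) + 2 * ((t : ℤ) + 1) * c + (t + 1) * t =
      2 * (t + 1) * ((k + 1) * n) + k * ((t + 1) * t) := by
    have e1 : 2 * (((t : ℤ) + 1) * n) + 2 * F + (t + 1) = 2 * ((t + 1) * c) + (t + 1) * (t + 1) := by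
      exact_mod_cast h1
    have e2 : (Y : ℤ) + (k + 1) * F = k * ((t + 1) * (c + t)) := by exact_mod_cast h3
    linear_combination 2 * e2 - (k + 1) * e1
  have h9 : ((k : ℤ) + 1) * n ≤ c := by exact_mod_cast hW
  have h10 : 2 * (Y : ℤ) + (t + 1) * t ≤ k * ((t + 1) * t) := by
    have := mul_le_mul_of_nonneg_left h9 (show (0 : ℤ) ≤ 2 * (t + 1) by positivity)
    linarith
  have h11 : (k : ℤ) * ((t + 1) * t) ≤ 2 * X + 2 * (t + 1) * P := by exact_mod_cast h5
  have h12 : (Y : ℤ) = X + E := by exact_mod_cast h4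
  have h14 : (E : ℤ) ≤ (t + 1) * P := by
    have : (0 : ℤ) ≤ (t + 1) * t := by positivity
    nlinarith
  exact_mod_cast h14

end Pool.Agent.WLF
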