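import Pool.Agent.WLF.StE

/-!
# WLF [Mae]: assembly of the fifth part
-/

set_option autoImplicit false

namespace Pool.Agent.WLF

open Finset Pool.Agent.Helper60.Wilf Pool.Agent.Helper82.Wilf

/-- truncated subtraction -/
private theorem Mae_sub (M f m : ℕ) (hM : (0 : ℝ) < M) :
    max 0 (1 - (f : ℝ) / M - (m : ℝ) / M) = ((M - f - m : ℕ) : ℝ) / M := by
  have h1 : 1 - (f : ℝ) / M - (m : ℝ) / M = ((M : ℝ) - f - m) / M := by
    field_simp
  rw [h1]
  rcases Nat.lt_or_ge M (f + m) with h | h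
  · have h2 : M - f - m = 0 := by omega
    rw [h2, Nat.cast_zero, zero_div]
    apply max_eq_left
    apply div_nonpos_of_nonpos_of_nonneg _ hM.le
    have : (M : ℝ) < f + m := by exact_mod_cast h
    linarith
  · have h2 : ((M - f - m : ℕ) : ℝ) = (M : ℝ) - f - m := by
      rw [Nat.sub_sub, Nat.cast_sub h]
      push_cast
      ring
    rw [h2]
    apply max_eq_right
    apply div_nonneg _ hM.le
    have : ((f + m : ℕ) : ℝ) ≤ M := by exact_mod_cast h
    push_cast at this
    linarith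

/-- [MAE] -/
theorem thm_Mae (hInp : St_Inp) (hSpp : St_Spp) (hClm : St_Clm) (hCmm : St_Cmm)
    (hTop : St_Top) (hRob : St_Rob) (hLgm : St_Lgm) (hWll : St_Wll) (hApe : St_Ape) : St_Mae := by
  classical
  intro S c m A H hA h3 hne hc hbig
  obtain ⟨k, hk⟩ : ∃ k, A.card = k + 1 := ⟨A.card - 1, by omega⟩
  rw [hk] at h3 hne ⊢
  have hk2 : 2 ≤ k := by omega
  have hm0 : 0 < m := H.hm0
  obtain ⟨a, T, ha, hTc, hone, hdown, hinj, himg⟩ := hApe S c m k A H hA hk
  have hM0 : 0 < c + m - 1 := by omega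
  set Mn : ℕ := c + m - 1 with hMn
  have hMr : (0 : ℝ) < (Mn : ℝ) := by exact_mod_cast hM0
  set w : Fin k → ℝ := fun i => (a i : ℝ) / Mn with hw
  set g : Fin k → ZMod m := fun i => (a i : ZMod m) with hg
  have hwt : ∀ x : Fin k → ℕ, wt w x = ((∑ i, a i * x i : ℕ) : ℝ) / Mn := by
    intro x
    unfold wt
    rw [hw]
    push_cast
    rw [Finset.sum_div]
    exact Finset.sum_congr rfl fun i _ => by ring
  have hcls : ∀ x : Fin k → ℕ, cls g x = ((∑ i, a i * x i : ℕ) : ZMod m) := by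
    intro x
    unfold cls
    rw [hg]
    push_cast
    exact Finset.sum_congr rfl fun i _ => by ring
  have hmem : ∀ x ∈ T, ∑ i, a i * x i ∈ insert 0 (A0 S c m) := by
    intro x hx
    rw [← himg]
    exact mem_image_of_mem _ hx
  have htil : Til m w g T := by
    refine ⟨?_, hone, hdown, ?_, ?_, hTc⟩
    · intro i
      have h1 : 0 < a i := lt_trans hm0 (ha i)
      have h2 : (0 : ℝ) < a i := by exact_mod_cast h1
      exact div_pos h2 hMr
    · intro x hx
      rw [hwt, div_le_one hMr]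
      have h1 := (mem_ins H (hmem x hx)).2.1
      have h2 : ∑ i, a i * x i ≤ Mn := by omega
      exact_mod_cast h2
    · intro x hx y hy hxy
      rw [hcls, hcls, ZMod.natCast_eq_natCast_iff] at hxy
      refine hinj x hx y hy ?_
      rcases Nat.le_total (∑ i, a i * x i) (∑ i, a i * y i) with h | h
      · obtain ⟨j, hj⟩ := (Nat.modEq_iff_dvd' h).mp hxy
        exact (ins_inj H (hmem x hx) (hmem y hy) (j := j) (k := 0) (by
          rw [Nat.zero_mul, mul_comm j m, ← hj]; omega)).1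
      · obtain ⟨j, hj⟩ := (Nat.modEq_iff_dvd' h).mp hxy.symm
        exact (ins_inj H (hmem x hx) (hmem y hy) (j := 0) (k := j) (by
          rw [Nat.zero_mul, mul_comm j m, ← hj]; omega)).1
  rw [hk, show k + 1 - 1 = k by omega, show k + 1 - 2 = k - 1 by omega] at hbig
  set L : ℕ := Nat.log 2 (m / k) + 1 with hL
  have hL1 : 1 ≤ L := by omega
  -- the number of directions
  have hkm : k ≤ m := by
    have h1 : (univ.image fun i : Fin k => (Pi.single i 1 : Fin k → ℕ)).card ≤ T.card := by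
      apply Finset.card_le_card
      intro x hx
      rw [mem_image] at hx
      obtain ⟨i, -, rfl⟩ := hx
      exact hone i
    rw [Finset.card_image_of_injective, card_univ, Fintype.card_fin, hTc] at h1
    · exact h1
    · intro i j hij
      by_contra hne'
      have h2 := congrFun hij i
      simp only at h2
      rw [Pi.single_eq_same, Pi.single_eq_of_ne hne'] at h2
      exact absurd h2 one_ne_zero
  have hmr : (0 : ℝ) < m := by exact_mod_cast hm0
  have hk2r : (2 : ℝ) ≤ k := by exact_mod_cast hk2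
  have hLr : (1 : ℝ) ≤ L := by exact_mod_cast hL1
  have hkmr : (k : ℝ) ≤ m := by exact_mod_cast hkm
  have hbigr : 3000 * ((m : ℝ) ^ 2 * L) ≤ (k - 1) * Mn := by
    have e2 : ((k - 1 : ℕ) : ℝ) = k - 1 := by
      rw [Nat.cast_sub (by omega), Nat.cast_one]
    rw [← e2]
    exact_mod_cast hbig
  set μ : ℝ := (m : ℝ) / Mn with hμ
  have hμ0 : 0 < μ := div_pos hmr hMr
  have hmm : (m : ℝ) ^ 2 ≤ (m : ℝ) ^ 2 * L := by nlinarith [sq_nonneg (m : ℝ)]
  have hμk : 3000 * (m * μ) ≤ (k : ℝ) - 1 := by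
    rw [hμ, show 3000 * ((m : ℝ) * (m / Mn)) = (3000 * (m : ℝ) ^ 2) / Mn by ring,
      div_le_iff₀ hMr]
    linarith
  have hμ1 : μ ≤ 1 / 3000 := by
    have h1 : 3000 * (m * μ) ≤ m := by linarith
    have h2 : (m : ℝ) * (3000 * μ) ≤ m * 1 := by linarith
    have h3 := le_of_mul_le_mul_left h2 hmr
    linarith
  -- the sum of the truncated slacks
  have hexE : ∑ i, ex μ w T i = ((∑ i, ∑ x ∈ T,
      (Mn - (∑ j, a j * Function.update x i (en T i x) j) - m) : ℕ) : ℝ) / Mn := by
    rw [Nat.cast_sum, Finset.sum_div]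
    refine Finset.sum_congr rfl fun i _ => ?_
    unfold ex
    rw [Nat.cast_sum, Finset.sum_div]
    refine Finset.sum_congr rfl fun x _ => ?_
    rw [hwt, hμ]
    exact Mae_sub _ _ _ hMr
  by_contra hcon
  rw [not_lt] at hcon
  have hE := hInp S c m k a T H hc ha hTc hdown hinj himg hcon
  rw [← hMn] at hE
  set p : ℕ := ∑ i, (T.filter fun x => 1 ≤ x i).card with hp
  have hexp : ∑ i, ex μ w T i ≤ μ * (p : ℝ) := by
    rw [hexE, hμ, div_mul_eq_mul_div]
    apply div_le_div_of_nonneg_right _ hMr.le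
    exact_mod_cast hE
  have hpL := hSpp k m μ w g T hk2 htil hμ0.le (by linarith) hexp
  rw [← hp, ← hL] at hpL
  have hpLr : (p : ℝ) ≤ 5 * L * m := by exact_mod_cast hpL
  have hex : ∑ i, ex μ w T i ≤ ((k : ℝ) - 1) / 600 := by
    refine hexp.trans ?_
    have h1 : μ * (p : ℝ) ≤ μ * (5 * L * m) := mul_le_mul_of_nonneg_left hpLr hμ0.le
    refine h1.trans ?_
    rw [hμ, show (m : ℝ) / Mn * (5 * L * m) = (5 * ((m : ℝ) ^ 2 * L)) / Mn by ring,
      div_le_iff₀ hMr]
    linarith
  have hex2 : ∑ i, ex μ w T i < ((k : ℝ) - 1) / 200 := by linarith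
  rcases hClm k m μ w g T hk2 htil hμ0 hμk hex2 with ⟨r, hr, hrμ, hw'⟩ | ⟨hI, hII⟩
  · obtain ⟨hT', hle⟩ := hCmm k m r μ w g T hr hμ0.le hrμ htil hw'
    by_cases hfull : ∀ y : Fin k → ℕ, ∑ i, y i + 1 ≤ r → y ∈ T
    · have h7 := hRob k m r g T hk2 hr hT' hfull
      linarith
    · push Not at hfull
      have h7 := hTop k m r g T hk2 hr hT' hfull
      linarith
  · obtain ⟨TU, V', i₀, t1, t2, t3, t4, t5, t6⟩ :=
      hLgm k m μ w g T hk2 hμ0.le (by linarith) htil (by omega) hex2 hI hII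
    have h7 := hWll S c m k a T TU V' i₀ H hc ha hone hinj himg t1 t2 t3 t4 t5 t6
    omega

end Pool.Agent.WLF
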