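import Pool.Agent.WLF.StD

/-!
# WLF PmB: truncated plane lemma, case `n ≥ 2`
-/

set_option autoImplicit false

namespace Pool.Agent.WLF

open Finset

theorem PmB_c {μ α β : ℝ} {A B : ℕ} {C Q : ℕ → ℕ}
    (hp : plm μ α β A B C Q < 1 / 25) {a : ℕ} (ha : a ≤ A) :
    ((C a : ℝ) + 1) * (1 - a * α - C a * β - μ) < 1 / 25 := by
  unfold plm at hp
  have h1 := Finset.single_le_sum (s := range (A + 1))
    (f := fun a => ((C a : ℝ) + 1) * max 0 (1 - a * α - C a * β - μ))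
    (fun i _ => mul_nonneg (by positivity) (le_max_left _ _))
    (mem_range.2 (Nat.lt_succ_iff.2 ha))
  have h2 : 0 ≤ ∑ h ∈ Icc 1 B, ((Q h : ℝ) + 1) * max 0 (1 - h * β - Q h * α - μ) :=
    Finset.sum_nonneg fun i _ => mul_nonneg (by positivity) (le_max_left _ _)
  beta_reduce at h1
  have h3 : ((C a : ℝ) + 1) * (1 - a * α - C a * β - μ) ≤
      ((C a : ℝ) + 1) * max 0 (1 - a * α - C a * β - μ) :=
    mul_le_mul_of_nonneg_left (le_max_right _ _) (by positivity)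
  linarith

theorem PmB_q {μ α β : ℝ} {A B : ℕ} {C Q : ℕ → ℕ}
    (hp : plm μ α β A B C Q < 1 / 25) {h : ℕ} (h0 : 1 ≤ h) (hh : h ≤ B) :
    ((Q h : ℝ) + 1) * (1 - h * β - Q h * α - μ) < 1 / 25 := by
  unfold plm at hp
  have h1 := Finset.single_le_sum (s := Icc 1 B)
    (f := fun h => ((Q h : ℝ) + 1) * max 0 (1 - h * β - Q h * α - μ))
    (fun i _ => mul_nonneg (by positivity) (le_max_left _ _)) (mem_Icc.2 ⟨h0, hh⟩)
  have h2 : 0 ≤ ∑ a ∈ range (A + 1), ((C a : ℝ) + 1) * max 0 (1 - a * α - C a * β - μ) :=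
    Finset.sum_nonneg fun i _ => mul_nonneg (by positivity) (le_max_left _ _)
  beta_reduce at h1
  have h3 : ((Q h : ℝ) + 1) * (1 - h * β - Q h * α - μ) ≤
      ((Q h : ℝ) + 1) * max 0 (1 - h * β - Q h * α - μ) :=
    mul_le_mul_of_nonneg_left (le_max_right _ _) (by positivity)
  linarith

theorem PmB_one {μ α β : ℝ} {A B : ℕ} {C Q : ℕ → ℕ} (hm0 : 0 ≤ μ)
    (hm : (B : ℝ) * μ ≤ 1 / 200) (p : Pln α β A B C Q)
    (hp : plm μ α β A B C Q < 1 / 25) (hn : C 1 + 2 ≤ B) : 3 * β ≤ 2 * α := by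
  by_contra hcon
  rw [not_le] at hcon
  have h0 := PmB_c hp (Nat.zero_le A)
  have h1 := PmB_c hp p.A1
  have h3 := p.leC 0 (Nat.zero_le _)
  rw [p.C0] at h0 h3
  push_cast at h0 h1 h3
  have hb := p.b0
  have hn2 : (C 1 : ℝ) + 2 ≤ B := by exact_mod_cast hn
  have hc0 : (0 : ℝ) ≤ C 1 := Nat.cast_nonneg _
  generalize (C 1 : ℝ) = c at *
  generalize (B : ℝ) = b at *
  -- `N = c + 1`, `n = b - c`
  have h4 : (b / 4 : ℝ) ≤ (c + 1) * (b - c - 3 / 2) := by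
    nlinarith [mul_nonneg hc0 (by linarith : (0 : ℝ) ≤ b - c - 2)]
  have h5 : (b - c - 3 / 2) * β ≤ 1 - 1 * α - c * β := by
    nlinarith
  have h6 : (c + 1) * ((b - c - 3 / 2) * β) ≤ (c + 1) * (1 - 1 * α - c * β) :=
    mul_le_mul_of_nonneg_left h5 (by linarith)
  have h7 : b / 4 * β ≤ (c + 1) * (b - c - 3 / 2) * β := mul_le_mul_of_nonneg_right h4 hb.le
  have h8 : 1 - b * β < 1 / 20 := by nlinarith
  nlinarith

theorem thm_PmB : St_PmB := by
  intro μ α β A B C Q hm0 hmB p hp hn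
  have hB2 : (2 : ℝ) ≤ B := by
    have : 2 ≤ B := by omega
    exact_mod_cast this
  have hm : (B : ℝ) * μ ≤ 1 / 200 := by
    nlinarith [mul_nonneg (by linarith : (0 : ℝ) ≤ (B : ℝ)) hm0]
  have h1 := PmB_one hm0 hm p hp hn
  have ha := p.a0
  have hb := p.b0
  have hα : α ≤ 1 := by
    have h2 := p.leC 1 p.A1
    have h3 : (0 : ℝ) ≤ C 1 * β := mul_nonneg (Nat.cast_nonneg _) hb.le
    push_cast at h2
    linarith
  obtain ⟨J, hJ1, hJ2, hJ3⟩ : ∃ J : ℕ, 1 ≤ J ∧ (J : ℝ) * α ≤ 1 ∧ 1 < ((J : ℝ) + 1) * α := by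
    refine ⟨⌊1 / α⌋₊, ?_, ?_, ?_⟩
    · rw [Nat.one_le_floor_iff]
      rw [le_div_iff₀ ha]
      linarith
    · have := Nat.floor_le (a := 1 / α) (by positivity)
      rwa [le_div_iff₀ ha] at this
    · have := Nat.lt_floor_add_one (1 / α)
      rwa [div_lt_iff₀ ha] at this
  have hJ1' : (1 : ℝ) ≤ J := by exact_mod_cast hJ1
  have hJ4 : 1 / 2 < (J : ℝ) * α := by nlinarith
  have h0 := PmB_c hp (Nat.zero_le A)
  rw [p.C0] at h0
  push_cast at h0
  have hBn : (0 : ℝ) ≤ B := Nat.cast_nonneg _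
  have h3 := p.leC 0 (Nat.zero_le _)
  rw [p.C0] at h3
  push_cast at h3
  have h8 : 1 - (B : ℝ) * β < 1 / 20 := by nlinarith
  have hex : ∃ h : ℕ, 1 ≤ h ∧ 1 - (h : ℝ) * β < J * α := ⟨B, p.B1, by linarith⟩
  classical
  obtain ⟨g1, g2⟩ := Nat.find_spec hex
  have g3 : Nat.find hex ≤ B := Nat.find_min' hex ⟨p.B1, by linarith⟩
  have g4 : J * α ≤ 1 - ((Nat.find hex : ℝ) - 1) * β := by
    rcases Nat.eq_or_lt_of_le g1 with h | h
    · rw [← h]
      push_cast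
      linarith
    · have h5 := Nat.find_min hex (m := Nat.find hex - 1) (by omega)
      have h6 : 1 ≤ Nat.find hex - 1 := by omega
      have h7 : ¬ (1 - ((Nat.find hex - 1 : ℕ) : ℝ) * β < J * α) := fun h' => h5 ⟨h6, h'⟩
      rw [Nat.cast_sub g1, Nat.cast_one, not_lt] at h7
      exact h7
  generalize Nat.find hex = h at *
  have k1 := PmB_q hp g1 g3
  have k2 := p.leQ h g3
  have k3 : (Q h : ℝ) * α < J * α := by linarith
  have k4 : (Q h : ℝ) < J := lt_of_mul_lt_mul_right k3 ha.le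
  have k5 : (Q h : ℝ) + 1 ≤ J := by
    have : Q h < J := by exact_mod_cast k4
    exact_mod_cast this
  have k6 : (0 : ℝ) ≤ Q h := Nat.cast_nonneg _
  generalize (Q h : ℝ) = q at *
  generalize (J : ℝ) = j at *
  have m1 : (j - 2 / 3 - q) * α ≤ 1 - h * β - q * α := by
    nlinarith
  have m2 : (q + 1) * ((j - 2 / 3 - q) * α) ≤ (q + 1) * (1 - h * β - q * α) :=
    mul_le_mul_of_nonneg_left m1 (by linarith)
  have m3 : j / 3 ≤ (q + 1) * (j - 2 / 3 - q) := by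
    nlinarith [mul_nonneg k6 (by linarith : (0 : ℝ) ≤ j - 1 - q)]
  have m4 : j / 3 * α ≤ (q + 1) * (j - 2 / 3 - q) * α := mul_le_mul_of_nonneg_right m3 ha.le
  nlinarith

end Pool.Agent.WLF
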