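import Pool.Agent.WLF.StD

/-!
# WLF PmC (helper87): truncated plane lemma, case `C 1 + 1 = B`
-/

set_option autoImplicit false

namespace Pool.Agent.WLF

open Finset

private theorem PmC_c {μ α β : ℝ} {A B : ℕ} {C Q : ℕ → ℕ}
    (hp : plm μ α β A B C Q < 1 / 25) {a : ℕ} (ha : a ≤ A) :
    ((C a : ℝ) + 1) * (1 - a * α - C a * β - μ) < 1 / 25 := by
  unfold plm at hp
  have h1 := Finset.single_le_sum (s := range (A + 1))
    (f := fun a => ((C a : ℝ) + 1) * max 0 (1 - a * α - C a * β - μ))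
    (fun i _ => mul_nonneg (by positivity) (le_max_left _ _))
    (mem_range.2 (Nat.lt_succ_iff.2 ha))
  have h2 : 0 ≤ ∑ h ∈ Icc 1 B, ((Q h : ℝ) + 1) * max 0 (1 - h * β - Q h * α - μ) :=
    Finset.sum_nonneg fun i _ => mul_nonneg (by positivity) (le_max_left _ _)
  beta_reduce at h1
  have h3 : ((C a : ℝ) + 1) * (1 - a * α - C a * β - μ) ≤
      ((C a : ℝ) + 1) * max 0 (1 - a * α - C a * β - μ) :=
    mul_le_mul_of_nonneg_left (le_max_right _ _) (by positivity)
  linarith

private theorem PmC_q {μ α β : ℝ} {A B : ℕ} {C Q : ℕ → ℕ}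
    (hp : plm μ α β A B C Q < 1 / 25) {h : ℕ} (h0 : 1 ≤ h) (hh : h ≤ B) :
    1 - h * β - 1 / 25 - μ ≤ Q h * α := by
  unfold plm at hp
  have h1 := Finset.single_le_sum (s := Icc 1 B)
    (f := fun h => ((Q h : ℝ) + 1) * max 0 (1 - h * β - Q h * α - μ))
    (fun i _ => mul_nonneg (by positivity) (le_max_left _ _)) (mem_Icc.2 ⟨h0, hh⟩)
  have h2 : 0 ≤ ∑ a ∈ range (A + 1), ((C a : ℝ) + 1) * max 0 (1 - a * α - C a * β - μ) :=
    Finset.sum_nonneg fun i _ => mul_nonneg (by positivity) (le_max_left _ _)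
  beta_reduce at h1
  have h3 : (1 : ℝ) * max 0 (1 - h * β - Q h * α - μ) ≤
      ((Q h : ℝ) + 1) * max 0 (1 - h * β - Q h * α - μ) := by
    apply mul_le_mul_of_nonneg_right _ (le_max_left _ _)
    have : (0 : ℝ) ≤ Q h := Nat.cast_nonneg _
    linarith
  have h4 := le_max_right 0 (1 - h * β - Q h * α - μ)
  linarith

/-- double counting of the points of a plane outside the second axis -/
theorem plane_count {α β : ℝ} {A B : ℕ} {C Q : ℕ → ℕ} (p : Pln α β A B C Q) :
    ∑ h ∈ range (B + 1), Q h ≤ ∑ a ∈ range A, (C (a + 1) + 1) := by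
  classical
  have e1 : ∀ h ∈ range (B + 1), Q h = ∑ a ∈ range A, if h ≤ C (a + 1) then 1 else 0 := by
    intro h hh
    have hB : h ≤ B := Nat.lt_succ_iff.1 (mem_range.1 hh)
    have e2 : (range A).filter (fun a => h ≤ C (a + 1)) = range (Q h) := by
      ext a
      simp only [mem_filter, mem_range]
      constructor
      · rintro ⟨h1, h2⟩
        have := (p.dual (a + 1) (by omega) h hB).1 h2
        omega
      · intro h1
        have h3 := p.QA h hB
        exact ⟨by omega, (p.dual (a + 1) (by omega) h hB).2 (by omega)⟩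
    rw [← Finset.card_filter, e2, card_range]
  rw [sum_congr rfl e1, sum_comm]
  apply sum_le_sum
  intro a ha
  rw [← Finset.card_filter]
  calc ((range (B + 1)).filter fun h => h ≤ C (a + 1)).card ≤ (range (C (a + 1) + 1)).card := by
        apply card_le_card
        intro h hh
        rw [mem_filter] at hh
        exact mem_range.2 (Nat.lt_succ_iff.2 hh.2)
    _ = C (a + 1) + 1 := card_range _

/-- the lengths of the lines decrease -/
theorem plane_mono {α β : ℝ} {A B : ℕ} {C Q : ℕ → ℕ} (p : Pln α β A B C Q) {a : ℕ}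
    (ha : a + 1 ≤ A) : C (a + 1) ≤ C a := by
  have h1 := p.CB (a + 1) ha
  have h2 := (p.dual (a + 1) ha (C (a + 1)) h1).1 le_rfl
  exact (p.dual a (by omega) (C (a + 1)) h1).2 (by omega)

/-- consecutive slacks -/
theorem plane_cons {α β : ℝ} {A B : ℕ} {C Q : ℕ → ℕ} (p : Pln α β A B C Q)
    (hd : |α - β| ≤ β / 2) {a : ℕ} (ha : a + 1 ≤ A) :
    |α - β| ≤ (1 - a * α - C a * β) + (1 - ((a + 1 : ℕ) : ℝ) * α - C (a + 1) * β) := by
  have h1 := p.leC a (by omega)
  have h2 := p.leC (a + 1) ha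
  have h3 := plane_mono p ha
  have hb := p.b0
  obtain ⟨t, ht⟩ := Nat.exists_eq_add_of_le h3
  rw [ht] at h1 ⊢
  obtain ⟨d1, d2⟩ := abs_le.1 hd
  push_cast at *
  rcases Nat.lt_trichotomy t 1 with h | h | h
  · have h0 : t = 0 := by omega
    subst h0
    push_cast at *
    apply abs_le.2
    constructor <;> nlinarith
  · subst h
    push_cast at *
    apply abs_le.2
    constructor <;> nlinarith
  · have h5 : (2 : ℝ) ≤ t := by exact_mod_cast h
    have h6 : 2 * β ≤ t * β := mul_le_mul_of_nonneg_right h5 hb.le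
    apply abs_le.2
    constructor <;> nlinarith

private theorem PmC_sum {μ α β : ℝ} {A B : ℕ} {C Q : ℕ → ℕ}
    (p : Pln α β A B C Q) (hp : plm μ α β A B C Q < 1 / 25) (hd : |α - β| ≤ β / 2) :
    ((∑ a ∈ range A, (C (a + 1) + 1) : ℕ) : ℝ) * (|α - β| - 2 * μ) ≤ 2 / 25 := by
  set M : ℕ → ℝ := fun a => ((C a : ℝ) + 1) * max 0 (1 - a * α - C a * β - μ) with hM
  have hM0 : ∀ a, 0 ≤ M a := fun a => mul_nonneg (by positivity) (le_max_left _ _)
  have hsum : ∑ a ∈ range (A + 1), M a < 1 / 25 := by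
    unfold plm at hp
    have h2 : 0 ≤ ∑ h ∈ Icc 1 B, ((Q h : ℝ) + 1) * max 0 (1 - h * β - Q h * α - μ) :=
      Finset.sum_nonneg fun i _ => mul_nonneg (by positivity) (le_max_left _ _)
    have h3 : ∑ a ∈ range (A + 1), M a =
        ∑ a ∈ range (A + 1), ((C a : ℝ) + 1) * max 0 (1 - a * α - C a * β - μ) := rfl
    linarith
  have h1 : ∑ a ∈ range A, M a ≤ ∑ a ∈ range (A + 1), M a := by
    rw [sum_range_succ]
    linarith [hM0 A]
  have h2 : ∑ a ∈ range A, M (a + 1) ≤ ∑ a ∈ range (A + 1), M a := by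
    rw [sum_range_succ']
    linarith [hM0 0]
  have h3 : ∀ a ∈ range A, ((C (a + 1) : ℝ) + 1) * (|α - β| - 2 * μ) ≤ M a + M (a + 1) := by
    intro a ha
    have ha' : a + 1 ≤ A := mem_range.1 ha
    have k1 := plane_cons p hd ha'
    have k2 := plane_mono p ha'
    have k3 : (C (a + 1) : ℝ) ≤ C a := by exact_mod_cast k2
    have k4 := le_max_right 0 (1 - a * α - C a * β - μ)
    have k5 := le_max_right 0 (1 - ((a + 1 : ℕ) : ℝ) * α - C (a + 1) * β - μ)
    have k6 : (0 : ℝ) ≤ max 0 (1 - a * α - C a * β - μ) := le_max_left _ _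
    have k7 : ((C (a + 1) : ℝ) + 1) * (|α - β| - 2 * μ) ≤ ((C (a + 1) : ℝ) + 1) *
        (max 0 (1 - a * α - C a * β - μ) +
          max 0 (1 - ((a + 1 : ℕ) : ℝ) * α - C (a + 1) * β - μ)) := by
      apply mul_le_mul_of_nonneg_left _ (by positivity)
      linarith
    have k8 : ((C (a + 1) : ℝ) + 1) * max 0 (1 - a * α - C a * β - μ) ≤
        ((C a : ℝ) + 1) * max 0 (1 - a * α - C a * β - μ) :=
      mul_le_mul_of_nonneg_right (by linarith) k6
    have k9 : M a = ((C a : ℝ) + 1) * max 0 (1 - a * α - C a * β - μ) := rfl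
    have k10 : M (a + 1) = ((C (a + 1) : ℝ) + 1) *
      max 0 (1 - ((a + 1 : ℕ) : ℝ) * α - C (a + 1) * β - μ) := rfl
    rw [k9, k10]
    linarith [k7, k8]
  have h4 := sum_le_sum h3
  rw [sum_add_distrib, ← sum_mul] at h4
  push_cast
  linarith

private theorem PmC_low {μ α β : ℝ} {A B : ℕ} {C Q : ℕ → ℕ}
    (p : Pln α β A B C Q) (hp : plm μ α β A B C Q < 1 / 25) :
    (1 - β - 1 / 25 - μ) + (B * (24 / 25 - μ) - β * (B * (B + 1) / 2)) ≤
      α * ((∑ a ∈ range A, (C (a + 1) + 1) : ℕ) : ℝ) := by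
  have h1 : (((∑ h ∈ range (B + 1), Q h : ℕ)) : ℝ) ≤
      ((∑ a ∈ range A, (C (a + 1) + 1) : ℕ) : ℝ) := by exact_mod_cast plane_count p
  have h2 := mul_le_mul_of_nonneg_left h1 p.a0.le
  refine le_trans ?_ h2
  rw [sum_range_succ', p.Q0]
  have h3 : ∀ n ≤ B, n * (24 / 25 - μ) - β * (n * (n + 1) / 2) ≤
      α * ((∑ h ∈ range n, Q (h + 1) : ℕ) : ℝ) := by
    intro n
    induction n with
    | zero => intro _; simp
    | succ n ih =>
      intro hn
      have k1 := ih (by omega)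
      have k2 := PmC_q hp (h := n + 1) (by omega) hn
      rw [sum_range_succ]
      push_cast at *
      nlinarith
  have h4 := h3 B le_rfl
  have h5 := PmC_q hp (h := 1) le_rfl p.B1
  have h6 : (Q 1 : ℝ) * α ≤ A * α := by
    apply mul_le_mul_of_nonneg_right _ p.a0.le
    exact_mod_cast p.QA 1 p.B1
  push_cast at *
  nlinarith

theorem thm_PmC : St_PmC := by
  intro μ α β A B C Q hm0 hmB p hp hC
  have ha := p.a0
  have hb := p.b0
  have h0 := PmC_c hp (Nat.zero_le A)
  have h1 := PmC_c hp p.A1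
  have h2 := p.leC 0 (Nat.zero_le _)
  have h3 := p.leC 1 p.A1
  rw [p.C0] at h0 h2
  have hCr : (C 1 : ℝ) = B - 1 := by
    rw [← hC]
    push_cast
    ring
  rw [hCr] at h1 h3
  push_cast at h0 h1 h2 h3
  rcases Nat.eq_or_lt_of_le p.B1 with hB | hB
  · left
    have hB' : (B : ℝ) = 1 := by exact_mod_cast hB.symm
    rw [hB'] at h0 h1 hmB
    refine ⟨hB.symm, ?_, ?_⟩ <;> linarith
  right
  have hB2 : 2 ≤ B := hB
  have hb2 : (2 : ℝ) ≤ B := by exact_mod_cast hB2
  refine ⟨hB2, ?_⟩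
  have hsum := fun hd => PmC_sum p hp hd
  have hlow := PmC_low p hp
  have hq1 := PmC_q hp (h := 1) le_rfl p.B1
  have hQA : (Q 1 : ℝ) * α ≤ A * α := by
    apply mul_le_mul_of_nonneg_right _ p.a0.le
    exact_mod_cast p.QA 1 p.B1
  push_cast at hq1
  generalize ((∑ a ∈ range A, (C (a + 1) + 1) : ℕ) : ℝ) = N at *
  generalize (A : ℝ) * α = Aa at *
  generalize (Q 1 : ℝ) * α = Qa at *
  generalize (B : ℝ) = b at *
  clear hp p hC hCr
  -- small quantities
  have hbm : b * μ ≤ 1 / 200 := by nlinarith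
  have hmm : μ ≤ 1 / 400 := by nlinarith
  have e1 : (b + 1) * (1 - b * β) < 19 / 400 := by nlinarith
  have e2 : b * (1 - α - (b - 1) * β) < 19 / 400 := by nlinarith
  have e3 : 0 ≤ 1 - b * β := by linarith
  have e4 : 0 ≤ 1 - α - (b - 1) * β := by linarith
  have e5 : b * (1 - b * β) < 19 / 400 := by nlinarith
  have e6 : 1 - b * β < 19 / 1200 := by nlinarith
  have e7 : b * (α - β) < 19 / 400 := by nlinarith
  have e8 : -(19 / 400) < b * (α - β) := by nlinarith
  have e9 : b * α < 419 / 400 := by nlinarith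
  have hbD : b * |α - β| ≤ 19 / 400 := by
    rcases abs_cases (α - β) with ⟨h, _⟩ | ⟨h, _⟩ <;> rw [h] <;> linarith
  have hd : |α - β| ≤ β / 2 := by
    by_contra hcon
    rw [not_le] at hcon
    have : b * (β / 2) < b * |α - β| := mul_lt_mul_of_pos_left hcon (by linarith)
    linarith
  have hN := hsum hd
  have hbβ : β ≤ 1 / 2 := by nlinarith
  -- the main estimate
  have hmain : b ^ 2 * |α - β| ≤ 1 / 4 := by
    rcases le_or_gt (|α - β|) (2 * μ) with hc | hc
    · nlinarith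
    · have f1 : 0 < |α - β| - 2 * μ := by linarith
      generalize |α - β| = D at *
      -- `b α N ≥ (19/50) b²`
      have f2 : 19 / 50 * b ^ 2 ≤ b * (α * N) := by
        have g1 : b * ((1 - β - 1 / 25 - μ) + (b * (24 / 25 - μ) - β * (b * (b + 1) / 2))) ≤
            b * (α * N) := mul_le_mul_of_nonneg_left hlow (by linarith)
        have g2 : b * (b + 1) / 2 * (b * β) ≤ b * (b + 1) / 2 * 1 :=
          mul_le_mul_of_nonneg_left (by linarith) (by nlinarith)
        have g3 : b * (b * μ) ≤ b * (1 / 200) := mul_le_mul_of_nonneg_left hbm (by linarith)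
        nlinarith
      have f3 : b * (α * N) * (D - 2 * μ) ≤ 2 / 25 * (b * α) := by
        have g1 : b * α * (N * (D - 2 * μ)) ≤ b * α * (2 / 25) :=
          mul_le_mul_of_nonneg_left hN (by nlinarith)
        nlinarith
      have f4 : 19 / 50 * b ^ 2 * (D - 2 * μ) ≤ b * (α * N) * (D - 2 * μ) :=
        mul_le_mul_of_nonneg_right f2 f1.le
      have f5 : 19 / 50 * b ^ 2 * (D - 2 * μ) ≤ 2 / 25 * (419 / 400) := by linarith
      have f6 : 19 / 50 * b ^ 2 * (D - 2 * μ) =
        19 / 50 * (b ^ 2 * D) - 19 / 25 * (b ^ 2 * μ) := by ring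
      linarith
  have g1 : b ^ 2 * (α - β) ≤ 1 / 4 := by
    have := mul_le_mul_of_nonneg_left (le_abs_self (α - β)) (by positivity : 0 ≤ b ^ 2)
    linarith
  have g2 : -(1 / 4) ≤ b ^ 2 * (α - β) := by
    have := mul_le_mul_of_nonneg_left (neg_abs_le (α - β)) (by positivity : 0 ≤ b ^ 2)
    linarith
  have g3 : b * (1 - b * α) ≤ 119 / 400 := by nlinarith
  have g4 : -(1 / 4) ≤ b * (1 - b * α) := by nlinarith
  have g5 : 17 / 20 ≤ b * α := by nlinarith
  refine ⟨?_, ?_, ?_⟩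
  · have k1 : 1 / α - b = (1 - b * α) / α := by
      field_simp
    rw [k1, abs_div, abs_of_pos ha, div_le_iff₀ ha]
    have k2 : b * |1 - b * α| ≤ b * (2 / 5 * α) := by
      rcases abs_cases (1 - b * α) with ⟨h, _⟩ | ⟨h, _⟩ <;> rw [h] <;> linarith
    exact le_of_mul_le_mul_left k2 (by linarith)
  · have k1 : 1 / β - b = (1 - b * β) / β := by
      field_simp
    rw [k1, abs_div, abs_of_pos hb, div_le_iff₀ hb, abs_of_nonneg e3]
    have k2 : b * (1 - b * β) ≤ b * (2 / 5 * β) := by linarith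
    exact le_of_mul_le_mul_left k2 (by linarith)
  · linarith

end Pool.Agent.WLF
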