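import Pool.Agent.WLF.StD

/-!
# WLF [Psm]: the truncated costs of the planes through one axis are disjoint
-/

set_option autoImplicit false

namespace Pool.Agent.WLF

open Finset

private theorem Psm_upd {k : ℕ} (w : Fin k → ℝ) (x : Fin k → ℕ) (i : Fin k) (n : ℕ) :
    wt w (Function.update x i n) = wt w x + w i * n - w i * x i := by
  unfold wt
  rw [← Finset.sum_erase_add _ _ (mem_univ i), ← Finset.sum_erase_add (s := univ)
    (f := fun i => w i * (x i : ℝ)) (h := mem_univ i), Function.update_self]
  have h1 : ∑ j ∈ univ.erase i, w j * ((Function.update x i n j : ℕ) : ℝ) =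
      ∑ j ∈ univ.erase i, w j * (x j : ℝ) := by
    refine Finset.sum_congr rfl fun j hj => ?_
    rw [Function.update_of_ne (Finset.ne_of_mem_erase hj)]
  rw [h1]
  ring

private theorem Psm_single {k : ℕ} (w : Fin k → ℝ) (i : Fin k) (n : ℕ) :
    wt w (Pi.single i n) = w i * n := by
  have h := Psm_upd w 0 i n
  have h0 : wt w (0 : Fin k → ℕ) = 0 := by
    unfold wt
    simp
  rw [h0] at h
  have h1 : Function.update (0 : Fin k → ℕ) i n = Pi.single i n := rfl
  rw [h1] at h
  rw [h]
  simp

private theorem Psm_two {k : ℕ} (w : Fin k → ℝ) (i l : Fin k) (hil : i ≠ l) (a h : ℕ) :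
    wt w (Function.update (Pi.single i a) l h) = w i * a + w l * h := by
  rw [Psm_upd, Psm_single]
  have h1 : (Pi.single i a : Fin k → ℕ) l = 0 := by
    rw [Pi.single_apply]
    exact if_neg (Ne.symm hil)
  rw [h1]
  simp

/-- a sum of slacks over a set of parameters of points of `T` -/
private theorem Psm_sum {k : ℕ} (μ : ℝ) (w : Fin k → ℝ)
    (T : Finset (Fin k → ℕ)) (j : Fin k) {ι : Type}
    (J : Finset ι) (f : ι → Fin k → ℕ) (hf : ∀ x ∈ J, f x ∈ T)
    (hinj : ∀ x ∈ J, ∀ y ∈ J, f x = f y → x = y) :
    ∑ x ∈ J, max 0 (1 - wt w (Function.update (f x) j (en T j (f x))) - μ) ≤ ex μ w T j := by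
  classical
  have h1 : ∑ x ∈ J, max 0 (1 - wt w (Function.update (f x) j (en T j (f x))) - μ) =
      ∑ y ∈ J.image f, max 0 (1 - wt w (Function.update y j (en T j y)) - μ) := by
    rw [Finset.sum_image fun x hx y hy h => hinj x hx y hy h]
  rw [h1]
  refine Finset.sum_le_sum_of_subset_of_nonneg ?_ fun y hy _ => ?_
  · intro y hy
    rw [mem_image] at hy
    obtain ⟨x, hx, rfl⟩ := hy
    exact hf x hx
  · exact le_max_left _ _

/-- [PSM] -/
theorem thm_Psm (hLine : St_Line) : St_Psm := by
  classical
  intro k m μ w g T H i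
  have hzero : (0 : Fin k → ℕ) ∈ T := H.down _ (H.one i) _ fun j => Nat.zero_le _
  have hax : ∀ (j : Fin k) (a : ℕ), a ≤ en T j 0 → Pi.single j a ∈ T := by
    intro j a ha
    obtain ⟨hL1, -, -, -⟩ := hLine k T H.down j
    refine H.down _ (hL1 0 hzero) _ ?_
    intro t
    by_cases ht : t = j
    · subst ht
      rw [Function.update_self, Pi.single_eq_same]
      exact ha
    · rw [Function.update_of_ne ht, Pi.single_eq_of_ne ht]
      exact Nat.zero_le _
  have hpt : ∀ (i l : Fin k) (a h : ℕ), a ≤ en T i 0 → h ≤ en T l (Pi.single i a) →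
      Function.update (Pi.single i a) l h ∈ T := by
    intro i l a h ha hh
    obtain ⟨hL1, -, -, -⟩ := hLine k T H.down l
    refine H.down _ (hL1 _ (hax i a ha)) _ ?_
    intro t
    by_cases ht : t = l
    · subst ht
      rw [Function.update_self, Function.update_self]
      exact hh
    · rw [Function.update_of_ne ht, Function.update_of_ne ht]
  -- the first sums
  have hA : ∀ l ∈ univ.erase i, ∑ a ∈ range (en T i 0 + 1),
      ((en T l (Pi.single i a) : ℝ) + 1) *
        max 0 (1 - a * w i - en T l (Pi.single i a) * w l - μ) ≤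
      ex μ w T l := by
    intro l hl
    have hil : i ≠ l := (Finset.ne_of_mem_erase hl).symm
    obtain ⟨-, -, hL3, -⟩ := hLine k T H.down l
    have h1 := Psm_sum μ w T l
      ((range (en T i 0 + 1)).sigma fun a => range (en T l (Pi.single i a) + 1))
      (fun p => Function.update (Pi.single i p.1) l p.2) ?_ ?_
    · rw [Finset.sum_sigma] at h1
      refine le_trans (le_of_eq ?_) h1
      refine Finset.sum_congr rfl fun a _ => ?_
      have h2 : ∀ h ∈ range (en T l (Pi.single i a) + 1),
          max 0 (1 - wt w (Function.update (Function.update (Pi.single i a) l h) l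
            (en T l (Function.update (Pi.single i a) l h))) - μ) =
          max 0 (1 - a * w i - en T l (Pi.single i a) * w l - μ) := by
        intro h _
        rw [hL3, Function.update_idem, Psm_two w i l hil]
        congr 1
        ring
      rw [Finset.sum_congr rfl h2, Finset.sum_const, card_range, nsmul_eq_mul]
      push_cast
      ring
    · rintro ⟨a, h⟩ hp
      rw [mem_sigma, mem_range, mem_range] at hp
      exact hpt i l a h (Nat.lt_succ_iff.1 hp.1) (Nat.lt_succ_iff.1 hp.2)
    · rintro ⟨a, h⟩ - ⟨a', h'⟩ - he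
      have h3 := congrFun he i
      have h4 := congrFun he l
      simp only [Function.update_self, Function.update_of_ne hil, Pi.single_eq_same] at h3 h4
      subst h3
      subst h4
      rfl
  -- the second sums
  have hB : ∑ l ∈ univ.erase i, ∑ h ∈ Icc 1 (en T l 0),
      ((en T i (Pi.single l h) : ℝ) + 1) *
        max 0 (1 - h * w l - en T i (Pi.single l h) * w i - μ) ≤
      ex μ w T i := by
    obtain ⟨-, -, hL3, -⟩ := hLine k T H.down i
    have h1 := Psm_sum μ w T i
      ((univ.erase i).sigma fun l => (Icc 1 (en T l 0)).sigma fun h =>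
        range (en T i (Pi.single l h) + 1))
      (fun p => Function.update (Pi.single p.1 p.2.1) i p.2.2) ?_ ?_
    · rw [Finset.sum_sigma] at h1
      refine le_trans (le_of_eq ?_) h1
      refine Finset.sum_congr rfl fun l hl => ?_
      have hil : l ≠ i := Finset.ne_of_mem_erase hl
      rw [Finset.sum_sigma]
      refine Finset.sum_congr rfl fun h _ => ?_
      have h2 : ∀ b ∈ range (en T i (Pi.single l h) + 1),
          max 0 (1 - wt w (Function.update (Function.update (Pi.single l h) i b) i
            (en T i (Function.update (Pi.single l h) i b))) - μ) =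
          max 0 (1 - h * w l - en T i (Pi.single l h) * w i - μ) := by
        intro b _
        rw [hL3, Function.update_idem, Psm_two w l i hil]
        congr 1
        ring
      rw [Finset.sum_congr rfl h2, Finset.sum_const, card_range, nsmul_eq_mul]
      push_cast
      ring
    · rintro ⟨l, h, b⟩ hp
      rw [mem_sigma, mem_sigma, mem_Icc, mem_range] at hp
      exact hpt l i h b hp.2.1.2 (Nat.lt_succ_iff.1 hp.2.2)
    · rintro ⟨l, h, b⟩ hp ⟨l', h', b'⟩ hp' he
      rw [mem_sigma, mem_sigma, mem_Icc, mem_range] at hp hp'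
      have hl : l ≠ i := Finset.ne_of_mem_erase hp.1
      have hl' : l' ≠ i := Finset.ne_of_mem_erase hp'.1
      have hh : 1 ≤ h := hp.2.1.1
      have h3 : b = b' := by
        have h3 := congrFun he i
        simpa only [Function.update_self] using h3
      have h4 := congrFun he l
      simp only [Function.update_of_ne hl, Pi.single_eq_same] at h4
      have h5 : l = l' := by
        by_contra hne
        rw [Pi.single_eq_of_ne hne] at h4
        omega
      subst h5
      rw [Pi.single_eq_same] at h4
      subst h4
      subst h3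
      rfl
  have h1 : ∑ l ∈ univ.erase i, pm μ w T i l =
      ∑ l ∈ univ.erase i, (∑ a ∈ range (en T i 0 + 1),
        ((en T l (Pi.single i a) : ℝ) + 1) *
        max 0 (1 - a * w i - en T l (Pi.single i a) * w l - μ)) +
      ∑ l ∈ univ.erase i, ∑ h ∈ Icc 1 (en T l 0),
        ((en T i (Pi.single l h) : ℝ) + 1) *
        max 0 (1 - h * w l - en T i (Pi.single l h) * w i - μ) := by
    rw [← Finset.sum_add_distrib]
    rfl
  rw [h1, ← Finset.sum_erase_add _ _ (mem_univ i)]
  exact add_le_add (Finset.sum_le_sum hA) hB

end Pool.Agent.WLF
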