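import Pool.Agent.WLF.St

/-!
# WLF [Line]: lines of a finite down-set
-/

set_option autoImplicit false

namespace Pool.Agent.WLF

open Finset

section

variable {k : ℕ} {T : Finset (Fin k → ℕ)}

theorem Line_le {x : Fin k → ℕ} {i : Fin k} {n : ℕ} (h : Function.update x i n ∈ T) :
    n ≤ en T i x := by
  unfold en
  have h1 : Function.update x i n ∈ T.filter fun y => Function.update x i (y i) = y := by
    rw [mem_filter]
    refine ⟨h, ?_⟩
    rw [Function.update_self]
  have h2 := Finset.le_sup (f := fun y : Fin k → ℕ => y i) h1
  rw [Function.update_self] at h2
  exact h2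

theorem Line_upd (x : Fin k → ℕ) (i : Fin k) (n : ℕ) :
    en T i (Function.update x i n) = en T i x := by
  unfold en
  congr 1
  refine Finset.filter_congr fun y _ => ?_
  rw [Function.update_idem]

theorem Line_mem {x : Fin k → ℕ} (hx : x ∈ T) (i : Fin k) :
    Function.update x i (en T i x) ∈ T := by
  unfold en
  have h1 : x ∈ T.filter fun y => Function.update x i (y i) = y := by
    rw [mem_filter]
    exact ⟨hx, Function.update_eq_self i x⟩
  obtain ⟨y, hy, hye⟩ := Finset.exists_mem_eq_sup _ ⟨x, h1⟩ fun y : Fin k → ℕ => y i
  rw [hye]
  rw [mem_filter] at hy
  rw [hy.2]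
  exact hy.1

end

/-- [LINE] -/
theorem thm_Line : St_Line := by
  intro k T hT i
  refine ⟨fun x hx => Line_mem hx i, fun x n h => Line_le h, fun x n => Line_upd x i n, ?_⟩
  have hself : ∀ x ∈ T, x i ≤ en T i x := by
    intro x hx
    refine Line_le ?_
    rw [Function.update_eq_self]
    exact hx
  have h1 : ∑ x ∈ T, x i = ∑ x ∈ T, (en T i x - x i) := by
    refine Finset.sum_nbij' (fun x => Function.update x i (en T i x - x i))
      (fun x => Function.update x i (en T i x - x i)) ?_ ?_ ?_ ?_ ?_
    · intro x hx
      refine hT _ (Line_mem hx i) _ ?_
      intro j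
      by_cases hj : j = i
      · subst hj
        rw [Function.update_self, Function.update_self]
        exact Nat.sub_le _ _
      · rw [Function.update_of_ne hj, Function.update_of_ne hj]
    · intro x hx
      refine hT _ (Line_mem hx i) _ ?_
      intro j
      by_cases hj : j = i
      · subst hj
        rw [Function.update_self, Function.update_self]
        exact Nat.sub_le _ _
      · rw [Function.update_of_ne hj, Function.update_of_ne hj]
    · intro x hx
      have h2 := hself x hx
      rw [Line_upd, Function.update_self, Function.update_idem]
      rw [show en T i x - (en T i x - x i) = x i by omega]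
      exact Function.update_eq_self i x
    · intro x hx
      have h2 := hself x hx
      rw [Line_upd, Function.update_self, Function.update_idem]
      rw [show en T i x - (en T i x - x i) = x i by omega]
      exact Function.update_eq_self i x
    · intro x hx
      have h2 := hself x hx
      rw [Line_upd, Function.update_self]
      omega
  have h3 : ∑ x ∈ T, en T i x = ∑ x ∈ T, ((en T i x - x i) + x i) := by
    refine Finset.sum_congr rfl fun x hx => ?_
    have := hself x hx
    omega
  rw [h3, Finset.sum_add_distrib, ← h1]
  ring

end Pool.Agent.WLF
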