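import Pool.Agent.WLF.StE
import Pool.Agent.WLF.Line

/-!
# WLF [Spp]: the average size of the supports
-/

set_option autoImplicit false

namespace Pool.Agent.WLF

open Finset

private theorem Spp_num (l s : ℕ) (hs : 2 * l + 6 ≤ s) : 5 * s * 2 ^ (l + 1) ≤ 2 ^ s := by
  induction s, hs using Nat.le_induction with
  | base =>
    have h1 : l + 1 ≤ 2 ^ l := Nat.lt_two_pow_self
    have h2 : 5 * (2 * l + 6) ≤ 2 ^ (l + 5) := by
      rw [pow_add]
      omega
    calc 5 * (2 * l + 6) * 2 ^ (l + 1) ≤ 2 ^ (l + 5) * 2 ^ (l + 1) := Nat.mul_le_mul_right _ h2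
      _ = 2 ^ (2 * l + 6) := by rw [← pow_add]; congr 1; ring
  | succ s hs ih =>
    calc 5 * (s + 1) * 2 ^ (l + 1) ≤ 2 * (5 * s * 2 ^ (l + 1)) := by
          have : 5 * (s + 1) ≤ 2 * (5 * s) := by omega
          calc 5 * (s + 1) * 2 ^ (l + 1) ≤ 2 * (5 * s) * 2 ^ (l + 1) :=
                Nat.mul_le_mul_right _ this
            _ = _ := by ring
      _ ≤ 2 * 2 ^ s := Nat.mul_le_mul_left _ ih
      _ = 2 ^ (s + 1) := by rw [pow_succ]; ring

/-- [SPP] -/
theorem thm_Spp : St_Spp := by
  classical
  intro k m μ w g T hk H hμ0 hμ1 hX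
  have hLine := thm_Line
  set p : ℕ := ∑ i, (T.filter fun x => 1 ≤ x i).card with hp
  set sp : (Fin k → ℕ) → Finset (Fin k) := fun x => univ.filter fun i => 1 ≤ x i with hsp
  have hp2 : p = ∑ x ∈ T, (sp x).card := by
    rw [hp, hsp]
    simp only [Finset.card_filter]
    exact Finset.sum_comm
  have hzero : (0 : Fin k → ℕ) ∈ T := by
    refine H.down _ (H.one ⟨0, by omega⟩) _ fun j => Nat.zero_le _
  obtain ⟨x₀, hx₀, hmax⟩ := Finset.exists_max_image T (fun x => (sp x).card) ⟨0, hzero⟩
  set s : ℕ := (sp x₀).card with hs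
  have hps : p ≤ m * s := by
    rw [hp2]
    calc ∑ x ∈ T, (sp x).card ≤ ∑ _x ∈ T, s := Finset.sum_le_sum fun x hx => hmax x hx
      _ = m * s := by rw [Finset.sum_const, H.card, smul_eq_mul]
  -- the number of extensions
  set up : (Fin k → ℕ) → Fin k → (Fin k → ℕ) := fun x j => Function.update x j (x j + 1) with hup
  set f : (Fin k → ℕ) → ℕ := fun x => (univ.filter fun j => up x j ∈ T).card with hf
  have hfp : ∑ x ∈ T, f x ≤ p := by
    have h1 : ∑ x ∈ T, f x = ∑ j, (T.filter fun x => up x j ∈ T).card := by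
      rw [hf]
      simp only [Finset.card_filter]
      exact Finset.sum_comm
    rw [h1, hp]
    refine Finset.sum_le_sum fun j _ => ?_
    refine Finset.card_le_card_of_injOn (fun x => up x j) ?_ ?_
    · intro x hx
      rw [mem_coe, mem_filter] at hx
      rw [mem_coe, mem_filter]
      refine ⟨hx.2, ?_⟩
      rw [hup]
      simp only [Function.update_self]
      omega
    · intro x _ y _ hxy
      rw [hup] at hxy
      simp only at hxy
      ext i
      have h2 := congrFun hxy i
      by_cases hi : i = j
      · subst hi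
        rw [Function.update_self, Function.update_self] at h2
        omega
      · rwa [Function.update_of_ne hi, Function.update_of_ne hi] at h2
  -- ends
  have hen : ∀ x ∈ T, ∀ j, up x j ∉ T → Function.update x j (en T j x) = x := by
    intro x hx j hj
    obtain ⟨hL1, hL2, -, -⟩ := hLine k T H.down j
    have h1 : x j ≤ en T j x := hL2 x (x j) (by rw [Function.update_eq_self]; exact hx)
    have h2 : ¬ x j + 1 ≤ en T j x := by
      intro hc
      apply hj
      refine H.down _ (hL1 x hx) _ ?_
      intro t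
      rw [hup]
      by_cases ht : t = j
      · subst ht
        simp only [Function.update_self]
        exact hc
      · simp only [Function.update_of_ne ht]
        exact le_rfl
    rw [show en T j x = x j by omega, Function.update_eq_self]
  set D : Finset (Fin k → ℕ) := T.filter fun x => wt w x ≤ 1 / 2 with hD
  have hDT : D ⊆ T := filter_subset _ _
  set D1 := D.filter fun x => k ≤ 2 * f x with hD1
  set D2 := D.filter fun x => ¬ k ≤ 2 * f x with hD2
  have hDD : D1.card + D2.card = D.card := Finset.card_filter_add_card_filter_not _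
  have c1 : k * D1.card ≤ 2 * p := by
    calc k * D1.card = ∑ _x ∈ D1, k := by rw [Finset.sum_const, smul_eq_mul, mul_comm]
      _ ≤ ∑ x ∈ D1, 2 * f x := Finset.sum_le_sum fun x hx => (mem_filter.mp hx).2
      _ = 2 * ∑ x ∈ D1, f x := by rw [Finset.mul_sum]
      _ ≤ 2 * ∑ x ∈ T, f x :=
          Nat.mul_le_mul_left _ (Finset.sum_le_sum_of_subset ((filter_subset _ _).trans hDT))
      _ ≤ 2 * p := Nat.mul_le_mul_left _ hfp
  have c2 : (k : ℝ) * D2.card ≤ 5 * ∑ i, ex μ w T i := by
    have h1 : ∑ i, ex μ w T i =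
        ∑ x ∈ T, ∑ i, max 0 (1 - wt w (Function.update x i (en T i x)) - μ) := by
      unfold ex
      rw [Finset.sum_comm]
    have hnn : ∀ x ∈ T, 0 ≤ ∑ i, max 0 (1 - wt w (Function.update x i (en T i x)) - μ) :=
      fun x _ => Finset.sum_nonneg fun i _ => le_max_left _ _
    have h2 : ∑ x ∈ D2, ∑ i, max 0 (1 - wt w (Function.update x i (en T i x)) - μ) ≤
        ∑ i, ex μ w T i := by
      rw [h1]
      exact Finset.sum_le_sum_of_subset_of_nonneg ((filter_subset _ _).trans hDT)
        fun x hx _ => hnn x hx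
    have h3 : ∀ x ∈ D2, (k : ℝ) / 5 ≤
        ∑ i, max 0 (1 - wt w (Function.update x i (en T i x)) - μ) := by
      intro x hx
      rw [hD2, mem_filter, hD, mem_filter] at hx
      obtain ⟨⟨hxT, hxw⟩, hxf⟩ := hx
      have h4 : ∑ i ∈ univ.filter (fun j => ¬ up x j ∈ T), (2 / 5 : ℝ) ≤
          ∑ i, max 0 (1 - wt w (Function.update x i (en T i x)) - μ) := by
        calc ∑ i ∈ univ.filter (fun j => ¬ up x j ∈ T), (2 / 5 : ℝ) ≤
            ∑ i ∈ univ.filter (fun j => ¬ up x j ∈ T),
              max 0 (1 - wt w (Function.update x i (en T i x)) - μ) := by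
              refine Finset.sum_le_sum fun i hi => ?_
              rw [hen x hxT i (mem_filter.mp hi).2]
              refine le_trans ?_ (le_max_right _ _)
              linarith
          _ ≤ _ := Finset.sum_le_sum_of_subset_of_nonneg (filter_subset _ _)
              fun i _ _ => le_max_left _ _
      refine le_trans ?_ h4
      rw [Finset.sum_const, nsmul_eq_mul]
      have h5 : (univ.filter fun j => up x j ∈ T).card +
          (univ.filter fun j => ¬ up x j ∈ T).card = k := by
        rw [Finset.card_filter_add_card_filter_not, card_univ, Fintype.card_fin]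
      have h6 : k ≤ 2 * (univ.filter fun j => ¬ up x j ∈ T).card := by
        have : f x = (univ.filter fun j => up x j ∈ T).card := rfl
        omega
      have h7 : (k : ℝ) ≤ 2 * ((univ.filter fun j => ¬ up x j ∈ T).card : ℝ) := by
        exact_mod_cast h6
      linarith
    have h8 : ∑ _x ∈ D2, (k : ℝ) / 5 ≤ ∑ i, ex μ w T i := (Finset.sum_le_sum h3).trans h2
    rw [Finset.sum_const, nsmul_eq_mul] at h8
    linarith
  have c3 : 2 * (k * D.card) ≤ 5 * p := by
    have h1 : μ * (p : ℝ) ≤ 1 / 10 * p := mul_le_mul_of_nonneg_right hμ1 (Nat.cast_nonneg _)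
    have h2 : (k : ℝ) * D1.card ≤ 2 * p := by exact_mod_cast c1
    have h3 : (D1.card : ℝ) + D2.card = D.card := by exact_mod_cast hDD
    have h4 : 2 * ((k : ℝ) * D.card) ≤ 5 * p := by
      rw [← h3]
      linarith
    exact_mod_cast h4
  -- the box below `x₀`
  have c4 : 2 ^ s ≤ 2 * D.card := by
    set y : Finset (Fin k) → (Fin k → ℕ) := fun I i => if i ∈ I then x₀ i else 0 with hy
    have hyT : ∀ I, y I ∈ T := by
      intro I
      refine H.down _ hx₀ _ ?_
      intro i
      rw [hy]
      by_cases hi : i ∈ I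
      · simp [hi]
      · simp [hi]
    have hysum : ∀ I ∈ (sp x₀).powerset, wt w (y I) + wt w (y (sp x₀ \ I)) ≤ 1 := by
      intro I _
      refine le_trans (le_of_eq ?_) (H.le _ hx₀)
      unfold wt
      rw [← Finset.sum_add_distrib]
      refine Finset.sum_congr rfl fun i _ => ?_
      rw [hy]
      by_cases hi : i ∈ I
      · simp [hi]
      · by_cases h2 : 1 ≤ x₀ i
        · have h3 : i ∈ sp x₀ := by
            rw [hsp]
            exact mem_filter.2 ⟨mem_univ _, h2⟩
          simp [hi, h3]
        · have h3 : x₀ i = 0 := by omega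
          simp [h3]
    set P := (sp x₀).powerset.filter fun I => wt w (y I) ≤ 1 / 2 with hP
    set P' := (sp x₀).powerset.filter fun I => ¬ wt w (y I) ≤ 1 / 2 with hP'
    have h1 : P.card + P'.card = 2 ^ s := by
      rw [hP, hP', Finset.card_filter_add_card_filter_not, card_powerset]
    have h2 : P'.card ≤ P.card := by
      refine Finset.card_le_card_of_injOn (fun I => sp x₀ \ I) ?_ ?_
      · intro I hI
        rw [mem_coe, hP', mem_filter] at hI
        rw [mem_coe, hP, mem_filter, mem_powerset]
        refine ⟨sdiff_subset, ?_⟩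
        have h3 := hysum I hI.1
        have h4 := hI.2
        rw [not_le] at h4
        linarith
      · intro I hI J hJ hIJ
        rw [mem_coe, hP', mem_filter, mem_powerset] at hI hJ
        simp only at hIJ
        rw [← Finset.sdiff_sdiff_eq_self hI.1, hIJ, Finset.sdiff_sdiff_eq_self hJ.1]
    have h3 : P.card ≤ D.card := by
      refine Finset.card_le_card_of_injOn y ?_ ?_
      · intro I hI
        rw [mem_coe, hP, mem_filter] at hI
        rw [mem_coe, hD, mem_filter]
        exact ⟨hyT I, hI.2⟩
      · intro I hI J hJ hIJ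
        rw [mem_coe, hP, mem_filter, mem_powerset] at hI hJ
        ext i
        have h4 := congrFun hIJ i
        rw [hy] at h4
        simp only at h4
        constructor
        · intro hi
          by_contra hj
          have h5 := (mem_filter.1 (hI.1 hi)).2
          simp [hi, hj] at h4
          omega
        · intro hj
          by_contra hi
          have h5 := (mem_filter.1 (hJ.1 hj)).2
          simp [hi, hj] at h4
          omega
    omega
  -- the end
  have hk0 : 0 < k := by omega
  have hlog : m < 2 ^ (Nat.log 2 (m / k) + 1) * k := by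
    rw [← Nat.div_lt_iff_lt_mul hk0]
    exact Nat.lt_pow_succ_log_self (by norm_num) _
  have c5 : k * 2 ^ s ≤ 5 * (m * s) := by
    calc k * 2 ^ s ≤ k * (2 * D.card) := Nat.mul_le_mul_left _ c4
      _ = 2 * (k * D.card) := by ring
      _ ≤ 5 * p := c3
      _ ≤ 5 * (m * s) := Nat.mul_le_mul_left _ hps
  generalize Nat.log 2 (m / k) = l at hlog ⊢
  have c6 : s ≤ 2 * l + 5 := by
    by_contra hc
    have h1 := Spp_num l s (by omega)
    have hs0 : 0 < s := by omega
    have h2 : 5 * (m * s) < 5 * ((2 ^ (l + 1) * k) * s) :=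
      Nat.mul_lt_mul_of_pos_left (Nat.mul_lt_mul_of_pos_right hlog hs0) (by norm_num)
    have h3 : 5 * ((2 ^ (l + 1) * k) * s) = k * (5 * s * 2 ^ (l + 1)) := by ring
    have h4 := Nat.mul_le_mul_left k h1
    omega
  calc p ≤ m * s := hps
    _ ≤ m * (5 * (l + 1)) := Nat.mul_le_mul_left _ (by omega)
    _ = 5 * (l + 1) * m := by ring

end Pool.Agent.WLF
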