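import Pool.Agent.WLF.StD

/-!
# WLF, fifth part: `(d - 2) (F + m) ≥ 3000 m² (1 + log₂ (m / (d - 1)))`

Frozen statements, improvement of `StD.lean` (`log₂ m` is replaced by `1 + log₂ (m / (d - 1))`).
-/

set_option autoImplicit false

namespace Pool.Agent.WLF

open Finset

/-- **SPP.**  PROOF.  Let `s` be the maximum of `#(supp x)`, `supp x = {i | 1 ≤ x i}`, over `x ∈ T`;
`p = ∑ i, #{x ∈ T | 1 ≤ x i} = ∑ x ∈ T, #(supp x) ≤ s m`.  Let `f x = #{j | x + e_j ∈ T}`; `∑ x ∈ T, f x = p` (the map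
`x ↦ x + e_j` from `{x ∈ T | x + e_j ∈ T}` to `{x ∈ T | 1 ≤ x j}` is a bijection).  Let `D = {x ∈ T | wt w x ≤ 1/2}`.
(1) `#{x ∈ T | k ≤ 2 f x} ≤ 2 p / k`.  (2) If `x ∈ D`, `2 f x < k`, then for more than `k / 2` directions `j` we have
`x + e_j ∉ T`, so the end of the line in direction `j` through `x` is `x` (`en T j x = x j`), with truncated slack
`1 - wt w x - μ ≥ 2/5`; so the number of these `x` is at most `5 (∑ ex) / k ≤ 5 μ p / k ≤ p / (2 k)`.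
So `k D.card ≤ (5/2) p ≤ (5/2) s m`.
(3) Let `x ∈ T`, `#(supp x) = s`.  The `2 ^ s` points `y ≤ x` with `y i = 0` or `y i = x i` are in `T`, and
`wt w y + wt w (x - y) = wt w x ≤ 1`, so at least half of them are in `D`: `2 ^ s ≤ 2 D.card`.
So `k 2 ^ s ≤ 5 s m`.  With `λ = Nat.log 2 (m / k)`: `m < k 2 ^ (λ + 1)`, so `2 ^ s < 5 s 2 ^ (λ + 1)`, which implies
`s ≤ 2 λ + 5` (`2 ^ s / s` is nondecreasing, and `2 ^ (2 λ + 6) ≥ 5 (2 λ + 6) 2 ^ (λ + 1)`). -/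
def St_Spp : Prop := ∀ (k m : ℕ) (μ : ℝ) (w : Fin k → ℝ) (g : Fin k → ZMod m)
  (T : Finset (Fin k → ℕ)), 2 ≤ k → Til m w g T → 0 ≤ μ → μ ≤ 1 / 10 →
  ∑ i, ex μ w T i ≤ μ * ((∑ i, (T.filter fun x => 1 ≤ x i).card : ℕ) : ℝ) →
  ∑ i, (T.filter fun x => 1 ≤ x i).card ≤ 5 * (Nat.log 2 (m / k) + 1) * m

open Pool.Agent.Helper60.Wilf Pool.Agent.Helper82.Wilf

/-- **INP** (from `St_Line`, `St_Avg`, `St_Sel`).  The first part of `St_Int`.  PROOF.  `M = c + m - 1`,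
`f x = ∑ i, a i * x i ≤ M` on `T` (`mem_ins`), `τ x = M - f x`, `end_i x = update x i (en T i x)`.  `St_Avg` (with `w = a`) and
`St_Sel`: `2 ∑ i, ∑ x ∈ T, τ (end_i x) = 2 k m M - 2 (k + 1) ∑ x ∈ T, f x = 2 m ((k + 1) n - c) + (k - 1) m (m - 1)`, which is
at most `(k - 1) m (m - 1)`.  For every `i`: `τ = min τ m + (τ - m)` (natural subtraction), and
`∑ x ∈ T, min (τ (end_i x)) m ≥ ∑ x ∈ T, x i = 0, τ (end_i x) % m ≥ L (L - 1) / 2`, `L = #{x ∈ T | x i = 0}`, because the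
ends of the lines through the points with `x i = 0` are different points of `T`, so these numbers `τ` are different
modulo `m` (`himg`, `ins_inj`).  `L = m - p i`, `p i = #{x ∈ T | 1 ≤ x i}`, so `L (L - 1) ≥ m (m - 1) - 2 m p i`.  Let `E` be the left
side of the claim: `(k - 1) m (m - 1) ≥ k m (m - 1) - 2 m ∑ p i + 2 E`, so `E ≤ m ∑ p i`. -/
def St_Inp : Prop := ∀ (S : AddSubmonoid ℕ) (c m k : ℕ) (a : Fin k → ℕ)
  (T : Finset (Fin k → ℕ)), Sg S c m → 0 < c → (∀ i, m < a i) → T.card = m →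
  (∀ x ∈ T, ∀ y : Fin k → ℕ, y ≤ x → y ∈ T) →
  (∀ x ∈ T, ∀ y ∈ T, ∑ i, a i * x i = ∑ i, a i * y i → x = y) →
  T.image (fun x => ∑ i, a i * x i) = insert 0 (A0 S c m) →
  (k + 1) * (elF S 0 c).card ≤ c →
  ∑ i, ∑ x ∈ T, (c + m - 1 - (∑ j, a j * Function.update x i (en T i x) j) - m) ≤
    m * ∑ i, (T.filter fun x => 1 ≤ x i).card

/-- **MAE** (from `St_Inp`, `St_Spp`, `St_Clm`, `St_Cmm`, `St_Top`, `St_Rob`, `St_Lgm`, `St_Wll`, `St_Ape`).  PROOF.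
Suppose the contrary; `k + 1 = A.card`, `M = c + m - 1`, `w i = a i / M`, `μ = m / M`, `T` from `St_Ape` (`Til m w g T` as in
`Maq.lean`).  `p = ∑ i, #{x ∈ T | 1 ≤ x i}`, `L = Nat.log 2 (m / k) + 1 ≥ 1`.  The hypothesis gives
`3000 m² L ≤ (k - 1) M`; `k + 1 ≤ m`, so `μ ≤ 1/3000`, and `3000 (m μ) ≤ k - 1`.  `St_Inp`: `∑ ex = E / M ≤ μ p`.
`St_Spp`: `p ≤ 5 L m`, so `∑ ex ≤ 5 L m² / M ≤ (k - 1) / 600`.  `St_Clm`: in the first case `St_Cmm` gives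
`∑ sl (1 / r) ≤ 2 ∑ ex ≤ (k - 1) / 300`, against `St_Top` or `St_Rob`; in the second case use `St_Lgm` (`m ≠ k + 1`) and
`St_Wll`. -/
def St_Mae : Prop := ∀ (S : AddSubmonoid ℕ) (c m : ℕ) (A : Finset ℕ), Sg S c m →
  (∀ a, a ∈ A ↔ Prim S a) → 3 ≤ A.card → A.card ≠ m → 0 < c →
  3000 * (m ^ 2 * (Nat.log 2 (m / (A.card - 1)) + 1)) ≤ (A.card - 2) * (c + m - 1) →
  c < A.card * (elF S 0 c).card

end Pool.Agent.WLF
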