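import Pool.Agent.WLF.StD

/-!
# WLF [Zed]: few bad directions, common good neighbours
-/

set_option autoImplicit false

namespace Pool.Agent.WLF

open Finset

private theorem Zed_nonneg {k : ℕ} (μ : ℝ) (w : Fin k → ℝ) (T : Finset (Fin k → ℕ)) (i l : Fin k) :
    0 ≤ pm μ w T i l := by
  unfold pm plm
  refine add_nonneg (Finset.sum_nonneg fun a _ => ?_) (Finset.sum_nonneg fun a _ => ?_)
  · exact mul_nonneg (by positivity) (le_max_left _ _)
  · exact mul_nonneg (by positivity) (le_max_left _ _)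

/-- the points whose support is a given pair: every point is counted at most twice -/
private theorem Zed_two {k : ℕ} (T : Finset (Fin k → ℕ)) :
    ∑ p ∈ (univ : Finset (Fin k × Fin k)).filter (fun p => p.1 ≠ p.2),
      (T.filter fun x => 1 ≤ x p.1 ∧ 1 ≤ x p.2 ∧ ∀ j, j ≠ p.1 → j ≠ p.2 → x j = 0).card ≤
      2 * T.card := by
  classical
  have h1 : ∑ p ∈ (univ : Finset (Fin k × Fin k)).filter (fun p => p.1 ≠ p.2),
      (T.filter fun x => 1 ≤ x p.1 ∧ 1 ≤ x p.2 ∧ ∀ j, j ≠ p.1 → j ≠ p.2 → x j = 0).card =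
      ∑ x ∈ T, (((univ : Finset (Fin k × Fin k)).filter (fun p => p.1 ≠ p.2)).filter
        fun p => 1 ≤ x p.1 ∧ 1 ≤ x p.2 ∧ ∀ j, j ≠ p.1 → j ≠ p.2 → x j = 0).card := by
    simp only [Finset.card_filter]
    exact Finset.sum_comm
  rw [h1]
  have h2 : ∀ x ∈ T, (((univ : Finset (Fin k × Fin k)).filter (fun p => p.1 ≠ p.2)).filter
        fun p => 1 ≤ x p.1 ∧ 1 ≤ x p.2 ∧ ∀ j, j ≠ p.1 → j ≠ p.2 → x j = 0).card ≤ 2 := by
    intro x _
    rcases Finset.eq_empty_or_nonempty (((univ : Finset (Fin k × Fin k)).filter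
        (fun p => p.1 ≠ p.2)).filter
        fun p => 1 ≤ x p.1 ∧ 1 ≤ x p.2 ∧ ∀ j, j ≠ p.1 → j ≠ p.2 → x j = 0) with h0 | ⟨p, hp⟩
    · rw [h0, card_empty]
      exact Nat.zero_le _
    · rw [mem_filter, mem_filter] at hp
      obtain ⟨⟨-, hne⟩, hp1, hp2, hp3⟩ := hp
      refine (card_le_card (?_ : _ ⊆ ({(p.1, p.2), (p.2, p.1)} : Finset (Fin k × Fin k)))).trans
        card_le_two
      intro q hq
      rw [mem_filter, mem_filter] at hq
      obtain ⟨⟨-, hqne⟩, hq1, hq2, hq3⟩ := hq
      have a1 : q.1 = p.1 ∨ q.1 = p.2 := by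
        by_contra hc
        push Not at hc
        have := hp3 q.1 hc.1 hc.2
        omega
      have a2 : q.2 = p.1 ∨ q.2 = p.2 := by
        by_contra hc
        push Not at hc
        have := hp3 q.2 hc.1 hc.2
        omega
      rw [mem_insert, mem_singleton]
      rcases a1 with a1 | a1 <;> rcases a2 with a2 | a2
      · exact absurd (a1.trans a2.symm) hqne
      · exact Or.inl (Prod.ext a1 a2)
      · exact Or.inr (Prod.ext a1 a2)
      · exact absurd (a1.trans a2.symm) hqne
  calc _ ≤ ∑ _x ∈ T, 2 := Finset.sum_le_sum h2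
    _ = 2 * T.card := by rw [Finset.sum_const, smul_eq_mul, mul_comm]

/-- [ZED] -/
theorem thm_Zed (hPsm : St_Psm) (hZpl : St_Zpl) : St_Zed := by
  classical
  intro k m μ w g T hk H hμ hkm hex
  have hk1 : (1 : ℝ) ≤ (k : ℝ) - 1 := by
    have : (2 : ℝ) ≤ k := by exact_mod_cast hk
    linarith
  set bad : Fin k → Finset (Fin k) := fun i =>
    (univ.erase i).filter fun l => ¬ pm μ w T i l < 1 / 25 with hbad
  have hN : ∀ i, 8 * ((bad i).card : ℝ) < (k : ℝ) - 1 := by
    intro i
    have h1 : ((bad i).card : ℝ) * (1 / 25) ≤ ∑ l ∈ univ.erase i, pm μ w T i l := by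
      calc ((bad i).card : ℝ) * (1 / 25) = ∑ _l ∈ bad i, (1 / 25 : ℝ) := by
            rw [Finset.sum_const, nsmul_eq_mul]
        _ ≤ ∑ l ∈ bad i, pm μ w T i l := by
            refine Finset.sum_le_sum fun l hl => ?_
            exact not_lt.1 (mem_filter.1 hl).2
        _ ≤ ∑ l ∈ univ.erase i, pm μ w T i l :=
            Finset.sum_le_sum_of_subset_of_nonneg (filter_subset _ _)
              fun l _ _ => Zed_nonneg μ w T i l
    have h2 := hPsm k m μ w g T H i
    linarith
  have hnice : ∀ i l, l ≠ i → l ∉ bad i → pm μ w T i l < 1 / 25 := by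
    intro i l hl hlb
    by_contra hc
    exact hlb (mem_filter.2 ⟨mem_erase.2 ⟨hl, mem_univ _⟩, hc⟩)
  have hPle : ∀ i l : Fin k, ((T.filter fun x => 1 ≤ x i ∧ 1 ≤ x l ∧
      ∀ j, j ≠ i → j ≠ l → x j = 0).card : ℝ) ≤ m := by
    intro i l
    rw [← H.card]
    exact_mod_cast card_filter_le _ _
  rcases Nat.lt_or_ge k 10 with hk9 | hk10
  · -- few directions
    have hk9' : (k : ℝ) ≤ 9 := by exact_mod_cast (show k ≤ 9 by omega)
    have hN0 : ∀ i, bad i = ∅ := by
      intro i
      have h1 := hN i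
      have h2 : ((bad i).card : ℝ) < 1 := by linarith
      have h3 : (bad i).card < 1 := by exact_mod_cast h2
      exact Finset.card_eq_zero.1 (by omega)
    have hnc : ∀ i l, l ≠ i → pm μ w T i l < 1 / 25 := fun i l hl =>
      hnice i l hl (by rw [hN0 i]; exact notMem_empty _)
    have hone : ∀ i l : Fin k, i ≠ l → Gd μ T i ∨ Gd μ T l := by
      intro i l hil
      by_contra hc
      push Not at hc
      have h1 := hZpl k m μ w g T H hμ hkm i l hil (hnc i l hil.symm) (hnc l i hil) hc.1 hc.2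
      have h2 := mul_le_mul_of_nonneg_left (hPle i l) (show (0 : ℝ) ≤ 300 * μ by positivity)
      nlinarith
    refine ⟨fun i i' hii => ?_, fun i => ?_⟩
    · rcases hone i i' hii with h | h
      · exact Or.inr (Or.inr ⟨h, hnc i' i hii⟩)
      · exact Or.inr (Or.inl ⟨h, hnc i i' hii.symm⟩)
    · by_cases hi : Gd μ T i
      · left
        obtain ⟨i', hi'⟩ : ∃ i' : Fin k, i' ≠ i := by
          have : Nontrivial (Fin k) := Fin.nontrivial_iff_two_le.2 hk
          exact exists_ne i
        exact ⟨hi, i', hi', hnc i' i hi'.symm⟩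
      · right
        refine ⟨univ.erase i, ?_, fun l hl => ?_⟩
        · have h1 : ((univ.erase i : Finset (Fin k)).card : ℝ) = (k : ℝ) - 1 := by
            rw [card_erase_of_mem (mem_univ i), card_univ, Fintype.card_fin,
              Nat.cast_sub (by omega)]
            norm_num
          rw [h1]
          linarith
        · have hli := (mem_erase.1 hl).1
          exact ⟨hli, (hone i l hli.symm).resolve_left hi, hnc i l hli⟩
  · -- many directions
    have hk10' : (10 : ℝ) ≤ k := by exact_mod_cast hk10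
    set Z : Finset (Fin k) := univ.filter fun l => ¬ Gd μ T l with hZ
    have memZ : ∀ l, l ∈ Z ↔ ¬ Gd μ T l := by
      intro l
      rw [hZ, mem_filter]
      exact ⟨fun h => h.2, fun h => ⟨mem_univ _, h⟩⟩
    set A : Finset (Fin k × Fin k) := Z.offDiag.filter fun p => ¬ pm μ w T p.1 p.2 < 1 / 25 with hA
    set B : Finset (Fin k × Fin k) := Z.offDiag.filter fun p => ¬ pm μ w T p.2 p.1 < 1 / 25 with hB
    set Q : Finset (Fin k × Fin k) := Z.offDiag.filter fun p =>
      pm μ w T p.1 p.2 < 1 / 25 ∧ pm μ w T p.2 p.1 < 1 / 25 with hQ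
    have hAc : A.card ≤ ∑ i, (bad i).card := by
      rw [Finset.card_eq_sum_card_fiberwise (f := Prod.fst) (t := univ)
        (fun x _ => mem_coe.2 (mem_univ _))]
      refine Finset.sum_le_sum fun i _ => ?_
      refine Finset.card_le_card_of_injOn Prod.snd ?_ ?_
      · intro p hp
        rw [mem_coe, mem_filter, hA, mem_filter, mem_offDiag] at hp
        obtain ⟨⟨⟨-, -, hne⟩, hn⟩, rfl⟩ := hp
        exact mem_coe.2 (mem_filter.2 ⟨mem_erase.2 ⟨hne.symm, mem_univ _⟩, hn⟩)
      · intro p hp q hq hpq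
        rw [mem_coe, mem_filter] at hp hq
        exact Prod.ext (hp.2.trans hq.2.symm) hpq
    have hBc : B.card ≤ ∑ i, (bad i).card := by
      rw [Finset.card_eq_sum_card_fiberwise (f := Prod.snd) (t := univ)
        (fun x _ => mem_coe.2 (mem_univ _))]
      refine Finset.sum_le_sum fun i _ => ?_
      refine Finset.card_le_card_of_injOn Prod.fst ?_ ?_
      · intro p hp
        rw [mem_coe, mem_filter, hB, mem_filter, mem_offDiag] at hp
        obtain ⟨⟨⟨-, -, hne⟩, hn⟩, rfl⟩ := hp
        exact mem_coe.2 (mem_filter.2 ⟨mem_erase.2 ⟨hne, mem_univ _⟩, hn⟩)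
      · intro p hp q hq hpq
        rw [mem_coe, mem_filter] at hp hq
        exact Prod.ext hpq (hp.2.trans hq.2.symm)
    have hQc : (Q.card : ℝ) ≤ 300 * μ * (2 * m) := by
      have h1 : (Q.card : ℝ) ≤ ∑ p ∈ Q, 300 * μ * ((T.filter fun x => 1 ≤ x p.1 ∧ 1 ≤ x p.2 ∧
          ∀ j, j ≠ p.1 → j ≠ p.2 → x j = 0).card : ℝ) := by
        calc (Q.card : ℝ) = ∑ _p ∈ Q, (1 : ℝ) := by rw [Finset.sum_const, nsmul_eq_mul, mul_one]
          _ ≤ _ := by
              refine Finset.sum_le_sum fun p hp => ?_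
              rw [hQ, mem_filter, mem_offDiag] at hp
              obtain ⟨⟨hp1, hp2, hne⟩, hn1, hn2⟩ := hp
              exact hZpl k m μ w g T H hμ hkm p.1 p.2 hne hn1 hn2 ((memZ _).1 hp1) ((memZ _).1 hp2)
      have h2 : ∑ p ∈ Q, ((T.filter fun x => 1 ≤ x p.1 ∧ 1 ≤ x p.2 ∧
          ∀ j, j ≠ p.1 → j ≠ p.2 → x j = 0).card : ℝ) ≤ 2 * m := by
        have h3 := Zed_two T
        rw [H.card] at h3
        have h4 : ∑ p ∈ Q, (T.filter fun x => 1 ≤ x p.1 ∧ 1 ≤ x p.2 ∧
          ∀ j, j ≠ p.1 → j ≠ p.2 → x j = 0).card ≤ 2 * m := by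
          refine (Finset.sum_le_sum_of_subset ?_).trans h3
          intro p hp
          rw [hQ, mem_filter, mem_offDiag] at hp
          exact mem_filter.2 ⟨mem_univ _, hp.1.2.2⟩
        exact_mod_cast h4
      rw [← Finset.mul_sum] at h1
      exact h1.trans (mul_le_mul_of_nonneg_left h2 (by positivity))
    have hall : Z.offDiag.card ≤ A.card + B.card + Q.card := by
      have h1 : Z.offDiag ⊆ (A ∪ B) ∪ Q := by
        intro p hp
        rw [mem_union, mem_union, hA, hB, hQ, mem_filter, mem_filter, mem_filter]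
        by_cases h2 : pm μ w T p.1 p.2 < 1 / 25
        · by_cases h3 : pm μ w T p.2 p.1 < 1 / 25
          · exact Or.inr ⟨hp, h2, h3⟩
          · exact Or.inl (Or.inr ⟨hp, h3⟩)
        · exact Or.inl (Or.inl ⟨hp, h2⟩)
      refine (card_le_card h1).trans ((card_union_le _ _).trans ?_)
      exact Nat.add_le_add_right (card_union_le _ _) _
    have hsumN : 8 * ((∑ i, (bad i).card : ℕ) : ℝ) ≤ k * ((k : ℝ) - 1) := by
      push_cast
      rw [Finset.mul_sum]
      calc ∑ i, 8 * ((bad i).card : ℝ) ≤ ∑ _i : Fin k, ((k : ℝ) - 1) :=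
            Finset.sum_le_sum fun i _ => (hN i).le
        _ = k * ((k : ℝ) - 1) := by
            rw [Finset.sum_const, card_univ, Fintype.card_fin, nsmul_eq_mul]
    have hzk : 2 * (Z.card : ℝ) ≤ k + 1 := by
      have h1 : (Z.offDiag.card : ℝ) = (Z.card : ℝ) * Z.card - Z.card := by
        rw [Finset.offDiag_card, Nat.cast_sub (Nat.le_mul_self _)]
        push_cast
        ring
      have h2 : (Z.offDiag.card : ℝ) ≤ A.card + B.card + Q.card := by exact_mod_cast hall
      have h3 : (A.card : ℝ) ≤ ((∑ i, (bad i).card : ℕ) : ℝ) := by exact_mod_cast hAc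
      have h4 : (B.card : ℝ) ≤ ((∑ i, (bad i).card : ℕ) : ℝ) := by exact_mod_cast hBc
      have h5 : (Z.card : ℝ) * Z.card - Z.card ≤ k * ((k : ℝ) - 1) / 4 + ((k : ℝ) - 1) / 5 := by
        nlinarith
      by_contra hc
      push Not at hc
      nlinarith
    have hgood : ((k : ℝ) - 1) / 2 ≤ ((univ.filter fun l => Gd μ T l).card : ℝ) := by
      have h1 : (univ.filter fun l => Gd μ T l).card + Z.card = k := by
        rw [hZ, Finset.card_filter_add_card_filter_not, card_univ, Fintype.card_fin]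
      have h2 : ((univ.filter fun l => Gd μ T l).card : ℝ) + Z.card = k := by exact_mod_cast h1
      linarith
    set G : Finset (Fin k) := univ.filter fun l => Gd μ T l with hG
    refine ⟨fun i i' hii => Or.inl ?_, fun i => Or.inr ?_⟩
    · by_contra hc
      have h1 : G ⊆ (({i, i'} : Finset (Fin k)) ∪ bad i) ∪ bad i' := by
        intro l hl
        by_contra hl2
        rw [mem_union, mem_union, mem_insert, mem_singleton] at hl2
        push Not at hl2
        obtain ⟨⟨⟨e1, e2⟩, e3⟩, e4⟩ := hl2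
        exact hc ⟨l, e1, e2, (mem_filter.1 hl).2, hnice i l e1 e3, hnice i' l e2 e4⟩
      have h2 : G.card ≤ 2 + (bad i).card + (bad i').card := by
        refine (card_le_card h1).trans ((card_union_le _ _).trans ?_)
        refine Nat.add_le_add_right ((card_union_le _ _).trans ?_) _
        exact Nat.add_le_add_right card_le_two _
      have h3 : (G.card : ℝ) ≤ 2 + (bad i).card + (bad i').card := by exact_mod_cast h2
      have h4 := hN i
      have h5 := hN i'
      linarith
    · refine ⟨(G.erase i) \ bad i, ?_, fun l hl => ?_⟩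
      · have h1 : G ⊆ (({i} : Finset (Fin k)) ∪ bad i) ∪ ((G.erase i) \ bad i) := by
          intro l hl
          by_cases e1 : l = i
          · exact mem_union_left _ (mem_union_left _ (mem_singleton.2 e1))
          · by_cases e2 : l ∈ bad i
            · exact mem_union_left _ (mem_union_right _ e2)
            · exact mem_union_right _ (mem_sdiff.2 ⟨mem_erase.2 ⟨e1, hl⟩, e2⟩)
        have h2 : G.card ≤ 1 + (bad i).card + ((G.erase i) \ bad i).card := by
          refine (card_le_card h1).trans ((card_union_le _ _).trans ?_)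
          refine Nat.add_le_add_right ((card_union_le _ _).trans ?_) _
          rw [card_singleton]
        have h3 : (G.card : ℝ) ≤ 1 + (bad i).card + ((G.erase i) \ bad i).card := by
          exact_mod_cast h2
        have h4 := hN i
        linarith
      · rw [mem_sdiff, mem_erase] at hl
        exact ⟨hl.1.1, (mem_filter.1 hl.1.2).2, hnice i l hl.1.1 hl.2⟩

end Pool.Agent.WLF
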