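import Pool.Agent.WLF.StD
import Pool.Agent.WLF.Line

/-!
# WLF [Zpl]: the number of points in a plane of two bad directions
-/

set_option autoImplicit false

namespace Pool.Agent.WLF

open Finset

private theorem Zpl_sum (n : ℕ) : 2 * ∑ a ∈ Icc 1 n, (a : ℝ) = n * (n + 1) := by
  induction n with
  | zero => simp
  | succ n ih =>
    rw [Finset.sum_Icc_succ_top (by omega), mul_add, ih]
    push_cast
    ring

private theorem Zpl_pt {k : ℕ} {T : Finset (Fin k → ℕ)} (hzero : (0 : Fin k → ℕ) ∈ T)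
    (hdown : ∀ x ∈ T, ∀ y : Fin k → ℕ, y ≤ x → y ∈ T) (i l : Fin k) (a h : ℕ)
    (ha : a ≤ en T i 0) (hh : h ≤ en T l (Pi.single i a)) :
    Function.update (Pi.single i a) l h ∈ T := by
  have hax : Pi.single i a ∈ T := by
    obtain ⟨hL1, -, -, -⟩ := thm_Line k T hdown i
    refine hdown _ (hL1 0 hzero) _ ?_
    intro t
    by_cases ht : t = i
    · subst ht
      rw [Function.update_self, Pi.single_eq_same]
      exact ha
    · rw [Function.update_of_ne ht, Pi.single_eq_of_ne ht]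
      exact Nat.zero_le _
  obtain ⟨hL1, -, -, -⟩ := thm_Line k T hdown l
  refine hdown _ (hL1 _ hax) _ ?_
  intro t
  by_cases ht : t = l
  · subst ht
    rw [Function.update_self, Function.update_self]
    exact hh
  · rw [Function.update_of_ne ht, Function.update_of_ne ht]

/-- [ZPL] -/
theorem thm_Zpl (hPln : St_Pln) : St_Zpl := by
  classical
  intro k m μ w g T H hμ hmμ i l hil h1 h2 hG1 hG2
  have hP := hPln k m w g T H i l hil
  have hP' := hPln k m w g T H l i (Ne.symm hil)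
  -- `k + 1 ≤ m`
  have hzero : (0 : Fin k → ℕ) ∈ T := H.down _ (H.one i) _ fun j => Nat.zero_le _
  have hkm : k + 1 ≤ m := by
    rw [← H.card]
    have h3 : (insert (0 : Fin k → ℕ) (univ.image fun j : Fin k => (Pi.single j 1 : Fin k → ℕ))).card
        = k + 1 := by
      rw [card_insert_of_notMem, card_image_of_injective, card_univ, Fintype.card_fin]
      · intro a b hab
        by_contra hne
        have h4 := congrFun hab a
        simp only at h4
        rw [Pi.single_eq_same, Pi.single_eq_of_ne hne] at h4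
        omega
      · intro hmem
        rw [mem_image] at hmem
        obtain ⟨j, -, hj⟩ := hmem
        have h4 := congrFun hj j
        simp at h4
    rw [← h3]
    refine card_le_card ?_
    intro x hx
    rw [mem_insert, mem_image] at hx
    rcases hx with rfl | ⟨j, -, rfl⟩
    · exact hzero
    · exact H.one j
  have hkm' : (k : ℝ) + 1 ≤ m := by exact_mod_cast hkm
  have hμ3 : 3000 * μ ≤ 1 := by
    have hk0 : (0 : ℝ) ≤ k := Nat.cast_nonneg _
    by_contra hc
    rw [not_le] at hc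
    nlinarith
  set A : ℕ := en T i 0 with hA
  set B : ℕ := en T l 0 with hB
  set C : ℕ → ℕ := fun a => en T l (Pi.single i a) with hC
  have hwi := H.pos i
  have hwl := H.pos l
  unfold Gd at hG1 hG2
  rw [not_le, ← hA] at hG1
  rw [not_le, ← hB] at hG2
  have hAw : (A : ℝ) * w i ≤ 1 := by
    have := hP'.leC 0 (Nat.zero_le _)
    rw [hP'.C0] at this
    push_cast at this
    linarith
  have hBw : (B : ℝ) * w l ≤ 1 := by
    have := hP.leC 0 (Nat.zero_le _)
    rw [hP.C0] at this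
    push_cast at this
    linarith
  have hA0 : (0 : ℝ) ≤ A := Nat.cast_nonneg _
  have hB0 : (0 : ℝ) ≤ B := Nat.cast_nonneg _
  have hA6 : (6 : ℝ) ≤ A := by
    have h3 : (30 : ℝ) < (A : ℝ) ^ 2 := by
      by_contra hc
      rw [not_lt] at hc
      nlinarith [mul_le_mul_of_nonneg_right hc hμ.le]
    have h4 : 5 < A := by
      by_contra hc
      have h5 : (A : ℝ) ≤ 5 := by exact_mod_cast not_lt.1 hc
      nlinarith
    exact_mod_cast h4
  -- the lines
  have hline : ∀ a ∈ Icc 1 A, 1 - (a : ℝ) * w i - 1 / 25 - μ ≤ w l * (C a : ℝ) := by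
    intro a ha
    rw [mem_Icc] at ha
    have h3 : ((C a : ℝ) + 1) * max 0 (1 - a * w i - C a * w l - μ) < 1 / 25 := by
      refine lt_of_le_of_lt ?_ h1
      unfold pm plm
      have h4 := Finset.single_le_sum (s := range (en T i 0 + 1))
        (f := fun a => ((en T l (Pi.single i a) : ℝ) + 1) *
          max 0 (1 - a * w i - en T l (Pi.single i a) * w l - μ))
        (fun j _ => mul_nonneg (by positivity) (le_max_left _ _))
        (mem_range.2 (Nat.lt_succ_iff.2 ha.2))
      have h5 : 0 ≤ ∑ h ∈ Icc 1 (en T l 0), ((en T i (Pi.single l h) : ℝ) + 1) *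
          max 0 (1 - h * w l - en T i (Pi.single l h) * w i - μ) :=
        Finset.sum_nonneg fun j _ => mul_nonneg (by positivity) (le_max_left _ _)
      beta_reduce at h4 ⊢
      linarith
    have h6 : 1 - a * w i - C a * w l - μ ≤ max 0 (1 - a * w i - C a * w l - μ) := le_max_right _ _
    have h7 : max 0 (1 - a * w i - C a * w l - μ) ≤
        ((C a : ℝ) + 1) * max 0 (1 - a * w i - C a * w l - μ) := by
      have h8 : (1 : ℝ) ≤ (C a : ℝ) + 1 := by
        have : (0 : ℝ) ≤ C a := Nat.cast_nonneg _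
        linarith
      have h9 : 0 ≤ max 0 (1 - a * w i - C a * w l - μ) := le_max_left _ _
      nlinarith
    linarith
  -- the points
  set S := T.filter fun x => 1 ≤ x i ∧ 1 ≤ x l ∧ ∀ j, j ≠ i → j ≠ l → x j = 0 with hS
  have hcard : ∑ a ∈ Icc 1 A, C a ≤ S.card := by
    have h3 : ((Icc 1 A).sigma fun a => Icc 1 (C a)).card = ∑ a ∈ Icc 1 A, C a := by
      rw [card_sigma]
      refine Finset.sum_congr rfl fun a _ => ?_
      rw [Nat.card_Icc, Nat.add_sub_cancel]
    rw [← h3]
    refine Finset.card_le_card_of_injOn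
      (fun q => Function.update (Pi.single i q.1) l q.2) ?_ ?_
    · rintro ⟨a, h⟩ hq
      rw [mem_coe, mem_sigma, mem_Icc, mem_Icc] at hq
      rw [mem_coe, hS, mem_filter]
      simp only at hq ⊢
      refine ⟨?_, ?_, ?_, ?_⟩
      · exact Zpl_pt hzero H.down i l a h hq.1.2 hq.2.2
      · rw [Function.update_of_ne hil, Pi.single_eq_same]
        exact hq.1.1
      · rw [Function.update_self]
        exact hq.2.1
      · intro j hj hj'
        rw [Function.update_of_ne hj', Pi.single_eq_of_ne hj]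
    · rintro ⟨a, h⟩ - ⟨a', h'⟩ - he
      have h3 := congrFun he i
      have h4 := congrFun he l
      simp only [Function.update_self, Function.update_of_ne hil, Pi.single_eq_same] at h3 h4
      subst h3
      subst h4
      rfl
  have hN : (0 : ℝ) ≤ ∑ a ∈ Icc 1 A, (C a : ℝ) := Finset.sum_nonneg fun a _ => Nat.cast_nonneg _
  have h3 : ∑ a ∈ Icc 1 A, (1 - (a : ℝ) * w i - 1 / 25 - μ) ≤ w l * ∑ a ∈ Icc 1 A, (C a : ℝ) := by
    rw [Finset.mul_sum]
    exact Finset.sum_le_sum hline
  have h4 : ∑ a ∈ Icc 1 A, (1 - (a : ℝ) * w i - 1 / 25 - μ) =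
      A * (24 / 25 - μ) - (∑ a ∈ Icc 1 A, (a : ℝ)) * w i := by
    have h5 : ∀ a ∈ Icc 1 A, 1 - (a : ℝ) * w i - 1 / 25 - μ = (24 / 25 - μ) - (a : ℝ) * w i := by
      intro a _
      ring
    rw [Finset.sum_congr rfl h5, Finset.sum_sub_distrib, Finset.sum_const, Nat.card_Icc,
      Nat.add_sub_cancel, nsmul_eq_mul, Finset.sum_mul]
  rw [h4] at h3
  have h5 := Zpl_sum A
  generalize ∑ a ∈ Icc 1 A, (a : ℝ) = X at h3 h5
  have h6 : 2 * (X * w i) ≤ (A : ℝ) + 1 := by
    calc 2 * (X * w i) = (2 * X) * w i := by ring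
      _ = ((A : ℝ) * w i) * (A + 1) := by rw [h5]; ring
      _ ≤ 1 * ((A : ℝ) + 1) := mul_le_mul_of_nonneg_right hAw (by linarith)
      _ = (A : ℝ) + 1 := one_mul _
  have h7 : 3 / 8 * (A : ℝ) ≤ w l * ∑ a ∈ Icc 1 A, (C a : ℝ) := by
    have h8 : (A : ℝ) * μ ≤ A * (1 / 3000) := mul_le_mul_of_nonneg_left (by linarith) hA0
    nlinarith
  have hNc : ∑ a ∈ Icc 1 A, (C a : ℝ) ≤ (S.card : ℝ) := by exact_mod_cast hcard
  generalize ∑ a ∈ Icc 1 A, (C a : ℝ) = N at h7 hN hNc
  have h8 : 3 / 8 * ((A : ℝ) * B) ≤ N := by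
    calc 3 / 8 * ((A : ℝ) * B) = B * (3 / 8 * A) := by ring
      _ ≤ B * (w l * N) := mul_le_mul_of_nonneg_left h7 hB0
      _ = (B * w l) * N := by ring
      _ ≤ 1 * N := mul_le_mul_of_nonneg_right hBw hN
      _ = N := one_mul _
  have h9 : 1 / 100 < (A : ℝ) * B * μ := by
    by_contra hc
    rw [not_lt] at hc
    have e0 : 0 ≤ (A : ℝ) * B * μ := by positivity
    have e1 : ((A : ℝ) * B * μ) * ((A : ℝ) * B * μ) ≤ 1 / 100 * (1 / 100) :=
      mul_le_mul hc hc e0 (by norm_num)
    have e2 : 1 / 100 * (1 / 100) < ((A : ℝ) ^ 2 * μ) * ((B : ℝ) ^ 2 * μ) :=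
      mul_lt_mul'' hG1 hG2 (by norm_num) (by norm_num)
    have e3 : ((A : ℝ) ^ 2 * μ) * ((B : ℝ) ^ 2 * μ) = ((A : ℝ) * B * μ) * ((A : ℝ) * B * μ) := by
      ring
    linarith
  have h10 : μ * (3 / 8 * ((A : ℝ) * B)) ≤ μ * (S.card : ℝ) :=
    mul_le_mul_of_nonneg_left (h8.trans hNc) hμ.le
  nlinarith

end Pool.Agent.WLF
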