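import Pool.Agent.WLF.AllC
import Pool.Agent.WLF.StE
import Pool.Agent.WLF.PmA
import Pool.Agent.WLF.PmB
import Pool.Agent.WLF.PmC
import Pool.Agent.WLF.Psm
import Pool.Agent.WLF.Zpl
import Pool.Agent.WLF.Zed
import Pool.Agent.WLF.Clm
import Pool.Agent.WLF.Cmm
import Pool.Agent.WLF.Lgm
import Pool.Agent.WLF.Inp
import Pool.Agent.WLF.Spp
import Pool.Agent.WLF.Mae

/-!
# WLF, fourth part: assembly
-/

set_option autoImplicit false

namespace Pool.Agent.WLF

theorem clmD : St_Clm :=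
  thm_Clm thm_PmA thm_PmB thm_PmC pln (thm_Zed (thm_Psm thm_Line) (thm_Zpl pln))

theorem mae : St_Mae :=
  thm_Mae (thm_Inp thm_Line avg thm_Sel) thm_Spp clmD (thm_Cmm thm_Line) (thm_Top thm_Line)
    (thm_Rob thm_Line) (thm_Lgm thm_Line) thm_Wll thm_Ape

end Pool.Agent.WLF
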