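import Pool.Agent.WLF.St

/-!
# WLF [Mai]: an explicit bound for the conductor (helper86)
-/

set_option autoImplicit false

namespace Pool.Agent.WLF

open Finset
open Pool.Agent.Helper60.Wilf Pool.Agent.Helper82.Wilf

private theorem mai_num (k : ℕ) : (k + 1) * (k + 2 * (k + 4) ^ 3) ≤ 2 * (k + 4) ^ 4 := by
  nlinarith [Nat.zero_le (k ^ 3), Nat.zero_le (k ^ 2), Nat.zero_le k]

private theorem mai_Q (k : ℕ) :
    (k * 2 ^ (2 * (k + 4) ^ 3)) ^ (k + 1) ≤ 2 ^ (2 * (k + 4) ^ 4) := by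
  have h1 : k * 2 ^ (2 * (k + 4) ^ 3) ≤ 2 ^ (k + 2 * (k + 4) ^ 3) := by
    rw [pow_add]
    exact Nat.mul_le_mul_right _ (Nat.lt_two_pow_self).le
  calc (k * 2 ^ (2 * (k + 4) ^ 3)) ^ (k + 1)
      ≤ (2 ^ (k + 2 * (k + 4) ^ 3)) ^ (k + 1) := Nat.pow_le_pow_left h1 _
    _ = 2 ^ ((k + 1) * (k + 2 * (k + 4) ^ 3)) := by rw [← pow_mul, mul_comm]
    _ ≤ 2 ^ (2 * (k + 4) ^ 4) := Nat.pow_le_pow_right (by norm_num) (mai_num k)

/-- **MAI** -/
theorem thm_Mai (hMaq : St_Maq) (hApe : St_Ape) : St_Mai := by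
  intro S c m A H hA hA3 hAm hc
  obtain ⟨k, hk⟩ : ∃ k, A.card = k + 1 := ⟨A.card - 1, by omega⟩
  by_cases hQ : (A.card - 1) * 2 ^ (2 * (A.card + 3) ^ 3) * m ≤ c + m - 1
  · exact hMaq S c m A H hA hA3 hAm hQ
  · exfalso
    push Not at hQ
    obtain ⟨a, T, ha, hT, -, -, -, himg⟩ := hApe S c m k A H hA hk
    have e1 : A.card - 1 = k := by omega
    have e2 : A.card + 3 = k + 4 := by omega
    rw [e1, e2] at hQ
    rw [e2] at hc
    set Q : ℕ := k * 2 ^ (2 * (k + 4) ^ 3) with hQdef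
    have hm0 := H.hm0
    have hsub : T ⊆ Fintype.piFinset (fun _ : Fin k => range Q) := by
      intro x hx
      rw [Fintype.mem_piFinset]
      intro i
      rw [mem_range]
      have h1 : (∑ j, a j * x j) ∈ insert 0 (A0 S c m) := by
        rw [← himg]
        exact mem_image_of_mem _ hx
      have h2 := (mem_ins H h1).2.1
      have h3 : a i * x i ≤ ∑ j, a j * x j :=
        single_le_sum (f := fun j => a j * x j) (fun j _ => Nat.zero_le _) (mem_univ i)
      have h4 : m * x i ≤ a i * x i := Nat.mul_le_mul_right _ (ha i).le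
      have h5 : m * x i < m * Q := by
        rw [mul_comm m Q]
        omega
      exact Nat.lt_of_mul_lt_mul_left h5
    have hcard : m ≤ Q ^ k := by
      rw [← hT]
      refine (card_le_card hsub).trans ?_
      rw [Fintype.card_piFinset]
      simp
    have h6 : Q * m ≤ Q ^ (k + 1) := by
      rw [pow_succ, mul_comm (Q ^ k) Q]
      exact Nat.mul_le_mul_left _ hcard
    have h7 : Q ^ (k + 1) ≤ 2 ^ (2 * (k + 4) ^ 4) := mai_Q k
    omega

end Pool.Agent.WLF
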