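import Mathlib
import Pool.Agent.Helper82.Wilf.Two

/-!
# Wilf's inequality for large numerical semigroups of given embedding dimension (MP_05ec03_nt)

Frozen statements of the modules. Every module `Pool/Agent/WLF/<X>.lean` imports this file and proves
`theorem thm_<X> : St_<X>`, with the hypotheses named in the docstring (e.g. `(hLine : St_Line)`). The
docstrings contain the proofs; paper: `WLF_paper.md` in the team store.

Let `k ≥ 2` be the number of the minimal generators different from the multiplicity `m`. The Apery set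
is parametrised by a down-set `T` in `ℕ^k` with `m` points which are different modulo a lattice. Wilf's
number is a sum over the lines in `T` of the distances of their ends from the hyperplane
`a.x = F + m`. If it is small, then `T` contains almost the whole simplex `a.x ≤ F + m` (`Fill`); but
simplices are not sets of representatives modulo lattices (`Pack`, `Mix`, `Coa`, `Perf`).
-/

set_option autoImplicit false

namespace Pool.Agent.WLF

open Finset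

/-- the weight of `x` -/
def wt {k : ℕ} (w : Fin k → ℝ) (x : Fin k → ℕ) : ℝ := ∑ i, w i * (x i : ℝ)

/-- the class of `x` -/
def cls {k m : ℕ} (g : Fin k → ZMod m) (x : Fin k → ℕ) : ZMod m := ∑ i, (x i : ZMod m) * g i

/-- `T` is a down-set with `m` elements, different modulo `m`, which contains the unit vectors and is
contained in the simplex `wt w x ≤ 1` -/
structure Til {k : ℕ} (m : ℕ) (w : Fin k → ℝ) (g : Fin k → ZMod m) (T : Finset (Fin k → ℕ)) :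
    Prop where
  pos : ∀ i, 0 < w i
  one : ∀ i, Pi.single i 1 ∈ T
  down : ∀ x ∈ T, ∀ y : Fin k → ℕ, y ≤ x → y ∈ T
  le : ∀ x ∈ T, wt w x ≤ 1
  inj : ∀ x ∈ T, ∀ y ∈ T, cls g x = cls g y → x = y
  card : T.card = m

/-- the end of the line in direction `i` through `x` -/
def en {k : ℕ} (T : Finset (Fin k → ℕ)) (i : Fin k) (x : Fin k → ℕ) : ℕ :=
  (T.filter fun y => Function.update x i (y i) = y).sup fun y => y i

/-- points of weight less than `1 - ε` on the lines through `x` are followed by points of `T` -/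
def Good {k : ℕ} (w : Fin k → ℝ) (T : Finset (Fin k → ℕ)) (ε : ℝ) (x : Fin k → ℕ) : Prop :=
  ∀ (i : Fin k) (n : ℕ), wt w (Function.update x i n) < 1 - ε → Function.update x i (n + 1) ∈ T

open Classical in
/-- the points of `T` which are not good -/
noncomputable def bad {k : ℕ} (w : Fin k → ℝ) (T : Finset (Fin k → ℕ)) (ε : ℝ) :
    Finset (Fin k → ℕ) := T.filter fun x => ¬ Good w T ε x

/-! ### Lines -/

/-- **LINE.**  PROOF.  `T` is a down-set, so the `n` with `update x i n ∈ T` are the `n ≤ en T i x` (for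
`x ∈ T`).  (4): `x ↦ update x i (en T i x - x i)` is an involution of `T`, so
`∑ x i = ∑ (en T i x - x i)`. -/
def St_Line : Prop := ∀ (k : ℕ) (T : Finset (Fin k → ℕ)),
  (∀ x ∈ T, ∀ y : Fin k → ℕ, y ≤ x → y ∈ T) → ∀ i : Fin k,
  (∀ x ∈ T, Function.update x i (en T i x) ∈ T) ∧
  (∀ x n, Function.update x i n ∈ T → n ≤ en T i x) ∧
  (∀ x n, en T i (Function.update x i n) = en T i x) ∧
  ∑ x ∈ T, en T i x = 2 * ∑ x ∈ T, x i

/-- **AVG** (from `St_Line`).  PROOF.  `wt w (update x i n) = wt w x + w i * (n - x i)`; sum over `x ∈ T`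
with `St_Line` (4): `∑ wt w x + w i ∑ x i`; sum over `i`. -/
def St_Avg : Prop := ∀ (k : ℕ) (w : Fin k → ℝ) (T : Finset (Fin k → ℕ)),
  (∀ x ∈ T, ∀ y : Fin k → ℕ, y ≤ x → y ∈ T) →
  ∑ x ∈ T, ∑ i, wt w (Function.update x i (en T i x)) = ((k : ℝ) + 1) * ∑ x ∈ T, wt w x

/-- **LT** (from `St_Line`, `St_Avg`).  PROOF.  All terms in `St_Avg` are at most `1`. -/
def St_Lt : Prop := ∀ (k m : ℕ) (w : Fin k → ℝ) (g : Fin k → ZMod m) (T : Finset (Fin k → ℕ)),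
  Til m w g T → ((k : ℝ) + 1) * ∑ x ∈ T, wt w x ≤ k * m

/-- **BAD** (from `St_Line`, `St_Avg`).  PROOF.
`∑ x ∈ T, ∑ i, (1 - wt w (update x i (en T i x))) = k m - (k + 1) ∑ wt w x < ε² m`, all terms are `≥ 0`, and if
`x ∈ T` is not good, one of its terms is `> ε`: if `wt w (update x i (en T i x)) ≥ 1 - ε` for all `i`, then
`wt w (update x i n) < 1 - ε` gives `n < en T i x` (`w i > 0`), so `update x i (n + 1) ∈ T` (down-set).  So
`ε * (bad w T ε).card ≤ ε² m`. -/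
def St_Bad : Prop := ∀ (k m : ℕ) (w : Fin k → ℝ) (g : Fin k → ZMod m) (T : Finset (Fin k → ℕ))
  (ε : ℝ), Til m w g T → 0 < ε → (k - ε ^ 2) * m < ((k : ℝ) + 1) * ∑ x ∈ T, wt w x →
  ((bad w T ε).card : ℝ) ≤ ε * m

/-! ### Filling -/

/-- the `x ∈ T` such that `I` is the set of the `i` with `x₀ i ≤ x i` -/
def TI {k : ℕ} (T : Finset (Fin k → ℕ)) (x₀ : Fin k → ℕ) (I : Finset (Fin k)) :
    Finset (Fin k → ℕ) := T.filter fun x => ∀ i, x₀ i ≤ x i ↔ i ∈ I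

open Classical in
/-- the part near the corner -/
noncomputable def NI {k : ℕ} (w : Fin k → ℝ) (T : Finset (Fin k → ℕ)) (x₀ : Fin k → ℕ)
    (I : Finset (Fin k)) (L : ℕ) : Finset (Fin k → ℕ) :=
  (TI T x₀ I).filter fun x => ∑ i ∈ I, w i * ((x i : ℝ) - x₀ i) ≤ 1 / L

/-- **FILA.**  PROOF.  Let `f x i = x₀ i + (x i - x₀ i) / L` (natural division) for `i ∈ I` and
`f x i = x i` for `i ∉ I`.  `f x ≤ x`, so `f x ∈ T`, and `f x` is in `TI T x₀ I`;
`∑ i ∈ I, w i (f x i - x₀ i) ≤ (1 / L) ∑ i ∈ I, w i (x i - x₀ i) ≤ (1 / L) wt w x ≤ 1 / L`.  `x` is determined by `f x`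
and the remainders `(x i - x₀ i) % L` (`i ∈ I`; `0` for `i ∉ I`), a function `Fin k → Fin L`. -/
def St_FilA : Prop := ∀ (k m : ℕ) (w : Fin k → ℝ) (g : Fin k → ZMod m) (T : Finset (Fin k → ℕ))
  (L : ℕ), Til m w g T → 1 ≤ L → ∀ (x₀ : Fin k → ℕ) (I : Finset (Fin k)),
  (TI T x₀ I).card ≤ L ^ k * (NI w T x₀ I L).card

/-- **FILB.**  PROOF.  Let `G` = the good points of `NI w T x₀ I L`.  For `x ∈ G` and `n` with `x₀ j ≤ n` and
`w j * (n - x₀ j) ≤ 1 / (2 L)` the point `update x j n` is in `TI T x₀ (insert j I)`: `n ≥ 1` as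
`n ≥ x₀ j > x j`, and `wt w (update x j (n - 1)) < wt w x₀ + 1 / L + 1 / (2 L) ≤ 1 - 1 / (2 L) ≤ 1 - ε` (for
`i ∈ I` the sum of the `w i (x i - x₀ i)` is at most `1 / L`, for the other `i ≠ j` it is `x i < x₀ i`), so
goodness gives `update x j n ∈ T`.  With `r = ⌊1 / (2 L w j)⌋` there are `r + 1` such `n`, from `x₀ j` to
`x₀ j + r`, and `r + 1 ≥ 1 / (2 L w j)`.  For `y ∈ TI T x₀ (insert j I)` there are at most `x₀ j` pairs `(x, n)`
with `update x j n = y` (`n = y j`, `x = update y j s`, `s < x₀ j`), and `x₀ j ≤ 1 / w j` as `wt w x₀ ≤ 1`.  So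
`G.card / (2 L w j) ≤ G.card (r + 1) ≤ x₀ j (TI T x₀ (insert j I)).card ≤ (1 / w j) (TI ..).card`.  The other
points of `NI` are in `bad w T ε`. -/
def St_FilB : Prop := ∀ (k m : ℕ) (w : Fin k → ℝ) (g : Fin k → ZMod m) (T : Finset (Fin k → ℕ))
  (ε : ℝ) (L : ℕ), Til m w g T → 0 < ε → 2 ≤ L → 2 * L * ε ≤ 1 →
  ∀ (x₀ : Fin k → ℕ) (I : Finset (Fin k)) (j : Fin k), wt w x₀ ≤ 1 - 2 / L → j ∉ I →
  ((NI w T x₀ I L).card : ℝ) ≤ (bad w T ε).card + 2 * L * (TI T x₀ (insert j I)).card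

/-- **FILL** (from `St_FilA`, `St_FilB`).  PROOF.  Suppose `x₀ ∉ T`.  Then `TI T x₀ univ = ∅` (`x ≥ x₀`).  Let
`D = 4 L ^ (k + 1)`.  By downward induction on `I` (induction on `k - I.card`):
`(TI T x₀ I).card ≤ D ^ (k - I.card) * (ε m)`: for `j ∉ I`
`(TI T x₀ I).card ≤ L ^ k (ε m + 2 L (TI T x₀ (insert j I)).card)`, and the last cardinality is `0` if
`I.card = k - 1`, and `L ^ k + 2 L ^ (k + 1) D ^ s ≤ D ^ (s + 1)` for `s ≥ 1`.  `T` is the union of the `TI T x₀ I`, so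
`m ≤ 2 ^ k D ^ k ε m = (8 L ^ (k + 1)) ^ k ε m < m`. -/
def St_Fill : Prop := ∀ (k m : ℕ) (w : Fin k → ℝ) (g : Fin k → ZMod m) (T : Finset (Fin k → ℕ))
  (ε : ℝ) (L : ℕ), 1 ≤ k → Til m w g T → 0 < ε → 2 ≤ L → 2 * L * ε ≤ 1 →
  (8 * (L : ℝ) ^ (k + 1)) ^ k * ε < 1 → ((bad w T ε).card : ℝ) ≤ ε * m →
  ∀ x : Fin k → ℕ, wt w x ≤ 1 - 2 / L → x ∈ T

/-! ### Directions of different size -/

/-- **MIX** (from `St_Line`, `St_Lt`).  PROOF.  `h = ⌊2 e / w j⌋₊`, so `e ≤ h w j ≤ 2 e` and `h ≥ 1`.  Let `x ∈ T` be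
good with `wt w x < 1 - ε - 2 e`.  By goodness `x' = update x j (x j + h) ∈ T`
(`wt w (update x j (x j + h - 1)) < 1 - ε`).  Suppose that `x'` is good too.  `p = en T i x`, `p' = en T i x'`:
`wt w (update x i p)` and `wt w (update x' i p')` are in `[1 - ε, 1]` (`≥ 1 - ε` by goodness and maximality).
The difference is `h w j + w i (p' - p)`, `p' - p` an integer, and it is in `[-ε, ε]`: impossible for
`p' - p ≥ 0` (`h w j ≥ e > ε`) and for `p' - p ≤ -1` (`h w j - w i ≤ 2 e - w i < - ε`).  As `x ↦ x'` is injective,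
the number of the `x ∈ T` with `wt w x < 1 - ε - 2 e` is at most `2 (bad w T ε).card ≤ 2 ε m`.  So
`∑ wt w x ≥ (1 - 2 ε) (1 - ε - 2 e) m ≥ (1 - 5 e) m > (1 - 1 / (k + 1)) m`, against `St_Lt`. -/
def St_Mix : Prop := ∀ (k m : ℕ) (w : Fin k → ℝ) (g : Fin k → ZMod m) (T : Finset (Fin k → ℕ))
  (ε e : ℝ) (i j : Fin k), Til m w g T → ((bad w T ε).card : ℝ) ≤ ε * m → i ≠ j → 0 < ε → ε < e →
  w j ≤ e → 2 * e + ε < w i → 8 * ((k : ℝ) + 1) * e ≤ 1 → False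

/-! ### All directions coarse -/

/-- **COA** (from `St_Line`).  PROOF.  All `x ∈ T` are good, so `wt w (update x i (en T i x))` is in `[1 - ε, 1]`.
For `x = 0` and `x = Pi.single j 1` (`i ≠ j`): `w i p ∈ [1 - ε, 1]`, `w j + w i p' ∈ [1 - ε, 1]`, `p' ≤ p`
(down-set), so `w j - w i (p - p') ∈ [-ε, ε]`.  If `w j ≤ w i`: `p - p' = 0` is impossible (`w j > e > ε`), and
`p - p' ≥ 2` is impossible (`w j ≥ 2 w i - ε > w i`); so `|w i - w j| ≤ ε` for all `i, j`.  Let `i₀` be an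
index, `W = w i₀`, `r` the maximum of `∑ i, x i` over `T`; `r e ≤ 1` and `r (W - ε) ≤ 1`.  If `x ∈ T`,
`∑ x ≤ r - 1`: `wt w x ≤ (r - 1) (W + ε) ≤ 1 + (2 r - 1) ε - W < 1 - ε` (`2 r ε ≤ 2 ε / e < e < W`), so
`update x i (x i + 1) ∈ T` for all `i`.  By induction on `∑ x` all `x` with `∑ x ≤ r` are in `T`. -/
def St_Coa : Prop := ∀ (k m : ℕ) (w : Fin k → ℝ) (g : Fin k → ZMod m) (T : Finset (Fin k → ℕ))
  (ε e : ℝ), 1 ≤ k → Til m w g T → bad w T ε = ∅ → 0 < ε → 0 < e → e ≤ 1 → 2 * ε < e ^ 2 →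
  (∀ i, e < w i) → ∃ r : ℕ, ∀ x : Fin k → ℕ, x ∈ T ↔ ∑ i, x i ≤ r

/-- **PERF.**  PROOF.  `1 ≤ r` by `one`.  Suppose `r ≥ 2`.  Let `P` be the set of the pairs `(i, x)` with
`∑ x = r`, `x i ≥ 1`.  For `(i, x) ∈ P` let `b = update x i 0` (so `∑ b ≤ r - 1`) and
`f (i, x) = cls g b - g i`.  `f` is injective and its values are not of the form `cls g b'`, `∑ b' ≤ r - 1`:
(1) `cls g b - g i = cls g b'` gives `cls g b = cls g (b' + e_i)`, both in `T`, so `b = b' + e_i`, but `b i = 0`;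
(2) `cls g b - g i = cls g b' - g j` gives `b + e_j = b' + e_i`; if `i ≠ j` the coordinate `i` of the left side
is `0`; so `i = j`, `b = b'`, and `x = x'` because `∑ x = ∑ x' = r`.
So `P.card + #{∑ b ≤ r - 1} ≤ m = #{∑ x ≤ r - 1} + #{∑ x = r}`, `P.card ≤ #{x | ∑ x = r}`.  But the map
`(i, x) ↦ x` from `P` to `{x | ∑ x = r}` is onto and not injective (`x = (r - 1) e_0 + e_1`).
So `r = 1`, and `T` consists of `0` and the unit vectors: `m = k + 1`. -/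
def St_Perf : Prop := ∀ (k m r : ℕ) (w : Fin k → ℝ) (g : Fin k → ZMod m)
  (T : Finset (Fin k → ℕ)), 2 ≤ k → Til m w g T → (∀ x : Fin k → ℕ, x ∈ T ↔ ∑ i, x i ≤ r) →
  m = k + 1

/-- **BOX.**  PROOF.  `w i * x i ≤ wt w x ≤ 1`, so `x i ≤ ⌊1 / e⌋₊`; `T` is contained in the box
`Fintype.piFinset fun _ => range (⌊1 / e⌋₊ + 1)`. -/
def St_Box : Prop := ∀ (k m : ℕ) (w : Fin k → ℝ) (g : Fin k → ZMod m) (T : Finset (Fin k → ℕ))
  (e : ℝ), Til m w g T → 0 < e → (∀ i, e ≤ w i) → (m : ℝ) ≤ (1 / e + 1) ^ k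

/-! ### All directions fine -/

/-- the number of the `x` of weight at most `l`, zero in the directions in `V` -/
noncomputable def Nc {k : ℕ} (w : Fin k → ℝ) (l : ℝ) (V : Finset (Fin k)) : ℕ :=
  {x : Fin k → ℕ | wt w x ≤ l ∧ ∀ i ∈ V, x i = 0}.ncard

/-- **CNT.**  PROOF.  (1) `w i * x i ≤ l`.  (2) If `x i ≥ h`, then `x - h e_i` has weight `≤ l - h w i` (an
injective map); the other `x` are given by `x i < h` and `update x i 0`.  (3) The map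
`(s, y) ↦ update y i s`, `s ≤ t`, `y` of weight `≤ l'`, zero in the directions in `insert i V`, is injective.
(4) `x ↦ fun i => x i / 2`; the fibres have at most `2 ^ k` elements (remainders modulo `2`). -/
def St_Cnt : Prop := ∀ (k : ℕ) (w : Fin k → ℝ), (∀ i, 0 < w i) →
  (∀ (l : ℝ) (V : Finset (Fin k)), {x : Fin k → ℕ | wt w x ≤ l ∧ ∀ i ∈ V, x i = 0}.Finite) ∧
  (∀ (l : ℝ) (V : Finset (Fin k)) (i : Fin k) (h : ℕ), i ∉ V →
    Nc w l V ≤ Nc w (l - h * w i) V + h * Nc w l (insert i V)) ∧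
  (∀ (l l' : ℝ) (V : Finset (Fin k)) (i : Fin k) (t : ℕ), i ∉ V → l' + t * w i ≤ l →
    (t + 1) * Nc w l' (insert i V) ≤ Nc w l V) ∧
  ∀ (l : ℝ) (V : Finset (Fin k)), 0 ≤ l → Nc w l V ≤ 2 ^ k * Nc w (l / 2) V

/-- **SLI** (from `St_Cnt`).  PROOF.  Let `γ = (1/2) ^ (k + 4)`, `h = ⌈γ / w j⌉₊ ≤ 2 γ / w j`,
`t = ⌊1 / (2 w j)⌋₊`, so `(t + 1) ≥ 1 / (2 w j)`.  By (2) and monotonicity
`Nc w 1 {i} ≤ Nc w (1 - γ) {i} + h Nc w 1 {j, i}`; by (4) `Nc w 1 {j, i} ≤ 2 ^ k Nc w (1/2) {j, i}`, by (3)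
`(t + 1) Nc w (1/2) {j, i} ≤ Nc w 1 {i}`.  So
`h Nc w 1 {j, i} ≤ (2 γ / w j) 2 ^ k (2 w j) Nc w 1 {i} = 4 γ 2 ^ k Nc w 1 {i} = Nc w 1 {i} / 4`. -/
def St_Sli : Prop := ∀ (k : ℕ) (w : Fin k → ℝ), (∀ i, 0 < w i) → ∀ i j : Fin k, i ≠ j →
  w j ≤ (1 / 2) ^ (k + 4) →
  3 * (Nc w 1 {i} : ℝ) ≤ 4 * Nc w (1 - (1 / 2) ^ (k + 4)) {i}

/-- **DIF.**  PROOF.  `A` = the `x` with `wt w x ≤ 1 - e - β`, `B` = the points `0`, `t e_i` (`t ≤ h`),
`t e_j` (`t ≤ h'`).  The sets `A`, `{(a, t) | a ∈ A, a i = 0, 1 ≤ t ≤ h}`, `{(a, t) | a ∈ A, a j = 0, 1 ≤ t ≤ h'}`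
are mapped to `ZMod m` by `cls g a`, `cls g a - t g i`, `cls g a - t g j`.  These maps are injective with
disjoint images: an equality gives `cls g (a + b') = cls g (a' + b)` with `a + b', a' + b ∈ T` (weight
`≤ 1 - e`), so `a + b' = a' + b`; compare the coordinates `i` and `j`.  `ZMod m` has `m` elements (`m > 0`). -/
def St_Dif : Prop := ∀ (k m : ℕ) (w : Fin k → ℝ) (g : Fin k → ZMod m) (T : Finset (Fin k → ℕ))
  (e β : ℝ) (i j : Fin k) (h h' : ℕ), Til m w g T → (∀ x, wt w x ≤ 1 - e → x ∈ T) → i ≠ j →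
  h * w i ≤ β → h' * w j ≤ β → 0 ≤ β →
  Nc w (1 - e - β) ∅ + h * Nc w (1 - e - β) {i} + h' * Nc w (1 - e - β) {j} ≤ m

/-- **PACK** (from `St_Cnt`, `St_Sli`, `St_Dif`).  PROOF.  `β = (1/2) ^ (k + 5)`, `e = β / 8 = (1/2) ^ (k + 8)`,
`s = 1 - e - β ≥ 1 - (1/2) ^ (k + 4)`, `i = 0`, `j = 1`, `h = ⌊β / w i⌋₊`, `h' = ⌊β / w j⌋₊`, so `h w i ≥ (7/8) β` (as
`w i ≤ β / 8`).  `St_Dif`: `Nc s ∅ + h Nc s {i} + h' Nc s {j} ≤ m`.  `T` is contained in
`{x | wt w x ≤ 1}`, so `m ≤ Nc 1 ∅ ≤ Nc s ∅ + H Nc 1 {i}`, `H = ⌈(β + e) / w i⌉₊`, `H w i ≤ (10/8) β`, and the same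
for `j` with `H'`.  So `2 (h Nc s {i} + h' Nc s {j}) ≤ H Nc 1 {i} + H' Nc 1 {j}`.  By `St_Sli` and monotonicity
`Nc s {i} ≥ (3/4) Nc 1 {i}`, so with `X = (β / w i) Nc 1 {i} + (β / w j) Nc 1 {j} > 0` the left side is at
least `2 (7/8) (3/4) X = (42/32) X` and the right side at most `(40/32) X`. -/
def St_Pack : Prop := ∀ (k m : ℕ) (w : Fin k → ℝ) (g : Fin k → ZMod m) (T : Finset (Fin k → ℕ)),
  2 ≤ k → Til m w g T → (∀ i, w i ≤ (1 / 2) ^ (k + 8)) →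
  (∀ x, wt w x ≤ 1 - (1 / 2) ^ (k + 8) → x ∈ T) → False

/-! ### The gap -/

/-- **GAP** (from `St_Bad`, `St_Fill`, `St_Mix`, `St_Coa`, `St_Perf`, `St_Box`, `St_Pack`).  PROOF.  Let
`ε = (1/2) ^ ((k + 4) ^ 3)` and suppose the contrary; `(bad w T ε).card ≤ ε m` by `St_Bad`.
(1) All `w i ≤ (1/2) ^ (k + 8)`: `St_Fill` with `L = 2 ^ (k + 9)` (`8 L ^ (k + 1) = 2 ^ (k² + 10 k + 12)`, and
`k³ + 10 k² + 12 k < (k + 4) ^ 3`; `2 / L = (1/2) ^ (k + 8)`) and `St_Pack`.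
(2) Some `w i > (1/2) ^ (k + 8)`; let `e = (1/2) ^ (k + 10)`.  If `w j ≤ e` for some `j`: `St_Mix`.
(3) All `w j > e`: `St_Box` gives `m ≤ (2 ^ (k + 10) + 1) ^ k`, so `ε m < 1` and `bad w T ε = ∅`; `St_Coa`,
`St_Perf` give `m = k + 1`. -/
def St_Gap : Prop := ∀ (k m : ℕ) (w : Fin k → ℝ) (g : Fin k → ZMod m) (T : Finset (Fin k → ℕ)),
  2 ≤ k → Til m w g T → m ≠ k + 1 →
  ((k : ℝ) + 1) * ∑ x ∈ T, wt w x ≤ (k - (1 / 2) ^ (2 * (k + 4) ^ 3)) * m

/-! ### Numerical semigroups -/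

open Pool.Agent.Helper60.Wilf Pool.Agent.Helper82.Wilf

/-- **APE.**  PROOF.  Let `a` enumerate `A.erase m` (`prim_m`; `m < a i`).  Every element of
`insert 0 (A0 S c m)` is a sum of the `a i` (`prim_div`, `dec`, or strong induction: an Apery element
which is not `Prim` is a sum of two smaller non-zero elements of `S`, which are Apery elements, `ap_part`).
For every such `s` let `x s : Fin k → ℕ` be the representation `∑ a i * x i = s` with the smallest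
`∑ x i * (c + m) ^ i` (all representations have coordinates `< c + m`, so different representations of `s`
have different values of this function, e.g. `Nat.ofDigits_inj_of_len_eq`, or use `Pi.Lex`).  `T` = the set
of the `x s`.  Down-set: let `y ≤ x s`; `∑ a i * y i` and `∑ a i * (x s i - y i)` are in `S` with sum `s`, so
`∑ a i * y i` is in `insert 0 (A0 S c m)`, and a representation `y'` of it with a smaller value of the
function would give `x s - y + y'`, a representation of `s` with a smaller value.  `Pi.single i 1`: `a i` is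
`Prim`, so it has only one representation.  `T.card = m`: `card_ins`. -/
def St_Ape : Prop := ∀ (S : AddSubmonoid ℕ) (c m k : ℕ) (A : Finset ℕ), Sg S c m →
  (∀ a, a ∈ A ↔ Prim S a) → A.card = k + 1 →
  ∃ (a : Fin k → ℕ) (T : Finset (Fin k → ℕ)), (∀ i, m < a i) ∧ T.card = m ∧
    (∀ i, Pi.single i 1 ∈ T) ∧ (∀ x ∈ T, ∀ y : Fin k → ℕ, y ≤ x → y ∈ T) ∧
    (∀ x ∈ T, ∀ y ∈ T, ∑ i, a i * x i = ∑ i, a i * y i → x = y) ∧
    T.image (fun x => ∑ i, a i * x i) = insert 0 (A0 S c m)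

/-- **SEL.**  Selmer's formula.  PROOF.  `card_left`: the number of left elements is
`∑ s, lam c m s = ∑ s, (c + m - 1 - s) / m` over `s ∈ insert 0 (A0 S c m)`.  `lam c m s * m = c + rr c m s - s`
(`rr_spec`), and `rr c m` is a bijection to `range m` (`rr_inj`, `card_ins`), so
`m * n = m c + m (m - 1) / 2 - ∑ s`. -/
def St_Sel : Prop := ∀ (S : AddSubmonoid ℕ) (c m : ℕ), Sg S c m →
  2 * (m * (elF S 0 c).card) + 2 * ∑ s ∈ insert 0 (A0 S c m), s + m = 2 * (m * c) + m * m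

/-- **MAQ** (from `St_Gap`, `St_Ape`, `St_Sel`).  PROOF.  `k = A.card - 1 ≥ 2`, `M = c + m - 1 > 0`,
`w i = a i / M`, `g i = a i`.  `Til m w g T`: `le` from `s < c + m` (`mem_ins`), `inj` from `mem_ins`, `ins_inj` (equal
classes modulo `m`).  Let `n = (elF S 0 c).card`, `δ = (1/2) ^ (2 (k + 4) ^ 3)`.  `St_Gap`:
`(k + 1) ∑ s ≤ (k - δ) m M`, and `St_Sel`: `m n = m c + m (m - 1) / 2 - ∑ s`.  So
`m ((k + 1) n - c) ≥ k m c + (k + 1) m (m - 1) / 2 - (k - δ) m M = m (δ M - (k - 1) (m - 1) / 2)`,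
`(k + 1) n - c ≥ δ M - k m / 2 ≥ (δ / 2) M ≥ (δ / 2) c`, because `k m ≤ δ M`. -/
def St_Maq : Prop := ∀ (S : AddSubmonoid ℕ) (c m : ℕ) (A : Finset ℕ), Sg S c m →
  (∀ a, a ∈ A ↔ Prim S a) → 3 ≤ A.card → A.card ≠ m →
  (A.card - 1) * 2 ^ (2 * (A.card + 3) ^ 3) * m ≤ c + m - 1 →
  (2 ^ (2 * (A.card + 3) ^ 3 + 1) + 1) * c ≤
    2 ^ (2 * (A.card + 3) ^ 3 + 1) * (A.card * (elF S 0 c).card)

/-- **MAI** (from `St_Maq`, `St_Ape`).  PROOF.  Let `k = A.card - 1`, `M = c + m - 1`,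
`Q = k 2 ^ (2 (k + 4) ^ 3)`.  If `Q m ≤ M`, use `St_Maq`.  Suppose `M < Q m`; let `a, T` be as in `St_Ape`.  For `x ∈ T`,
`m x i ≤ a i x i ≤ M < Q m`, so `x i < Q` and `m = T.card ≤ Q ^ k`,
`c ≤ M < Q ^ (k + 1) ≤ 2 ^ (2 (k + 4) ^ 4)` (`Q ≤ 2 ^ (k + 2 (k + 4) ^ 3)`,
`(k + 1) (k + 2 (k + 4) ^ 3) ≤ 2 (k + 4) ^ 4`). -/
def St_Mai : Prop := ∀ (S : AddSubmonoid ℕ) (c m : ℕ) (A : Finset ℕ), Sg S c m →
  (∀ a, a ∈ A ↔ Prim S a) → 3 ≤ A.card → A.card ≠ m → 2 ^ (2 * (A.card + 3) ^ 4) ≤ c →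
  (2 ^ (2 * (A.card + 3) ^ 3 + 1) + 1) * c ≤
    2 ^ (2 * (A.card + 3) ^ 3 + 1) * (A.card * (elF S 0 c).card)

/-- **FIN.**  Finitely many numerical semigroups with conductor below a bound.  PROOF.  The map
`S ↦ (range N).filter (· ∈ S)` is injective on this set. -/
def St_Fin : Prop := ∀ N : ℕ, {S : AddSubmonoid ℕ | ∀ n, N ≤ n → n ∈ S}.Finite

end Pool.Agent.WLF
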