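import Pool.Agent.WLF.St

/-!
# WLF, second part: a lower bound for Wilf's number of every numerical semigroup

For every numerical semigroup with `3 ≤ d ≠ m`:
`2 m (d n - c) ≥ (c + m - 1) - (d - 2) m (m - 1)`, so Wilf's inequality is strict if
`F + m > (d - 2) m (m - 1)`. Same conventions as in `Pool/Agent/WLF/St.lean`.
-/

set_option autoImplicit false

namespace Pool.Agent.WLF

open Finset

/-- the sum of the distances of the ends of the lines in direction `i` from the hyperplane -/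
noncomputable def sl {k : ℕ} (w : Fin k → ℝ) (T : Finset (Fin k → ℕ)) (i : Fin k) : ℝ :=
  ∑ x ∈ T, (1 - wt w (Function.update x i (en T i x)))

/-- **SUMB** (from `St_Line`, `St_Avg`).  PROOF.  (1) `St_Line` and `Til.le`.  (2) `St_Avg`. -/
def St_SumB : Prop := ∀ (k m : ℕ) (w : Fin k → ℝ) (g : Fin k → ZMod m) (T : Finset (Fin k → ℕ)),
  Til m w g T → (∀ i, 0 ≤ sl w T i) ∧
  ∑ i, sl w T i = k * m - ((k : ℝ) + 1) * ∑ x ∈ T, wt w x

/-- **FULL** (from `St_Line`, `St_SumB`).  PROOF.  Suppose there is `y ∉ T` with `wt w y ≤ 1`, and choose one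
with the smallest `∑ i, y i`; `y ≠ 0` because `0 ∈ T` (`k ≥ 1`).  If `y i ≥ 1`, then
`update y i (y i - 1)` is in `T` (smaller sum, smaller weight), so the `y i` points `update y i n`, `n < y i`, are
in `T`, and `en T i` is `y i - 1` on them (`update y i (y i) = y ∉ T`), so each of them contributes
`1 - wt w y + w i` to `sl w T i`.  So
`∑ i, sl w T i ≥ ∑ i, y i (1 - wt w y + w i) = (∑ y) (1 - wt w y) + wt w y ≥ 1`, a contradiction. -/
def St_Full : Prop := ∀ (k m : ℕ) (w : Fin k → ℝ) (g : Fin k → ZMod m) (T : Finset (Fin k → ℕ)),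
  1 ≤ k → Til m w g T → ∑ i, sl w T i < 1 → ∀ x : Fin k → ℕ, wt w x ≤ 1 → x ∈ T

/-- **PAIR** (from `St_Line`, `St_SumB`).  PROOF.  Let `α = w i`, `β = w j`, `p = ⌊1 / β⌋₊`,
`Q h = ⌊(1 - h β) / α⌋₊` (`h ≤ p`), `C v = ⌊(1 - v α) / β⌋₊` (`v ≤ q`).  The point with coordinates `a` at `i`,
`h` at `j` and `0` elsewhere is in `T` iff `a α + h β ≤ 1`; so the end of the line in direction `j`
through `v e_i` (`v ≤ q`) has weight `v α + C v β`, and the end of the line in direction `i` through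
`a e_i + h e_j` (`a ≤ Q h`) has weight `h β + Q h α`.  So
`sl j ≥ ∑ v ≤ q, (1 - v α - C v β) ≥ (q + 1) - (q + 1) / 2 - β ∑ v ≤ q, C v` (as `q α ≤ 1`), and
`∑ v ≤ q, C v = #{(v, h) | 1 ≤ h, v α + h β ≤ 1} = ∑ 1 ≤ h ≤ p, (Q h + 1)`.
If `h ≥ 1`, `Q h = Q (h - 1)`, then `1 - (h - 1) β - Q (h - 1) α ≥ β` and the `Q (h - 1) + 1 = Q h + 1` points
`a e_i + (h - 1) e_j` contribute at least `β` each to `sl i`:
`sl i ≥ β ∑ (Q h + 1)` over the `h` in `[1, p]` with `Q h = Q (h - 1)`.  For the other `h` in `[1, p]`,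
`Q h < Q (h - 1) ≤ q`, and the values `Q h` of these `h` are different numbers less than `q`, so
`∑ (Q h + 1) ≤ q (q + 1) / 2`.  Together
`sl i + sl j ≥ (q + 1) / 2 - β q (q + 1) / 2 = (q + 1) (1 - q β) / 2 ≥ 1 / 2`, as `(q + 1) β ≤ 1`. -/
def St_Pair : Prop := ∀ (k m : ℕ) (w : Fin k → ℝ) (g : Fin k → ZMod m) (T : Finset (Fin k → ℕ))
  (i j : Fin k) (q : ℕ), Til m w g T → (∀ x, wt w x ≤ 1 → x ∈ T) → i ≠ j →
  q * w i ≤ 1 → 1 < (q + 1) * w i → (q + 1) * w j ≤ 1 → 1 / 2 ≤ sl w T i + sl w T j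

/-- **HALF** (from `St_SumB`, `St_Full`, `St_Pair`, `St_Perf`).  PROOF.  Suppose `∑ i, sl w T i < 1 / 2`.  By
`St_Full` `T = {x | wt w x ≤ 1}`.  By `St_Pair` all `⌊1 / w i⌋₊` are equal, to `r` say (for `i, j` with
`q = ⌊1 / w i⌋₊ < ⌊1 / w j⌋₊`, `sl i + sl j ≤ ∑ sl`).  If `∑ x ≤ r`, then `wt w x ≤ 1`, because `w i ≤ 1 / r`
(`r ≥ 1` as `w i ≤ 1`); if `wt w x ≤ 1`, then `(∑ x) (min w) ≤ 1`, so `∑ x ≤ r`.  `St_Perf`: `m = k + 1`. -/
def St_Half : Prop := ∀ (k m : ℕ) (w : Fin k → ℝ) (g : Fin k → ZMod m) (T : Finset (Fin k → ℕ)),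
  2 ≤ k → Til m w g T → m ≠ k + 1 → ((k : ℝ) + 1) * ∑ x ∈ T, wt w x ≤ k * m - 1 / 2

open Pool.Agent.Helper60.Wilf Pool.Agent.Helper82.Wilf

/-- **MAB** (from `St_Half`, `St_Ape`, `St_Sel`).  PROOF.  As `St_Maq`: with `M = c + m - 1`, `k = A.card - 1`,
`(k + 1) ∑ s ≤ (k m - 1 / 2) M` and `m n = m c + m (m - 1) / 2 - ∑ s` give
`m ((k + 1) n - c) ≥ M / 2 - (k - 1) m (m - 1) / 2`. -/
def St_Mab : Prop := ∀ (S : AddSubmonoid ℕ) (c m : ℕ) (A : Finset ℕ), Sg S c m →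
  (∀ a, a ∈ A ↔ Prim S a) → 3 ≤ A.card → A.card ≠ m → 0 < c →
  2 * m * c + (c + m - 1) ≤ 2 * m * (A.card * (elF S 0 c).card) + (A.card - 2) * (m * (m - 1))

end Pool.Agent.WLF
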