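import Pool.Agent.WLF.StB

/-!
# WLF, third part: Wilf's inequality for `F + m > 30 m (m - 1)`

Frozen statements. Every module `Pool/Agent/WLF/<X>.lean` imports this file and proves
`theorem thm_<X> : St_<X>`, with the hypotheses named in the docstring. The docstrings contain the
proofs. `σ_i(x) = 1 - wt w (update x i (en T i x))` is the slack of the line in direction `i` through `x`,
`sl w T i = ∑ x ∈ T, σ_i(x)`.

Plan. If Wilf's inequality is not strict and `F + m > 30 m (m - 1)`, then `∑ sl < (k - 1) / 60`. The planes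
through `0` spanned by two directions then show (`Cls`): (I) all `1 / w i` are near one integer `r ≥ 2`; then `T`
is nearly `{x | ∑ x ≤ r}` (`Com`, `Top`), which is not a set of representatives modulo a lattice (`Rob`); or
(II) all directions are heavy or light; then `T` is nearly a product of a small light part and a
star (`Lig`), and Wilf's inequality holds (`Wll`).
-/

set_option autoImplicit false

namespace Pool.Agent.WLF

open Finset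

/-! ### Planes -/

/-- A down-set `{(a, h) | a ≤ A, h ≤ C a} = {(a, h) | h ≤ B, a ≤ Q h}` of points with
`a α + h β ≤ 1`. -/
structure Pln (α β : ℝ) (A B : ℕ) (C Q : ℕ → ℕ) : Prop where
  a0 : 0 < α
  b0 : 0 < β
  A1 : 1 ≤ A
  B1 : 1 ≤ B
  C0 : C 0 = B
  Q0 : Q 0 = A
  CB : ∀ a ≤ A, C a ≤ B
  QA : ∀ h ≤ B, Q h ≤ A
  dual : ∀ a ≤ A, ∀ h ≤ B, (h ≤ C a ↔ a ≤ Q h)
  leC : ∀ a ≤ A, a * α + C a * β ≤ 1
  leQ : ∀ h ≤ B, Q h * α + h * β ≤ 1

/-- the sum of the slacks of all lines of the plane except the first axis -/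
noncomputable def plc (α β : ℝ) (A B : ℕ) (C Q : ℕ → ℕ) : ℝ :=
  ∑ a ∈ range (A + 1), ((C a : ℝ) + 1) * (1 - a * α - C a * β) +
    ∑ h ∈ Icc 1 B, ((Q h : ℝ) + 1) * (1 - h * β - Q h * α)

/-- **PLA.**  PROOF.  All summands of `plc` are `≥ 0` (`leC`, `leQ`), so each is `< 1/20`.  Let
`δ = 1 - B β ≥ 0`; summand `a = 0`: `(B + 1) δ < 1/20`.  `leC` for `a = 1`: `α ≤ δ`.  Suppose `A α > δ`, let `a ≤ A` be the
smallest number with `a α > δ`, so `a α ≤ δ + α ≤ 2 δ`.  `leC`: `C a * β ≤ B β + δ - a α < B β`, so `t = B - C a ≥ 1`, and the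
summand of `a` is `(C a + 1) (t β + δ - a α) ≥ (B - t + 1) (t β - δ) ≥ (B - t + 1) t (β - δ) ≥ B (β - δ)`, because
`(B - t + 1) t - B = (t - 1) (B - t) ≥ 0` and `β > δ`; and `B (β - δ) = 1 - (B + 1) δ > 19/20`, a contradiction.  So
`A α ≤ δ < 1/40`.  Summand `h = 1`: `1 - β - Q 1 α < 1/20` and `Q 1 ≤ A`, so `β > 1 - 1/20 - 1/40`; `B β ≤ 1` gives
`B = 1`. -/
def St_PlA : Prop := ∀ (α β : ℝ) (A B : ℕ) (C Q : ℕ → ℕ), Pln α β A B C Q →
  plc α β A B C Q < 1 / 20 → C 1 = B → B = 1 ∧ 9 / 10 < β ∧ A * α < 1 / 40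

/-- **PLB.**  PROOF.  As in PLA all summands are `< 1/20`; `δ = 1 - B β`, `(B + 1) δ < 1/20`.  Let
`n = B - C 1 ≥ 2`, `N = C 1 + 1`, so `N + n = B + 1`, `s = 1 - α - C 1 β = n β + δ - α`, `N s < 1/20`.
(1) `3 β ≤ 2 α`: otherwise `s ≥ (n - 3/2) β`, and `N (n - 3/2) ≥ B / 4` (`n ≥ 2`, `N ≥ 1`), so
`N s ≥ B β / 4 ≥ (1 - 1/20) / 4 > 1/20`.
(2) `α ≤ 1` (`leC`), let `J = ⌊1 / α⌋₊ ≥ 1`, `J α ≤ 1 < (J + 1) α`, so `J α > 1/2`.  Let `h ≥ 1` be the smallest number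
with `1 - h β < J α`; `h ≤ B` because `1 - B β = δ < 1/2`.  Then `1 - (h - 1) β ≥ J α` (also if `h = 1`), so
`1 - h β ≥ J α - β ≥ (J - 2/3) α`.  Let `q = Q h`; `q α ≤ 1 - h β < J α`, so `q ≤ J - 1`; with `p = J - 1 - q ≥ 0` the summand of
`h` is `(q + 1) (1 - h β - q α) ≥ (J - p) (p + 1/3) α ≥ J α / 3 > 1/6`, because
`(J - p) (p + 1/3) - J / 3 = p (J - p - 1/3) ≥ 0`; a contradiction. -/
def St_PlB : Prop := ∀ (α β : ℝ) (A B : ℕ) (C Q : ℕ → ℕ), Pln α β A B C Q →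
  plc α β A B C Q < 1 / 20 → ¬ C 1 + 2 ≤ B

/-- **PLC.**  PROOF.  `δ = 1 - B β`, `(B + 1) δ < 1/20`, `s = 1 - α - (B - 1) β`, `B s < 1/20`, `α = β + δ - s`.
If `B = 1`: `α = 1 - s > 19/20`, `β = 1 - δ`.  Let `B ≥ 2`.
(1) `|α - β| < 1 / (20 B) ≤ β / 2` (`B β ≥ 1 - 1/60`); `B α ≤ B β + B δ = 1 + (B - 1) δ < 21/20`.
(2) Let `s_a = 1 - a α - C a β ≥ 0`.  For `a < A`, `t = C a - C (a + 1) ≥ 0` (`dual`), `s_(a+1) - s_a = t β - α`, and
`|t β - α| ≥ |α - β|` for every natural number `t` by (1); so `s_a + s_(a+1) ≥ |α - β|`.  Multiply by `C (a + 1) + 1 ≤ C a + 1`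
and add: `N |α - β| ≤ 2 ∑ (C a + 1) s_a < 1/10`, `N = ∑ 1 ≤ a ≤ A, (C a + 1)`.
(3) `N = #{(a, h) | 1 ≤ a ≤ A, h ≤ C a} = ∑ h ≤ B, Q h` (`dual`).  For `1 ≤ h ≤ B` the summand of `h` in `plc` gives
`Q h α > 1 - h β - 1/20`, and `Q 0 = A ≥ Q 1`.  So (`B β ≤ 1`, `β ≤ 1 / B`)
`α N ≥ (1 - β - 1/20) + B (1 - 1/20) - β B (B + 1) / 2 ≥ (9/20) (B + 1) - 1 / B`.
(4) So `|α - β| ((9/20) B (B + 1) - 1) < B α / 10 ≤ 21/200`, and `(9/20) B (B + 1) - 1 ≥ (21/50) B²` for `B ≥ 2`, so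
`|α - β| ≤ 1 / (4 B²)`.
(5) `B α - 1 = -δ + B (α - β)`, so `1 - 3 / (10 B) ≤ B α ≤ 1 + 1 / (4 B)`, and
`1 / α - B = (1 - B α) / α` is in `[-1/4, (3/10) / (17/20)]`.  `1 / β - B = δ / β ≤ (1/20) / (59/60)`.
(6) `A α ≥ Q 1 α ≥ 1 - β - 1/20 ≥ 1/2 - 1/20`. -/
def St_PlC : Prop := ∀ (α β : ℝ) (A B : ℕ) (C Q : ℕ → ℕ), Pln α β A B C Q →
  plc α β A B C Q < 1 / 20 → C 1 + 1 = B →
  (B = 1 ∧ 9 / 10 < β ∧ 9 / 10 < α) ∨
  (2 ≤ B ∧ |1 / α - B| ≤ 2 / 5 ∧ |1 / β - B| ≤ 2 / 5 ∧ 1 / 4 ≤ A * α)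

/-- the cost of the plane of `i` and `l` without the axis of `i` -/
noncomputable def pc {k : ℕ} (w : Fin k → ℝ) (T : Finset (Fin k → ℕ)) (i l : Fin k) : ℝ :=
  plc (w i) (w l) (en T i 0) (en T l 0) (fun a => en T l (Pi.single i a))
    (fun h => en T i (Pi.single l h))

/-- **PLN** (from `St_Line`).  PROOF.  Let `P a h = update (Pi.single i a) l h = update (Pi.single l h) i a`
(`i ≠ l`), `wt w (P a h) = w i * a + w l * h`.  `P a 0 = Pi.single i a ∈ T` iff `a ≤ en T i 0`, the same for `l`; for these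
`a`, `h`: `h ≤ en T l (Pi.single i a)` iff `P a h ∈ T` iff `a ≤ en T i (Pi.single l h)` (`St_Line`, down-set).  The rest is
`Til.one`, `Til.le`, `Til.pos`, `Til.down`. -/
def St_Pln : Prop := ∀ (k m : ℕ) (w : Fin k → ℝ) (g : Fin k → ZMod m) (T : Finset (Fin k → ℕ)),
  Til m w g T → ∀ i l : Fin k, i ≠ l →
  Pln (w i) (w l) (en T i 0) (en T l 0) (fun a => en T l (Pi.single i a))
    (fun h => en T i (Pi.single l h))

/-- **PSU** (from `St_Line`, `St_Pln`).  PROOF.  With `P a h` as in PLN: the first sum in `pc w T i l` is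
`∑ σ_l(P a h)` over the `(a, h)` with `a ≤ A`, `h ≤ C a` (the line in direction `l` through `P a 0` consists of `C a + 1`
points with the same end `P a (C a)`), so it is at most `sl w T l`; the second is `∑ σ_i(P b h)` over
`1 ≤ h ≤ B`, `b ≤ Q h`, a sum over points of `T` whose nonzero coordinates except `i` are exactly `{l}`; these sets
are disjoint for different `l`, so the sum over `l` of the second sums is at most `sl w T i`. -/
def St_Psu : Prop := ∀ (k m : ℕ) (w : Fin k → ℝ) (g : Fin k → ZMod m) (T : Finset (Fin k → ℕ)),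
  Til m w g T → ∀ i : Fin k, ∑ l ∈ univ.erase i, pc w T i l ≤ ∑ j, sl w T j

/-- **CLS** (from `St_PlA`, `St_PlB`, `St_PlC`, `St_Pln`, `St_Psu`).  PROOF.  (0) PLA, PLB, PLC give for
`i ≠ l` with `pc w T i l < 1/20` (`B = en T l 0`, `C 1 ≤ B`): (a) `B ≥ 2`, `|1 / w i - B| ≤ 2/5`, `|1 / w l - B| ≤ 2/5`,
`1/4 ≤ en T i 0 * w i`; or (b) `B = 1`, `9/10 < w l`, and `9/10 < w i` or `en T i 0 * w i < 1/40`.  Note that
(a) for `(i, l)` and (b) for `(i, l')` is impossible (`w i ≤ 5/8` and `en T i 0 * w i ≥ 1/4`), and in (a) `B` is determined by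
`w i` (`|B - B'| ≤ 4/5`), and by `w l` (so (a) or (b) and `B` depend only on `i`, and only on `l`).
(1) For every `i` the number of `l ≠ i` with `pc w T i l ≥ 1/20` is less than `(k - 1) / 3` (`St_Psu`; all `pc ≥ 0` by
`St_Pln`).  So for `i ≠ i'`, `k ≥ 3`, there is `l ∉ {i, i'}` with `pc w T i l < 1/20` and `pc w T i' l < 1/20`
(`2 (k - 1) / 3 ≤ k - 2` if `k ≥ 4`; if `k = 3` there are no bad `l`).
(2) Let `i = 0`, take `l` with `pc w T 0 l < 1/20`.  If (a) holds with `B = r`: every other `i'` has a common `l'` with `0`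
(if `k = 2`, `i' = l`); `(0, l')` is of type (a) with the same `r`, so `en T l' 0 = r ≥ 2`, `(i', l')` is of type (a) with
`B = r`.  If (b) holds: every `i'` satisfies `9/10 < w i'` or `en T i' 0 * w i' < 1/40` in the same way.
(3) In the second case, if `i` is not heavy (`¬ 9/10 < w i`), all `l ≠ i` with `pc w T i l < 1/20` are heavy, and they are
more than `2 (k - 1) / 3`. -/
def St_Cls : Prop := ∀ (k m : ℕ) (w : Fin k → ℝ) (g : Fin k → ZMod m) (T : Finset (Fin k → ℕ)),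
  2 ≤ k → Til m w g T → ∑ i, sl w T i < ((k : ℝ) - 1) / 60 →
  (∃ r : ℕ, 2 ≤ r ∧ ∀ i, |1 / w i - r| ≤ 2 / 5) ∨
  ((∀ i, 9 / 10 < w i ∨ en T i 0 * w i < 1 / 40) ∧
    ∀ i, ¬ 9 / 10 < w i → 2 * ((k : ℝ) - 1) < 3 * ((univ.filter fun l => 9 / 10 < w l).card : ℝ))

/-! ### Case I -/

/-- **COM** (from `St_Line`).  PROOF.  `1 / (r + 2/5) ≤ w i ≤ 1 / (r - 2/5)`.  For `x ∈ T`:
`(∑ x) / (r + 2/5) ≤ wt w x ≤ 1`, so `∑ x ≤ r`; so `Til m (1 / r) g T`.  Let `e` be the end of a line, `n = r - ∑ e`; its new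
slack is `n / r`.  If `n ≥ 1`, the old slack is at least
`1 - (r - n) / (r - 2/5) = (n - 2/5) / (r - 2/5) ≥ (3/5) n / r`; it is always `≥ 0`. -/
def St_Com : Prop := ∀ (k m r : ℕ) (w : Fin k → ℝ) (g : Fin k → ZMod m)
  (T : Finset (Fin k → ℕ)), 2 ≤ r → Til m w g T → (∀ i, |1 / w i - r| ≤ 2 / 5) →
  Til m (fun _ => 1 / (r : ℝ)) g T ∧
  3 * ∑ i, sl (fun _ => 1 / (r : ℝ)) T i ≤ 5 * ∑ i, sl w T i

/-- **TOP** (from `St_Line`).  PROOF.  Choose `y ∉ T` with the smallest `ℓ = ∑ y`, `ℓ ≤ r - 1`; so all `x` with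
`∑ x < ℓ` are in `T`.  The slack of a line with end `e` is `(r - ∑ e) / r`.  For `i ≠ j` let `X i j` be the sum of `σ_i` over the
points of `T` on the line in direction `i` through `y + e_j`.  Claim: if `y i ≥ 1`,
`X i j + σ_j(y - e_i) ≥ y i (r - ℓ) / r`.  (α) If `y - e_i + e_j ∈ T`, it is the end of this line (`y + e_j ∉ T`, as `y ∉ T`), the
line has `y i` points in `T`, each with `σ_i = (r - ℓ) / r`.  (β) If `y - e_i + e_j ∉ T`: `y - e_i ∈ T` is the end in direction `j`,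
`σ_j(y - e_i) = (r - ℓ + 1) / r`; and if `y i ≥ 2`, `y - 2 e_i + e_j` (sum `ℓ - 1`) is in `T` and the end of the line, which has
`y i - 1` points, each with `σ_i = (r - ℓ + 1) / r`.
For fixed direction `i`, the points on the lines through `y + e_j` (`j ≠ i`; coordinate `j` is `y j + 1`, the others except
`i` are those of `y`) and the points `y - e_i'` (`i' ≠ i`, `y i' ≥ 1`) are all different, so
`sl w T i ≥ ∑ j ≠ i, X i j + ∑ i' ≠ i, y i' ≥ 1, σ_i(y - e_i')`.  Add over `i`: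
`∑ sl ≥ ∑ i, ∑ j ≠ i, y i (r - ℓ) / r = (k - 1) ℓ (r - ℓ) / r ≥ (k - 1) (r - 1) / r ≥ (k - 1) / 2` (`1 ≤ ℓ ≤ r - 1`; `ℓ ≥ 1` as
`0 ∈ T`). -/
def St_Top : Prop := ∀ (k m r : ℕ) (g : Fin k → ZMod m)
  (T : Finset (Fin k → ℕ)), 2 ≤ k → 2 ≤ r → Til m (fun _ => 1 / (r : ℝ)) g T →
  (∃ y : Fin k → ℕ, ∑ i, y i + 1 ≤ r ∧ y ∉ T) →
  ((k : ℝ) - 1) / 2 ≤ ∑ i, sl (fun _ => 1 / (r : ℝ)) T i

/-- **ROB** (from `St_Line`).  PROOF.  `T` is contained in `{∑ x ≤ r}` and contains `{∑ x ≤ r - 1}`; let `R` be the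
set of the `y ∉ T` with `∑ y = r`.  (1) `∑ sl ≥ R.card`: for `y ∈ R`, `y i ≥ 1`, the line in direction `i` through `y` has
the `y i` points `update y i a`, `a < y i`, each with slack `1 / r`; different `y` are on different lines; so
`sl i ≥ ∑ y ∈ R, y i / r`.
(2) Let `I` be the set of the `b` with `∑ b ≤ r - 1` and `b + e_j ∈ T` for all `j`, and `K = {∑ b ≤ r - 1} \ I`.  The classes
`cls g b - g i` with `b ∈ I`, `b i = 0` are different and not in `cls g I`: `cls g b - g i = cls g b' - g j` gives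
`b + e_j = b' + e_i` (`Til.inj`, both in `T`), so `i = j` (otherwise coordinate `i` of the left side is `0`) and `b = b'`;
`cls g b - g i = cls g b'` gives `b = b' + e_i`, but `b i = 0`.  So
`#{(i, b) | b ∈ I, b i = 0} + I.card ≤ m = #{∑ x ≤ r} - R.card`.
(3) `(i, b) ↦ (i, update b i (r - ∑ b))` is a bijection from `{(i, b) | ∑ b ≤ r - 1, b i = 0}` to
`{(i, x) | ∑ x = r, x i ≥ 1}`; so (2) gives `#{(i, x) | ∑ x = r, x i ≥ 1} - #{x | ∑ x = r} ≤ (k + 1) K.card`, and the left side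
is `∑ over ∑ x = r of (#{i | x i ≥ 1} - 1) ≥ (r - 1) k (k - 1) / 2` (the `x = a e_i + (r - a) e_j`, `i < j`, `1 ≤ a ≤ r - 1`).
(4) If `b ∈ K`, `b + e_j ∉ T`, then `b + e_j ∈ R`; so `K.card ≤ ∑ y ∈ R, #{j | y j ≥ 1} ≤ r R.card`.
So `(r - 1) k (k - 1) / 2 ≤ (k + 1) r R.card`, and `r ≤ 2 (r - 1)`, `k + 1 ≤ (3/2) k` give `R.card ≥ (k - 1) / 6`. -/
def St_Rob : Prop := ∀ (k m r : ℕ) (g : Fin k → ZMod m)
  (T : Finset (Fin k → ℕ)), 2 ≤ k → 2 ≤ r → Til m (fun _ => 1 / (r : ℝ)) g T →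
  (∀ y : Fin k → ℕ, ∑ i, y i + 1 ≤ r → y ∈ T) →
  ((k : ℝ) - 1) / 6 ≤ ∑ i, sl (fun _ => 1 / (r : ℝ)) T i

/-! ### Case II -/

/-- **LIG** (from `St_Line`).  PROOF.  Let `V = {l | 9/10 < w l}`, `U` its complement, `TU` the set of the `x ∈ T` with
`x l = 0` for all `l ∈ V`.  All summands `σ_i(x)`, `x ∈ T`, are `≥ 0`.  If `i ∈ U`: `w i < 1/40` (`en T i 0 ≥ 1` by `Til.one`).
`U` is not empty: otherwise `T = {0} ∪ {e_i}` (`2 (9/10) > 1`), `m = k + 1`; let `i₀ ∈ U`.  So `3 V.card > 2 (k - 1)`.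
(1) `wt w x < 1/10` for `x ∈ TU`: otherwise let `x` be a counterexample with the smallest `∑ x`; `x ≠ 0`, `x i ≥ 1` with `i ∈ U`, and
`update x i (x i - 1) ∈ TU`, so `wt w x < 1/10 + 1/40`.  For `l ∈ V`, `wt w x + w l > 1`, so `en T l x = 0`,
`σ_l(x) = 1 - wt w x > 7/8`; so `∑ sl > (7/8) V.card`, a contradiction.
(2) `m ≤ TU.card * k`: a point of `T` which is not in `TU` is `u + e_i`, `u ∈ TU`, `i ∈ V` (the sum of its heavy coordinates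
is `1` as `9/10 + 9/10 > 1`), so `m ≤ TU.card (1 + V.card)`, and `V.card ≤ k - 1`.
(3) Let `V' = {i ∈ V | u + e_i ∈ T for all u ∈ TU}`.  For `i ∈ V \ V'` there is `u ∈ TU` with `en T i u = 0`,
`σ_i(u) = 1 - wt w u > 9/10`; and `sl w T i₀ ≥ (9/10) TU.card`, because the end of the line in direction `i₀` through
`u ∈ TU` is in `TU`.  So `(9/10) ((V \ V').card + TU.card) ≤ ∑ sl < (k - 1) / 60`, and
`V'.card ≥ 2 (k - 1) / 3 - (k - 1) / 54 ≥ 2 (k - 1) / 54 > 2 TU.card - 2`. -/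
def St_Lig : Prop := ∀ (k m : ℕ) (w : Fin k → ℝ) (g : Fin k → ZMod m) (T : Finset (Fin k → ℕ)),
  2 ≤ k → Til m w g T → m ≠ k + 1 → ∑ i, sl w T i < ((k : ℝ) - 1) / 60 →
  (∀ i, 9 / 10 < w i ∨ en T i 0 * w i < 1 / 40) →
  (∀ i, ¬ 9 / 10 < w i → 2 * ((k : ℝ) - 1) < 3 * ((univ.filter fun l => 9 / 10 < w l).card : ℝ)) →
  ∃ (TU : Finset (Fin k → ℕ)) (V' : Finset (Fin k)) (i₀ : Fin k), TU ⊆ T ∧ 0 ∈ TU ∧
    Pi.single i₀ 1 ∈ TU ∧ m ≤ TU.card * k ∧ 2 * TU.card ≤ V'.card + 2 ∧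
    ∀ i ∈ V', Pi.single i 1 ∉ TU ∧ ∀ u ∈ TU, u + Pi.single i 1 ∈ T

open Pool.Agent.Helper60.Wilf Pool.Agent.Helper82.Wilf

/-- **WLL.**  PROOF.  Let `M = c + m - 1`, `f x = ∑ i, a i * x i`.  `card_left`:
`n = (elF S 0 c).card = ∑ s ∈ insert 0 (A0 S c m), lam c m s = ∑ x ∈ T, (M - f x) / m` (natural division), and `f x ≤ M` on `T`
(`mem_ins`).  Let `W` be the maximum of `f` on `TU`; `W ≥ a i₀ > m`.  The `Pi.single i 1`, `i ∈ V'`, are in `T \ TU`, and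
`a i + W ≤ M` for `i ∈ V'`; so `n ≥ ∑ u ∈ TU, (M - f u) / m + V'.card * (W / m)`.  `m ((M - f u) / m) ≥ c - f u` (in `ℤ`),
`2 m (W / m) ≥ W` (as `W ≥ m`), `∑ u ∈ TU, f u ≤ (TU.card - 1) W` (`f 0 = 0`).  So
`2 m n ≥ 2 TU.card c - 2 (TU.card - 1) W + V'.card W ≥ 2 TU.card c`, `m n ≥ TU.card c`, and
`m c ≤ TU.card k c < (k + 1) TU.card c ≤ m (k + 1) n`. -/
def St_Wll : Prop := ∀ (S : AddSubmonoid ℕ) (c m k : ℕ) (a : Fin k → ℕ)
  (T TU : Finset (Fin k → ℕ)) (V' : Finset (Fin k)) (i₀ : Fin k), Sg S c m → 0 < c →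
  (∀ i, m < a i) → (∀ i, Pi.single i 1 ∈ T) →
  (∀ x ∈ T, ∀ y ∈ T, ∑ i, a i * x i = ∑ i, a i * y i → x = y) →
  T.image (fun x => ∑ i, a i * x i) = insert 0 (A0 S c m) →
  TU ⊆ T → 0 ∈ TU → Pi.single i₀ 1 ∈ TU → m ≤ TU.card * k → 2 * TU.card ≤ V'.card + 2 →
  (∀ i ∈ V', Pi.single i 1 ∉ TU ∧ ∀ u ∈ TU, u + Pi.single i 1 ∈ T) →
  c < (k + 1) * (elF S 0 c).card

/-- **MAC** (from `St_SumB`, `St_Cls`, `St_Com`, `St_Top`, `St_Rob`, `St_Lig`, `St_Wll`, `St_Ape`,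
`St_Sel`).  PROOF.  Suppose the contrary, `k + 1 = A.card`, `M = c + m - 1`, `w i = a i / M`, `T` from `St_Ape` (`Til m w g T` as
in `Maq.lean`).  `St_SumB`, `St_Sel`: `2 M ∑ sl = 2 m ((k + 1) n - c) + (k - 1) m (m - 1) ≤ (k - 1) m (m - 1) < (k - 1) M / 30`.  So
`∑ sl < (k - 1) / 60`, and `St_Cls` applies (`m ≠ k + 1`).  In the first case `St_Com` gives
`∑ sl (1 / r) ≤ (5/3) ∑ sl < (k - 1) / 36`, against `St_Top` or `St_Rob`; in the second case use `St_Lig` and `St_Wll`. -/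
def St_Mac : Prop := ∀ (S : AddSubmonoid ℕ) (c m : ℕ) (A : Finset ℕ), Sg S c m →
  (∀ a, a ∈ A ↔ Prim S a) → 3 ≤ A.card → A.card ≠ m → 0 < c → 30 * (m * (m - 1)) < c + m - 1 →
  c < A.card * (elF S 0 c).card

end Pool.Agent.WLF
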