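import Pool.Agent.WLF.StC

/-!
# WLF, fourth part: Wilf's inequality for `(d - 2) (F + m) ≥ 1500 m² log₂ m`

Frozen statements, continuation of `StC.lean` with truncated slacks. Every module
`Pool/Agent/WLF/<X>.lean` imports this file and proves `theorem thm_<X> : St_<X>`, with the
hypotheses named in the docstring. The docstrings contain the proofs.

Plan. `M = F + m`, `μ = m / M`. The ends of the lines in one direction are different modulo `m`, and this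
already accounts for most of Wilf's number: if Wilf's inequality is not strict, the sum of the parts
of the slacks above `m` is at most `m² log₂ m` (`Int`). So the sum `∑ ex μ w T i` of the truncated
slacks is less than `(k - 1) / 200`, and the arguments of `StC.lean` work with truncated slacks.
-/

set_option autoImplicit false

namespace Pool.Agent.WLF

open Finset

/-- the sum of the truncated slacks of the lines in direction `i` -/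
noncomputable def ex {k : ℕ} (μ : ℝ) (w : Fin k → ℝ) (T : Finset (Fin k → ℕ)) (i : Fin k) : ℝ :=
  ∑ x ∈ T, max 0 (1 - wt w (Function.update x i (en T i x)) - μ)

/-- the sum of the truncated slacks of all lines of the plane except the first axis -/
noncomputable def plm (μ α β : ℝ) (A B : ℕ) (C Q : ℕ → ℕ) : ℝ :=
  ∑ a ∈ range (A + 1), ((C a : ℝ) + 1) * max 0 (1 - a * α - C a * β - μ) +
    ∑ h ∈ Icc 1 B, ((Q h : ℝ) + 1) * max 0 (1 - h * β - Q h * α - μ)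

/-- the truncated cost of the plane of `i` and `l` without the axis of `i` -/
noncomputable def pm {k : ℕ} (μ : ℝ) (w : Fin k → ℝ) (T : Finset (Fin k → ℕ)) (i l : Fin k) : ℝ :=
  plm μ (w i) (w l) (en T i 0) (en T l 0) (fun a => en T l (Pi.single i a))
    (fun h => en T i (Pi.single l h))

/-- `l` is a good direction -/
def Gd {k : ℕ} (μ : ℝ) (T : Finset (Fin k → ℕ)) (l : Fin k) : Prop :=
  (en T l 0 : ℝ) ^ 2 * μ ≤ 1 / 100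

/-- **PMA.**  PROOF.  As `St_PlA`.  Every summand of `plm` is `≥ 0`, so each is `< 1/25`.  `δ = 1 - B β ≥ 0`; summand
`a = 0`: `(B + 1) δ < 1/25 + (B + 1) μ ≤ 1/25 + 2 B² μ ≤ 3/50`.  `α ≤ δ` (`leC`, `a = 1`).  Suppose `A α > δ`, let `a ≤ A` be the
smallest number with `a α > δ`, so `a α ≤ 2 δ`, `C a * β < B β`, `t = B - C a ≥ 1`, and the summand of `a` is at least
`(B - t + 1) (t β - δ - μ) ≥ (B - t + 1) t (β - δ - μ) ≥ B (β - δ - μ) = 1 - (B + 1) δ - B μ ≥ 1 - 3/50 - 1/100`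
(`β - δ - μ > 0` by the last inequality), a contradiction.  So `A α ≤ δ < 3/100`.  Summand `h = 1`:
`1 - β - Q 1 α < 1/25 + μ`, `Q 1 ≤ A`, so `β > 1 - 1/25 - 1/100 - 3/100 > 9/10`; `B β ≤ 1` gives `B = 1`. -/
def St_PmA : Prop := ∀ (μ α β : ℝ) (A B : ℕ) (C Q : ℕ → ℕ), 0 ≤ μ → (B : ℝ) ^ 2 * μ ≤ 1 / 100 →
  Pln α β A B C Q → plm μ α β A B C Q < 1 / 25 → C 1 = B → B = 1 ∧ 9 / 10 < β ∧ A * α < 1 / 20

/-- **PMB.**  PROOF.  As `St_PlB`.  `δ = 1 - B β`, `(B + 1) δ < 1/25 + (B + 1) μ`, `B ≥ 2`, so `δ ≤ 1/50`.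
`n = B - C 1 ≥ 2`, `N = C 1 + 1`, `N + n = B + 1`, `s = 1 - α - C 1 β = n β + δ - α`, `N (s - μ) < 1/25`.
(1) `3 β ≤ 2 α`: otherwise `N (s - μ) ≥ N (n - 3/2) β - N μ ≥ B β / 4 - B μ ≥ (49/50) / 4 - 1/100 > 1/25`.
(2) `J = ⌊1 / α⌋₊ ≥ 1`, `J α ≤ 1 < (J + 1) α`, `J α > 1/2`; `h ≥ 1` smallest with `1 - h β < J α`, `h ≤ B`,
`1 - h β ≥ J α - β ≥ (J - 2/3) α`, `q = Q h ≤ J - 1`, `p = J - 1 - q`.  The summand of `h` is at least
`(J - p) ((p + 1/3) α - μ) ≥ J α / 3 - J μ`, and `J μ ≤ μ / α ≤ μ / β ≤ (50/49) B μ ≤ 1/50`; so it is `≥ 1/6 - 1/50 > 1/25`, a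
contradiction. -/
def St_PmB : Prop := ∀ (μ α β : ℝ) (A B : ℕ) (C Q : ℕ → ℕ), 0 ≤ μ → (B : ℝ) ^ 2 * μ ≤ 1 / 100 →
  Pln α β A B C Q → plm μ α β A B C Q < 1 / 25 → ¬ C 1 + 2 ≤ B

/-- **PMC.**  PROOF.  As `St_PlC`.  `δ = 1 - B β`, `(B + 1) (δ - μ) < 1/25`, `s = 1 - α - (B - 1) β`,
`B (s - μ) < 1/25`, `α = β + δ - s`.  If `B = 1`: `μ ≤ 1/100`, `α = 1 - s > 1 - 1/25 - 1/100`, `β = 1 - δ > 1 - 1/50 - 1/100`.
Let `B ≥ 2`: `(B + 1) μ ≤ 3/400`, so `(B + 1) δ < 19/400`, `B s < 19/400`.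
(1) `|α - β| < (19/400) / B ≤ β / 2`, `B α ≤ B β + B δ = 1 + (B - 1) δ < 419/400`.
(2) `s_a = 1 - a α - C a β ≥ 0`; as in `St_PlC`, `s_a + s_(a+1) ≥ |α - β|` for `a < A`; multiply by
`C (a + 1) + 1 ≤ C a + 1` and use `s_a ≤ max 0 (s_a - μ) + μ`: `N |α - β| ≤ 2/25 + 2 μ N`, `N = ∑ 1 ≤ a ≤ A, (C a + 1)`.
(3) `N = ∑ h ≤ B, Q h`, `Q h α > 1 - h β - 1/25 - μ` for `1 ≤ h ≤ B`, `Q 0 = A ≥ Q 1`, so
`α N ≥ (23/50) (B + 1) - 1 / B - 3/400`.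
(4) `(|α - β| - 2 μ) ((23/50) B (B + 1) - 1 - (3/400) B) ≤ (2/25) B α ≤ (2/25) (419/400)` if `|α - β| ≥ 2 μ`, and
`(23/50) B (B + 1) - 1 - (3/400) B ≥ (19/50) B²` for `B ≥ 2`; so `|α - β| - 2 μ ≤ (23/100) / B²`
(`(2/25) (419/400) ≤ (23/100) (19/50)`), and `2 μ ≤ (1/50) / B²`, so `|α - β| ≤ 1 / (4 B²)`.
(5) `B α - 1 = -δ + B (α - β)`: `1 - 3 / (10 B) ≤ B α ≤ 1 + 1 / (4 B)` (`δ ≤ (19/400) / B`), so
`1 / α - B = (1 - B α) / α` is in `[-1/4, (3/10) / (17/20)]`; `1 / β - B = δ / β = B δ / (1 - δ) ≤ 2/5`.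
(6) `A α ≥ Q 1 α ≥ 1 - β - 1/25 - μ ≥ 1/2 - 1/20`. -/
def St_PmC : Prop := ∀ (μ α β : ℝ) (A B : ℕ) (C Q : ℕ → ℕ), 0 ≤ μ → (B : ℝ) ^ 2 * μ ≤ 1 / 100 →
  Pln α β A B C Q → plm μ α β A B C Q < 1 / 25 → C 1 + 1 = B →
  (B = 1 ∧ 9 / 10 < β ∧ 9 / 10 < α) ∨
  (2 ≤ B ∧ |1 / α - B| ≤ 2 / 5 ∧ |1 / β - B| ≤ 2 / 5 ∧ 1 / 4 ≤ A * α)

/-- **PSM** (from `St_Line`).  PROOF.  As `St_Psu` (`Psu.lean`), with the truncated summands, which are
`≥ 0`. -/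
def St_Psm : Prop := ∀ (k m : ℕ) (μ : ℝ) (w : Fin k → ℝ) (g : Fin k → ZMod m)
  (T : Finset (Fin k → ℕ)), Til m w g T → ∀ i : Fin k,
  ∑ l ∈ univ.erase i, pm μ w T i l ≤ ∑ j, ex μ w T j

/-- **ZPL** (from `St_Pln`).  PROOF.  `0` and the `e_i` are in `T`, so `k + 1 ≤ m` and `μ ≤ 1/3000`.  Let
`A = en T i 0`, `B = en T l 0`, `C a = en T l (Pi.single i a)`; `A² > 1 / (100 μ) > 30`, so `A ≥ 6`, and
`A B > 1 / (100 μ)`.  All summands of `pm μ w T i l` are `≥ 0` and `< 1/25`, so `w l C a > 1 - a w i - 1/25 - μ` for `a ≤ A`.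
The number `#` of the points in question is `∑ 1 ≤ a ≤ A, C a` (the points `update (Pi.single i a) l h`,
`1 ≤ h ≤ C a`).  As `A w i ≤ 1`, `B w l ≤ 1`:
`w l # ≥ A (24/25 - μ) - (A + 1) / 2 = A (23/50 - μ) - 1/2 ≥ (3/8 - 1/600) A`, `# ≥ (3/8 - 1/600) A B ≥ (1/300) / μ`. -/
def St_Zpl : Prop := ∀ (k m : ℕ) (μ : ℝ) (w : Fin k → ℝ) (g : Fin k → ZMod m)
  (T : Finset (Fin k → ℕ)), Til m w g T → 0 < μ → 3000 * (m * μ) ≤ (k : ℝ) - 1 →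
  ∀ i l : Fin k, i ≠ l → pm μ w T i l < 1 / 25 → pm μ w T l i < 1 / 25 → ¬ Gd μ T i → ¬ Gd μ T l →
  1 ≤ 300 * μ * ((T.filter fun x => 1 ≤ x i ∧ 1 ≤ x l ∧ ∀ j, j ≠ i → j ≠ l → x j = 0).card : ℝ)

/-- **ZED** (from `St_Psm`, `St_Zpl`).  PROOF.  Call `(i, l)` nice if `i ≠ l`, `pm μ w T i l < 1/25`.  (0) For every `i` the
number `N i` of the `l ≠ i` such that `(i, l)` is not nice is less than `(k - 1) / 8` (`St_Psm`, `pm ≥ 0`).  Let `Z` be the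
set of the `l` which are not good.
(1) `k ≤ 9`: all `N i = 0`, and `Z` has at most one element (two elements: `St_Zpl` gives
`1 ≤ 300 μ m ≤ (k - 1) / 10 < 1`).  So one of `i ≠ i'` is good: second or third alternative.  If `i` is good, take any
`i' ≠ i`; if not, all `l ≠ i` are good and nice, their number is `k - 1`.
(2) `k ≥ 10`: ordered pairs in `Z`: `Z.card (Z.card - 1)` is at most the number of ordered pairs which are not nice or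
whose reversal is not nice, `≤ 2 ∑ N i ≤ k (k - 1) / 4`, plus the number `P` of ordered pairs which are nice in both orders;
`St_Zpl` gives `P ≤ 300 μ ∑ over ordered pairs of #{points with support {i, l}} ≤ 600 μ m ≤ (k - 1) / 5`.  So
`4 Z.card (Z.card - 1) ≤ (k - 1) (k + 1)`, `2 Z.card ≤ k + 1`, and there are at least `(k - 1) / 2` good directions.
For `i ≠ i'` the number of the good `l ∉ {i, i'}` with `(i, l)`, `(i', l)` nice is more than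
`(k - 1) / 2 - 2 - 2 (k - 1) / 8 > 0`.  For every `i` the number of the good `l ≠ i` with `(i, l)` nice is more than
`(k - 1) / 2 - 1 - (k - 1) / 8 ≥ (k - 1) / 4`. -/
def St_Zed : Prop := ∀ (k m : ℕ) (μ : ℝ) (w : Fin k → ℝ) (g : Fin k → ZMod m)
  (T : Finset (Fin k → ℕ)), 2 ≤ k → Til m w g T → 0 < μ → 3000 * (m * μ) ≤ (k : ℝ) - 1 →
  ∑ i, ex μ w T i < ((k : ℝ) - 1) / 200 →
  (∀ i i' : Fin k, i ≠ i' →
    (∃ l, l ≠ i ∧ l ≠ i' ∧ Gd μ T l ∧ pm μ w T i l < 1 / 25 ∧ pm μ w T i' l < 1 / 25) ∨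
    (Gd μ T i' ∧ pm μ w T i i' < 1 / 25) ∨ (Gd μ T i ∧ pm μ w T i' i < 1 / 25)) ∧
  ∀ i : Fin k, (Gd μ T i ∧ ∃ i', i' ≠ i ∧ pm μ w T i' i < 1 / 25) ∨
    ∃ L : Finset (Fin k), (k : ℝ) - 1 ≤ 4 * (L.card : ℝ) ∧
      ∀ l ∈ L, l ≠ i ∧ Gd μ T l ∧ pm μ w T i l < 1 / 25

/-- **CLM** (from `St_PmA`, `St_PmB`, `St_PmC`, `St_Pln`, `St_Zed`).  PROOF.  Let `Near r j`:
`|1 / w j - r| ≤ 2/5 ∧ 1/4 ≤ en T j 0 * w j`, and `HL j`: `9/10 < w j ∨ en T j 0 * w j < 1/20`.  (0) If `l ≠ i` is good and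
`pm μ w T i l < 1/25`, PMA, PMB, PMC (`B = en T l 0`) give (a) `B ≥ 2`, `Near B i`, `Near B l` (`B w l ≥ B / (B + 2/5) ≥ 1/4`),
`B² μ ≤ 1/100`; or (b) `HL i` and `9/10 < w l`.
(1) `Near r j` (`r ≥ 2`) and `HL j` exclude each other (`w j ≤ 5/8`), and `Near r j`, `Near r' j` give `r = r'`.  So by the
first part of `St_Zed` (a path of length one or two), for all `i ≠ i'`: `HL i ∧ HL i'`, or
`Near r i ∧ Near r i'` for some `r ≥ 2` with `r² μ ≤ 1/100`.  Fix `i = 0`: it follows that one `r` works for all `i'`, or that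
`HL` holds for all.
(2) In the second case let `i` be not heavy (`¬ 9/10 < w i`, so `en T i 0 * w i < 1/20`).  The first alternative of the second
part of `St_Zed` is impossible by (0) for `(i', i)` (`9/10 < w i`, or `Near`).  In the second alternative all `l ∈ L` are
heavy ((0) for `(i, l)`; (a) is impossible). -/
def St_Clm : Prop := ∀ (k m : ℕ) (μ : ℝ) (w : Fin k → ℝ) (g : Fin k → ZMod m)
  (T : Finset (Fin k → ℕ)), 2 ≤ k → Til m w g T → 0 < μ → 3000 * (m * μ) ≤ (k : ℝ) - 1 →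
  ∑ i, ex μ w T i < ((k : ℝ) - 1) / 200 →
  (∃ r : ℕ, 2 ≤ r ∧ (r : ℝ) ^ 2 * μ ≤ 1 / 100 ∧ ∀ i, |1 / w i - r| ≤ 2 / 5) ∨
  ((∀ i, 9 / 10 < w i ∨ en T i 0 * w i < 1 / 20) ∧
    ∀ i, ¬ 9 / 10 < w i → (k : ℝ) - 1 ≤ 4 * ((univ.filter fun l => 9 / 10 < w l).card : ℝ))

/-- **CMM** (from `St_Line`).  PROOF.  As `St_Com` (`Com.lean`): if `n = r - ∑ e ≥ 1`, the old slack is at least
`(3/5) n / r` and `μ ≤ (1/100) / r² ≤ (1/100) n / r`, so the truncated slack is at least `(1/2) n / r`. -/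
def St_Cmm : Prop := ∀ (k m r : ℕ) (μ : ℝ) (w : Fin k → ℝ) (g : Fin k → ZMod m)
  (T : Finset (Fin k → ℕ)), 2 ≤ r → 0 ≤ μ → (r : ℝ) ^ 2 * μ ≤ 1 / 100 → Til m w g T →
  (∀ i, |1 / w i - r| ≤ 2 / 5) →
  Til m (fun _ => 1 / (r : ℝ)) g T ∧
  ∑ i, sl (fun _ => 1 / (r : ℝ)) T i ≤ 2 * ∑ i, ex μ w T i

/-- **LGM** (from `St_Line`).  PROOF.  As `St_Lig` (`Lig.lean`), with `V`, `U`, `TU`, `V'`, `i₀` as there.  If `i ∈ U`, `w i < 1/20`.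
(1) `wt w x < 1/10` on `TU`: a minimal counterexample has `wt w x < 1/10 + 1/20`, its truncated slack in every
direction `l ∈ V` is at least `1 - 3/20 - 1/100 ≥ 4/5`, so `∑ ex ≥ (4/5) V.card ≥ (k - 1) / 5`, a contradiction.
(2) `m ≤ TU.card (1 + V.card) ≤ TU.card * k`.
(3) `(9/10 - 1/100) ((V \ V').card + TU.card) ≤ ∑ ex < (k - 1) / 200`, so `(V \ V').card + TU.card < (k - 1) / 150` and
`V'.card ≥ (k - 1) / 4 - (k - 1) / 150 ≥ 2 TU.card - 2`. -/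
def St_Lgm : Prop := ∀ (k m : ℕ) (μ : ℝ) (w : Fin k → ℝ) (g : Fin k → ZMod m)
  (T : Finset (Fin k → ℕ)), 2 ≤ k → 0 ≤ μ → μ ≤ 1 / 100 → Til m w g T → m ≠ k + 1 →
  ∑ i, ex μ w T i < ((k : ℝ) - 1) / 200 →
  (∀ i, 9 / 10 < w i ∨ en T i 0 * w i < 1 / 20) →
  (∀ i, ¬ 9 / 10 < w i → (k : ℝ) - 1 ≤ 4 * ((univ.filter fun l => 9 / 10 < w l).card : ℝ)) →
  ∃ (TU : Finset (Fin k → ℕ)) (V' : Finset (Fin k)) (i₀ : Fin k), TU ⊆ T ∧ 0 ∈ TU ∧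
    Pi.single i₀ 1 ∈ TU ∧ m ≤ TU.card * k ∧ 2 * TU.card ≤ V'.card + 2 ∧
    ∀ i ∈ V', Pi.single i 1 ∉ TU ∧ ∀ u ∈ TU, u + Pi.single i 1 ∈ T

open Pool.Agent.Helper60.Wilf Pool.Agent.Helper82.Wilf

/-- **INT** (from `St_Line`, `St_Avg`, `St_Sel`).  PROOF.  `M = c + m - 1`, `f x = ∑ i, a i * x i ≤ M` on `T` (`mem_ins`),
`τ x = M - f x`, `end_i x = update x i (en T i x)`.  `St_Avg` (with `w = a`) and `St_Sel`:
`2 ∑ i, ∑ x ∈ T, τ (end_i x) = 2 k m M - 2 (k + 1) ∑ x ∈ T, f x = 2 m ((k + 1) n - c) + (k - 1) m (m - 1)`, which is at most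
`(k - 1) m (m - 1)`.  For every `i`: `τ = min τ m + (τ - m)` (natural subtraction), and
`∑ x ∈ T, min (τ (end_i x)) m ≥ ∑ x ∈ T, x i = 0, τ (end_i x) % m ≥ L (L - 1) / 2`, `L = #{x ∈ T | x i = 0}`, because the
ends of the lines through the points with `x i = 0` are different points of `T`, so these numbers `τ` are different
modulo `m` (`himg`, `ins_inj`).  `L = m - p i`, `p i = #{x ∈ T | 1 ≤ x i}`, so `L (L - 1) ≥ m (m - 1) - 2 m p i`.  Let `E` be the left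
side of the claim: `(k - 1) m (m - 1) ≥ k m (m - 1) - 2 m ∑ p i + 2 E`, so `E ≤ m ∑ p i`.
`∑ i, p i = ∑ x ∈ T, #{i | 1 ≤ x i}`, and `2 ^ #{i | 1 ≤ x i} ≤ T.card = m` (the box below `x`), so `∑ p i ≤ m log₂ m`. -/
def St_Int : Prop := ∀ (S : AddSubmonoid ℕ) (c m k : ℕ) (a : Fin k → ℕ)
  (T : Finset (Fin k → ℕ)), Sg S c m → 0 < c → (∀ i, m < a i) → T.card = m →
  (∀ x ∈ T, ∀ y : Fin k → ℕ, y ≤ x → y ∈ T) →
  (∀ x ∈ T, ∀ y ∈ T, ∑ i, a i * x i = ∑ i, a i * y i → x = y) →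
  T.image (fun x => ∑ i, a i * x i) = insert 0 (A0 S c m) →
  (k + 1) * (elF S 0 c).card ≤ c →
  ∑ i, ∑ x ∈ T, (c + m - 1 - (∑ j, a j * Function.update x i (en T i x) j) - m) ≤
    m ^ 2 * Nat.log 2 m

/-- **MAD** (from `St_Int`, `St_Clm`, `St_Cmm`, `St_Top`, `St_Rob`, `St_Lgm`, `St_Wll`, `St_Ape`).  PROOF.  Suppose the
contrary; `k + 1 = A.card`, `M = c + m - 1`, `w i = a i / M`, `μ = m / M`, `T` from `St_Ape` (`Til m w g T` as in `Maq.lean`);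
`k + 1 ≤ m` (`0` and the `e_i` are in `T`), so `m ≥ 4`, `Nat.log 2 m ≥ 2`.  `St_Int`:
`M ∑ ex ≤ m² log₂ m ≤ (k - 1) M / 1500`, and `3000 m μ = 3000 m² / M ≤ k - 1`; `μ ≤ 1/100`.  `St_Clm`: in the first case
`St_Cmm` gives `∑ sl (1 / r) ≤ 2 ∑ ex < (k - 1) / 100`, against `St_Top` or `St_Rob`; in the second case use `St_Lgm`,
`St_Wll`. -/
def St_Mad : Prop := ∀ (S : AddSubmonoid ℕ) (c m : ℕ) (A : Finset ℕ), Sg S c m →
  (∀ a, a ∈ A ↔ Prim S a) → 3 ≤ A.card → A.card ≠ m → 0 < c →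
  1500 * (m ^ 2 * Nat.log 2 m) ≤ (A.card - 2) * (c + m - 1) → c < A.card * (elF S 0 c).card

end Pool.Agent.WLF
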